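import Mathlib

/-!
# MP_d14a53_gt (Putman-Wieland): definitions

`IsSurf a b c` says that the group `π` is generated by `a i, b i, c j` with the single relation
`[a 0, b 0] ⋯ [a (g-1), b (g-1)] c 0 ⋯ c (p-1) = 1`.
`Good c N U ρ F` : `F` is a cocycle of `π` with values in the real inner product space `U ⊆ V`, the
normal subgroup `N` of finite index acts trivially, `F` kills powers of peripheral elements, and the
class of `F` has a finite orbit (`fo`).
-/

set_option autoImplicit false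

noncomputable section

namespace Pool.Agent.MP_d14a53_gt_PW

open scoped RealInnerProductSpace

/-- the index type of the standard generators -/
abbrev Gen (g p : ℕ) := Fin g ⊕ Fin g ⊕ Fin p

/-- the relator, in the form used by the frozen statement -/
def relWord (g p : ℕ) : FreeGroup (Gen g p) :=
  (List.ofFn (fun i : Fin g =>
      FreeGroup.of (Sum.inl i : Gen g p) *
      FreeGroup.of (Sum.inr (Sum.inl i) : Gen g p) *
      (FreeGroup.of (Sum.inl i : Gen g p))⁻¹ *
      (FreeGroup.of (Sum.inr (Sum.inl i) : Gen g p))⁻¹)).prod *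
  (List.ofFn (fun j : Fin p =>
      FreeGroup.of (Sum.inr (Sum.inr j) : Gen g p))).prod

/-- `a, b, c` is a standard generating system of the surface group `π` -/
def IsSurf {π : Type*} [Group π] {g p : ℕ} (a b : Fin g → π) (c : Fin p → π) : Prop :=
  ∃ e : PresentedGroup {relWord g p} ≃* π,
    (∀ i, e (PresentedGroup.of (Sum.inl i)) = a i) ∧
    (∀ i, e (PresentedGroup.of (Sum.inr (Sum.inl i))) = b i) ∧
    (∀ j, e (PresentedGroup.of (Sum.inr (Sum.inr j))) = c j)

/-- `[a 0, b 0] ⋯ [a (n-1), b (n-1)]` -/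
def HP {π : Type*} [Group π] {g : ℕ} (a b : Fin g → π) (n : ℕ) : π :=
  ((List.ofFn (fun i : Fin g => a i * b i * (a i)⁻¹ * (b i)⁻¹)).take n).prod

/-- `c 0 ⋯ c (n-1)` -/
def CP {π : Type*} [Group π] {p : ℕ} (c : Fin p → π) (n : ℕ) : π :=
  ((List.ofFn c).take n).prod

/-- the subgroup generated by the handles with index `≥ n` and by all peripheral elements -/
def Rest {π : Type*} [Group π] {g p : ℕ} (a b : Fin g → π) (c : Fin p → π) (n : ℕ) :
    Subgroup π :=
  Subgroup.closure ({x | ∃ i : Fin g, n ≤ (i : ℕ) ∧ (x = a i ∨ x = b i)} ∪ Set.range c)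

/-- the subgroup generated by the handles with index `< n` -/
def Blk {π : Type*} [Group π] {g : ℕ} (a b : Fin g → π) (n : ℕ) : Subgroup π :=
  Subgroup.closure {x | ∃ i : Fin g, (i : ℕ) < n ∧ (x = a i ∨ x = b i)}

/-- automorphisms which respect the conjugacy classes of the peripheral elements -/
def Punc {π : Type*} [Group π] {p : ℕ} (c : Fin p → π) (φ : π ≃* π) : Prop :=
  ∀ j, ∃ x : π, φ (c j) = x * c j * x⁻¹

/-- A cocycle `F : π → U ⊆ V` of the isometric representation `ρ`, with the finite orbit property. -/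
structure Good {π : Type*} [Group π] {p : ℕ} {V : Type*} [NormedAddCommGroup V]
    [InnerProductSpace ℝ V] (c : Fin p → π) (N : Subgroup π) (U : Submodule ℝ V)
    (ρ : π →* (V ≃ₗᵢ[ℝ] V)) (F : π → V) : Prop where
  normal : N.Normal
  fin : N.FiniteIndex
  triv : ∀ n ∈ N, ∀ v ∈ U, ρ n v = v
  stab : ∀ x, ∀ v ∈ U, ρ x v ∈ U
  val : ∀ x, F x ∈ U
  coc : ∀ x y, F (x * y) = F x + ρ x (F y)
  per : ∀ j, ∀ m : ℕ, c j ^ m ∈ N → F (c j ^ m) = 0
  fo : ∀ ψ : π ≃* π, Punc c ψ → (∀ x, x⁻¹ * ψ x ∈ N) →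
    ∃ k : ℕ, 0 < k ∧ ∃ v ∈ U, ∀ x, F ((ψ ^ k) x) = F x + (ρ x v - v)

/-- `F` is principal on the subgroup `H` -/
def PrinOn {π : Type*} [Group π] {V : Type*} [NormedAddCommGroup V] [InnerProductSpace ℝ V]
    (ρ : π →* (V ≃ₗᵢ[ℝ] V)) (F : π → V) (H : Subgroup π) (v : V) : Prop :=
  ∀ x ∈ H, F x = ρ x v - v

/-- the Putman-Wieland property of `K`, in the form of the frozen statement -/
def PW {π : Type*} [Group π] {p : ℕ} (c : Fin p → π) (K : Subgroup π) : Prop :=
  ∀ f : K →* Multiplicative ℚ,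
    (∀ k : K, (∃ x : π, ∃ m : ℤ, ∃ j : Fin p, (k : π) = x * c j ^ m * x⁻¹) → f k = 1) →
    f ≠ 1 →
    Set.Infinite {f' : K → Multiplicative ℚ |
      ∃ φ : π ≃* π, K.map φ.toMonoidHom = K ∧
        (∀ j : Fin p, ∃ x : π, φ (c j) = x * c j * x⁻¹) ∧
        ∀ k k' : K, (k' : π) = φ k → f' k = f k'}

end Pool.Agent.MP_d14a53_gt_PW
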