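import Mathlib
import Pool.Agent.Lib.MP_d14a53_gt_PW.Defs

/-!
# MP_d14a53_gt (Putman-Wieland), module PA1: the products `HP` and `CP`
-/

set_option autoImplicit false

noncomputable section

namespace Pool.Agent.MP_d14a53_gt_PW

open scoped RealInnerProductSpace

namespace PA1

variable {π : Type*} [Group π] {g : ℕ}

/-- the product of the first `n` entries -/
def LP (l : Fin g → π) (n : ℕ) : π := ((List.ofFn l).take n).prod

theorem LP_zero (l : Fin g → π) : LP l 0 = 1 := by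
  simp [LP]

theorem LP_succ (l : Fin g → π) (i : Fin g) : LP l ((i : ℕ) + 1) = LP l i * l i := by
  unfold LP
  rw [List.prod_take_succ _ _ (by simp)]
  simp

theorem LP_succ' (l : Fin g → π) (n : ℕ) (h : n < g) : LP l (n + 1) = LP l n * l ⟨n, h⟩ :=
  LP_succ l ⟨n, h⟩

theorem LP_ge (l : Fin g → π) (n : ℕ) (h : g ≤ n) : LP l (n + 1) = LP l n := by
  unfold LP
  rw [List.take_of_length_le (by simp; omega), List.take_of_length_le (by simp; omega)]

theorem map_LP {H : Type*} [Group H] (φ : π →* H) (l : Fin g → π) (n : ℕ) :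
    φ (LP l n) = LP (fun i => φ (l i)) n := by
  unfold LP
  rw [map_list_prod, List.map_take, List.map_ofFn]
  rfl

theorem LP_congr {l l' : Fin g → π} (n : ℕ) (h : ∀ i : Fin g, (i : ℕ) < n → l i = l' i) :
    LP l n = LP l' n := by
  induction n with
  | zero => rw [LP_zero, LP_zero]
  | succ n ih =>
    have ih' := ih fun i hi => h i (by omega)
    rcases lt_or_ge n g with hn | hn
    · rw [LP_succ' l n hn, LP_succ' l' n hn, ih', h ⟨n, hn⟩ (by simp)]
    · rw [LP_ge l n hn, LP_ge l' n hn, ih']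

theorem LP_diff {l l' : Fin g → π} (n m : ℕ) (hnm : n ≤ m)
    (h : ∀ i : Fin g, n ≤ (i : ℕ) → (i : ℕ) < m → l i = l' i) :
    (LP l n)⁻¹ * LP l m = (LP l' n)⁻¹ * LP l' m := by
  induction m, hnm using Nat.le_induction with
  | base => simp
  | succ m hm ih =>
    have ih' := ih fun i hi hi' => h i hi (by omega)
    rcases lt_or_ge m g with hn | hn
    · rw [LP_succ' l m hn, LP_succ' l' m hn, h ⟨m, hn⟩ hm (by simp), ← mul_assoc, ih', mul_assoc]
    · rw [LP_ge l m hn, LP_ge l' m hn, ih']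

theorem LP_conj {l l' : Fin g → π} (u : π) (n : ℕ)
    (h : ∀ i : Fin g, (i : ℕ) < n → l' i = u * l i * u⁻¹) :
    LP l' n = u * LP l n * u⁻¹ := by
  induction n with
  | zero => rw [LP_zero, LP_zero]; group
  | succ n ih =>
    have ih' := ih fun i hi => h i (by omega)
    rcases lt_or_ge n g with hn | hn
    · rw [LP_succ' l n hn, LP_succ' l' n hn, ih', h ⟨n, hn⟩ (by simp)]
      group
    · rw [LP_ge l n hn, LP_ge l' n hn, ih']

theorem LP_diff_mem (l : Fin g → π) (H : Subgroup π) (n m : ℕ) (hnm : n ≤ m)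
    (h : ∀ i : Fin g, n ≤ (i : ℕ) → (i : ℕ) < m → l i ∈ H) :
    (LP l n)⁻¹ * LP l m ∈ H := by
  induction m, hnm using Nat.le_induction with
  | base => simp [H.one_mem]
  | succ m hm ih =>
    have ih' := ih fun i hi hi' => h i hi (by omega)
    rcases lt_or_ge m g with hn | hn
    · rw [LP_succ' l m hn, ← mul_assoc]
      exact H.mul_mem ih' (h ⟨m, hn⟩ hm (by simp))
    · rw [LP_ge l m hn]
      exact ih'

theorem LP_mem (l : Fin g → π) (H : Subgroup π) (m : ℕ)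
    (h : ∀ i : Fin g, (i : ℕ) < m → l i ∈ H) : LP l m ∈ H := by
  have := LP_diff_mem l H 0 m (Nat.zero_le m) fun i _ hi => h i hi
  rw [LP_zero] at this
  simpa using this

end PA1

variable {π : Type*} [Group π] {g p : ℕ}

theorem HP_zero (a b : Fin g → π) : HP a b 0 = 1 := PA1.LP_zero _

theorem HP_succ (a b : Fin g → π) (i : Fin g) :
    HP a b ((i : ℕ) + 1) = HP a b i * (a i * b i * (a i)⁻¹ * (b i)⁻¹) :=
  PA1.LP_succ (fun i : Fin g => a i * b i * (a i)⁻¹ * (b i)⁻¹) i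

theorem CP_zero (c : Fin p → π) : CP c 0 = 1 := PA1.LP_zero _

theorem CP_succ (c : Fin p → π) (j : Fin p) : CP c ((j : ℕ) + 1) = CP c j * c j :=
  PA1.LP_succ c j

theorem map_HP {H : Type*} [Group H] (φ : π →* H) (a b : Fin g → π) (n : ℕ) :
    φ (HP a b n) = HP (fun i => φ (a i)) (fun i => φ (b i)) n := by
  have h := PA1.map_LP φ (fun i : Fin g => a i * b i * (a i)⁻¹ * (b i)⁻¹) n
  simp only [map_mul, map_inv] at h
  exact h

theorem map_CP {H : Type*} [Group H] (φ : π →* H) (c : Fin p → π) (n : ℕ) :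
    φ (CP c n) = CP (fun j => φ (c j)) n :=
  PA1.map_LP φ c n

theorem HP_congr {a b a' b' : Fin g → π} (n : ℕ)
    (h : ∀ i : Fin g, (i : ℕ) < n → a i = a' i ∧ b i = b' i) : HP a b n = HP a' b' n :=
  PA1.LP_congr (l := fun i : Fin g => a i * b i * (a i)⁻¹ * (b i)⁻¹)
    (l' := fun i : Fin g => a' i * b' i * (a' i)⁻¹ * (b' i)⁻¹) n fun i hi => by
      simp only [(h i hi).1, (h i hi).2]

theorem CP_congr {c c' : Fin p → π} (n : ℕ) (h : ∀ j : Fin p, (j : ℕ) < n → c j = c' j) :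
    CP c n = CP c' n :=
  PA1.LP_congr n h

theorem HP_diff {a b a' b' : Fin g → π} (n m : ℕ) (hnm : n ≤ m)
    (h : ∀ i : Fin g, n ≤ (i : ℕ) → (i : ℕ) < m → a i = a' i ∧ b i = b' i) :
    (HP a b n)⁻¹ * HP a b m = (HP a' b' n)⁻¹ * HP a' b' m :=
  PA1.LP_diff (l := fun i : Fin g => a i * b i * (a i)⁻¹ * (b i)⁻¹)
    (l' := fun i : Fin g => a' i * b' i * (a' i)⁻¹ * (b' i)⁻¹) n m hnm fun i hi hi' => by
      simp only [(h i hi hi').1, (h i hi hi').2]

theorem CP_diff {c c' : Fin p → π} (n m : ℕ) (hnm : n ≤ m)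
    (h : ∀ j : Fin p, n ≤ (j : ℕ) → (j : ℕ) < m → c j = c' j) :
    (CP c n)⁻¹ * CP c m = (CP c' n)⁻¹ * CP c' m :=
  PA1.LP_diff n m hnm h

theorem HP_conj {a b a' b' : Fin g → π} (u : π) (n : ℕ)
    (h : ∀ i : Fin g, (i : ℕ) < n → a' i = u * a i * u⁻¹ ∧ b' i = u * b i * u⁻¹) :
    HP a' b' n = u * HP a b n * u⁻¹ :=
  PA1.LP_conj (l := fun i : Fin g => a i * b i * (a i)⁻¹ * (b i)⁻¹)
    (l' := fun i : Fin g => a' i * b' i * (a' i)⁻¹ * (b' i)⁻¹) u n fun i hi => by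
      simp only [(h i hi).1, (h i hi).2]
      group

theorem HP_mem_Blk (a b : Fin g → π) (n : ℕ) : HP a b n ∈ Blk a b n := by
  refine PA1.LP_mem (fun i : Fin g => a i * b i * (a i)⁻¹ * (b i)⁻¹) _ n fun i hi => ?_
  have ha : a i ∈ Blk a b n := Subgroup.subset_closure ⟨i, hi, Or.inl rfl⟩
  have hb : b i ∈ Blk a b n := Subgroup.subset_closure ⟨i, hi, Or.inr rfl⟩
  exact Subgroup.mul_mem _ (Subgroup.mul_mem _ (Subgroup.mul_mem _ ha hb)
    (Subgroup.inv_mem _ ha)) (Subgroup.inv_mem _ hb)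

theorem HP_diff_mem_Rest (a b : Fin g → π) (c : Fin p → π) (n m : ℕ) (hnm : n ≤ m) :
    (HP a b n)⁻¹ * HP a b m ∈ Rest a b c n := by
  refine PA1.LP_diff_mem (fun i : Fin g => a i * b i * (a i)⁻¹ * (b i)⁻¹) _ n m hnm
    fun i hi _ => ?_
  have ha : a i ∈ Rest a b c n := Subgroup.subset_closure (Or.inl ⟨i, hi, Or.inl rfl⟩)
  have hb : b i ∈ Rest a b c n := Subgroup.subset_closure (Or.inl ⟨i, hi, Or.inr rfl⟩)
  exact Subgroup.mul_mem _ (Subgroup.mul_mem _ (Subgroup.mul_mem _ ha hb)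
    (Subgroup.inv_mem _ ha)) (Subgroup.inv_mem _ hb)

theorem CP_mem_Rest (a b : Fin g → π) (c : Fin p → π) (n m : ℕ) :
    CP c m ∈ Rest a b c n :=
  PA1.LP_mem c _ m fun i _ => Subgroup.subset_closure (Or.inr ⟨i, rfl⟩)

end Pool.Agent.MP_d14a53_gt_PW
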