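import Mathlib
import Pool.Agent.Lib.MP_d14a53_gt_PW.Defs

/-!
# MP_d14a53_gt (Putman-Wieland), module PA2: universal property of the surface group
-/

set_option autoImplicit false

noncomputable section

namespace Pool.Agent.MP_d14a53_gt_PW

open scoped RealInnerProductSpace

variable {π : Type*} [Group π] {g p : ℕ} {a b : Fin g → π} {c : Fin p → π}

namespace PA2

theorem lift_relWord {H : Type*} [Group H] (a' b' : Fin g → H) (c' : Fin p → H) :
    FreeGroup.lift (Sum.elim a' (Sum.elim b' c') : Gen g p → H) (relWord g p) =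
      HP a' b' g * CP c' p := by
  unfold relWord HP CP
  rw [map_mul, map_list_prod, map_list_prod, List.map_ofFn, List.map_ofFn,
    List.take_of_length_le (by simp), List.take_of_length_le (by simp)]
  congr 2
  · congr 1
    funext i
    simp [Function.comp]
  · congr 1
    funext i
    simp [Function.comp]

end PA2

theorem surf_rel (hs : IsSurf a b c) : HP a b g * CP c p = 1 := by
  obtain ⟨e, ha, hb, hc⟩ := hs
  have h1 : PresentedGroup.mk {relWord g p} (relWord g p) = 1 :=
    PresentedGroup.one_of_mem (Set.mem_singleton _)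
  have h2 : (e.toMonoidHom.comp (PresentedGroup.mk {relWord g p})) =
      FreeGroup.lift (Sum.elim a (Sum.elim b c) : Gen g p → π) := by
    apply FreeGroup.ext_hom
    rintro (i | i | i)
    · rw [FreeGroup.lift_apply_of]
      exact ha i
    · rw [FreeGroup.lift_apply_of]
      exact hb i
    · rw [FreeGroup.lift_apply_of]
      exact hc i
  have h3 := congrArg (fun φ : FreeGroup (Gen g p) →* π => φ (relWord g p)) h2
  simp only [MonoidHom.comp_apply, h1, map_one] at h3
  rw [PA2.lift_relWord] at h3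
  exact h3.symm

theorem surf_lift (hs : IsSurf a b c) {H : Type*} [Group H] (a' b' : Fin g → H) (c' : Fin p → H)
    (hr : HP a' b' g * CP c' p = 1) :
    ∃ φ : π →* H, (∀ i, φ (a i) = a' i) ∧ (∀ i, φ (b i) = b' i) ∧ ∀ j, φ (c j) = c' j := by
  obtain ⟨e, ha, hb, hc⟩ := hs
  have h : ∀ x ∈ ({relWord g p} : Set (FreeGroup (Gen g p))),
      FreeGroup.lift (Sum.elim a' (Sum.elim b' c') : Gen g p → H) x = 1 := by
    intro x hx
    rw [Set.mem_singleton_iff.mp hx, PA2.lift_relWord, hr]
  refine ⟨(PresentedGroup.toGroup h).comp e.symm.toMonoidHom, fun i => ?_, fun i => ?_,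
    fun i => ?_⟩
  · rw [← ha i]; simp
  · rw [← hb i]; simp
  · rw [← hc i]; simp

theorem surf_ext (hs : IsSurf a b c) {H : Type*} [Group H] (φ ψ : π →* H)
    (ha : ∀ i, φ (a i) = ψ (a i)) (hb : ∀ i, φ (b i) = ψ (b i)) (hc : ∀ j, φ (c j) = ψ (c j)) :
    φ = ψ := by
  obtain ⟨e, ha', hb', hc'⟩ := hs
  have h : φ.comp e.toMonoidHom = ψ.comp e.toMonoidHom := by
    apply PresentedGroup.ext
    rintro (i | i | i)
    · simpa [ha' i] using ha i
    · simpa [hb' i] using hb i
    · simpa [hc' i] using hc i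
  ext x
  obtain ⟨y, rfl⟩ := e.surjective x
  exact DFunLike.congr_fun h y

/-- two endomorphisms, inverse to each other on the generators, give an automorphism -/
theorem surf_aut (hs : IsSurf a b c) (φ ψ : π →* π)
    (h1 : (∀ i, ψ (φ (a i)) = a i) ∧ (∀ i, ψ (φ (b i)) = b i) ∧ ∀ j, ψ (φ (c j)) = c j)
    (h2 : (∀ i, φ (ψ (a i)) = a i) ∧ (∀ i, φ (ψ (b i)) = b i) ∧ ∀ j, φ (ψ (c j)) = c j) :
    ∃ Φ : π ≃* π, ∀ x, Φ x = φ x := by
  have e1 : ψ.comp φ = MonoidHom.id π :=
    surf_ext hs _ _ (fun i => h1.1 i) (fun i => h1.2.1 i) (fun i => h1.2.2 i)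
  have e2 : φ.comp ψ = MonoidHom.id π :=
    surf_ext hs _ _ (fun i => h2.1 i) (fun i => h2.2.1 i) (fun i => h2.2.2 i)
  exact ⟨MonoidHom.toMulEquiv φ ψ e1 e2, fun x => rfl⟩

theorem surf_closure (hs : IsSurf a b c) : Rest a b c 0 = ⊤ := by
  obtain ⟨e, ha, hb, hc⟩ := hs
  have h := PresentedGroup.closure_range_of ({relWord g p} : Set (FreeGroup (Gen g p)))
  have h2 : (Subgroup.closure (Set.range
      (PresentedGroup.of : Gen g p → PresentedGroup {relWord g p}))).map e.toMonoidHom = ⊤ := by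
    rw [h]
    rw [← MonoidHom.range_eq_map]
    exact MonoidHom.range_eq_top.mpr e.surjective
  rw [MonoidHom.map_closure] at h2
  rw [eq_top_iff, ← h2]
  apply Subgroup.closure_mono
  rintro _ ⟨_, ⟨i, rfl⟩, rfl⟩
  rcases i with i | i | i
  · left
    exact ⟨i, Nat.zero_le _, Or.inl (by simpa using ha i)⟩
  · left
    exact ⟨i, Nat.zero_le _, Or.inr (by simpa using hb i)⟩
  · right
    exact ⟨i, by simpa using (hc i).symm⟩

theorem Blk_sup_Rest (hs : IsSurf a b c) (n : ℕ) : Blk a b n ⊔ Rest a b c n = ⊤ := by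
  rw [eq_top_iff, ← surf_closure hs]
  unfold Blk Rest
  rw [← Subgroup.closure_union]
  apply Subgroup.closure_mono
  rintro x (⟨i, _, hx⟩ | hx)
  · rcases lt_or_ge (i : ℕ) n with hi | hi
    · left; exact ⟨i, hi, hx⟩
    · right; left; exact ⟨i, hi, hx⟩
  · right; right; exact hx

/-- a new system: the images of the generators satisfy the relation, and the old generators can be
expressed by them -/
theorem isSurf_of (hs : IsSurf a b c) (Φ : π ≃* π) :
    IsSurf (fun i => Φ (a i)) (fun i => Φ (b i)) (fun j => Φ (c j)) := by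
  obtain ⟨e, ha, hb, hc⟩ := hs
  exact ⟨e.trans Φ, fun i => by simp [ha i], fun i => by simp [hb i], fun i => by simp [hc i]⟩

end Pool.Agent.MP_d14a53_gt_PW
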