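import Mathlib
import Pool.Agent.Lib.MP_d14a53_gt_PW.Defs

/-!
# MP_d14a53_gt (Putman-Wieland), module PF: automorphisms respecting punctures
-/

set_option autoImplicit false

noncomputable section

namespace Pool.Agent.MP_d14a53_gt_PW

open scoped RealInnerProductSpace

namespace PF

/-- the generators generate -/
theorem closure_eq_top {π : Type*} [Group π] {g p : ℕ} {a b : Fin g → π} {c : Fin p → π}
    (hs : IsSurf a b c) : Subgroup.closure (Set.range a ∪ Set.range b ∪ Set.range c) = ⊤ := by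
  obtain ⟨e, ha, hb, hc⟩ := hs
  rw [eq_top_iff]
  intro x _
  obtain ⟨y, rfl⟩ := e.surjective x
  have hy : y ∈ Subgroup.closure (Set.range (PresentedGroup.of (rels := {relWord g p}))) := by
    rw [PresentedGroup.closure_range_of]
    trivial
  have h2 : e y ∈ (Subgroup.closure (Set.range (PresentedGroup.of (rels := {relWord g p})))).map
      e.toMonoidHom := ⟨y, hy, rfl⟩
  rw [MonoidHom.map_closure] at h2
  refine Subgroup.closure_mono ?_ h2
  rintro _ ⟨_, ⟨s, rfl⟩, rfl⟩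
  rcases s with i | i | j
  · exact Or.inl (Or.inl ⟨i, (ha i).symm⟩)
  · exact Or.inl (Or.inr ⟨i, (hb i).symm⟩)
  · exact Or.inr ⟨j, (hc j).symm⟩

end PF

section PF
variable {π : Type*} [Group π] {p : ℕ} {c : Fin p → π}

theorem Punc.one : Punc c (MulEquiv.refl π) := by
  intro j
  exact ⟨1, by simp⟩

theorem Punc.trans {φ ψ : π ≃* π} (hφ : Punc c φ) (hψ : Punc c ψ) : Punc c (φ.trans ψ) := by
  intro j
  obtain ⟨x, hx⟩ := hφ j
  obtain ⟨y, hy⟩ := hψ j
  refine ⟨ψ x * y, ?_⟩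
  rw [MulEquiv.trans_apply, hx, map_mul, map_mul, map_inv, hy]
  group

theorem Punc.symm {φ : π ≃* π} (hφ : Punc c φ) : Punc c φ.symm := by
  intro j
  obtain ⟨x, hx⟩ := hφ j
  refine ⟨(φ.symm x)⁻¹, ?_⟩
  have h : c j = φ.symm x * φ.symm (c j) * (φ.symm x)⁻¹ := by
    rw [← map_inv, ← map_mul, ← map_mul, ← hx, MulEquiv.symm_apply_apply]
  calc φ.symm (c j) = (φ.symm x)⁻¹ * (φ.symm x * φ.symm (c j) * (φ.symm x)⁻¹) *
        ((φ.symm x)⁻¹)⁻¹ := by group
    _ = (φ.symm x)⁻¹ * c j * ((φ.symm x)⁻¹)⁻¹ := by rw [← h]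

theorem Punc.conj (x : π) : Punc c (MulAut.conj x) := fun j => ⟨x, MulAut.conj_apply x (c j)⟩

theorem Punc.of_fix {φ : π ≃* π} (h : ∀ j, φ (c j) = c j) : Punc c φ := fun j =>
  ⟨1, by rw [h]; simp⟩

/-- an automorphism which is trivial modulo the normal subgroup `N` on the generators -/
theorem congr_of_gen {g : ℕ} {a b : Fin g → π} (hs : IsSurf a b c) (N : Subgroup π)
    (hN : N.Normal) (φ : π ≃* π) (ha : ∀ i, (a i)⁻¹ * φ (a i) ∈ N)
    (hb : ∀ i, (b i)⁻¹ * φ (b i) ∈ N) (hc : ∀ j, (c j)⁻¹ * φ (c j) ∈ N) (x : π) :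
    x⁻¹ * φ x ∈ N := by
  have hx : x ∈ Subgroup.closure (Set.range a ∪ Set.range b ∪ Set.range c) := by
    rw [PF.closure_eq_top hs]
    trivial
  induction hx using Subgroup.closure_induction with
  | mem x hx =>
    rcases hx with (⟨i, rfl⟩ | ⟨i, rfl⟩) | ⟨j, rfl⟩
    · exact ha i
    · exact hb i
    · exact hc j
  | one => simp
  | mul x y _ _ h1 h2 =>
    have h3 := hN.conj_mem _ h1 y⁻¹
    have h4 : (x * y)⁻¹ * φ (x * y) = y⁻¹ * (x⁻¹ * φ x) * y⁻¹⁻¹ * (y⁻¹ * φ y) := by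
      rw [map_mul]
      group
    rw [h4]
    exact N.mul_mem h3 h2
  | inv x _ h1 =>
    have h3 := N.inv_mem (hN.conj_mem _ h1 x)
    have h4 : x⁻¹⁻¹ * φ x⁻¹ = (x * (x⁻¹ * φ x) * x⁻¹)⁻¹ := by
      rw [map_inv]
      group
    rw [h4]
    exact h3

theorem pow_congr (N : Subgroup π) (hN : N.Normal) (φ : π ≃* π) (h : ∀ x, x⁻¹ * φ x ∈ N)
    (k : ℕ) (x : π) : x⁻¹ * (φ ^ k) x ∈ N := by
  have _ := hN
  induction k generalizing x with
  | zero => simp
  | succ k ih =>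
    have h1 : x⁻¹ * (φ ^ (k + 1)) x = (x⁻¹ * φ x) * ((φ x)⁻¹ * (φ ^ k) (φ x)) := by
      rw [pow_succ, MulAut.mul_apply]
      group
    rw [h1]
    exact N.mul_mem (h x) (ih (φ x))

theorem Punc.pow {φ : π ≃* π} (hφ : Punc c φ) (k : ℕ) : Punc c (φ ^ k) := by
  induction k with
  | zero => exact Punc.one
  | succ k ih =>
    intro j
    obtain ⟨x, hx⟩ := (Punc.trans hφ ih) j
    refine ⟨x, ?_⟩
    rw [pow_succ, MulAut.mul_apply, ← hx, MulEquiv.trans_apply]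

end PF

end Pool.Agent.MP_d14a53_gt_PW
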