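import Mathlib
import Pool.Agent.Lib.MP_d14a53_gt_PW.Defs
import Pool.Agent.Lib.MP_d14a53_gt_PW.Punc

/-!
# MP_d14a53_gt (Putman-Wieland), module PI: basic properties of `Good`
-/

set_option autoImplicit false

noncomputable section

namespace Pool.Agent.MP_d14a53_gt_PW

open scoped RealInnerProductSpace

section PI
variable {π : Type*} [Group π] {p : ℕ} {V : Type*} [NormedAddCommGroup V]
  [InnerProductSpace ℝ V] {c : Fin p → π} {N : Subgroup π} {U : Submodule ℝ V}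
  {ρ : π →* (V ≃ₗᵢ[ℝ] V)} {F : π → V}

theorem PI.rho_mul (ρ : π →* (V ≃ₗᵢ[ℝ] V)) (x y : π) (v : V) : ρ (x * y) v = ρ x (ρ y v) := by
  rw [map_mul]
  rfl

theorem PI.rho_one (ρ : π →* (V ≃ₗᵢ[ℝ] V)) (v : V) : ρ 1 v = v := by
  rw [map_one]
  rfl

theorem PI.rho_inv_self (ρ : π →* (V ≃ₗᵢ[ℝ] V)) (x : π) (v : V) : ρ x⁻¹ (ρ x v) = v := by
  rw [← PI.rho_mul, inv_mul_cancel, PI.rho_one]

theorem PI.rho_self_inv (ρ : π →* (V ≃ₗᵢ[ℝ] V)) (x : π) (v : V) : ρ x (ρ x⁻¹ v) = v := by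
  rw [← PI.rho_mul, mul_inv_cancel, PI.rho_one]

theorem Good.one (h : Good c N U ρ F) : F 1 = 0 := by
  have h1 := h.coc 1 1
  rw [mul_one, PI.rho_one] at h1
  exact left_eq_add.1 h1

theorem Good.inv (h : Good c N U ρ F) (x : π) : F x⁻¹ = -(ρ x⁻¹ (F x)) := by
  have h1 := h.coc x⁻¹ x
  rw [inv_mul_cancel, h.one] at h1
  exact eq_neg_of_add_eq_zero_left h1.symm

theorem Good.pow (h : Good c N U ρ F) (x : π) (m : ℕ) :
    F (x ^ m) = ∑ t ∈ Finset.range m, ρ (x ^ t) (F x) := by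
  induction m with
  | zero => rw [pow_zero, h.one, Finset.range_zero, Finset.sum_empty]
  | succ m ih => rw [pow_succ, h.coc, ih, Finset.sum_range_succ]

/-- elements which act trivially -/
theorem Good.pow_triv (h : Good c N U ρ F) (x : π) (hx : ∀ v ∈ U, ρ x v = v) (m : ℕ) :
    F (x ^ m) = (m : ℝ) • F x := by
  induction m with
  | zero => rw [pow_zero, h.one, Nat.cast_zero, zero_smul]
  | succ m ih =>
    rw [pow_succ', h.coc, ih, hx _ (U.smul_mem _ (h.val x)), Nat.cast_succ, add_smul, one_smul,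
      add_comm]

theorem Good.conj (h : Good c N U ρ F) (x y : π) :
    F (x * y * x⁻¹) = F x + ρ x (F y) - ρ (x * y * x⁻¹) (F x) := by
  rw [h.coc, h.coc, h.inv, map_neg, ← PI.rho_mul, sub_eq_add_neg]

theorem Good.mul_triv (h : Good c N U ρ F) (x y : π) (hy : F y = 0) : F (x * y) = F x := by
  rw [h.coc, hy, map_zero, add_zero]

theorem Good.normalClosure (h : Good c N U ρ F) (S : Set π)
    (hS : ∀ s ∈ S, (∀ v ∈ U, ρ s v = v) ∧ F s = 0) (x : π)
    (hx : x ∈ Subgroup.normalClosure S) : (∀ v ∈ U, ρ x v = v) ∧ F x = 0 := by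
  let H : Subgroup π :=
    { carrier := {y | (∀ v ∈ U, ρ y v = v) ∧ F y = 0}
      mul_mem' := by
        rintro y z ⟨h1, h2⟩ ⟨h3, h4⟩
        refine ⟨fun v hv => ?_, ?_⟩
        · rw [PI.rho_mul, h3 v hv, h1 v hv]
        · rw [h.mul_triv y z h4, h2]
      one_mem' := ⟨fun v _ => PI.rho_one ρ v, h.one⟩
      inv_mem' := by
        rintro y ⟨h1, h2⟩
        refine ⟨fun v hv => ?_, ?_⟩
        · conv_lhs => rw [← h1 v hv]
          exact PI.rho_inv_self ρ y v
        · rw [h.inv, h2, map_zero, neg_zero] }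
  have hH : H.Normal := by
    refine ⟨fun y hy g => ?_⟩
    obtain ⟨h1, h2⟩ := hy
    have h3 : ∀ v ∈ U, ρ (g * y * g⁻¹) v = v := by
      intro v hv
      rw [PI.rho_mul, PI.rho_mul, h1 _ (h.stab g⁻¹ v hv), PI.rho_self_inv]
    refine ⟨h3, ?_⟩
    show F (g * y * g⁻¹) = 0
    rw [h.conj, h2, map_zero, add_zero, h3 _ (h.val g), sub_self]
  exact Subgroup.normalClosure_le_normal (N := H) (fun s hs => hS s hs) hx

theorem Good.comp (h : Good c N U ρ F) (φ : π ≃* π) (hφ : Punc c φ) :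
    Good c (N.comap φ.toMonoidHom) U (ρ.comp φ.toMonoidHom) (fun x => F (φ x)) where
  normal := h.normal.comap _
  fin := by
    refine ⟨?_⟩
    rw [Subgroup.index_comap_of_surjective N (f := φ.toMonoidHom) φ.surjective]
    exact h.fin.index_ne_zero
  triv n hn v hv := h.triv _ hn v hv
  stab x v hv := h.stab _ v hv
  val x := h.val _
  coc x y := by
    rw [map_mul, h.coc]
    rfl
  per j m hm := by
    obtain ⟨x, hx⟩ := hφ j
    have h1 : φ (c j ^ m) = x * c j ^ m * x⁻¹ := by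
      rw [map_pow, hx, conj_pow]
    have h2 : φ (c j ^ m) ∈ N := hm
    have h3 : c j ^ m ∈ N := by
      have h4 := h.normal.conj_mem _ h2 x⁻¹
      rw [h1] at h4
      have h5 : x⁻¹ * (x * c j ^ m * x⁻¹) * x⁻¹⁻¹ = c j ^ m := by group
      rwa [h5] at h4
    show F (φ (c j ^ m)) = 0
    rw [h1, h.conj, h.per j m h3, map_zero, add_zero, ← h1, h.triv _ h2 _ (h.val x), sub_self]
  fo ψ hψ hN := by
    have hP : Punc c (φ.symm.trans (ψ.trans φ)) := (Punc.symm hφ).trans (hψ.trans hφ)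
    have hT : ∀ x, x⁻¹ * (φ.symm.trans (ψ.trans φ)) x ∈ N := by
      intro x
      have h1 : φ ((φ.symm x)⁻¹ * ψ (φ.symm x)) ∈ N := hN (φ.symm x)
      rwa [map_mul, map_inv, MulEquiv.apply_symm_apply] at h1
    obtain ⟨k, hk, v, hv, hF⟩ := h.fo _ hP hT
    refine ⟨k, hk, v, hv, fun x => ?_⟩
    have h2 : ∀ (m : ℕ) (y : π),
        ((φ.symm.trans (ψ.trans φ) : π ≃* π) ^ m) (φ y) = φ ((ψ ^ m) y) := by
      intro m
      induction m with
      | zero => intro y; rfl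
      | succ m ih =>
        intro y
        rw [pow_succ, pow_succ, MulAut.mul_apply, MulAut.mul_apply, ← ih (ψ y)]
        simp only [MulEquiv.trans_apply, MulEquiv.symm_apply_apply]
    have h3 := hF (φ x)
    rw [h2] at h3
    exact h3

theorem Good.subPrin (h : Good c N U ρ F) (v : V) (hv : v ∈ U) :
    Good c N U ρ (fun x => F x - (ρ x v - v)) where
  normal := h.normal
  fin := h.fin
  triv := h.triv
  stab := h.stab
  val x := U.sub_mem (h.val x) (U.sub_mem (h.stab x v hv) hv)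
  coc x y := by
    show F (x * y) - (ρ (x * y) v - v) = _
    rw [h.coc, PI.rho_mul, map_sub, map_sub]
    abel
  per j m hm := by
    show F (c j ^ m) - (ρ (c j ^ m) v - v) = 0
    rw [h.per j m hm, h.triv _ hm v hv, sub_self, sub_self]
  fo ψ hψ hN := by
    obtain ⟨k, hk, w, hw, hF⟩ := h.fo ψ hψ hN
    refine ⟨k, hk, w, hw, fun x => ?_⟩
    have h1 : ρ ((ψ ^ k) x) v = ρ x v := by
      have h2 := h.triv _ (pow_congr N h.normal ψ hN k x) v hv
      have h3 : (ψ ^ k) x = x * (x⁻¹ * (ψ ^ k) x) := by group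
      rw [h3, PI.rho_mul, h2]
    show F ((ψ ^ k) x) - (ρ ((ψ ^ k) x) v - v) = _
    rw [h1, hF]
    abel

theorem Good.proj (h : Good c N U ρ F) (E : V →ₗ[ℝ] V) (U' : Submodule ℝ V) (hU' : U' ≤ U)
    (hst : ∀ x, ∀ v ∈ U', ρ x v ∈ U') (hE : ∀ x, ∀ v ∈ U, E (ρ x v) = ρ x (E v))
    (hEU : ∀ v ∈ U, E v ∈ U') : Good c N U' ρ (fun x => E (F x)) where
  normal := h.normal
  fin := h.fin
  triv n hn v hv := h.triv n hn v (hU' hv)
  stab := hst
  val x := hEU _ (h.val x)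
  coc x y := by
    show E (F (x * y)) = _
    rw [h.coc, map_add, hE x _ (h.val y)]
  per j m hm := by
    show E (F (c j ^ m)) = 0
    rw [h.per j m hm, map_zero]
  fo ψ hψ hN := by
    obtain ⟨k, hk, w, hw, hF⟩ := h.fo ψ hψ hN
    refine ⟨k, hk, E w, hEU w hw, fun x => ?_⟩
    show E (F ((ψ ^ k) x)) = _
    rw [hF, map_add, map_sub, hE x w hw]

end PI

end Pool.Agent.MP_d14a53_gt_PW
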