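import Mathlib
import Pool.Agent.Lib.MP_d14a53_gt_PW.Defs
import Pool.Agent.Lib.MP_d14a53_gt_PW.GoodB

/-!
# MP_d14a53_gt (Putman-Wieland), module PJ: averaging over finite quotients
-/

set_option autoImplicit false

noncomputable section

namespace Pool.Agent.MP_d14a53_gt_PW

open scoped RealInnerProductSpace

section PJ
variable {π : Type*} [Group π] {p : ℕ} {V : Type*} [NormedAddCommGroup V]
  [InnerProductSpace ℝ V] {c : Fin p → π} {N : Subgroup π} {U : Submodule ℝ V}
  {ρ : π →* (V ≃ₗᵢ[ℝ] V)} {F : π → V}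

omit [NormedAddCommGroup V] [InnerProductSpace ℝ V] in
/-- two elements in the same coset -/
theorem PJ.same_coset {H N : Subgroup π} {f : π → V}
    (hf : ∀ h : H, ∀ m : H, (m : π) ∈ N → f ((h : π) * m) = f h) (x y : H)
    (hxy : (QuotientGroup.mk x : H ⧸ N.subgroupOf H) = QuotientGroup.mk y) : f x = f y := by
  have h1 : x⁻¹ * y ∈ N.subgroupOf H := QuotientGroup.eq.1 hxy
  have h2 := hf x (x⁻¹ * y) (Subgroup.mem_subgroupOf.1 h1)
  have h3 : (x : π) * ((x⁻¹ * y : H) : π) = y := by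
    rw [← Subgroup.coe_mul, mul_inv_cancel_left]
  rw [h3] at h2
  exact h2.symm

omit [InnerProductSpace ℝ V] in
/-- reparametrisation of the sum over representatives -/
theorem PJ.sum_perm {H N : Subgroup π} [Fintype (H ⧸ N.subgroupOf H)] {f : π → V}
    (hf : ∀ h : H, ∀ m : H, (m : π) ∈ N → f ((h : π) * m) = f h)
    (e : (H ⧸ N.subgroupOf H) ≃ (H ⧸ N.subgroupOf H)) (g : H → H)
    (he : ∀ q : H ⧸ N.subgroupOf H, e q = QuotientGroup.mk (g (Quotient.out q))) :
    ∑ q : H ⧸ N.subgroupOf H, f (g (Quotient.out q)) =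
      ∑ q : H ⧸ N.subgroupOf H, f (Quotient.out q : H) := by
  rw [← Equiv.sum_comp e (fun q => f (Quotient.out q : H))]
  refine Finset.sum_congr rfl (fun q _ => ?_)
  refine PJ.same_coset hf _ _ ?_
  rw [← he q]
  exact (QuotientGroup.out_eq' (e q)).symm

omit [InnerProductSpace ℝ V] in
/-- left translation -/
theorem PJ.sum_left {H N : Subgroup π} [Fintype (H ⧸ N.subgroupOf H)] {f : π → V}
    (hf : ∀ h : H, ∀ m : H, (m : π) ∈ N → f ((h : π) * m) = f h) (x : H) :
    ∑ q : H ⧸ N.subgroupOf H, f ((x : π) * (Quotient.out q : H)) =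
      ∑ q : H ⧸ N.subgroupOf H, f (Quotient.out q : H) := by
  refine PJ.sum_perm hf (MulAction.toPerm x) (fun y => x * y) (fun q => ?_)
  conv_lhs => rw [← QuotientGroup.out_eq' q]
  rfl

theorem PJ.fin_quot (H : Subgroup π) {N : Subgroup π} (hN : N.FiniteIndex) :
    Finite (H ⧸ N.subgroupOf H) := by
  have := hN
  have : (N.subgroupOf H).FiniteIndex := inferInstance
  exact Subgroup.finite_quotient_of_finiteIndex

theorem Good.prin (h : Good c N U ρ F) (H : Subgroup π) (h0 : ∀ x ∈ H, x ∈ N → F x = 0) :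
    ∃ v ∈ U, PrinOn ρ F H v := by
  have : Finite (H ⧸ N.subgroupOf H) := PJ.fin_quot H h.fin
  have : Fintype (H ⧸ N.subgroupOf H) := Fintype.ofFinite _
  have hf : ∀ y : H, ∀ m : H, (m : π) ∈ N → F ((y : π) * m) = F y := fun y m hm =>
    h.mul_triv _ _ (h0 _ m.2 hm)
  set S : V := ∑ q : H ⧸ N.subgroupOf H, F (Quotient.out q : H) with hS
  set n : ℝ := (Fintype.card (H ⧸ N.subgroupOf H) : ℝ) with hn
  have hn0 : n ≠ 0 := by
    rw [hn]
    exact_mod_cast Fintype.card_ne_zero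
  have hSU : S ∈ U := U.sum_mem (fun q _ => h.val _)
  refine ⟨-(n⁻¹ • S), U.neg_mem (U.smul_mem _ hSU), fun x hx => ?_⟩
  have h1 := PJ.sum_left hf (⟨x, hx⟩ : H)
  simp only [h.coc] at h1
  rw [Finset.sum_add_distrib, Finset.sum_const, Finset.card_univ, ← map_sum, ← hS,
    ← Nat.cast_smul_eq_nsmul ℝ, ← hn] at h1
  have h2 : n • F x = S - ρ x S := eq_sub_of_add_eq h1
  have h3 : F x = n⁻¹ • (S - ρ x S) := by
    rw [← h2, smul_smul, inv_mul_cancel₀ hn0, one_smul]
  rw [h3, map_neg, map_smul, smul_sub]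
  abel

theorem Good.exists_proj (h : Good c N U ρ F) (D : Subgroup π) (hD : D.Normal) :
    ∃ E : V →ₗ[ℝ] V, (∀ v ∈ U, E v ∈ U ∧ ∀ d ∈ D, ρ d (E v) = E v) ∧
      (∀ v ∈ U, (∀ d ∈ D, ρ d v = v) → E v = v) ∧
      ∀ x, ∀ v ∈ U, E (ρ x v) = ρ x (E v) := by
  have : Finite (D ⧸ N.subgroupOf D) := PJ.fin_quot D h.fin
  have : Fintype (D ⧸ N.subgroupOf D) := Fintype.ofFinite _
  set n : ℝ := (Fintype.card (D ⧸ N.subgroupOf D) : ℝ) with hn
  have hn0 : n ≠ 0 := by
    rw [hn]
    exact_mod_cast Fintype.card_ne_zero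
  have hf : ∀ v ∈ U, ∀ y : D, ∀ m : D, (m : π) ∈ N →
      (fun d : π => ρ d v) ((y : π) * m) = (fun d : π => ρ d v) y := by
    intro v hv y m hm
    show ρ ((y : π) * m) v = ρ y v
    rw [PI.rho_mul, h.triv _ hm v hv]
  let E : V →ₗ[ℝ] V :=
    n⁻¹ • ∑ q : D ⧸ N.subgroupOf D, (ρ ((Quotient.out q : D) : π)).toLinearEquiv.toLinearMap
  have hE : ∀ v, E v = n⁻¹ • ∑ q : D ⧸ N.subgroupOf D, ρ ((Quotient.out q : D) : π) v := by
    intro v
    show (n⁻¹ • ∑ q : D ⧸ N.subgroupOf D,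
      (ρ ((Quotient.out q : D) : π)).toLinearEquiv.toLinearMap) v = _
    rw [LinearMap.smul_apply, LinearMap.sum_apply]
    rfl
  refine ⟨E, fun v hv => ⟨?_, fun d hd => ?_⟩, fun v _ hinv => ?_, fun x v hv => ?_⟩
  · rw [hE]
    exact U.smul_mem _ (U.sum_mem (fun q _ => h.stab _ v hv))
  · rw [hE, map_smul, map_sum]
    congr 1
    have h1 := PJ.sum_left (f := fun d : π => ρ d v) (hf v hv) (⟨d, hd⟩ : D)
    simp only [PI.rho_mul] at h1
    exact h1
  · rw [hE]
    have h1 : ∑ q : D ⧸ N.subgroupOf D, ρ ((Quotient.out q : D) : π) v = n • v := by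
      have h2 : ∀ q ∈ (Finset.univ : Finset (D ⧸ N.subgroupOf D)),
          ρ ((Quotient.out q : D) : π) v = v := fun q _ => hinv _ (Quotient.out q : D).2
      rw [Finset.sum_congr rfl h2, Finset.sum_const, Finset.card_univ,
        ← Nat.cast_smul_eq_nsmul ℝ]
    rw [h1, smul_smul, inv_mul_cancel₀ hn0, one_smul]
  · rw [hE, hE, map_smul, map_sum]
    congr 1
    -- conjugation by `x⁻¹`
    have hNn := h.normal
    have : (N.subgroupOf D).Normal := inferInstance
    let κ : D ≃* D := (MulAut.conjNormal (x⁻¹) : MulAut D)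
    have hκ : ∀ d : D, ((κ d : D) : π) = x⁻¹ * d * x := by
      intro d
      show ((MulAut.conjNormal (x⁻¹) d : D) : π) = _
      rw [MulAut.conjNormal_apply, inv_inv]
    have hmap : (N.subgroupOf D).map κ.toMonoidHom = N.subgroupOf D := by
      ext d
      constructor
      · rintro ⟨m, hm, rfl⟩
        have hm' : (m : π) ∈ N := hm
        show ((κ m : D) : π) ∈ N
        rw [hκ]
        have := hNn.conj_mem _ hm' x⁻¹
        rwa [inv_inv] at this
      · intro hd
        have hd' : (d : π) ∈ N := hd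
        refine ⟨κ.symm d, ?_, κ.apply_symm_apply d⟩
        show ((κ.symm d : D) : π) ∈ N
        have h1 := hκ (κ.symm d)
        rw [κ.apply_symm_apply] at h1
        have h2 : ((κ.symm d : D) : π) = x * d * x⁻¹ := by
          rw [h1]
          group
        rw [h2]
        exact hNn.conj_mem _ hd' x
    have h1 := PJ.sum_perm (f := fun d : π => ρ d v) (hf v hv) (QuotientGroup.congr _ _ κ hmap).toEquiv κ (fun q => by
      conv_lhs => rw [← QuotientGroup.out_eq' q]
      rfl)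
    have h2 : ∀ q : D ⧸ N.subgroupOf D, ρ ((Quotient.out q : D) : π) (ρ x v) =
        ρ x (ρ ((κ (Quotient.out q) : D) : π) v) := by
      intro q
      rw [hκ, ← PI.rho_mul, ← PI.rho_mul]
      congr 2
      group
    have h3 : ∑ q : D ⧸ N.subgroupOf D, ρ ((κ (Quotient.out q) : D) : π) v =
        ∑ q : D ⧸ N.subgroupOf D, ρ ((Quotient.out q : D) : π) v := h1
    rw [Finset.sum_congr rfl (fun q _ => h2 q), ← map_sum, ← map_sum, h3]

/-- a cocycle which vanishes on generators -/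
theorem Good.prin_closure (h : Good c N U ρ F) (S : Set π) (v : V)
    (hS : ∀ x ∈ S, F x = ρ x v - v) : PrinOn ρ F (Subgroup.closure S) v := by
  intro x hx
  induction hx using Subgroup.closure_induction with
  | mem x hx => exact hS x hx
  | one => rw [h.one, PI.rho_one, sub_self]
  | mul x y _ _ hx hy =>
    rw [h.coc, hx, hy, map_sub, PI.rho_mul]
    abel
  | inv x _ hx =>
    rw [h.inv, hx, map_sub, PI.rho_inv_self]
    abel

end PJ

end Pool.Agent.MP_d14a53_gt_PW
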