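import Mathlib
import Pool.Agent.Lib.MP_d14a53_gt_PW.Lift

/-!
# MP_d14a53_gt (Putman-Wieland), module PB: twist and swap of one handle
-/

set_option autoImplicit false

noncomputable section

namespace Pool.Agent.MP_d14a53_gt_PW

open scoped RealInnerProductSpace

namespace Tw

variable {π : Type*} [Group π] {g p : ℕ}

/-- the products of commutators only depend on the commutators -/
theorem HP_comm {a b a' b' : Fin g → π}
    (h : ∀ i, a' i * b' i * (a' i)⁻¹ * (b' i)⁻¹ = a i * b i * (a i)⁻¹ * (b i)⁻¹) (n : ℕ) :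
    HP a' b' n = HP a b n := by
  unfold HP
  have e : (fun i : Fin g => a' i * b' i * (a' i)⁻¹ * (b' i)⁻¹)
      = fun i : Fin g => a i * b i * (a i)⁻¹ * (b i)⁻¹ := funext h
  rw [e]

variable {a b : Fin g → π} {c : Fin p → π}

/-- changing one handle without changing its commutator -/
theorem lift_one (hs : IsSurf a b c) (i : Fin g) (x y : π)
    (hxy : x * y * x⁻¹ * y⁻¹ = a i * b i * (a i)⁻¹ * (b i)⁻¹) :
    ∃ φ : π →* π, φ (a i) = x ∧ φ (b i) = y ∧
      (∀ l, l ≠ i → φ (a l) = a l ∧ φ (b l) = b l) ∧ ∀ j, φ (c j) = c j := by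
  have hr : HP (Function.update a i x) (Function.update b i y) g * CP c p = 1 := by
    rw [HP_comm (a := a) (b := b)]
    · exact surf_rel hs
    · intro l
      by_cases hl : l = i
      · subst hl
        simpa using hxy
      · simp [Function.update_of_ne hl]
  obtain ⟨φ, h1, h2, h3⟩ := surf_lift hs (Function.update a i x) (Function.update b i y) c hr
  refine ⟨φ, ?_, ?_, ?_, h3⟩
  · rw [h1]; simp
  · rw [h2]; simp
  · intro l hl
    rw [h1, h2]
    simp [Function.update_of_ne hl]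

/-- the automorphism given by two mutually inverse changes of one handle -/
theorem aut_one (hs : IsSurf a b c) (i : Fin g) (x y : π)
    (hxy : x * y * x⁻¹ * y⁻¹ = a i * b i * (a i)⁻¹ * (b i)⁻¹) (x' y' : π)
    (hxy' : x' * y' * x'⁻¹ * y'⁻¹ = a i * b i * (a i)⁻¹ * (b i)⁻¹)
    (h1 : ∀ ψ : π →* π, ψ (a i) = x' → ψ (b i) = y' → ψ x = a i ∧ ψ y = b i)
    (h2 : ∀ ψ : π →* π, ψ (a i) = x → ψ (b i) = y → ψ x' = a i ∧ ψ y' = b i) :
    ∃ φ : π ≃* π, φ (a i) = x ∧ φ (b i) = y ∧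
      (∀ l, l ≠ i → φ (a l) = a l ∧ φ (b l) = b l) ∧ ∀ j, φ (c j) = c j := by
  obtain ⟨φ, f1, f2, f3, f4⟩ := lift_one hs i x y hxy
  obtain ⟨ψ, g1, g2, g3, g4⟩ := lift_one hs i x' y' hxy'
  obtain ⟨k1, k2⟩ := h1 ψ g1 g2
  obtain ⟨m1, m2⟩ := h2 φ f1 f2
  obtain ⟨Φ, hΦ⟩ := surf_aut hs φ ψ
    ⟨fun l => by
        by_cases hl : l = i
        · subst hl; rw [f1, k1]
        · rw [(f3 l hl).1, (g3 l hl).1],
      fun l => by
        by_cases hl : l = i
        · subst hl; rw [f2, k2]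
        · rw [(f3 l hl).2, (g3 l hl).2],
      fun j => by rw [f4, g4]⟩
    ⟨fun l => by
        by_cases hl : l = i
        · subst hl; rw [g1, m1]
        · rw [(g3 l hl).1, (f3 l hl).1],
      fun l => by
        by_cases hl : l = i
        · subst hl; rw [g2, m2]
        · rw [(g3 l hl).2, (f3 l hl).2],
      fun j => by rw [g4, f4]⟩
  refine ⟨Φ, ?_, ?_, ?_, ?_⟩
  · rw [hΦ, f1]
  · rw [hΦ, f2]
  · intro l hl
    rw [hΦ, hΦ]
    exact f3 l hl
  · intro j
    rw [hΦ, f4]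

end Tw

variable {π : Type*} [Group π] {g p : ℕ} {a b : Fin g → π} {c : Fin p → π}

theorem exists_twist (hs : IsSurf a b c) (i : Fin g) (k : ℤ) :
    ∃ φ : π ≃* π, φ (a i) = a i * b i ^ k ∧ φ (b i) = b i ∧
      (∀ l, l ≠ i → φ (a l) = a l ∧ φ (b l) = b l) ∧ ∀ j, φ (c j) = c j := by
  refine Tw.aut_one hs i (a i * b i ^ k) (b i) ?_ (a i * b i ^ (-k)) (b i) ?_ ?_ ?_
  · group
  · group
  · intro ψ h1 h2
    refine ⟨?_, h2⟩
    rw [map_mul, map_zpow, h1, h2]
    group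
  · intro ψ h1 h2
    refine ⟨?_, h2⟩
    rw [map_mul, map_zpow, h1, h2]
    group

theorem exists_swap (hs : IsSurf a b c) (i : Fin g) :
    ∃ φ : π ≃* π, φ (a i) = a i * b i * (a i)⁻¹ ∧ φ (b i) = (a i)⁻¹ ∧
      (∀ l, l ≠ i → φ (a l) = a l ∧ φ (b l) = b l) ∧ ∀ j, φ (c j) = c j := by
  refine Tw.aut_one hs i (a i * b i * (a i)⁻¹) (a i)⁻¹ ?_ (b i)⁻¹ (b i * a i * (b i)⁻¹) ?_ ?_ ?_
  · group
  · group
  · intro ψ h1 h2
    constructor
    · rw [map_mul, map_mul, map_inv, h1, h2]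
      group
    · rw [map_inv, h1]
      group
  · intro ψ h1 h2
    constructor
    · rw [map_inv, h2]
      group
    · rw [map_mul, map_mul, map_inv, h1, h2]
      group

end Pool.Agent.MP_d14a53_gt_PW
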