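import Mathlib
import Pool.Agent.Lib.MP_d14a53_gt_PW.Prod
import Pool.Agent.Lib.MP_d14a53_gt_PW.Lift
import Pool.Agent.Lib.MP_d14a53_gt_PW.Tw
import Pool.Agent.Lib.MP_d14a53_gt_PW.Punc
import Pool.Agent.Lib.MP_d14a53_gt_PW.GoodB

set_option autoImplicit false

/-!
# MP_d14a53_gt (Putman-Wieland), module PK: twists kill simple closed curves
-/

noncomputable section

namespace Pool.Agent.MP_d14a53_gt_PW

open scoped RealInnerProductSpace

section PK
variable {π : Type*} [Group π] {g p : ℕ} {V : Type*} [NormedAddCommGroup V]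
  [InnerProductSpace ℝ V] {a b : Fin g → π} {c : Fin p → π} {N : Subgroup π} {U : Submodule ℝ V}
  {ρ : π →* (V ≃ₗᵢ[ℝ] V)} {F : π → V}

namespace Twist

/-- an element which fixes `v` is an isometry for the pairing with `v` -/
theorem inner_fix {x : π} {v u : V} (hx : ρ x v = v) : ⟪ρ x u, v⟫ = ⟪u, v⟫ := by
  calc ⟪ρ x u, v⟫ = ⟪ρ x u, ρ x v⟫ := by rw [hx]
    _ = ⟪u, v⟫ := LinearIsometryEquiv.inner_map_map _ _ _

theorem rho_mul (ρ : π →* (V ≃ₗᵢ[ℝ] V)) (x y : π) (v : V) : ρ (x * y) v = ρ x (ρ y v) := by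
  rw [map_mul]
  rfl

theorem rho_one (ρ : π →* (V ≃ₗᵢ[ℝ] V)) (v : V) : ρ 1 v = v := by
  rw [map_one]
  rfl

theorem fix_inv {x : π} {v : V} (hx : ρ x v = v) : ρ x⁻¹ v = v := by
  have h1 : ρ x⁻¹ (ρ x v) = v := by
    rw [← rho_mul, inv_mul_cancel, rho_one]
  rwa [hx] at h1

theorem fix_mul {x y : π} {v : V} (hx : ρ x v = v) (hy : ρ y v = v) : ρ (x * y) v = v := by
  rw [rho_mul, hy, hx]

theorem l_mul (h : Good c N U ρ F) {x y : π} {v : V} (hx : ρ x v = v) :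
    ⟪F (x * y), v⟫ = ⟪F x, v⟫ + ⟪F y, v⟫ := by
  rw [h.coc, inner_add_left, inner_fix hx]

theorem l_inv (h : Good c N U ρ F) {x : π} {v : V} (hx : ρ x v = v) :
    ⟪F x⁻¹, v⟫ = -⟪F x, v⟫ := by
  rw [h.inv, inner_neg_left, inner_fix (fix_inv hx)]

theorem l_pow (h : Good c N U ρ F) {x : π} {v : V} (hx : ρ x v = v) (n : ℕ) :
    ρ (x ^ n) v = v ∧ ⟪F (x ^ n), v⟫ = n * ⟪F x, v⟫ := by
  induction n with
  | zero =>
    rw [pow_zero, map_one, h.one, inner_zero_left]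
    exact ⟨rfl, by simp⟩
  | succ n ih =>
    rw [pow_succ]
    refine ⟨fix_mul ih.1 hx, ?_⟩
    rw [l_mul h ih.1, ih.2]
    push_cast
    ring

/-- the elements which fix `v` and whose value is orthogonal to `v` -/
def K0 (h : Good c N U ρ F) (v : V) : Subgroup π where
  carrier := {x | ρ x v = v ∧ ⟪F x, v⟫ = 0}
  mul_mem' := by
    rintro x y ⟨hx, hx'⟩ ⟨hy, hy'⟩
    exact ⟨fix_mul hx hy, by rw [l_mul h hx, hx', hy', add_zero]⟩
  one_mem' := ⟨by rw [map_one]; rfl, by rw [h.one, inner_zero_left]⟩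
  inv_mem' := by
    rintro x ⟨hx, hx'⟩
    exact ⟨fix_inv hx, by rw [l_inv h hx, hx', neg_zero]⟩

theorem mem_K0 (h : Good c N U ρ F) (v : V) (x : π) :
    x ∈ K0 h v ↔ ρ x v = v ∧ ⟪F x, v⟫ = 0 := Iff.rfl

/-- commutators of elements which fix `v` -/
theorem comm_mem (h : Good c N U ρ F) {v : V} {x y : π} (hx : ρ x v = v) (hy : ρ y v = v) :
    x * y * x⁻¹ * y⁻¹ ∈ K0 h v := by
  have hx' := fix_inv hx
  have hy' := fix_inv hy
  have h1 := fix_mul hx hy
  have h2 := fix_mul h1 hx'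
  refine ⟨fix_mul h2 hy', ?_⟩
  rw [l_mul h h2, l_mul h h1, l_mul h hx, l_inv h hx, l_inv h hy]
  ring

/-- peripheral elements which fix `v` -/
theorem per_mem (h : Good c N U ρ F) {v : V} (j : Fin p) (hj : ρ (c j) v = v) :
    c j ∈ K0 h v := by
  refine ⟨hj, ?_⟩
  obtain ⟨M, hM, -, hcM⟩ := Subgroup.exists_pow_mem_of_index_ne_zero h.fin.index_ne_zero (c j)
  have h1 := (l_pow h hj M).2
  rw [h.per j M hcM, inner_zero_left] at h1
  have h2 : (M : ℝ) ≠ 0 := by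
    have : M ≠ 0 := by omega
    exact_mod_cast this
  rcases mul_eq_zero.1 h1.symm with h3 | h3
  · exact absurd h3 h2
  · exact h3

/-- the partial products before the handle `i` -/
theorem HP_mem (h : Good c N U ρ F) {v : V} (i : Fin g)
    (hf : ∀ l, l ≠ i → ρ (a l) v = v ∧ ρ (b l) v = v) (n : ℕ) (hn : n ≤ (i : ℕ)) :
    HP a b n ∈ K0 h v := by
  induction n with
  | zero => rw [HP_zero]; exact (K0 h v).one_mem
  | succ n ih =>
    have hng : n < g := by omega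
    have hne : (⟨n, hng⟩ : Fin g) ≠ i := by
      intro he
      rw [← he] at hn
      simp at hn
    have h1 := HP_succ a b (⟨n, hng⟩ : Fin g)
    simp only at h1
    rw [h1]
    exact (K0 h v).mul_mem (ih (by omega)) (comm_mem h (hf _ hne).1 (hf _ hne).2)

/-- the partial products after the handle `i` -/
theorem HP_mem' (h : Good c N U ρ F) {v : V} (i : Fin g)
    (hf : ∀ l, l ≠ i → ρ (a l) v = v ∧ ρ (b l) v = v) (n : ℕ) (hn : (i : ℕ) + 1 ≤ n)
    (hng : n ≤ g) : (HP a b ((i : ℕ) + 1))⁻¹ * HP a b n ∈ K0 h v := by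
  induction n, hn using Nat.le_induction with
  | base => rw [inv_mul_cancel]; exact (K0 h v).one_mem
  | succ n hn ih =>
    have hng' : n < g := by omega
    have hne : (⟨n, hng'⟩ : Fin g) ≠ i := by
      intro he
      rw [← he] at hn
      simp at hn
    have h1 := HP_succ a b (⟨n, hng'⟩ : Fin g)
    simp only at h1
    rw [h1, ← mul_assoc]
    exact (K0 h v).mul_mem (ih (by omega)) (comm_mem h (hf _ hne).1 (hf _ hne).2)

theorem CP_mem (h : Good c N U ρ F) {v : V} (hf : ∀ j, ρ (c j) v = v) (n : ℕ) (hn : n ≤ p) :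
    CP c n ∈ K0 h v := by
  induction n with
  | zero => rw [CP_zero]; exact (K0 h v).one_mem
  | succ n ih =>
    have hnp : n < p := by omega
    have h1 := CP_succ c (⟨n, hnp⟩ : Fin p)
    simp only at h1
    rw [h1]
    exact (K0 h v).mul_mem (ih (by omega)) (per_mem h _ (hf _))

/-- the powers of the twist -/
theorem psi_pow {ψ : π ≃* π} (i : Fin g) (m : ℕ) (h1 : ψ (a i) = a i * b i ^ (m : ℤ))
    (h2 : ψ (b i) = b i) (h3 : ∀ l, l ≠ i → ψ (a l) = a l ∧ ψ (b l) = b l)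
    (h4 : ∀ j, ψ (c j) = c j) (k : ℕ) :
    (ψ ^ k) (a i) = a i * b i ^ (m * k) ∧ (ψ ^ k) (b i) = b i ∧
      (∀ l, l ≠ i → (ψ ^ k) (a l) = a l ∧ (ψ ^ k) (b l) = b l) ∧ ∀ j, (ψ ^ k) (c j) = c j := by
  induction k with
  | zero =>
    refine ⟨?_, rfl, fun l _ => ⟨rfl, rfl⟩, fun j => rfl⟩
    rw [mul_zero, pow_zero, pow_zero, mul_one]
    rfl
  | succ k ih =>
    obtain ⟨i1, i2, i3, i4⟩ := ih
    have hp : ∀ x, (ψ ^ (k + 1)) x = ψ ((ψ ^ k) x) := by
      intro x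
      rw [pow_succ']
      rfl
    refine ⟨?_, ?_, ?_, ?_⟩
    · rw [hp, i1, map_mul, map_pow, h1, h2, zpow_natCast, mul_assoc, ← pow_add]
      congr 2
      ring
    · rw [hp, i2, h2]
    · intro l hl
      rw [hp, hp, (i3 l hl).1, (i3 l hl).2]
      exact h3 l hl
    · intro j
      rw [hp, i4, h4]

end Twist

open Twist in
theorem Good.twist_b (h : Good c N U ρ F) (hs : IsSurf a b c) (i : Fin g) (m : ℕ)
    (hm : b i ^ m ∈ N) : F (b i ^ m) = 0 := by
  obtain ⟨ψ, h1, h2, h3, h4⟩ := exists_twist hs i (m : ℤ)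
  have hcong : ∀ x, x⁻¹ * ψ x ∈ N := by
    refine congr_of_gen hs N h.normal ψ ?_ ?_ ?_
    · intro l
      by_cases hl : l = i
      · rw [hl, h1, inv_mul_cancel_left, zpow_natCast]
        exact hm
      · rw [(h3 l hl).1, inv_mul_cancel]
        exact N.one_mem
    · intro l
      by_cases hl : l = i
      · rw [hl, h2, inv_mul_cancel]
        exact N.one_mem
      · rw [(h3 l hl).2, inv_mul_cancel]
        exact N.one_mem
    · intro j
      rw [h4, inv_mul_cancel]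
      exact N.one_mem
  obtain ⟨k, hk, v, hv, hF⟩ := h.fo ψ (Punc.of_fix h4) hcong
  obtain ⟨p1, p2, p3, p4⟩ := psi_pow (c := c) i m h1 h2 h3 h4 k
  have hfix : ∀ z, (ψ ^ k) z = z → ρ z v = v := by
    intro z hz
    have h5 := hF z
    rw [hz] at h5
    have h6 : ρ z v - v = 0 := by
      have := congrArg (fun u => u - F z) h5
      simpa using this.symm
    exact sub_eq_zero.1 h6
  have hb : ρ (b i) v = v := hfix _ p2
  have hf : ∀ l, l ≠ i → ρ (a l) v = v ∧ ρ (b l) v = v := fun l hl =>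
    ⟨hfix _ (p3 l hl).1, hfix _ (p3 l hl).2⟩
  have hc : ∀ j, ρ (c j) v = v := fun j => hfix _ (p4 j)
  have haba : ρ (a i * b i * (a i)⁻¹) v = v := by
    refine hfix _ ?_
    rw [map_mul, map_mul, map_inv, p1, p2]
    group
  -- the commutator of the handle
  have hX : a i * b i * (a i)⁻¹ * (b i)⁻¹ ∈ K0 h v := by
    have e1 := HP_mem h i hf i le_rfl
    have e2 := HP_mem' h i hf g (by have := i.2; omega) le_rfl
    have e3 := CP_mem h hc p le_rfl
    have e4 := surf_rel hs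
    have e5 := HP_succ a b i
    have e6 : a i * b i * (a i)⁻¹ * (b i)⁻¹ =
        (HP a b i)⁻¹ * ((HP a b ((i : ℕ) + 1))⁻¹ * HP a b g * CP c p)⁻¹ := by
      have e7 : (HP a b ((i : ℕ) + 1))⁻¹ * HP a b g * CP c p = (HP a b ((i : ℕ) + 1))⁻¹ := by
        rw [mul_assoc, e4, mul_one]
      rw [e7, inv_inv, e5, inv_mul_cancel_left]
    rw [e6]
    exact (K0 h v).mul_mem ((K0 h v).inv_mem e1) ((K0 h v).inv_mem ((K0 h v).mul_mem e2 e3))
  have hl1 : ⟪F (a i * b i * (a i)⁻¹), v⟫ = ⟪F (b i), v⟫ := by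
    have e1 : a i * b i * (a i)⁻¹ = (a i * b i * (a i)⁻¹ * (b i)⁻¹) * b i := by group
    rw [e1, l_mul h hX.1, hX.2, zero_add]
  have hl2 : ⟪F (a i * b i * (a i)⁻¹), v⟫ = ⟪F (b i), ρ (a i)⁻¹ v⟫ := by
    rw [h.conj, inner_sub_left, inner_add_left, inner_fix haba]
    have e1 : ⟪ρ (a i) (F (b i)), v⟫ = ⟪F (b i), ρ (a i)⁻¹ v⟫ := by
      have e2 : v = ρ (a i) (ρ (a i)⁻¹ v) := by
        rw [← rho_mul, mul_inv_cancel, rho_one]
      conv_lhs => rw [e2]
      exact LinearIsometryEquiv.inner_map_map _ _ _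
    rw [e1]
    ring
  -- the value on the power
  have hw : F (b i ^ (m * k)) = v - ρ (a i)⁻¹ v := by
    have e1 := hF (a i)
    rw [p1, h.coc] at e1
    have e2 : ρ (a i) (F (b i ^ (m * k))) = ρ (a i) v - v := add_left_cancel e1
    have e3 := congrArg (ρ (a i)⁻¹) e2
    rw [map_sub, ← rho_mul, ← rho_mul, inv_mul_cancel, rho_one, rho_one] at e3
    exact e3
  have hbw : ρ (b i) (v - ρ (a i)⁻¹ v) = v - ρ (a i)⁻¹ v := by
    rw [map_sub, hb]
    congr 1
    rw [← rho_mul]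
    have e1 : b i * (a i)⁻¹ = (a i)⁻¹ * (a i * b i * (a i)⁻¹) := by group
    rw [e1, rho_mul, haba]
  have hbw' : ∀ t : ℕ, ρ (b i ^ t) (v - ρ (a i)⁻¹ v) = v - ρ (a i)⁻¹ v := by
    intro t
    induction t with
    | zero => rw [pow_zero, map_one]; rfl
    | succ t ih => rw [pow_succ]; exact fix_mul ih hbw
  have hFb : ⟪F (b i), v - ρ (a i)⁻¹ v⟫ = 0 := by
    rw [inner_sub_right, ← hl2, hl1, sub_self]
  have hww : ⟪v - ρ (a i)⁻¹ v, v - ρ (a i)⁻¹ v⟫ = 0 := by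
    have e1 : ⟪F (b i ^ (m * k)), v - ρ (a i)⁻¹ v⟫ = 0 := by
      rw [h.pow, sum_inner]
      refine Finset.sum_eq_zero fun t _ => ?_
      rw [inner_fix (hbw' t), hFb]
    rwa [hw] at e1
  have hw0 : F (b i ^ (m * k)) = 0 := by
    rw [hw]
    exact inner_self_eq_zero.1 hww
  rw [pow_mul, h.pow_triv _ (h.triv _ hm)] at hw0
  rcases smul_eq_zero.1 hw0 with e1 | e1
  · exfalso
    have : k = 0 := by exact_mod_cast e1
    omega
  · exact e1

theorem Good.twist_a (h : Good c N U ρ F) (hs : IsSurf a b c) (i : Fin g) (m : ℕ)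
    (hm : a i ^ m ∈ N) : F (a i ^ m) = 0 := by
  obtain ⟨φ, -, h2, -, h4⟩ := exists_swap hs i
  have h5 : φ (b i ^ m) = (a i ^ m)⁻¹ := by rw [map_pow, h2, inv_pow]
  have h6 := (h.comp φ (Punc.of_fix h4)).twist_b hs i m (by
    show φ (b i ^ m) ∈ N
    rw [h5]
    exact N.inv_mem hm)
  rw [h5, h.inv] at h6
  have h7 : ρ (a i ^ m)⁻¹ (F (a i ^ m)) = 0 := neg_eq_zero.1 h6
  exact (LinearIsometryEquiv.map_eq_zero_iff _).1 h7

theorem Good.scc (h : Good c N U ρ F) (hs : IsSurf a b c) (i : Fin g) (φ : π ≃* π)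
    (hφ : Punc c φ) (m : ℕ) (hm : φ (a i) ^ m ∈ N) : F (φ (a i) ^ m) = 0 := by
  have h6 := (h.comp φ hφ).twist_a hs i m (by
    show φ (a i ^ m) ∈ N
    rw [map_pow]
    exact hm)
  rwa [map_pow] at h6

end PK

end Pool.Agent.MP_d14a53_gt_PW
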