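import Mathlib
import Pool.Agent.Lib.MP_d14a53_gt_PW.Defs

/-!
# MP_d14a53_gt (Putman-Wieland), module PP: the cocycle of a homomorphism with finite orbit
-/

set_option autoImplicit false

noncomputable section

namespace Pool.Agent.MP_d14a53_gt_PW

open scoped RealInnerProductSpace

namespace PP

variable {π : Type} [Group π]

/-- the representative of a coset -/
def sig (K : Subgroup π) (q : π ⧸ K) : π := Quotient.out q

theorem sig_coe (K : Subgroup π) (q : π ⧸ K) : ((sig K q : π) : π ⧸ K) = q :=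
  QuotientGroup.out_eq' q

/-- the permutation representation on the real functions on the cosets -/
def rho (K : Subgroup π) [Fintype (π ⧸ K)] :
    π →* (EuclideanSpace ℝ (π ⧸ K) ≃ₗᵢ[ℝ] EuclideanSpace ℝ (π ⧸ K)) where
  toFun x := LinearIsometryEquiv.piLpCongrLeft 2 ℝ ℝ (MulAction.toPerm x)
  map_one' := by
    ext v q
    simp [LinearIsometryEquiv.piLpCongrLeft_apply]
  map_mul' x y := by
    ext v q
    simp [LinearIsometryEquiv.piLpCongrLeft_apply, mul_smul]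

theorem rho_apply (K : Subgroup π) [Fintype (π ⧸ K)] (x : π) (v : EuclideanSpace ℝ (π ⧸ K))
    (q : π ⧸ K) : rho K x v q = v (x⁻¹ • q) := by
  simp [rho, LinearIsometryEquiv.piLpCongrLeft_apply]

open Classical in
/-- the homomorphism `f` as a real function on `π` -/
def fr (K : Subgroup π) (f : K →* Multiplicative ℚ) (x : π) : ℝ :=
  if h : x ∈ K then ((Multiplicative.toAdd (f ⟨x, h⟩) : ℚ) : ℝ) else 0

theorem fr_of_mem (K : Subgroup π) (f : K →* Multiplicative ℚ) {x : π} (h : x ∈ K) :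
    fr K f x = ((Multiplicative.toAdd (f ⟨x, h⟩) : ℚ) : ℝ) := by
  unfold fr
  rw [dif_pos h]

theorem fr_mul (K : Subgroup π) (f : K →* Multiplicative ℚ) {x y : π} (hx : x ∈ K)
    (hy : y ∈ K) : fr K f (x * y) = fr K f x + fr K f y := by
  rw [fr_of_mem K f hx, fr_of_mem K f hy, fr_of_mem K f (K.mul_mem hx hy)]
  have : (⟨x * y, K.mul_mem hx hy⟩ : K) = ⟨x, hx⟩ * ⟨y, hy⟩ := rfl
  rw [this, map_mul, toAdd_mul]
  push_cast
  rfl

theorem fr_inv (K : Subgroup π) (f : K →* Multiplicative ℚ) {x : π} (hx : x ∈ K) :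
    fr K f x⁻¹ = -fr K f x := by
  rw [fr_of_mem K f hx, fr_of_mem K f (K.inv_mem hx)]
  have : (⟨x⁻¹, K.inv_mem hx⟩ : K) = (⟨x, hx⟩ : K)⁻¹ := rfl
  rw [this, map_inv, toAdd_inv]
  push_cast
  rfl

theorem fr_eq_zero (K : Subgroup π) (f : K →* Multiplicative ℚ) {x : π} (hx : x ∈ K) :
    fr K f x = 0 ↔ f ⟨x, hx⟩ = 1 := by
  rw [fr_of_mem K f hx]
  rw [Rat.cast_eq_zero]
  exact Iff.rfl

/-- the element of `K` belonging to `x` and the coset `q` -/
theorem mem_key (K : Subgroup π) (x : π) (q : π ⧸ K) :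
    (sig K q)⁻¹ * x * sig K (x⁻¹ • q) ∈ K := by
  have h : ((sig K q : π) : π ⧸ K) = ((x * sig K (x⁻¹ • q) : π) : π ⧸ K) := by
    rw [sig_coe, ← smul_eq_mul, ← MulAction.Quotient.smul_mk, sig_coe, smul_inv_smul]
  rw [QuotientGroup.eq] at h
  rwa [mul_assoc]

/-- the cocycle -/
def Fc (K : Subgroup π) (f : K →* Multiplicative ℚ) (x : π) : EuclideanSpace ℝ (π ⧸ K) :=
  WithLp.toLp 2 (fun q => fr K f ((sig K q)⁻¹ * x * sig K (x⁻¹ • q)))

theorem Fc_apply (K : Subgroup π) (f : K →* Multiplicative ℚ) (x : π) (q : π ⧸ K) :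
    Fc K f x q = fr K f ((sig K q)⁻¹ * x * sig K (x⁻¹ • q)) := rfl

theorem core_smul (K : Subgroup π) {n : π} (hn : n ∈ K.normalCore) (q : π ⧸ K) : n • q = q := by
  have h1 : ((sig K q)⁻¹ * n * sig K q) ∈ K := by
    apply K.normalCore_le
    have := (inferInstance : K.normalCore.Normal).conj_mem n hn (sig K q)⁻¹
    simpa using this
  have h : ((sig K q : π) : π ⧸ K) = ((n * sig K q : π) : π ⧸ K) := by
    rw [QuotientGroup.eq]
    rwa [← mul_assoc]
  have h2 : ((n * sig K q : π) : π ⧸ K) = n • ((sig K q : π) : π ⧸ K) := rfl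
  rw [h2, sig_coe] at h
  exact h.symm

theorem Fc_mul (K : Subgroup π) [Fintype (π ⧸ K)] (f : K →* Multiplicative ℚ) (x y : π) :
    Fc K f (x * y) = Fc K f x + rho K x (Fc K f y) := by
  ext q
  rw [PiLp.add_apply, rho_apply, Fc_apply, Fc_apply, Fc_apply]
  rw [← fr_mul K f (mem_key K x q) (mem_key K y (x⁻¹ • q))]
  congr 1
  rw [mul_inv_rev, mul_smul]
  group

/-- powers of an automorphism as iterated maps -/
theorem pow_mem (K : Subgroup π) (ψ : π ≃* π) (h : ∀ x, x⁻¹ * ψ x ∈ K.normalCore) (k : ℕ)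
    (x : π) : x⁻¹ * (ψ ^ k) x ∈ K.normalCore := by
  induction k generalizing x with
  | zero => simp
  | succ k ih =>
    have h1 : x⁻¹ * (ψ ^ (k + 1)) x = (x⁻¹ * ψ x) * ((ψ x)⁻¹ * (ψ ^ k) (ψ x)) := by
      rw [pow_succ, MulAut.mul_apply]
      group
    rw [h1]
    exact K.normalCore.mul_mem (h x) (ih (ψ x))

theorem pow_punc {p : ℕ} (c : Fin p → π) (ψ : π ≃* π) (h : Punc c ψ) (k : ℕ) :
    Punc c (ψ ^ k) := by
  induction k with
  | zero =>
    intro j
    exact ⟨1, by simp⟩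
  | succ k ih =>
    intro j
    obtain ⟨x, hx⟩ := h j
    obtain ⟨y, hy⟩ := ih j
    refine ⟨(ψ ^ k) x * y, ?_⟩
    rw [pow_succ, MulAut.mul_apply, hx, map_mul, map_mul, map_inv, hy]
    group

theorem mem_iff (K : Subgroup π) (ψ : π ≃* π) (h : ∀ x, x⁻¹ * ψ x ∈ K.normalCore) (x : π) :
    ψ x ∈ K ↔ x ∈ K := by
  have h1 := K.normalCore_le (h x)
  constructor
  · intro h2
    have := K.mul_mem h2 (K.inv_mem h1)
    simpa using this
  · intro h2
    have := K.mul_mem h2 h1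
    simpa using this

theorem map_eq (K : Subgroup π) (ψ : π ≃* π) (h : ∀ x, x⁻¹ * ψ x ∈ K.normalCore) :
    K.map ψ.toMonoidHom = K := by
  ext y
  constructor
  · rintro ⟨x, hx, rfl⟩
    exact (mem_iff K ψ h x).2 hx
  · intro hy
    refine ⟨ψ.symm y, ?_, ?_⟩
    · have h2 := (mem_iff K ψ h (ψ.symm y)).1
      rw [MulEquiv.apply_symm_apply] at h2
      exact h2 hy
    · change ψ (ψ.symm y) = y
      exact ψ.apply_symm_apply y

theorem smul_congr (K : Subgroup π) (ψ : π ≃* π) (h : ∀ x, x⁻¹ * ψ x ∈ K.normalCore) (x : π)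
    (q : π ⧸ K) : (ψ x)⁻¹ • q = x⁻¹ • q := by
  have h1 := core_smul K (h x) ((ψ x)⁻¹ • q)
  rw [mul_smul, smul_inv_smul] at h1
  exact h1.symm

/-- an automorphism which preserves `f` changes the cocycle by a coboundary -/
theorem Fc_psi (K : Subgroup π) [Fintype (π ⧸ K)] (f : K →* Multiplicative ℚ) (ψ : π ≃* π)
    (h : ∀ x, x⁻¹ * ψ x ∈ K.normalCore) (hf : ∀ x ∈ K, fr K f (ψ x) = fr K f x) :
    ∃ v : EuclideanSpace ℝ (π ⧸ K), ∀ x, Fc K f (ψ x) = Fc K f x + (rho K x v - v) := by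
  refine ⟨WithLp.toLp 2 (fun q => -fr K f ((sig K q)⁻¹ * ψ (sig K q))), ?_⟩
  intro x
  ext q
  rw [PiLp.add_apply, PiLp.sub_apply, rho_apply, Fc_apply, Fc_apply, smul_congr K ψ h]
  change _ = _ + (-fr K f ((sig K (x⁻¹ • q))⁻¹ * ψ (sig K (x⁻¹ • q))) -
    -fr K f ((sig K q)⁻¹ * ψ (sig K q)))
  have h1 := K.normalCore_le (h (sig K q))
  have h2 := K.normalCore_le (h (sig K (x⁻¹ • q)))
  have h3 := mem_key K x q
  have h4 := (mem_iff K ψ h _).2 h3
  have e : (sig K q)⁻¹ * ψ x * sig K (x⁻¹ • q) =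
      ((sig K q)⁻¹ * ψ (sig K q)) * ψ ((sig K q)⁻¹ * x * sig K (x⁻¹ • q)) *
        ((sig K (x⁻¹ • q))⁻¹ * ψ (sig K (x⁻¹ • q)))⁻¹ := by
    rw [map_mul, map_mul, map_inv]
    group
  rw [e, fr_mul K f (K.mul_mem h1 h4) (K.inv_mem h2), fr_mul K f h1 h4, fr_inv K f h2, hf _ h3]
  ring

end PP

section PP

theorem pw_of_prin {π : Type} [Group π] {p : ℕ} (c : Fin p → π) (K : Subgroup π)
    [Fintype (π ⧸ K)]
    (H : ∀ (ρ : π →* (EuclideanSpace ℝ (π ⧸ K) ≃ₗᵢ[ℝ] EuclideanSpace ℝ (π ⧸ K)))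
      (F : π → EuclideanSpace ℝ (π ⧸ K)), (∀ x v q, ρ x v q = v (x⁻¹ • q)) →
      Good c K.normalCore ⊤ ρ F → ∃ v, PrinOn ρ F ⊤ v) : PW c K := by
  intro f hper hf1
  by_contra hfin
  rw [Set.not_infinite] at hfin
  apply hf1
  have hgood : Good c K.normalCore ⊤ (PP.rho K) (PP.Fc K f) := by
    have hKf : K.FiniteIndex := Subgroup.finiteIndex_of_finite_quotient
    refine ⟨inferInstance, inferInstance, ?_, fun _ _ _ => Submodule.mem_top,
      fun _ => Submodule.mem_top, PP.Fc_mul K f, ?_, ?_⟩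
    · intro n hn v _
      ext q
      rw [PP.rho_apply, PP.core_smul K (K.normalCore.inv_mem hn)]
    · intro j m hm
      ext q
      rw [PP.Fc_apply, PP.core_smul K (K.normalCore.inv_mem hm)]
      have h1 : (PP.sig K q)⁻¹ * c j ^ m * PP.sig K q ∈ K := by
        have := PP.mem_key K (c j ^ m) q
        rwa [PP.core_smul K (K.normalCore.inv_mem hm)] at this
      have h2 := (PP.fr_eq_zero K f h1).2
        (hper ⟨_, h1⟩ ⟨(PP.sig K q)⁻¹, (m : ℤ), j, by simp⟩)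
      rw [h2]
      rfl
    · intro ψ hψ hN
      have hN' := PP.pow_mem K ψ hN
      -- the translates of `f`
      let fk : ℕ → K → Multiplicative ℚ := fun k y =>
        f ⟨(ψ ^ k) y, (PP.mem_iff K (ψ ^ k) (hN' k) y).2 y.2⟩
      have hfk : ∀ k, fk k ∈ {f' : K → Multiplicative ℚ |
          ∃ φ : π ≃* π, K.map φ.toMonoidHom = K ∧
            (∀ j : Fin p, ∃ x : π, φ (c j) = x * c j * x⁻¹) ∧
            ∀ k k' : K, (k' : π) = φ k → f' k = f k'} := by
        intro k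
        refine ⟨ψ ^ k, PP.map_eq K _ (hN' k), PP.pow_punc c ψ hψ k, ?_⟩
        intro y y' hy
        have : (⟨(ψ ^ k) y, (PP.mem_iff K (ψ ^ k) (hN' k) y).2 y.2⟩ : K) = y' :=
          Subtype.ext hy.symm
        change f _ = f y'
        rw [this]
      obtain ⟨i, j, hij, hfij⟩ := hfin.exists_lt_map_eq_of_forall_mem hfk
      refine ⟨j - i, Nat.sub_pos_of_lt hij, ?_⟩
      have key : ∀ x ∈ K, PP.fr K f ((ψ ^ (j - i)) x) = PP.fr K f x := by
        intro x hx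
        have hy : (ψ ^ i).symm x ∈ K := by
          have h2 := (PP.mem_iff K (ψ ^ i) (hN' i) ((ψ ^ i).symm x)).1
          rw [MulEquiv.apply_symm_apply] at h2
          exact h2 hx
        have h3 := congrFun hfij ⟨_, hy⟩
        have e1 : (ψ ^ i) ((ψ ^ i).symm x) = x := (ψ ^ i).apply_symm_apply x
        have e2 : (ψ ^ j) ((ψ ^ i).symm x) = (ψ ^ (j - i)) x := by
          conv_lhs => rw [show j = (j - i) + i by omega]
          rw [pow_add, MulAut.mul_apply, e1]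
        have h4 : f ⟨(ψ ^ i) ((ψ ^ i).symm x), (PP.mem_iff K (ψ ^ i) (hN' i) _).2 hy⟩ =
          f ⟨(ψ ^ j) ((ψ ^ i).symm x), (PP.mem_iff K (ψ ^ j) (hN' j) _).2 hy⟩ := h3
        rw [PP.fr_of_mem K f hx, PP.fr_of_mem K f ((PP.mem_iff K (ψ ^ (j - i)) (hN' _) x).2 hx)]
        congr 2
        simp only [e1, e2] at h4
        exact h4.symm
      obtain ⟨v, hv⟩ := PP.Fc_psi K f (ψ ^ (j - i)) (hN' _) key
      exact ⟨v, Submodule.mem_top, hv⟩
  obtain ⟨v, hv⟩ := H (PP.rho K) (PP.Fc K f) (PP.rho_apply K) hgood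
  ext k
  have h1 := hv k (Subgroup.mem_top _)
  have hk : (k : π)⁻¹ • ((1 : π) : π ⧸ K) = ((1 : π) : π ⧸ K) := by
    change (((k : π)⁻¹ * 1 : π) : π ⧸ K) = ((1 : π) : π ⧸ K)
    rw [QuotientGroup.eq]
    simp
  have hs : PP.sig K ((1 : π) : π ⧸ K) ∈ K := by
    have h2 := PP.sig_coe K ((1 : π) : π ⧸ K)
    rw [QuotientGroup.eq] at h2
    simpa using h2
  have h3 := congrArg (fun w : EuclideanSpace ℝ (π ⧸ K) => w ((1 : π) : π ⧸ K)) h1
  simp only [PiLp.sub_apply] at h3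
  rw [PP.rho_apply, PP.Fc_apply, hk, sub_self,
    PP.fr_mul K f (K.mul_mem (K.inv_mem hs) k.2) hs, PP.fr_mul K f (K.inv_mem hs) k.2,
    PP.fr_inv K f hs] at h3
  have h4 : PP.fr K f (k : π) = 0 := by linarith
  rw [PP.fr_eq_zero K f k.2] at h4
  have h5 : f k = 1 := h4
  rw [h5]
  rfl

end PP

end Pool.Agent.MP_d14a53_gt_PW
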