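import Mathlib
import Pool.Agent.Lib.MP_d14a53_gt_PW.Defs
import Pool.Agent.Lib.MP_d14a53_gt_PW.Prod
import Pool.Agent.Lib.MP_d14a53_gt_PW.Lift

/-!
# MP_d14a53_gt (Putman-Wieland), module PE: pushing one foot of a handle
-/

set_option autoImplicit false

noncomputable section

namespace Pool.Agent.MP_d14a53_gt_PW

open scoped RealInnerProductSpace

namespace PE

variable {π : Type*} [Group π] {g p : ℕ}

/-- changing the handles `i < m` so that the product of the three parts is the same -/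
theorem HP_two (a b a' b' : Fin g → π) (i m : Fin g) (him : i < m) (W : π)
    (hW : W = (HP a b ((i : ℕ) + 1))⁻¹ * HP a b m)
    (hoth : ∀ l, l ≠ i → l ≠ m → a' l = a l ∧ b' l = b l)
    (hrel : (a' i * b' i * (a' i)⁻¹ * (b' i)⁻¹) * W * (a' m * b' m * (a' m)⁻¹ * (b' m)⁻¹) =
      (a i * b i * (a i)⁻¹ * (b i)⁻¹) * W * (a m * b m * (a m)⁻¹ * (b m)⁻¹)) :
    HP a' b' g = HP a b g := by
  have him' : (i : ℕ) < m := him
  have h1 : HP a' b' (i : ℕ) = HP a b i := by
    refine HP_congr _ fun l hl => hoth l ?_ ?_ <;> (rintro rfl; omega)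
  have h2 : HP a' b' ((i : ℕ) + 1) = HP a b i * (a' i * b' i * (a' i)⁻¹ * (b' i)⁻¹) := by
    rw [HP_succ, h1]
  have h3 : (HP a' b' ((i : ℕ) + 1))⁻¹ * HP a' b' m = W := by
    rw [hW]
    refine HP_diff _ _ (by omega) fun l hl hl' => hoth l ?_ ?_ <;> (rintro rfl; omega)
  have h4 : HP a' b' (m : ℕ) = HP a b i * (a' i * b' i * (a' i)⁻¹ * (b' i)⁻¹) * W := by
    rw [← h3, ← h2]; group
  have h5 : HP a' b' ((m : ℕ) + 1) = HP a b i * ((a' i * b' i * (a' i)⁻¹ * (b' i)⁻¹) * W *
      (a' m * b' m * (a' m)⁻¹ * (b' m)⁻¹)) := by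
    rw [HP_succ, h4]; group
  have h6 : HP a b ((m : ℕ) + 1) = HP a b i * ((a i * b i * (a i)⁻¹ * (b i)⁻¹) * W *
      (a m * b m * (a m)⁻¹ * (b m)⁻¹)) := by
    rw [HP_succ, hW, HP_succ]; group
  have h7 : HP a' b' ((m : ℕ) + 1) = HP a b ((m : ℕ) + 1) := by
    rw [h5, h6, hrel]
  have h8 : (HP a' b' ((m : ℕ) + 1))⁻¹ * HP a' b' g = (HP a b ((m : ℕ) + 1))⁻¹ * HP a b g := by
    refine HP_diff _ _ m.isLt fun l hl hl' => hoth l ?_ ?_ <;> (rintro rfl; omega)
  rw [h7] at h8
  exact mul_left_cancel h8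

/-- a homomorphism which fixes the handles between `i` and `m` fixes `W` -/
theorem map_W (a b : Fin g → π) (i m : Fin g) (him : i < m) (W : π)
    (hW : W = (HP a b ((i : ℕ) + 1))⁻¹ * HP a b m) (φ : π →* π)
    (hoth : ∀ l, l ≠ i → l ≠ m → φ (a l) = a l ∧ φ (b l) = b l) : φ W = W := by
  have him' : (i : ℕ) < m := him
  rw [hW, map_mul, map_inv, map_HP, map_HP]
  refine HP_diff _ _ (by omega) fun l hl hl' => hoth l ?_ ?_ <;> (rintro rfl; omega)

/-- the same for a handle and a peripheral element -/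
theorem HP_onec (a b a' b' : Fin g → π) (c c' : Fin p → π) (i : Fin g) (m : Fin p) (W : π)
    (hW : W = (HP a b ((i : ℕ) + 1))⁻¹ * HP a b g * CP c m)
    (hoth : ∀ l, l ≠ i → a' l = a l ∧ b' l = b l)
    (hothc : ∀ l, l ≠ m → c' l = c l)
    (hrel : (a' i * b' i * (a' i)⁻¹ * (b' i)⁻¹) * W * c' m =
      (a i * b i * (a i)⁻¹ * (b i)⁻¹) * W * c m) :
    HP a' b' g * CP c' p = HP a b g * CP c p := by
  have h1 : HP a' b' (i : ℕ) = HP a b i := by
    refine HP_congr _ fun l hl => hoth l ?_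
    rintro rfl; omega
  have h2 : HP a' b' ((i : ℕ) + 1) = HP a b i * (a' i * b' i * (a' i)⁻¹ * (b' i)⁻¹) := by
    rw [HP_succ, h1]
  have h3 : (HP a' b' ((i : ℕ) + 1))⁻¹ * HP a' b' g = (HP a b ((i : ℕ) + 1))⁻¹ * HP a b g := by
    refine HP_diff _ _ i.isLt fun l hl hl' => hoth l ?_
    rintro rfl; omega
  have h3c : CP c' (m : ℕ) = CP c m := by
    refine CP_congr _ fun l hl => hothc l ?_
    rintro rfl; omega
  have h4 : HP a' b' g * CP c' m = HP a b i * (a' i * b' i * (a' i)⁻¹ * (b' i)⁻¹) * W := by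
    rw [h3c, hW, ← h3, ← h2]; group
  have h5 : HP a' b' g * CP c' ((m : ℕ) + 1) =
      HP a b i * ((a' i * b' i * (a' i)⁻¹ * (b' i)⁻¹) * W * c' m) := by
    rw [CP_succ, ← mul_assoc, h4]; group
  have h6 : HP a b g * CP c ((m : ℕ) + 1) =
      HP a b i * ((a i * b i * (a i)⁻¹ * (b i)⁻¹) * W * c m) := by
    rw [CP_succ, hW, HP_succ]; group
  have h7 : HP a' b' g * CP c' ((m : ℕ) + 1) = HP a b g * CP c ((m : ℕ) + 1) := by
    rw [h5, h6, hrel]
  have h8 : (CP c' ((m : ℕ) + 1))⁻¹ * CP c' p = (CP c ((m : ℕ) + 1))⁻¹ * CP c p := by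
    refine CP_diff _ _ m.isLt fun l hl hl' => hothc l ?_
    rintro rfl; omega
  calc HP a' b' g * CP c' p
      = (HP a' b' g * CP c' ((m : ℕ) + 1)) * ((CP c' ((m : ℕ) + 1))⁻¹ * CP c' p) := by group
    _ = (HP a b g * CP c ((m : ℕ) + 1)) * ((CP c ((m : ℕ) + 1))⁻¹ * CP c p) := by rw [h7, h8]
    _ = HP a b g * CP c p := by group

theorem map_Wc (a b : Fin g → π) (c : Fin p → π) (i : Fin g) (m : Fin p) (W : π)
    (hW : W = (HP a b ((i : ℕ) + 1))⁻¹ * HP a b g * CP c m) (φ : π →* π)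
    (hoth : ∀ l, l ≠ i → φ (a l) = a l ∧ φ (b l) = b l)
    (hothc : ∀ l, l ≠ m → φ (c l) = c l) : φ W = W := by
  rw [hW, map_mul, map_mul, map_inv, map_HP, map_HP, map_CP]
  have h3 : (HP (fun l => φ (a l)) (fun l => φ (b l)) ((i : ℕ) + 1))⁻¹ *
      HP (fun l => φ (a l)) (fun l => φ (b l)) g = (HP a b ((i : ℕ) + 1))⁻¹ * HP a b g := by
    refine HP_diff _ _ i.isLt fun l hl hl' => hoth l ?_
    rintro rfl; omega
  have h3c : CP (fun l => φ (c l)) (m : ℕ) = CP c m := by
    refine CP_congr _ fun l hl => hothc l ?_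
    rintro rfl; omega
  rw [h3, h3c]

end PE

section PE
variable {π : Type*} [Group π] {g p : ℕ} {a b : Fin g → π} {c : Fin p → π}

theorem exists_foot (hs : IsSurf a b c) (i m : Fin g) (him : i < m) (W x e : π)
    (hW : W = (HP a b ((i : ℕ) + 1))⁻¹ * HP a b m) (hx : x = W * a m * W⁻¹)
    (he : e = W⁻¹ * (x⁻¹ * b i * x) * W) :
    ∃ φ : π ≃* π, φ (a i) = a i * x ∧ φ (b i) = x⁻¹ * b i * x ∧
      φ (a m) = e * a m * e⁻¹ ∧ φ (b m) = b m * e⁻¹ ∧
      (∀ l, l ≠ i → l ≠ m → φ (a l) = a l ∧ φ (b l) = b l) ∧ ∀ j, φ (c j) = c j := by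
  have him' : i ≠ m := ne_of_lt him
  have hrel := surf_rel hs
  -- the homomorphism
  obtain ⟨φ, hφa, hφb, hφc⟩ := surf_lift hs
    (Function.update (Function.update a i (a i * x)) m (e * a m * e⁻¹))
    (Function.update (Function.update b i (x⁻¹ * b i * x)) m (b m * e⁻¹)) c (by
      rw [PE.HP_two a b _ _ i m him W hW ?_ ?_]
      · exact hrel
      · intro l hl hl'
        simp [Function.update_of_ne, hl, hl']
      · simp only [Function.update_self, Function.update_of_ne him']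
        rw [he, hx]
        group)
  -- its inverse
  obtain ⟨ψ, hψa, hψb, hψc⟩ := surf_lift hs
    (Function.update (Function.update a i (a i * (b i)⁻¹ * x⁻¹ * b i)) m
      ((W⁻¹ * b i * W)⁻¹ * a m * (W⁻¹ * b i * W)))
    (Function.update (Function.update b i ((b i)⁻¹ * x * b i * x⁻¹ * b i)) m
      (b m * (W⁻¹ * b i * W))) c (by
      rw [PE.HP_two a b _ _ i m him W hW ?_ ?_]
      · exact hrel
      · intro l hl hl'
        simp [Function.update_of_ne, hl, hl']
      · simp only [Function.update_self, Function.update_of_ne him']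
        rw [hx]
        group)
  have hφi : φ (a i) = a i * x := by
    rw [hφa]; simp [Function.update_of_ne him']
  have hφi' : φ (b i) = x⁻¹ * b i * x := by
    rw [hφb]; simp [Function.update_of_ne him']
  have hφm : φ (a m) = e * a m * e⁻¹ := by
    rw [hφa]; simp
  have hφm' : φ (b m) = b m * e⁻¹ := by
    rw [hφb]; simp
  have hφo : ∀ l, l ≠ i → l ≠ m → φ (a l) = a l ∧ φ (b l) = b l := by
    intro l hl hl'
    rw [hφa, hφb]
    simp [Function.update_of_ne, hl, hl']
  have hψi : ψ (a i) = a i * (b i)⁻¹ * x⁻¹ * b i := by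
    rw [hψa]; simp [Function.update_of_ne him']
  have hψi' : ψ (b i) = (b i)⁻¹ * x * b i * x⁻¹ * b i := by
    rw [hψb]; simp [Function.update_of_ne him']
  have hψm : ψ (a m) = (W⁻¹ * b i * W)⁻¹ * a m * (W⁻¹ * b i * W) := by
    rw [hψa]; simp
  have hψm' : ψ (b m) = b m * (W⁻¹ * b i * W) := by
    rw [hψb]; simp
  have hψo : ∀ l, l ≠ i → l ≠ m → ψ (a l) = a l ∧ ψ (b l) = b l := by
    intro l hl hl'
    rw [hψa, hψb]
    simp [Function.update_of_ne, hl, hl']
  have hφW : φ W = W := PE.map_W a b i m him W hW φ hφo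
  have hψW : ψ W = W := PE.map_W a b i m him W hW ψ hψo
  clear hW
  obtain ⟨Φ, hΦ⟩ := surf_aut hs φ ψ (by
    refine ⟨fun l => ?_, fun l => ?_, fun j => ?_⟩
    · rcases eq_or_ne l i with rfl | hl
      · rw [hφi, hx]
        simp only [map_mul, map_inv, hψi, hψm, hψW, hx]
        group
      · rcases eq_or_ne l m with rfl | hl'
        · rw [hφm, he, hx]
          simp only [map_mul, map_inv, hψi', hψm, hψW, hx]
          group
        · rw [(hφo l hl hl').1, (hψo l hl hl').1]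
    · rcases eq_or_ne l i with rfl | hl
      · rw [hφi', hx]
        simp only [map_mul, map_inv, hψi', hψm, hψW, hx]
        group
      · rcases eq_or_ne l m with rfl | hl'
        · rw [hφm', he, hx]
          simp only [map_mul, map_inv, hψi', hψm, hψm', hψW, hx]
          group
        · rw [(hφo l hl hl').2, (hψo l hl hl').2]
    · rw [hφc, hψc]) (by
    refine ⟨fun l => ?_, fun l => ?_, fun j => ?_⟩
    · rcases eq_or_ne l i with rfl | hl
      · rw [hψi, hx]
        simp only [map_mul, map_inv, hφi, hφi', hφm, hφW, he, hx]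
        group
      · rcases eq_or_ne l m with rfl | hl'
        · rw [hψm]
          simp only [map_mul, map_inv, hφi', hφm, hφW, he, hx]
          group
        · rw [(hψo l hl hl').1, (hφo l hl hl').1]
    · rcases eq_or_ne l i with rfl | hl
      · rw [hψi', hx]
        simp only [map_mul, map_inv, hφi', hφm, hφW, he, hx]
        group
      · rcases eq_or_ne l m with rfl | hl'
        · rw [hψm']
          simp only [map_mul, map_inv, hφi', hφm', hφW, he, hx]
          group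
        · rw [(hψo l hl hl').2, (hφo l hl hl').2]
    · rw [hψc, hφc])
  exact ⟨Φ, by rw [hΦ, hφi], by rw [hΦ, hφi'], by rw [hΦ, hφm], by rw [hΦ, hφm'],
    fun l hl hl' => by rw [hΦ, hΦ]; exact hφo l hl hl', fun j => by rw [hΦ, hφc]⟩

theorem exists_footc (hs : IsSurf a b c) (i : Fin g) (m : Fin p) (W x e : π)
    (hW : W = (HP a b ((i : ℕ) + 1))⁻¹ * HP a b g * CP c m) (hx : x = W * c m * W⁻¹)
    (he : e = W⁻¹ * (x⁻¹ * b i * x) * W) :
    ∃ φ : π ≃* π, φ (a i) = a i * x ∧ φ (b i) = x⁻¹ * b i * x ∧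
      (∀ l, l ≠ i → φ (a l) = a l ∧ φ (b l) = b l) ∧
      φ (c m) = e * c m * e⁻¹ ∧ ∀ j, j ≠ m → φ (c j) = c j := by
  have hrel := surf_rel hs
  obtain ⟨φ, hφa, hφb, hφc⟩ := surf_lift hs
    (Function.update a i (a i * x)) (Function.update b i (x⁻¹ * b i * x))
    (Function.update c m (e * c m * e⁻¹)) (by
      rw [PE.HP_onec a b _ _ c _ i m W hW ?_ ?_ ?_]
      · exact hrel
      · intro l hl
        simp [Function.update_of_ne, hl]
      · intro l hl
        simp [Function.update_of_ne, hl]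
      · simp only [Function.update_self]
        rw [he, hx]
        group)
  obtain ⟨ψ, hψa, hψb, hψc⟩ := surf_lift hs
    (Function.update a i (a i * (b i)⁻¹ * x⁻¹ * b i))
    (Function.update b i ((b i)⁻¹ * x * b i * x⁻¹ * b i))
    (Function.update c m ((W⁻¹ * b i * W)⁻¹ * c m * (W⁻¹ * b i * W))) (by
      rw [PE.HP_onec a b _ _ c _ i m W hW ?_ ?_ ?_]
      · exact hrel
      · intro l hl
        simp [Function.update_of_ne, hl]
      · intro l hl
        simp [Function.update_of_ne, hl]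
      · simp only [Function.update_self]
        rw [hx]
        group)
  have hφi : φ (a i) = a i * x := by
    rw [hφa]; simp
  have hφi' : φ (b i) = x⁻¹ * b i * x := by
    rw [hφb]; simp
  have hφm : φ (c m) = e * c m * e⁻¹ := by
    rw [hφc]; simp
  have hφo : ∀ l, l ≠ i → φ (a l) = a l ∧ φ (b l) = b l := by
    intro l hl
    rw [hφa, hφb]
    simp [Function.update_of_ne, hl]
  have hφoc : ∀ l, l ≠ m → φ (c l) = c l := by
    intro l hl
    rw [hφc]
    simp [Function.update_of_ne, hl]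
  have hψi : ψ (a i) = a i * (b i)⁻¹ * x⁻¹ * b i := by
    rw [hψa]; simp
  have hψi' : ψ (b i) = (b i)⁻¹ * x * b i * x⁻¹ * b i := by
    rw [hψb]; simp
  have hψm : ψ (c m) = (W⁻¹ * b i * W)⁻¹ * c m * (W⁻¹ * b i * W) := by
    rw [hψc]; simp
  have hψo : ∀ l, l ≠ i → ψ (a l) = a l ∧ ψ (b l) = b l := by
    intro l hl
    rw [hψa, hψb]
    simp [Function.update_of_ne, hl]
  have hψoc : ∀ l, l ≠ m → ψ (c l) = c l := by
    intro l hl
    rw [hψc]
    simp [Function.update_of_ne, hl]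
  have hφW : φ W = W := PE.map_Wc a b c i m W hW φ hφo hφoc
  have hψW : ψ W = W := PE.map_Wc a b c i m W hW ψ hψo hψoc
  clear hW
  obtain ⟨Φ, hΦ⟩ := surf_aut hs φ ψ (by
    refine ⟨fun l => ?_, fun l => ?_, fun j => ?_⟩
    · rcases eq_or_ne l i with rfl | hl
      · rw [hφi, hx]
        simp only [map_mul, map_inv, hψi, hψm, hψW, hx]
        group
      · rw [(hφo l hl).1, (hψo l hl).1]
    · rcases eq_or_ne l i with rfl | hl
      · rw [hφi', hx]
        simp only [map_mul, map_inv, hψi', hψm, hψW, hx]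
        group
      · rw [(hφo l hl).2, (hψo l hl).2]
    · rcases eq_or_ne j m with rfl | hj
      · rw [hφm, he, hx]
        simp only [map_mul, map_inv, hψi', hψm, hψW, hx]
        group
      · rw [hφoc j hj, hψoc j hj]) (by
    refine ⟨fun l => ?_, fun l => ?_, fun j => ?_⟩
    · rcases eq_or_ne l i with rfl | hl
      · rw [hψi, hx]
        simp only [map_mul, map_inv, hφi, hφi', hφm, hφW, he, hx]
        group
      · rw [(hψo l hl).1, (hφo l hl).1]
    · rcases eq_or_ne l i with rfl | hl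
      · rw [hψi', hx]
        simp only [map_mul, map_inv, hφi', hφm, hφW, he, hx]
        group
      · rw [(hψo l hl).2, (hφo l hl).2]
    · rcases eq_or_ne j m with rfl | hj
      · rw [hψm]
        simp only [map_mul, map_inv, hφi', hφm, hφW, he, hx]
        group
      · rw [hψoc j hj, hφoc j hj])
  exact ⟨Φ, by rw [hΦ, hφi], by rw [hΦ, hφi'],
    fun l hl => by rw [hΦ, hΦ]; exact hφo l hl, by rw [hΦ, hφm],
    fun j hj => by rw [hΦ]; exact hφoc j hj⟩

end PE

end Pool.Agent.MP_d14a53_gt_PW
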