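import Mathlib
import Pool.Agent.Lib.MP_d14a53_gt_PW.Prod
import Pool.Agent.Lib.MP_d14a53_gt_PW.Lift

/-!
# MP_d14a53_gt (Putman-Wieland), module PC1: the twist along the curve around the first handles

`exists_sep`: the automorphism conjugating the first `n` handles by their product `HP a b n` and
fixing all the other standard generators.
-/

set_option autoImplicit false

noncomputable section

namespace Pool.Agent.MP_d14a53_gt_PW

open scoped RealInnerProductSpace

namespace Sep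

variable {π : Type*} [Group π] {g p : ℕ} {a b : Fin g → π} {c : Fin p → π}

/-- conjugate the first `n` members of a family by `u` -/
def cj (a : Fin g → π) (n : ℕ) (u : π) (i : Fin g) : π :=
  if (i : ℕ) < n then u * a i * u⁻¹ else a i

theorem cj_lt (a : Fin g → π) (n : ℕ) (u : π) (i : Fin g) (h : (i : ℕ) < n) :
    cj a n u i = u * a i * u⁻¹ := by
  unfold cj
  rw [if_pos h]

theorem cj_ge (a : Fin g → π) (n : ℕ) (u : π) (i : Fin g) (h : n ≤ (i : ℕ)) :
    cj a n u i = a i := by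
  unfold cj
  rw [if_neg (not_lt.mpr h)]

theorem HP_cj_self (a b : Fin g → π) (n : ℕ) (u : π)
    (hu : u * HP a b n * u⁻¹ = HP a b n) : HP (cj a n u) (cj b n u) n = HP a b n := by
  rw [HP_conj (a := a) (b := b) u n (fun i hi => ⟨cj_lt a n u i hi, cj_lt b n u i hi⟩), hu]

theorem HP_cj_top (a b : Fin g → π) (n : ℕ) (hn : n ≤ g) (u : π)
    (hu : u * HP a b n * u⁻¹ = HP a b n) : HP (cj a n u) (cj b n u) g = HP a b g := by
  have h := HP_diff (a := a) (b := b) (a' := cj a n u) (b' := cj b n u) n g hn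
    (fun i hi _ => ⟨(cj_ge a n u i hi).symm, (cj_ge b n u i hi).symm⟩)
  rw [HP_cj_self a b n u hu] at h
  exact (mul_left_cancel h).symm

/-- the endomorphism conjugating the first `n` handles by `u` -/
theorem exists_hom (hs : IsSurf a b c) (n : ℕ) (hn : n ≤ g) (u : π)
    (hu : u * HP a b n * u⁻¹ = HP a b n) :
    ∃ φ : π →* π,
      (∀ i : Fin g, (i : ℕ) < n → φ (a i) = u * a i * u⁻¹ ∧ φ (b i) = u * b i * u⁻¹) ∧
      (∀ i : Fin g, n ≤ (i : ℕ) → φ (a i) = a i ∧ φ (b i) = b i) ∧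
      (∀ j, φ (c j) = c j) ∧ φ (HP a b n) = HP a b n := by
  obtain ⟨φ, h1, h2, h3⟩ := surf_lift hs (cj a n u) (cj b n u) c
    (by rw [HP_cj_top a b n hn u hu]; exact surf_rel hs)
  refine ⟨φ, fun i hi => ?_, fun i hi => ?_, h3, ?_⟩
  · exact ⟨by rw [h1, cj_lt a n u i hi], by rw [h2, cj_lt b n u i hi]⟩
  · exact ⟨by rw [h1, cj_ge a n u i hi], by rw [h2, cj_ge b n u i hi]⟩
  · rw [map_HP φ a b n]
    have hA : (fun i => φ (a i)) = cj a n u := funext h1
    have hB : (fun i => φ (b i)) = cj b n u := funext h2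
    rw [hA, hB, HP_cj_self a b n u hu]

end Sep

variable {π : Type*} [Group π] {g p : ℕ} {a b : Fin g → π} {c : Fin p → π}

theorem exists_sep (hs : IsSurf a b c) (n : ℕ) (hn : n ≤ g) :
    ∃ φ : π ≃* π,
      (∀ i : Fin g, (i : ℕ) < n → φ (a i) = HP a b n * a i * (HP a b n)⁻¹ ∧
        φ (b i) = HP a b n * b i * (HP a b n)⁻¹) ∧
      (∀ i : Fin g, n ≤ (i : ℕ) → φ (a i) = a i ∧ φ (b i) = b i) ∧ ∀ j, φ (c j) = c j := by
  obtain ⟨φ, hφ1, hφ2, hφ3, hφ4⟩ := Sep.exists_hom hs n hn (HP a b n) (by group)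
  obtain ⟨ψ, hψ1, hψ2, hψ3, hψ4⟩ := Sep.exists_hom hs n hn (HP a b n)⁻¹ (by group)
  obtain ⟨Φ, hΦ⟩ := surf_aut hs φ ψ
    ⟨fun i => by
      rcases lt_or_ge (i : ℕ) n with h | h
      · rw [(hφ1 i h).1]
        simp only [map_mul, map_inv, hψ4, (hψ1 i h).1]
        group
      · rw [(hφ2 i h).1, (hψ2 i h).1],
     fun i => by
      rcases lt_or_ge (i : ℕ) n with h | h
      · rw [(hφ1 i h).2]
        simp only [map_mul, map_inv, hψ4, (hψ1 i h).2]
        group
      · rw [(hφ2 i h).2, (hψ2 i h).2],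
     fun j => by rw [hφ3, hψ3]⟩
    ⟨fun i => by
      rcases lt_or_ge (i : ℕ) n with h | h
      · rw [(hψ1 i h).1]
        simp only [map_mul, map_inv, hφ4, (hφ1 i h).1]
        group
      · rw [(hψ2 i h).1, (hφ2 i h).1],
     fun i => by
      rcases lt_or_ge (i : ℕ) n with h | h
      · rw [(hψ1 i h).2]
        simp only [map_mul, map_inv, hφ4, (hφ1 i h).2]
        group
      · rw [(hψ2 i h).2, (hφ2 i h).2],
     fun j => by rw [hψ3, hφ3]⟩
  refine ⟨Φ, fun i hi => ?_, fun i hi => ?_, fun j => ?_⟩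
  · rw [hΦ, hΦ]
    exact hφ1 i hi
  · rw [hΦ, hΦ]
    exact hφ2 i hi
  · rw [hΦ]
    exact hφ3 j

end Pool.Agent.MP_d14a53_gt_PW
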