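import Mathlib
import Pool.Agent.Lib.MP_d14a53_gt_PW.Defs
import Pool.Agent.Lib.MP_d14a53_gt_PW.Prod
import Pool.Agent.Lib.MP_d14a53_gt_PW.Lift
import Pool.Agent.Lib.MP_d14a53_gt_PW.Sep
import Pool.Agent.Lib.MP_d14a53_gt_PW.GoodB

/-!
# MP_d14a53_gt (Putman-Wieland), module PL: `F` vanishes on separating curves in `N`
-/

set_option autoImplicit false

noncomputable section

namespace Pool.Agent.MP_d14a53_gt_PW

open scoped RealInnerProductSpace

namespace PL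

variable {π : Type*} [Group π] {p : ℕ} {V : Type*} [NormedAddCommGroup V]
  [InnerProductSpace ℝ V] {c : Fin p → π} {N : Subgroup π} {U : Submodule ℝ V}
  {ρ : π →* (V ≃ₗᵢ[ℝ] V)} {F : π → V}

theorem pair_mul (h : Good c N U ρ F) (y : V) (z z' : π) (hz : ρ z y = y) :
    ⟪F (z * z'), y⟫ = ⟪F z, y⟫ + ⟪F z', y⟫ := by
  rw [h.coc, inner_add_left]
  congr 1
  conv_lhs => rw [← hz]
  exact LinearIsometryEquiv.inner_map_map _ _ _

theorem stab_mul (y : V) (z z' : π) (hz : ρ z y = y) (hz' : ρ z' y = y) : ρ (z * z') y = y := by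
  rw [PI.rho_mul, hz', hz]

theorem stab_inv (y : V) (z : π) (hz : ρ z y = y) : ρ z⁻¹ y = y := by
  conv_lhs => rw [← hz]
  exact PI.rho_inv_self ρ z y

theorem pair_inv (h : Good c N U ρ F) (y : V) (z : π) (hz : ρ z y = y) :
    ⟪F z⁻¹, y⟫ = -⟪F z, y⟫ := by
  have h1 := pair_mul h y z z⁻¹ hz
  rw [mul_inv_cancel, h.one, inner_zero_left] at h1
  linarith

theorem pair_comm (h : Good c N U ρ F) (y : V) (z w : π) (hz : ρ z y = y) (hw : ρ w y = y) :
    ρ (z * w * z⁻¹ * w⁻¹) y = y ∧ ⟪F (z * w * z⁻¹ * w⁻¹), y⟫ = 0 := by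
  have hzi := stab_inv (ρ := ρ) y z hz
  have hwi := stab_inv (ρ := ρ) y w hw
  have h1 := stab_mul (ρ := ρ) y z w hz hw
  have h2 := stab_mul (ρ := ρ) y (z * w) z⁻¹ h1 hzi
  refine ⟨stab_mul y _ _ h2 hwi, ?_⟩
  rw [pair_mul h y _ _ h2, pair_mul h y _ _ h1, pair_mul h y _ _ hz, pair_inv h y z hz,
    pair_inv h y w hw]
  ring

theorem pair_pow (h : Good c N U ρ F) (y : V) (z : π) (hz : ρ z y = y) (m : ℕ) :
    ⟪F (z ^ m), y⟫ = m * ⟪F z, y⟫ := by
  induction m with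
  | zero => rw [pow_zero, h.one, inner_zero_left, Nat.cast_zero, zero_mul]
  | succ m ih =>
    rw [pow_succ', pair_mul h y _ _ hz, ih, Nat.cast_succ]
    ring

/-- the products of commutators, starting from `HP a b n` -/
theorem pair_HP {g : ℕ} {a b : Fin g → π} (h : Good c N U ρ F) (y : V) (n m : ℕ) (hnm : n ≤ m)
    (hm : m ≤ g) (hst : ∀ i : Fin g, n ≤ (i : ℕ) → (i : ℕ) < m → ρ (a i) y = y ∧ ρ (b i) y = y) :
    ρ ((HP a b n)⁻¹ * HP a b m) y = y ∧ ⟪F ((HP a b n)⁻¹ * HP a b m), y⟫ = 0 := by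
  induction m, hnm using Nat.le_induction with
  | base => rw [inv_mul_cancel, h.one, inner_zero_left]; exact ⟨PI.rho_one ρ y, rfl⟩
  | succ m hm' ih =>
    obtain ⟨ih1, ih2⟩ := ih (by omega) fun i h1 h2 => hst i h1 (by omega)
    have hs := HP_succ a b (⟨m, by omega⟩ : Fin g)
    simp only at hs
    obtain ⟨ha, hb⟩ := hst ⟨m, by omega⟩ hm' (by simp)
    obtain ⟨h1, h2⟩ := pair_comm h y _ _ ha hb
    rw [hs, ← mul_assoc]
    refine ⟨stab_mul y _ _ ih1 h1, ?_⟩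
    rw [pair_mul h y _ _ ih1, ih2, h2, add_zero]

/-- the products of peripheral elements -/
theorem pair_CP (h : Good c N U ρ F) (y : V) (m : ℕ) (hm : m ≤ p)
    (hst : ∀ j, ρ (c j) y = y) (h0 : ∀ j, ⟪F (c j), y⟫ = 0) :
    ρ (CP c m) y = y ∧ ⟪F (CP c m), y⟫ = 0 := by
  induction m with
  | zero => rw [CP_zero, h.one, inner_zero_left]; exact ⟨PI.rho_one ρ y, rfl⟩
  | succ m ih =>
    obtain ⟨ih1, ih2⟩ := ih (by omega)
    have hs := CP_succ c (⟨m, by omega⟩ : Fin p)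
    simp only at hs
    rw [hs]
    refine ⟨stab_mul y _ _ ih1 (hst _), ?_⟩
    rw [pair_mul h y _ _ ih1, ih2, h0, add_zero]

theorem pair_per (h : Good c N U ρ F) (y : V) (j : Fin p) (hst : ρ (c j) y = y) :
    ⟪F (c j), y⟫ = 0 := by
  have hfi := h.fin
  have hno := h.normal
  obtain ⟨M, hM, hmem⟩ : ∃ M : ℕ, 0 < M ∧ c j ^ M ∈ N :=
    ⟨N.index, Nat.pos_of_ne_zero hfi.index_ne_zero, Subgroup.pow_index_mem N (c j)⟩
  have h1 := pair_pow h y (c j) hst M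
  rw [h.per j M hmem, inner_zero_left] at h1
  have h2 : (M : ℝ) ≠ 0 := by exact_mod_cast hM.ne'
  exact (mul_eq_zero.1 h1.symm).resolve_left h2

theorem fix_Rest {g : ℕ} {a b : Fin g → π} (n : ℕ) (φ : π ≃* π)
    (h1 : ∀ i : Fin g, n ≤ (i : ℕ) → φ (a i) = a i ∧ φ (b i) = b i) (h2 : ∀ j, φ (c j) = c j)
    (z : π) (hz : z ∈ Rest a b c n) : φ z = z := by
  unfold Rest at hz
  induction hz using Subgroup.closure_induction with
  | mem x hx =>
    rcases hx with ⟨i, hi, rfl | rfl⟩ | ⟨j, rfl⟩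
    · exact (h1 i hi).1
    · exact (h1 i hi).2
    · exact h2 j
  | one => exact map_one φ
  | mul x y _ _ hx hy => rw [map_mul, hx, hy]
  | inv x _ hx => rw [map_inv, hx]

theorem conj_Blk {g : ℕ} {a b : Fin g → π} (n : ℕ) (φ : π ≃* π) (C : π)
    (h1 : ∀ i : Fin g, (i : ℕ) < n → φ (a i) = C * a i * C⁻¹ ∧ φ (b i) = C * b i * C⁻¹)
    (s : π) (hs : s ∈ Blk a b n) : φ s = C * s * C⁻¹ := by
  unfold Blk at hs
  induction hs using Subgroup.closure_induction with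
  | mem x hx =>
    rcases hx with ⟨i, hi, rfl | rfl⟩
    · exact (h1 i hi).1
    · exact (h1 i hi).2
  | one => rw [map_one]; group
  | mul x y _ _ hx hy => rw [map_mul, hx, hy]; group
  | inv x _ hx => rw [map_inv, hx]; group

theorem pow_fix (φ : π ≃* π) (z : π) (hz : φ z = z) (k : ℕ) : (φ ^ k) z = z := by
  induction k with
  | zero => rfl
  | succ k ih => rw [pow_succ', MulAut.mul_apply, ih, hz]

theorem pow_conj {g : ℕ} {a b : Fin g → π} (n : ℕ) (φ : π ≃* π) (C : π) (hC : C ∈ Blk a b n)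
    (h : ∀ s ∈ Blk a b n, φ s = C * s * C⁻¹) (s : π) (hs : s ∈ Blk a b n) (k : ℕ) :
    (φ ^ k) s = C ^ k * s * (C ^ k)⁻¹ := by
  induction k with
  | zero => simp
  | succ k ih =>
    have hmem : C ^ k * s * (C ^ k)⁻¹ ∈ Blk a b n :=
      mul_mem (mul_mem (pow_mem hC k) hs) (inv_mem (pow_mem hC k))
    rw [pow_succ' φ, MulAut.mul_apply, ih, h _ hmem, pow_succ' C]
    group

end PL

/-! ## module PL (SepG.lean), imports Sep, GoodB: separating curves in `N` -/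
section PL
variable {π : Type*} [Group π] {g p : ℕ} {V : Type*} [NormedAddCommGroup V]
  [InnerProductSpace ℝ V] {a b : Fin g → π} {c : Fin p → π} {N : Subgroup π} {U : Submodule ℝ V}
  {ρ : π →* (V ≃ₗᵢ[ℝ] V)} {F : π → V}

theorem Good.sep (h : Good c N U ρ F) (hs : IsSurf a b c) (n : ℕ) (hn : n ≤ g)
    (hc : HP a b n ∈ N) : F (HP a b n) = 0 := by
  obtain ⟨φ, h1, h2, h3⟩ := exists_sep hs n hn
  set C := HP a b n with hCdef
  have hNn := h.normal
  have hCB : C ∈ Blk a b n := HP_mem_Blk a b n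
  have key : ∀ x : π, x⁻¹ * (C * x * C⁻¹) ∈ N := by
    intro x
    have e1 : x⁻¹ * (C * x * C⁻¹) = x⁻¹ * C * x⁻¹⁻¹ * C⁻¹ := by group
    rw [e1]
    exact mul_mem (hNn.conj_mem C hc x⁻¹) (inv_mem hc)
  have htr : ∀ x, x⁻¹ * φ x ∈ N := by
    refine congr_of_gen hs N hNn φ ?_ ?_ ?_
    · intro i
      rcases lt_or_ge (i : ℕ) n with hi | hi
      · rw [(h1 i hi).1]; exact key _
      · rw [(h2 i hi).1, inv_mul_cancel]; exact one_mem N
    · intro i
      rcases lt_or_ge (i : ℕ) n with hi | hi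
      · rw [(h1 i hi).2]; exact key _
      · rw [(h2 i hi).2, inv_mul_cancel]; exact one_mem N
    · intro j
      rw [h3 j, inv_mul_cancel]; exact one_mem N
  obtain ⟨k, hk, v, hv, hfo⟩ := h.fo φ (Punc.of_fix h3) htr
  have hvR : ∀ z ∈ Rest a b c n, ρ z v = v := by
    intro z hz
    have e1 := hfo z
    rw [PL.pow_fix φ z (PL.fix_Rest n φ h2 h3 z hz) k] at e1
    have e2 : ρ z v - v = 0 := left_eq_add.1 e1
    exact sub_eq_zero.1 e2
  have hCk : C ^ k ∈ N := pow_mem hc k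
  have htk : ∀ w ∈ U, ρ (C ^ k) w = w := h.triv _ hCk
  have hyB : ∀ s ∈ Blk a b n, ρ s (F (C ^ k) + v) = F (C ^ k) + v := by
    intro s hsB
    have e1 := hfo s
    rw [PL.pow_conj n φ C hCB (PL.conj_Blk n φ C h1) s hsB k, h.conj, htk _ (h.val s)] at e1
    have e2 : ρ (C ^ k * s * (C ^ k)⁻¹) (F (C ^ k)) = ρ s (F (C ^ k)) := by
      rw [PI.rho_mul, PI.rho_mul, h.triv _ (inv_mem hCk) _ (h.val _),
        htk _ (h.stab s _ (h.val _))]
    rw [e2] at e1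
    rw [map_add]
    have e3 : F (C ^ k) + F s - ρ s (F (C ^ k)) - (F s + (ρ s v - v)) = 0 := sub_eq_zero.2 e1
    have e4 : F (C ^ k) + v - (ρ s (F (C ^ k)) + ρ s v) = 0 := by
      rw [← e3]; abel
    exact (sub_eq_zero.1 e4).symm
  have hy0 : ⟪F C, F (C ^ k) + v⟫ = 0 := by
    have e1 := (PL.pair_HP (a := a) (b := b) h (F (C ^ k) + v) 0 n (Nat.zero_le n) hn
      (fun i _ hi => ⟨hyB _ (Subgroup.subset_closure ⟨i, hi, Or.inl rfl⟩),
        hyB _ (Subgroup.subset_closure ⟨i, hi, Or.inr rfl⟩)⟩)).2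
    rwa [HP_zero, inv_one, one_mul] at e1
  have hvc : ∀ j, ρ (c j) v = v := fun j =>
    hvR _ (Subgroup.subset_closure (Or.inr ⟨j, rfl⟩))
  have hv0 : ⟪F C, v⟫ = 0 := by
    obtain ⟨e1, e2⟩ := PL.pair_HP (a := a) (b := b) h v n g hn le_rfl
      (fun i hi _ => ⟨hvR _ (Subgroup.subset_closure (Or.inl ⟨i, hi, Or.inl rfl⟩)),
        hvR _ (Subgroup.subset_closure (Or.inl ⟨i, hi, Or.inr rfl⟩))⟩)
    obtain ⟨e3, e4⟩ := PL.pair_CP h v p le_rfl hvc (fun j => PL.pair_per h v j (hvc j))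
    have e5 : (HP a b n)⁻¹ * HP a b g * CP c p = C⁻¹ := by
      rw [mul_assoc, surf_rel hs, mul_one]
    have e6 := PL.pair_mul h v _ (CP c p) e1
    rw [e5, e2, e4, PL.pair_inv h v C (h.triv C hc v hv)] at e6
    linarith
  have hCC : (k : ℝ) * ⟪F C, F C⟫ = 0 := by
    have e1 : ⟪F C, F (C ^ k)⟫ = 0 := by
      rw [inner_add_right, hv0, add_zero] at hy0
      exact hy0
    rw [h.pow_triv C (h.triv C hc) k, inner_smul_right] at e1
    exact e1
  have hk' : (k : ℝ) ≠ 0 := by exact_mod_cast hk.ne'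
  exact inner_self_eq_zero.1 ((mul_eq_zero.1 hCC).resolve_left hk')

end PL

end Pool.Agent.MP_d14a53_gt_PW
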