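import Mathlib
import Pool.Agent.Lib.MP_d14a53_gt_PW.SepG
import Pool.Agent.Lib.MP_d14a53_gt_PW.Twist
import Pool.Agent.Lib.MP_d14a53_gt_PW.Prin
import Pool.Agent.Lib.MP_d14a53_gt_PW.Foot
import Pool.Agent.Lib.MP_d14a53_gt_PW.Punc

/-!
# MP_d14a53_gt (Putman-Wieland): handles with abelian image
-/

set_option autoImplicit false

noncomputable section

namespace Pool.Agent.MP_d14a53_gt_PW

open scoped RealInnerProductSpace

namespace Handle

variable {π : Type*} [Group π] {g p : ℕ} {V : Type*} [NormedAddCommGroup V]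
  [InnerProductSpace ℝ V] {a b : Fin g → π} {c : Fin p → π} {N : Subgroup π} {U : Submodule ℝ V}
  {ρ : π →* (V ≃ₗᵢ[ℝ] V)} {F : π → V}

/-- commuting actions -/
theorem comm_act (h : Good c N U ρ F) (y z : π) (hyz : y * z * y⁻¹ * z⁻¹ ∈ N) (v : V)
    (hv : v ∈ U) : ρ y (ρ z v) = ρ z (ρ y v) := by
  have h1 : y * z = (y * z * y⁻¹ * z⁻¹) * (z * y) := by group
  have h2 : ρ (y * z) v = ρ (z * y) v := by
    rw [h1, map_mul]
    exact h.triv _ hyz _ (h.stab _ _ hv)
  simpa [map_mul] using h2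

theorem mul_act (x y : π) (v : V) : ρ (x * y) v = ρ x (ρ y v) := by
  simp [map_mul]

theorem HP_one (i0 : Fin g) (hi0 : (i0 : ℕ) = 0) :
    HP a b 1 = a i0 * b i0 * (a i0)⁻¹ * (b i0)⁻¹ := by
  have h1 := HP_succ a b i0
  rw [hi0, HP_zero, one_mul, zero_add] at h1
  exact h1

/-- the linear functional of an invariant vector vanishes -/
theorem inner_zero (h : Good c N U ρ F) (x : π) (y : V) (hx : ρ x y = y)
    (h0 : ∀ m : ℕ, x ^ m ∈ N → F (x ^ m) = 0) : ⟪F x, y⟫ = 0 := by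
  have := h.normal
  have := h.fin
  have hM : x ^ N.index ∈ N := N.pow_index_mem x
  have hM0 : (N.index : ℝ) ≠ 0 := by
    exact_mod_cast Subgroup.FiniteIndex.index_ne_zero
  have hfix : ∀ t : ℕ, ρ (x ^ t) y = y := by
    intro t
    induction t with
    | zero => simp
    | succ t ih => rw [pow_succ, mul_act, hx, ih]
  have h1 : ⟪F (x ^ N.index), y⟫ = N.index * ⟪F x, y⟫ := by
    rw [h.pow, sum_inner]
    have : ∀ t ∈ Finset.range N.index, ⟪ρ (x ^ t) (F x), y⟫ = ⟪F x, y⟫ := by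
      intro t _
      conv_lhs => rw [← hfix t]
      exact LinearIsometryEquiv.inner_map_map _ _ _
    rw [Finset.sum_congr rfl this]
    simp
  rw [h0 _ hM, inner_zero_left] at h1
  rcases mul_eq_zero.mp h1.symm with h2 | h2
  · exact absurd h2 hM0
  · exact h2

end Handle

section PO
variable {π : Type*} [Group π] {g p : ℕ} {V : Type*} [NormedAddCommGroup V]
  [InnerProductSpace ℝ V] {a b : Fin g → π} {c : Fin p → π} {N : Subgroup π} {U : Submodule ℝ V}
  {ρ : π →* (V ≃ₗᵢ[ℝ] V)} {F : π → V}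

theorem Good.handle (h : Good c N U ρ F) (hs : IsSurf a b c) (i0 : Fin g) (hi0 : (i0 : ℕ) = 0)
    (hc : a i0 * b i0 * (a i0)⁻¹ * (b i0)⁻¹ ∈ N) :
    ∃ v ∈ U, F (a i0) = ρ (a i0) v - v ∧ F (b i0) = ρ (b i0) v - v := by
  have hg : 1 ≤ g := by have := i0.isLt; omega
  have := h.normal
  have hHP := Handle.HP_one (a := a) (b := b) i0 hi0
  have hF0 : F (a i0 * b i0 * (a i0)⁻¹ * (b i0)⁻¹) = 0 := by
    rw [← hHP]
    exact h.sep hs 1 hg (by rw [hHP]; exact hc)
  set S : Set π := {a i0, b i0} with hSdef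
  set D : Subgroup π := Subgroup.normalClosure {a i0 * b i0 * (a i0)⁻¹ * (b i0)⁻¹} with hD
  have hDn : D.Normal := by rw [hD]; infer_instance
  have hDD : ∀ d ∈ D, (∀ v ∈ U, ρ d v = v) ∧ F d = 0 := by
    intro d hd
    refine h.normalClosure _ ?_ d hd
    intro s hs'
    rw [Set.mem_singleton_iff] at hs'
    subst hs'
    exact ⟨h.triv _ hc, hF0⟩
  -- commutation modulo `D`
  have hq : Commute (QuotientGroup.mk' D (a i0)) (QuotientGroup.mk' D (b i0)) := by
    have h1 : QuotientGroup.mk' D (a i0 * b i0 * (a i0)⁻¹ * (b i0)⁻¹) = 1 := by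
      rw [QuotientGroup.mk'_apply, QuotientGroup.eq_one_iff]
      exact Subgroup.subset_normalClosure rfl
    rw [map_mul, map_mul, map_mul, map_inv, map_inv] at h1
    have h2 := eq_of_mul_inv_eq_one (by simpa [mul_assoc] using h1 :
      (QuotientGroup.mk' D (a i0) * QuotientGroup.mk' D (b i0)) *
        (QuotientGroup.mk' D (b i0) * QuotientGroup.mk' D (a i0))⁻¹ = 1)
    exact h2
  have hcomm : ∀ s ∈ S, ∀ x ∈ Subgroup.closure S, x⁻¹ * s * x * s⁻¹ ∈ D := by
    intro s hsS x hx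
    have h1 : Subgroup.closure S ≤
        (Subgroup.centralizer {QuotientGroup.mk' D s}).comap (QuotientGroup.mk' D) := by
      rw [Subgroup.closure_le]
      intro t ht
      rw [SetLike.mem_coe, Subgroup.mem_comap, Subgroup.mem_centralizer_iff]
      intro z hz
      rw [Set.mem_singleton_iff] at hz
      subst hz
      rcases hsS with rfl | hsS <;> rcases ht with rfl | ht
      · rfl
      · rw [Set.mem_singleton_iff] at ht
        subst ht
        exact hq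
      · rw [Set.mem_singleton_iff] at hsS
        subst hsS
        exact hq.symm
      · rw [Set.mem_singleton_iff] at hsS ht
        subst hsS
        subst ht
        rfl
    have h2 := h1 hx
    rw [Subgroup.mem_comap, Subgroup.mem_centralizer_iff] at h2
    have h3 := h2 _ rfl
    rw [← QuotientGroup.eq_one_iff (N := D)]
    change QuotientGroup.mk' D (x⁻¹ * s * x * s⁻¹) = 1
    rw [map_mul, map_mul, map_mul, map_inv, map_inv, mul_assoc (QuotientGroup.mk' D x)⁻¹, h3]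
    group
  -- powers
  have hpa : ∀ m : ℕ, a i0 ^ m ∈ N → F (a i0 ^ m) = 0 := fun m hm => h.twist_a hs i0 m hm
  have hpb : ∀ m : ℕ, b i0 ^ m ∈ N → F (b i0 ^ m) = 0 := fun m hm => h.twist_b hs i0 m hm
  obtain ⟨v, hv, hP⟩ := h.prin (Subgroup.closure S) (by
    intro x hx hxN
    have hfix : ∀ s ∈ S, ρ s (F x) = F x := by
      intro s hsS
      have h1 : s * x * s⁻¹ = x * (x⁻¹ * s * x * s⁻¹) := by group
      have h2 := h.conj s x
      have h3 : s * x * s⁻¹ ∈ N := h.normal.conj_mem x hxN s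
      rw [h.triv _ h3 _ (h.val s), h1,
        h.mul_triv x _ (hDD _ (hcomm s hsS x hx)).2] at h2
      have h4 : F s + ρ s (F x) - F s = ρ s (F x) := by abel
      rw [h4] at h2
      exact h2.symm
    have hfixH : ∀ z ∈ Subgroup.closure S, ρ z (F x) = F x := by
      intro z hz
      induction hz using Subgroup.closure_induction with
      | mem z hz => exact hfix z hz
      | one => simp
      | mul y z _ _ hy hz => rw [Handle.mul_act, hz, hy]
      | inv z _ hz =>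
        have h4 : ρ z⁻¹ (ρ z (F x)) = F x := by
          rw [← Handle.mul_act]; simp
        rw [hz] at h4
        exact h4
    have hzero : ∀ z ∈ Subgroup.closure S, ⟪F z, F x⟫ = 0 := by
      intro z hz
      induction hz using Subgroup.closure_induction with
      | mem z hz =>
        rcases hz with rfl | hz
        · exact Handle.inner_zero h _ _ (hfix _ (by simp [hSdef])) hpa
        · rw [Set.mem_singleton_iff] at hz
          subst hz
          exact Handle.inner_zero h _ _ (hfix _ (by simp [hSdef])) hpb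
      | one => rw [h.one, inner_zero_left]
      | mul y z hy' _ hy hz =>
        rw [h.coc, inner_add_left, hy, zero_add]
        have h5 : ⟪ρ y (F z), F x⟫ = ⟪ρ y (F z), ρ y (F x)⟫ := by rw [hfixH y hy']
        rw [h5, LinearIsometryEquiv.inner_map_map, hz]
      | inv z hz' hz =>
        rw [h.inv, inner_neg_left]
        have h5 : ⟪ρ z⁻¹ (F z), F x⟫ = ⟪ρ z⁻¹ (F z), ρ z⁻¹ (F x)⟫ := by
          rw [hfixH z⁻¹ (Subgroup.inv_mem _ hz')]
        rw [h5, LinearIsometryEquiv.inner_map_map, hz, neg_zero]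
    exact inner_self_eq_zero.mp (hzero x hx))
  exact ⟨v, hv, hP _ (Subgroup.subset_closure (by simp [hSdef])),
    hP _ (Subgroup.subset_closure (by simp [hSdef]))⟩

theorem Handle.bpart (h : Good c N U ρ F) (hs : IsSurf a b c) (i0 i1 : Fin g)
    (hi0 : (i0 : ℕ) = 0) (hi1 : (i1 : ℕ) = 1)
    (hc : a i0 * b i0 * (a i0)⁻¹ * (b i0)⁻¹ ∈ N)
    (hcb : b i0 * a i1 * (b i0)⁻¹ * (a i1)⁻¹ ∈ N) (v : V) (hv : v ∈ U)
    (hva : F (a i0) = ρ (a i0) v - v) (hvb : F (b i0) = ρ (b i0) v - v) (h1 : F (a i1) = 0) :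
    ρ (b i0) (ρ (a i1) v - v) = ρ (a i1) v - v := by
  have hlt : i0 < i1 := by rw [Fin.lt_def]; omega
  have := h.normal
  obtain ⟨θ, h2, h3, -, -, -, h6⟩ := exists_foot hs i0 i1 hlt 1 (a i1) ((a i1)⁻¹ * b i0 * a i1)
    (by rw [hi0, hi1]; simp) (by group) (by group)
  have hP : Punc c θ := Punc.of_fix h6
  have hG := h.comp θ hP
  obtain ⟨q, hq, hq1, hq2⟩ := hG.handle hs i0 hi0 (by
    rw [Subgroup.mem_comap]
    change θ _ ∈ N
    rw [map_mul, map_mul, map_mul, map_inv, map_inv, h2, h3]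
    have h7 : a i0 * a i1 * ((a i1)⁻¹ * b i0 * a i1) * (a i0 * a i1)⁻¹ *
        ((a i1)⁻¹ * b i0 * a i1)⁻¹ = (a i0 * b i0 * (a i0)⁻¹ * (b i0)⁻¹) *
        ((a i1)⁻¹ * (b i0 * a i1 * (b i0)⁻¹ * (a i1)⁻¹)⁻¹ * (a i1)⁻¹⁻¹) := by group
    rw [h7]
    exact N.mul_mem hc (h.normal.conj_mem _ (N.inv_mem hcb) _))
  have e1 : (ρ.comp θ.toMonoidHom) (a i0) = ρ (a i0 * a i1) := by
    rw [MonoidHom.comp_apply]
    change ρ (θ (a i0)) = _
    rw [h2]
  have e2 : (ρ.comp θ.toMonoidHom) (b i0) = ρ ((a i1)⁻¹ * b i0 * a i1) := by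
    rw [MonoidHom.comp_apply]
    change ρ (θ (b i0)) = _
    rw [h3]
  rw [e1] at hq1
  rw [e2] at hq2
  simp only [h2] at hq1
  simp only [h3] at hq2
  -- the actions
  have cBX : ∀ w ∈ U, ρ (b i0) (ρ (a i1) w) = ρ (a i1) (ρ (b i0) w) :=
    fun w hw => Handle.comm_act h _ _ hcb w hw
  have cAB : ∀ w ∈ U, ρ (a i0) (ρ (b i0) w) = ρ (b i0) (ρ (a i0) w) :=
    fun w hw => Handle.comm_act h _ _ hc w hw
  have iX : ∀ w : V, ρ (a i1)⁻¹ (ρ (a i1) w) = w := by
    intro w; rw [← Handle.mul_act]; simp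
  have iX' : ∀ w : V, ρ (a i1) (ρ (a i1)⁻¹ w) = w := by
    intro w; rw [← Handle.mul_act]; simp
  have cBX' : ∀ w ∈ U, ρ (b i0) (ρ (a i1)⁻¹ w) = ρ (a i1)⁻¹ (ρ (b i0) w) := by
    intro w hw
    have h8 := cBX _ (h.stab (a i1)⁻¹ w hw)
    rw [iX'] at h8
    rw [h8, iX]
  have f1 : F (a i0 * a i1) = ρ (a i0) v - v := by
    rw [h.mul_triv _ _ h1, hva]
  have f2 : F ((a i1)⁻¹ * b i0 * a i1) = ρ (a i1)⁻¹ (ρ (b i0) v - v) := by
    rw [h.mul_triv _ _ h1, h.coc, h.inv, h1, map_zero, neg_zero, zero_add, hvb]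
  rw [f1] at hq1
  rw [f2] at hq2
  have hq2' : ρ ((a i1)⁻¹ * b i0 * a i1) q = ρ (b i0) q := by
    rw [Handle.mul_act, Handle.mul_act, cBX _ hq, iX]
  rw [hq2', map_sub] at hq2
  rw [Handle.mul_act] at hq1
  -- the vector `e`
  have hXv : ρ (a i1)⁻¹ v ∈ U := h.stab _ _ hv
  have he : ρ (b i0) (q - ρ (a i1)⁻¹ v) = q - ρ (a i1)⁻¹ v := by
    rw [map_sub, cBX' v hv]
    have h9 : ρ (b i0) q = ρ (a i1)⁻¹ (ρ (b i0) v) - ρ (a i1)⁻¹ v + q := by
      rw [hq2]; abel
    rw [h9]; abel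
  have heU : q - ρ (a i1)⁻¹ v ∈ U := U.sub_mem hq hXv
  have h10 : ρ (a i1)⁻¹ v - v = ρ (a i0) (ρ (a i1) (q - ρ (a i1)⁻¹ v)) - (q - ρ (a i1)⁻¹ v) := by
    rw [map_sub (ρ (a i1)), iX', map_sub]
    have h11 : ρ (a i0) (ρ (a i1) q) = ρ (a i0) v - v + q := by
      rw [hq1]; abel
    rw [h11]; abel
  have h12 : ρ (b i0) (ρ (a i1)⁻¹ v - v) = ρ (a i1)⁻¹ v - v := by
    rw [h10, map_sub, ← cAB _ (h.stab _ _ heU), cBX _ heU, he]
  have h13 : ρ (a i1) v - v = -(ρ (a i1) (ρ (a i1)⁻¹ v - v)) := by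
    rw [map_sub, iX']; abel
  rw [h13, map_neg, cBX _ (U.sub_mem hXv hv), h12]

theorem Good.cross (h : Good c N U ρ F) (hs : IsSurf a b c) (i0 i1 : Fin g)
    (hi0 : (i0 : ℕ) = 0) (hi1 : (i1 : ℕ) = 1)
    (hc : a i0 * b i0 * (a i0)⁻¹ * (b i0)⁻¹ ∈ N)
    (hca : a i0 * a i1 * (a i0)⁻¹ * (a i1)⁻¹ ∈ N)
    (hcb : b i0 * a i1 * (b i0)⁻¹ * (a i1)⁻¹ ∈ N) (v : V) (hv : v ∈ U)
    (hva : F (a i0) = ρ (a i0) v - v) (hvb : F (b i0) = ρ (b i0) v - v) (h1 : F (a i1) = 0) :
    ρ (a i0) (ρ (a i1) v - v) = ρ (a i1) v - v ∧ ρ (b i0) (ρ (a i1) v - v) = ρ (a i1) v - v := by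
  refine ⟨?_, Handle.bpart h hs i0 i1 hi0 hi1 hc hcb v hv hva hvb h1⟩
  have := h.normal
  obtain ⟨φ, h2, h3, h4, h5⟩ := exists_swap hs i0
  have hP : Punc c φ := Punc.of_fix h5
  have hG := h.comp φ hP
  have hne : i1 ≠ i0 := by
    intro hE
    rw [hE] at hi1
    omega
  have h6 : φ (a i1) = a i1 := (h4 i1 hne).1
  have hpr : PrinOn ρ F (Subgroup.closure {a i0, b i0}) v := by
    refine h.prin_closure {a i0, b i0} v ?_
    intro x hx
    rcases hx with rfl | hx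
    · exact hva
    · rw [Set.mem_singleton_iff] at hx
      subst hx
      exact hvb
  have ma : a i0 ∈ Subgroup.closure {a i0, b i0} := Subgroup.subset_closure (by simp)
  have mb : b i0 ∈ Subgroup.closure {a i0, b i0} := Subgroup.subset_closure (by simp)
  -- commutations modulo `N`
  have key : ∀ y z : π, y * z * y⁻¹ * z⁻¹ ∈ N →
      Commute (QuotientGroup.mk' N y) (QuotientGroup.mk' N z) := by
    intro y z hyz
    have h7 : QuotientGroup.mk' N (y * z * y⁻¹ * z⁻¹) = 1 := by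
      rw [QuotientGroup.mk'_apply, QuotientGroup.eq_one_iff]
      exact hyz
    rw [map_mul, map_mul, map_mul, map_inv, map_inv] at h7
    exact eq_of_mul_inv_eq_one (by simpa [mul_assoc] using h7 :
      (QuotientGroup.mk' N y * QuotientGroup.mk' N z) *
        (QuotientGroup.mk' N z * QuotientGroup.mk' N y)⁻¹ = 1)
  have key' : ∀ y z : π, Commute (QuotientGroup.mk' N y) (QuotientGroup.mk' N z) →
      y * z * y⁻¹ * z⁻¹ ∈ N := by
    intro y z hyz
    rw [← QuotientGroup.eq_one_iff (N := N)]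
    change QuotientGroup.mk' N (y * z * y⁻¹ * z⁻¹) = 1
    rw [map_mul, map_mul, map_mul, map_inv, map_inv, hyz.eq]
    group
  have hax := key _ _ hca
  have h7 := Handle.bpart hG hs i0 i1 hi0 hi1 (by
      rw [Subgroup.mem_comap]
      change φ _ ∈ N
      rw [map_mul, map_mul, map_mul, map_inv, map_inv, h2, h3]
      have h8 : a i0 * b i0 * (a i0)⁻¹ * (a i0)⁻¹ * (a i0 * b i0 * (a i0)⁻¹)⁻¹ * (a i0)⁻¹⁻¹ =
        a i0 * b i0 * (a i0)⁻¹ * (b i0)⁻¹ := by group
      rw [h8]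
      exact hc) (by
      rw [Subgroup.mem_comap]
      change φ _ ∈ N
      rw [map_mul, map_mul, map_mul, map_inv, map_inv, h3, h6]
      refine key' _ _ ?_
      rw [map_inv]
      exact hax.inv_left) v hv (by
      change F (φ (a i0)) = ρ (φ (a i0)) v - v
      rw [h2]
      exact hpr _ (Subgroup.mul_mem _ (Subgroup.mul_mem _ ma mb) (Subgroup.inv_mem _ ma))) (by
      change F (φ (b i0)) = ρ (φ (b i0)) v - v
      rw [h3]
      exact hpr _ (Subgroup.inv_mem _ ma)) (by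
      rw [h6]
      exact h1)
  change ρ (φ (b i0)) (ρ (φ (a i1)) v - v) = ρ (φ (a i1)) v - v at h7
  rw [h3, h6] at h7
  have h9 : ρ (a i0) (ρ (a i0)⁻¹ (ρ (a i1) v - v)) = ρ (a i1) v - v := by
    rw [← Handle.mul_act]; simp
  rw [h7] at h9
  exact h9

end PO

end Pool.Agent.MP_d14a53_gt_PW
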