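import Mathlib
import Pool.Agent.Lib.MP_d14a53_gt_PW.Lift
import Pool.Agent.Lib.MP_d14a53_gt_PW.Tw
import Pool.Agent.Lib.MP_d14a53_gt_PW.Foot
import Pool.Agent.Lib.MP_d14a53_gt_PW.Punc

/-!
# MP_d14a53_gt (Putman-Wieland), module PH: foot pushing along any element
-/

set_option autoImplicit false

noncomputable section

namespace Pool.Agent.MP_d14a53_gt_PW

open scoped RealInnerProductSpace

/-- normal closure of the first `n` handles, except of the curve `a 0` -/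
def DB {π : Type*} [Group π] {g : ℕ} (a b : Fin g → π) (n : ℕ) : Subgroup π :=
  Subgroup.normalClosure {x | ∃ i : Fin g, (i : ℕ) < n ∧ (x = b i ∨ (0 < (i : ℕ) ∧ x = a i))}

namespace ClosF

variable {π : Type*} [Group π] {g p : ℕ} {a b : Fin g → π} {c : Fin p → π} {n : ℕ}

theorem normal_DB (a b : Fin g → π) (n : ℕ) : (DB a b n).Normal :=
  Subgroup.normalClosure_normal

theorem b_mem {i : Fin g} (hi : (i : ℕ) < n) : b i ∈ DB a b n :=
  Subgroup.subset_normalClosure ⟨i, hi, Or.inl rfl⟩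

theorem a_mem {i : Fin g} (hi : (i : ℕ) < n) (h0 : 0 < (i : ℕ)) : a i ∈ DB a b n :=
  Subgroup.subset_normalClosure ⟨i, hi, Or.inr ⟨h0, rfl⟩⟩

/-- `f` maps `DB` into itself if it does so on the generators -/
theorem map_DB (f : π ≃* π) (hb : ∀ i : Fin g, (i : ℕ) < n → f (b i) ∈ DB a b n)
    (ha : ∀ i : Fin g, (i : ℕ) < n → 0 < (i : ℕ) → f (a i) ∈ DB a b n) :
    ∀ x ∈ DB a b n, f x ∈ DB a b n := by
  have := normal_DB a b n
  have h1 : DB a b n ≤ (DB a b n).comap f.toMonoidHom := by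
    refine Subgroup.normalClosure_le_normal ?_
    rintro x ⟨i, hi, rfl | ⟨h0, rfl⟩⟩
    · exact hb i hi
    · exact ha i hi h0
  intro x hx
  exact h1 hx

/-- congruence modulo `DB` -/
def Cg (a b : Fin g → π) (n : ℕ) (x y : π) : Prop := x⁻¹ * y ∈ DB a b n

theorem Cg.rfl' (x : π) : Cg a b n x x := by
  unfold Cg
  rw [inv_mul_cancel]
  exact (DB a b n).one_mem

theorem Cg.symm {x y : π} (h : Cg a b n x y) : Cg a b n y x := by
  unfold Cg at *
  have := (DB a b n).inv_mem h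
  simpa using this

theorem Cg.trans {x y z : π} (h : Cg a b n x y) (h' : Cg a b n y z) : Cg a b n x z := by
  unfold Cg at *
  have := (DB a b n).mul_mem h h'
  have e : x⁻¹ * y * (y⁻¹ * z) = x⁻¹ * z := by group
  rwa [e] at this

theorem Cg.mul {x y x' y' : π} (h : Cg a b n x y) (h' : Cg a b n x' y') :
    Cg a b n (x * x') (y * y') := by
  unfold Cg at *
  have h1 := (normal_DB a b n).conj_mem _ h x'⁻¹
  have h2 := (DB a b n).mul_mem h1 h'
  have e : x'⁻¹ * (x⁻¹ * y) * x'⁻¹⁻¹ * (x'⁻¹ * y') = (x * x')⁻¹ * (y * y') := by group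
  rwa [e] at h2

theorem Cg.inv {x y : π} (h : Cg a b n x y) : Cg a b n x⁻¹ y⁻¹ := by
  unfold Cg at *
  have h1 := (normal_DB a b n).conj_mem _ ((DB a b n).inv_mem h) x
  have e : x * (x⁻¹ * y)⁻¹ * x⁻¹ = x⁻¹⁻¹ * y⁻¹ := by group
  rwa [e] at h1

theorem Cg.map {x y : π} (h : Cg a b n x y) (f : π ≃* π)
    (hf : ∀ x ∈ DB a b n, f x ∈ DB a b n) : Cg a b n (f x) (f y) := by
  unfold Cg at *
  have h1 := hf _ h
  rwa [map_mul, map_inv] at h1

theorem Cg.of_mem {x : π} (h : x ∈ DB a b n) : Cg a b n x 1 := by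
  unfold Cg
  rw [mul_one]
  exact (DB a b n).inv_mem h

/-- the property of `w` in the theorem, with the invariance of `DB` -/
def QP (a b : Fin g → π) (c : Fin p → π) (n : ℕ) (i0 : Fin g) (w : π) : Prop :=
  ∃ φ : π ≃* π, Punc c φ ∧ (∀ x ∈ DB a b n, φ x ∈ DB a b n) ∧
    (∀ x ∈ DB a b n, φ.symm x ∈ DB a b n) ∧ Cg a b n (a i0 * w) (φ (a i0)) ∧
    ∀ z ∈ Rest a b c n, Cg a b n z (φ z)

theorem QP.congr {i0 : Fin g} {w w' : π} (h : QP a b c n i0 w) (hw : Cg a b n w w') :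
    QP a b c n i0 w' := by
  obtain ⟨φ, h1, h2, h3, h4, h5⟩ := h
  exact ⟨φ, h1, h2, h3, (Cg.mul (Cg.rfl' (a i0)) hw.symm).trans h4, h5⟩

theorem QP.one (i0 : Fin g) : QP a b c n i0 1 := by
  refine ⟨MulEquiv.refl π, Punc.one, fun x hx => hx, fun x hx => hx, ?_, fun z _ => Cg.rfl' z⟩
  rw [mul_one]
  exact Cg.rfl' _

theorem QP.mul {i0 : Fin g} {w1 w2 : π} (h1 : QP a b c n i0 w1) (h2 : QP a b c n i0 w2)
    (hw2 : w2 ∈ Rest a b c n) : QP a b c n i0 (w1 * w2) := by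
  obtain ⟨φ1, p1, d1, e1, a1, r1⟩ := h1
  obtain ⟨φ2, p2, d2, e2, a2, r2⟩ := h2
  refine ⟨φ2.trans φ1, p2.trans p1, fun x hx => d1 _ (d2 _ hx), fun x hx => e2 _ (e1 _ hx), ?_,
    fun z hz => ?_⟩
  · have h3 := a2.map φ1 d1
    rw [map_mul] at h3
    have h4 : Cg a b n (a i0 * w1 * w2) (φ1 (a i0) * φ1 w2) := a1.mul (r1 w2 hw2)
    rw [mul_assoc] at h4
    exact h4.trans h3
  · exact (r1 z hz).trans ((r2 z hz).map φ1 d1)

theorem QP.inv {i0 : Fin g} {w : π} (h : QP a b c n i0 w) (hw : w ∈ Rest a b c n) :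
    QP a b c n i0 w⁻¹ := by
  obtain ⟨φ, p1, d1, e1, a1, r1⟩ := h
  refine ⟨φ.symm, p1.symm, e1, fun x hx => d1 _ hx, ?_, fun z hz => ?_⟩
  · have h1 : Cg a b n (a i0 * w * w⁻¹) (φ (a i0) * φ w⁻¹) :=
      a1.mul (r1 _ ((Rest a b c n).inv_mem hw))
    rw [mul_inv_cancel_right, ← map_mul] at h1
    have h2 := h1.map φ.symm e1
    rw [MulEquiv.symm_apply_apply] at h2
    exact h2.symm
  · have h1 := (r1 z hz).map φ.symm e1
    rw [MulEquiv.symm_apply_apply] at h1
    exact h1.symm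

/-- the elements of `Rest` with the property form a subgroup -/
def R0 (a b : Fin g → π) (c : Fin p → π) (n : ℕ) (i0 : Fin g) : Subgroup π where
  carrier := {w | w ∈ Rest a b c n ∧ QP a b c n i0 w}
  mul_mem' := fun hx hy => ⟨(Rest a b c n).mul_mem hx.1 hy.1, hx.2.mul hy.2 hy.1⟩
  one_mem' := ⟨(Rest a b c n).one_mem, QP.one i0⟩
  inv_mem' := fun hx => ⟨(Rest a b c n).inv_mem hx.1, hx.2.inv hx.1⟩

theorem mem_Rest_a {l : Fin g} (h : n ≤ (l : ℕ)) : a l ∈ Rest a b c n :=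
  Subgroup.subset_closure (Or.inl ⟨l, h, Or.inl rfl⟩)

theorem mem_Rest_b {l : Fin g} (h : n ≤ (l : ℕ)) : b l ∈ Rest a b c n :=
  Subgroup.subset_closure (Or.inl ⟨l, h, Or.inr rfl⟩)

theorem mem_Rest_c (j : Fin p) : c j ∈ Rest a b c n :=
  Subgroup.subset_closure (Or.inr ⟨j, rfl⟩)

/-- congruences on the generators of `Rest` -/
theorem rest_cg (f : π ≃* π)
    (ha : ∀ i : Fin g, n ≤ (i : ℕ) → Cg a b n (a i) (f (a i)))
    (hb : ∀ i : Fin g, n ≤ (i : ℕ) → Cg a b n (b i) (f (b i)))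
    (hc : ∀ j : Fin p, Cg a b n (c j) (f (c j))) :
    ∀ z ∈ Rest a b c n, Cg a b n z (f z) := by
  intro z hz
  refine Subgroup.closure_induction (p := fun z _ => Cg a b n z (f z)) ?_ ?_ ?_ ?_ hz
  · rintro x (⟨i, hi, rfl | rfl⟩ | ⟨j, rfl⟩)
    · exact ha i hi
    · exact hb i hi
    · exact hc j
  · rw [map_one]
    exact Cg.rfl' 1
  · intro x y _ _ hx hy
    rw [map_mul]
    exact hx.mul hy
  · intro x _ hx
    rw [map_inv]
    exact hx.inv

/-- the product of the handles `1, …, n - 1` -/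
theorem W0_mem (a b : Fin g → π) {n : ℕ} (hn : n ≤ g) (m : ℕ) (h1 : 1 ≤ m) (hm : m ≤ n) :
    (HP a b 1)⁻¹ * HP a b m ∈ DB a b n := by
  induction m, h1 using Nat.le_induction with
  | base =>
    rw [inv_mul_cancel]
    exact (DB a b n).one_mem
  | succ k hk ih =>
    have hkg : k < g := by omega
    have hs := HP_succ a b ⟨k, hkg⟩
    simp only at hs
    rw [hs, ← mul_assoc]
    have hkn : ((⟨k, hkg⟩ : Fin g) : ℕ) < n := by
      show k < n
      omega
    have hk0 : 0 < ((⟨k, hkg⟩ : Fin g) : ℕ) := by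
      show 0 < k
      omega
    have ha := a_mem (a := a) (b := b) hkn hk0
    have hb := b_mem (a := a) (b := b) hkn
    refine (DB a b n).mul_mem (ih (by omega)) ?_
    exact (DB a b n).mul_mem ((DB a b n).mul_mem ((DB a b n).mul_mem ha hb)
      ((DB a b n).inv_mem ha)) ((DB a b n).inv_mem hb)

/-- the symmetric direction of the invariance of `DB` -/
theorem symm_DB (f : π ≃* π) (i0 : Fin g) (hi0 : (i0 : ℕ) = 0) (hn0 : 0 < n) (x : π)
    (hb0 : f (b i0) = x⁻¹ * b i0 * x)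
    (hfix : ∀ l : Fin g, (l : ℕ) < n → l ≠ i0 → f (a l) = a l ∧ f (b l) = b l) :
    (∀ x ∈ DB a b n, f x ∈ DB a b n) ∧ ∀ x ∈ DB a b n, f.symm x ∈ DB a b n := by
  have hN := normal_DB a b n
  have hb00 : b i0 ∈ DB a b n := b_mem (by omega)
  have hne : ∀ l : Fin g, 0 < (l : ℕ) → l ≠ i0 := by
    intro l hl h
    rw [h] at hl
    omega
  constructor
  · refine map_DB f (fun i hi => ?_) (fun i hi h0 => ?_)
    · by_cases h : i = i0
      · rw [h, hb0]
        have := hN.conj_mem _ hb00 x⁻¹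
        simpa using this
      · rw [(hfix i hi h).2]
        exact b_mem hi
    · rw [(hfix i hi (hne i h0)).1]
      exact a_mem hi h0
  · refine map_DB f.symm (fun i hi => ?_) (fun i hi h0 => ?_)
    · by_cases h : i = i0
      · rw [h]
        have h1 : b i0 = (f.symm x)⁻¹ * f.symm (b i0) * f.symm x := by
          have h2 := congrArg f.symm hb0
          rw [MulEquiv.symm_apply_apply, map_mul, map_mul, map_inv] at h2
          exact h2
        have h3 : f.symm (b i0) = f.symm x * b i0 * (f.symm x)⁻¹ := by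
          calc f.symm (b i0)
              = f.symm x * ((f.symm x)⁻¹ * f.symm (b i0) * f.symm x) * (f.symm x)⁻¹ := by group
            _ = f.symm x * b i0 * (f.symm x)⁻¹ := by rw [← h1]
        rw [h3]
        exact hN.conj_mem _ hb00 _
      · have h1 : f.symm (b i) = b i := by
          rw [MulEquiv.symm_apply_eq]
          exact (hfix i hi h).2.symm
        rw [h1]
        exact b_mem hi
    · have h1 : f.symm (a i) = a i := by
        rw [MulEquiv.symm_apply_eq]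
        exact (hfix i hi (hne i h0)).1.symm
      rw [h1]
      exact a_mem hi h0

/-- the word `W` of `exists_foot` modulo `DB` -/
theorem W_cg (a b : Fin g → π) {n : ℕ} (hn : n ≤ g) (h1 : 1 ≤ n) (i0 : Fin g)
    (hi0 : (i0 : ℕ) = 0) (m : ℕ) :
    Cg a b n ((HP a b ((i0 : ℕ) + 1))⁻¹ * HP a b m) ((HP a b n)⁻¹ * HP a b m) := by
  have h2 := W0_mem a b hn n h1 le_rfl
  rw [hi0, zero_add]
  have e : (HP a b 1)⁻¹ * HP a b m = (HP a b 1)⁻¹ * HP a b n * ((HP a b n)⁻¹ * HP a b m) := by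
    group
  rw [e]
  have h3 := (Cg.of_mem h2).mul (Cg.rfl' (a := a) (b := b) (n := n) ((HP a b n)⁻¹ * HP a b m))
  rwa [one_mul] at h3

/-- the foot push along a handle -/
theorem gen_a (hs : IsSurf a b c) {n : ℕ} (hn : n ≤ g) (h1 : 1 ≤ n) (i0 : Fin g)
    (hi0 : (i0 : ℕ) = 0) (m : Fin g) (hm : n ≤ (m : ℕ)) :
    QP a b c n i0 ((HP a b n)⁻¹ * HP a b m * a m * ((HP a b n)⁻¹ * HP a b m)⁻¹) := by
  have h0m : i0 < m := by
    rw [Fin.lt_def]
    omega
  obtain ⟨f, fa0, fb0, fam, fbm, fl, fc⟩ := exists_foot hs i0 m h0m _ _ _ rfl rfl rfl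
  obtain ⟨d1, d2⟩ := symm_DB (n := n) f i0 hi0 (by omega) _ fb0 (fun l hl hl0 => by
    refine fl l hl0 ?_
    intro h
    rw [h] at hl
    omega)
  have hN := normal_DB a b n
  have hW := W_cg a b hn h1 i0 hi0 (m : ℕ)
  set W := (HP a b ((i0 : ℕ) + 1))⁻¹ * HP a b m with hWdef
  set x := W * a m * W⁻¹ with hx
  have hb00 : b i0 ∈ DB a b n := b_mem (by omega)
  have he : W⁻¹ * (x⁻¹ * b i0 * x) * W ∈ DB a b n := by
    have h2 := hN.conj_mem _ hb00 x⁻¹
    have h3 := hN.conj_mem _ h2 W⁻¹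
    simpa using h3
  set e := W⁻¹ * (x⁻¹ * b i0 * x) * W with hedef
  have he1 : Cg a b n e 1 := Cg.of_mem he
  refine ⟨f, Punc.of_fix fc, d1, d2, ?_, ?_⟩
  · rw [fa0]
    exact (Cg.rfl' _).mul ((hW.mul (Cg.rfl' _)).mul hW.inv).symm
  · refine rest_cg f (fun i hi => ?_) (fun i hi => ?_) (fun j => ?_)
    · by_cases h : i = m
      · rw [h, fam]
        have h4 := (he1.mul (Cg.rfl' (a m))).mul he1.inv
        rw [one_mul, inv_one, mul_one] at h4
        exact h4.symm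
      · have hi0' : i ≠ i0 := by
          intro h5
          rw [h5] at hi
          omega
        rw [(fl i hi0' h).1]
        exact Cg.rfl' _
    · by_cases h : i = m
      · rw [h, fbm]
        have h4 := (Cg.rfl' (b m)).mul he1.inv
        rw [inv_one, mul_one] at h4
        exact h4.symm
      · have hi0' : i ≠ i0 := by
          intro h5
          rw [h5] at hi
          omega
        rw [(fl i hi0' h).2]
        exact Cg.rfl' _
    · rw [fc j]
      exact Cg.rfl' _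

/-- the foot push along a peripheral element -/
theorem gen_c (hs : IsSurf a b c) {n : ℕ} (hn : n ≤ g) (h1 : 1 ≤ n) (i0 : Fin g)
    (hi0 : (i0 : ℕ) = 0) (m : Fin p) :
    QP a b c n i0 ((HP a b n)⁻¹ * HP a b g * CP c m * c m *
      ((HP a b n)⁻¹ * HP a b g * CP c m)⁻¹) := by
  obtain ⟨f, fa0, fb0, fl, fcm, fc⟩ := exists_footc hs i0 m _ _ _ rfl rfl rfl
  obtain ⟨d1, d2⟩ := symm_DB (n := n) f i0 hi0 (by omega) _ fb0 (fun l _ hl0 => fl l hl0)
  have hN := normal_DB a b n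
  have hW := (W_cg a b hn h1 i0 hi0 g).mul (Cg.rfl' (CP c m))
  set W := (HP a b ((i0 : ℕ) + 1))⁻¹ * HP a b g * CP c m with hWdef
  set x := W * c m * W⁻¹ with hx
  have hb00 : b i0 ∈ DB a b n := b_mem (by omega)
  have he : W⁻¹ * (x⁻¹ * b i0 * x) * W ∈ DB a b n := by
    have h2 := hN.conj_mem _ hb00 x⁻¹
    have h3 := hN.conj_mem _ h2 W⁻¹
    simpa using h3
  set e := W⁻¹ * (x⁻¹ * b i0 * x) * W with hedef
  have he1 : Cg a b n e 1 := Cg.of_mem he
  refine ⟨f, ?_, d1, d2, ?_, ?_⟩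
  · intro j
    by_cases h : j = m
    · rw [h]
      exact ⟨e, fcm⟩
    · exact ⟨1, by rw [fc j h]; simp⟩
  · rw [fa0]
    exact (Cg.rfl' _).mul ((hW.mul (Cg.rfl' _)).mul hW.inv).symm
  · refine rest_cg f (fun i hi => ?_) (fun i hi => ?_) (fun j => ?_)
    · have hi0' : i ≠ i0 := by
        intro h5
        rw [h5] at hi
        omega
      rw [(fl i hi0').1]
      exact Cg.rfl' _
    · have hi0' : i ≠ i0 := by
        intro h5
        rw [h5] at hi
        omega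
      rw [(fl i hi0').2]
      exact Cg.rfl' _
    · by_cases h : j = m
      · rw [h, fcm]
        have h4 := (he1.mul (Cg.rfl' (c m))).mul he1.inv
        rw [one_mul, inv_one, mul_one] at h4
        exact h4.symm
      · rw [fc j h]
        exact Cg.rfl' _

/-- the conjugate of a push by the swap of the handle `m` -/
theorem gen_ab (hs : IsSurf a b c) {n : ℕ} (h1 : 1 ≤ n) (i0 : Fin g)
    (hi0 : (i0 : ℕ) = 0) (m : Fin g) (hm : n ≤ (m : ℕ)) (w : π) (h : QP a b c n i0 w) :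
    ∀ k : π ≃* π, k (a m) = a m * b m * (a m)⁻¹ → k (b m) = (a m)⁻¹ →
      (∀ l, l ≠ m → k (a l) = a l ∧ k (b l) = b l) → (∀ j, k (c j) = c j) →
      QP a b c n i0 (k w) := by
  intro k ka kb kl kc
  obtain ⟨f, pf, d1, d2, fa, fr⟩ := h
  have hne : ∀ l : Fin g, (l : ℕ) < n → l ≠ m := by
    intro l hl h
    rw [h] at hl
    omega
  have kD : ∀ x ∈ DB a b n, k x ∈ DB a b n := by
    refine map_DB k (fun i hi => ?_) (fun i hi h0 => ?_)
    · rw [(kl i (hne i hi)).2]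
      exact b_mem hi
    · rw [(kl i (hne i hi)).1]
      exact a_mem hi h0
  have kD' : ∀ x ∈ DB a b n, k.symm x ∈ DB a b n := by
    refine map_DB k.symm (fun i hi => ?_) (fun i hi h0 => ?_)
    · have h2 : k.symm (b i) = b i := by
        rw [MulEquiv.symm_apply_eq]
        exact (kl i (hne i hi)).2.symm
      rw [h2]
      exact b_mem hi
    · have h2 : k.symm (a i) = a i := by
        rw [MulEquiv.symm_apply_eq]
        exact (kl i (hne i hi)).1.symm
      rw [h2]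
      exact a_mem hi h0
  have h0m : i0 ≠ m := hne i0 (by omega)
  have ka0 : k.symm (a i0) = a i0 := by
    rw [MulEquiv.symm_apply_eq]
    exact (kl i0 h0m).1.symm
  have pk : Punc c k := Punc.of_fix kc
  refine ⟨(k.symm.trans f).trans k, (pk.symm.trans pf).trans pk,
    fun x hx => kD _ (d1 _ (kD' _ hx)), fun x hx => kD _ (d2 _ (kD' _ hx)), ?_, fun z hz => ?_⟩
  · have h3 := fa.map k kD
    rw [map_mul, (kl i0 h0m).1] at h3
    show Cg a b n (a i0 * k w) (k (f (k.symm (a i0))))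
    rw [ka0]
    exact h3
  · have hsur : Rest a b c n ≤ (Rest a b c n).map k.toMonoidHom := by
      unfold Rest
      rw [Subgroup.closure_le]
      have hA : a m ∈ Rest a b c n := mem_Rest_a hm
      have hB : b m ∈ Rest a b c n := mem_Rest_b hm
      rintro x (⟨i, hi, rfl | rfl⟩ | ⟨j, rfl⟩)
      · by_cases h4 : i = m
        · rw [h4]
          refine ⟨(b m)⁻¹, (Rest a b c n).inv_mem hB, ?_⟩
          show k (b m)⁻¹ = a m
          rw [map_inv, kb, inv_inv]
        · exact ⟨a i, mem_Rest_a hi, (kl i h4).1⟩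
      · by_cases h4 : i = m
        · rw [h4]
          refine ⟨b m * a m * (b m)⁻¹, (Rest a b c n).mul_mem ((Rest a b c n).mul_mem hB hA)
            ((Rest a b c n).inv_mem hB), ?_⟩
          show k (b m * a m * (b m)⁻¹) = b m
          rw [map_mul, map_mul, map_inv, kb, ka]
          group
        · exact ⟨b i, mem_Rest_b hi, (kl i h4).2⟩
      · exact ⟨c j, mem_Rest_c j, kc j⟩
    obtain ⟨z', hz', rfl⟩ := hsur hz
    show Cg a b n (k z') (k (f (k.symm (k z'))))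
    rw [MulEquiv.symm_apply_apply]
    exact (fr z' hz').map k kD

theorem W1_mem (a b : Fin g → π) (c : Fin p → π) {n : ℕ} (m : ℕ) (hnm : n ≤ m) :
    (HP a b n)⁻¹ * HP a b m ∈ Rest a b c n := HP_diff_mem_Rest a b c n m hnm

theorem gen_ab' (hs : IsSurf a b c) {n : ℕ} (hn : n ≤ g) (h1 : 1 ≤ n) (i0 : Fin g)
    (hi0 : (i0 : ℕ) = 0) (m : Fin g) (hm : n ≤ (m : ℕ)) :
    QP a b c n i0 ((HP a b n)⁻¹ * HP a b m * (a m * b m * (a m)⁻¹) *
      ((HP a b n)⁻¹ * HP a b m)⁻¹) := by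
  obtain ⟨k, ka, kb, kl, kc⟩ := exists_swap hs m
  have h2 := gen_ab hs h1 i0 hi0 m hm _ (gen_a hs hn h1 i0 hi0 m hm) k ka kb kl kc
  have hHP : ∀ r : ℕ, r ≤ (m : ℕ) → k (HP a b r) = HP a b r := by
    intro r hr
    have h3 := map_HP k.toMonoidHom a b r
    have h4 : HP (fun i => k.toMonoidHom (a i)) (fun i => k.toMonoidHom (b i)) r = HP a b r := by
      refine HP_congr r (fun i hi => ?_)
      have h5 : i ≠ m := by
        intro h
        rw [h] at hi
        omega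
      exact kl i h5
    rw [h4] at h3
    exact h3
  rw [map_mul, map_mul, map_inv, map_mul, map_inv, hHP n hm, hHP m le_rfl, ka] at h2
  exact h2

theorem le_R0 (hs : IsSurf a b c) {n : ℕ} (hn : n ≤ g) (h1 : 1 ≤ n) (i0 : Fin g)
    (hi0 : (i0 : ℕ) = 0) : Rest a b c n ≤ R0 a b c n i0 := by
  -- one step
  have stepA : ∀ m : Fin g, n ≤ (m : ℕ) → (HP a b n)⁻¹ * HP a b m ∈ R0 a b c n i0 →
      a m ∈ R0 a b c n i0 ∧ b m ∈ R0 a b c n i0 := by
    intro m hm hW
    have hA : (HP a b n)⁻¹ * HP a b m * a m * ((HP a b n)⁻¹ * HP a b m)⁻¹ ∈ R0 a b c n i0 := by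
      refine ⟨?_, gen_a hs hn h1 i0 hi0 m hm⟩
      have hWR := W1_mem a b c (m : ℕ) hm
      exact (Rest a b c n).mul_mem ((Rest a b c n).mul_mem hWR (mem_Rest_a hm))
        ((Rest a b c n).inv_mem hWR)
    have hB : (HP a b n)⁻¹ * HP a b m * (a m * b m * (a m)⁻¹) *
        ((HP a b n)⁻¹ * HP a b m)⁻¹ ∈ R0 a b c n i0 := by
      refine ⟨?_, gen_ab' hs hn h1 i0 hi0 m hm⟩
      have hWR := W1_mem a b c (m : ℕ) hm
      exact (Rest a b c n).mul_mem ((Rest a b c n).mul_mem hWR ((Rest a b c n).mul_mem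
        ((Rest a b c n).mul_mem (mem_Rest_a hm) (mem_Rest_b hm))
        ((Rest a b c n).inv_mem (mem_Rest_a hm)))) ((Rest a b c n).inv_mem hWR)
    generalize (HP a b n)⁻¹ * HP a b m = W at hW hA hB
    have ha : a m ∈ R0 a b c n i0 := by
      have h3 := (R0 a b c n i0).mul_mem ((R0 a b c n i0).mul_mem
        ((R0 a b c n i0).inv_mem hW) hA) hW
      have e : W⁻¹ * (W * a m * W⁻¹) * W = a m := by group
      rwa [e] at h3
    refine ⟨ha, ?_⟩
    have h3 := (R0 a b c n i0).mul_mem ((R0 a b c n i0).mul_mem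
      ((R0 a b c n i0).inv_mem ((R0 a b c n i0).mul_mem hW ha)) hB)
      ((R0 a b c n i0).mul_mem hW ha)
    have e : (W * a m)⁻¹ * (W * (a m * b m * (a m)⁻¹) * W⁻¹) * (W * a m) = b m := by group
    rwa [e] at h3
  have hW : ∀ m : ℕ, n ≤ m → m ≤ g → (HP a b n)⁻¹ * HP a b m ∈ R0 a b c n i0 := by
    intro m hnm
    induction m, hnm using Nat.le_induction with
    | base =>
      intro _
      rw [inv_mul_cancel]
      exact (R0 a b c n i0).one_mem
    | succ k hk ih =>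
      intro hkg
      have hlt : k < g := by omega
      have h3 := ih (by omega)
      obtain ⟨ha, hb⟩ := stepA ⟨k, hlt⟩ hk h3
      have hsucc := HP_succ a b ⟨k, hlt⟩
      simp only at hsucc
      rw [hsucc, ← mul_assoc]
      exact (R0 a b c n i0).mul_mem h3 ((R0 a b c n i0).mul_mem ((R0 a b c n i0).mul_mem
        ((R0 a b c n i0).mul_mem ha hb) ((R0 a b c n i0).inv_mem ha))
        ((R0 a b c n i0).inv_mem hb))
  have hWg := hW g hn le_rfl
  have stepC : ∀ j : Fin p, (HP a b n)⁻¹ * HP a b g * CP c j ∈ R0 a b c n i0 →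
      c j ∈ R0 a b c n i0 := by
    intro j hW1
    have hC : (HP a b n)⁻¹ * HP a b g * CP c j * c j *
        ((HP a b n)⁻¹ * HP a b g * CP c j)⁻¹ ∈ R0 a b c n i0 := by
      refine ⟨?_, gen_c hs hn h1 i0 hi0 j⟩
      exact (Rest a b c n).mul_mem ((Rest a b c n).mul_mem hW1.1 (mem_Rest_c j))
        ((Rest a b c n).inv_mem hW1.1)
    generalize (HP a b n)⁻¹ * HP a b g * CP c j = W at hW1 hC
    have h3 := (R0 a b c n i0).mul_mem ((R0 a b c n i0).mul_mem
      ((R0 a b c n i0).inv_mem hW1) hC) hW1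
    have e : W⁻¹ * (W * c j * W⁻¹) * W = c j := by group
    rwa [e] at h3
  have hC : ∀ m : ℕ, m ≤ p → (HP a b n)⁻¹ * HP a b g * CP c m ∈ R0 a b c n i0 := by
    intro m
    induction m with
    | zero =>
      intro _
      rw [CP_zero, mul_one]
      exact hWg
    | succ k ih =>
      intro hkp
      have hlt : k < p := by omega
      have h3 := ih (by omega)
      have h4 := stepC ⟨k, hlt⟩ h3
      have hsucc := CP_succ c ⟨k, hlt⟩
      simp only at hsucc
      rw [hsucc, ← mul_assoc]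
      exact (R0 a b c n i0).mul_mem h3 h4
  rw [Rest, Subgroup.closure_le]
  rintro x (⟨i, hi, rfl | rfl⟩ | ⟨j, rfl⟩)
  · exact (stepA i hi (hW i hi i.2.le)).1
  · exact (stepA i hi (hW i hi i.2.le)).2
  · exact stepC j (hC j j.2.le)

end ClosF

section PH
variable {π : Type*} [Group π] {g p : ℕ} {a b : Fin g → π} {c : Fin p → π}

theorem foot_closure (hs : IsSurf a b c) (n : ℕ) (hn : n ≤ g) (h1 : 1 ≤ n) (i0 : Fin g)
    (hi0 : (i0 : ℕ) = 0) (w : π) (hw : w ∈ Rest a b c n) :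
    ∃ φ : π ≃* π, Punc c φ ∧ (a i0 * w)⁻¹ * φ (a i0) ∈ DB a b n ∧
      ∀ z ∈ Rest a b c n, z⁻¹ * φ z ∈ DB a b n := by
  obtain ⟨-, φ, h2, -, -, h3, h4⟩ := ClosF.le_R0 hs hn h1 i0 hi0 hw
  exact ⟨φ, h2, h3, h4⟩

/-- `foot_closure` with the invariance of `DB` under `φ` and `φ.symm` -/
theorem foot_closure' (hs : IsSurf a b c) (n : ℕ) (hn : n ≤ g) (h1 : 1 ≤ n) (i0 : Fin g)
    (hi0 : (i0 : ℕ) = 0) (w : π) (hw : w ∈ Rest a b c n) :
    ∃ φ : π ≃* π, Punc c φ ∧ (a i0 * w)⁻¹ * φ (a i0) ∈ DB a b n ∧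
      (∀ d ∈ DB a b n, φ d ∈ DB a b n) ∧ (∀ d ∈ DB a b n, φ.symm d ∈ DB a b n) ∧
      ∀ z ∈ Rest a b c n, z⁻¹ * φ z ∈ DB a b n := by
  obtain ⟨-, φ, h2, h5, h6, h3, h4⟩ := ClosF.le_R0 hs hn h1 i0 hi0 hw
  exact ⟨φ, h2, h3, h5, h6, h4⟩

end PH

end Pool.Agent.MP_d14a53_gt_PW
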