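import Mathlib
import Pool.Agent.Lib.MP_d14a53_gt_PW.ClosF
import Pool.Agent.Lib.MP_d14a53_gt_PW.Prin
import Pool.Agent.Lib.MP_d14a53_gt_PW.Twist

/-!
# MP_d14a53_gt (Putman-Wieland): a nonseparating curve in `N`

`Good.BN`: if the nonseparating curve `b 0` lies in `N`, then the cocycle `F` is principal on the
group `Rest 1` of the complement of the first handle. No transitivity is assumed. The proof uses
foot pushes, not only Dehn twists.
-/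

set_option autoImplicit false

noncomputable section

namespace Pool.Agent.MP_d14a53_gt_PW

open scoped RealInnerProductSpace

namespace BN
variable {π : Type*} [Group π] {g p : ℕ} {V : Type*} [NormedAddCommGroup V]
  [InnerProductSpace ℝ V] {a b : Fin g → π} {c : Fin p → π} {N : Subgroup π} {U : Submodule ℝ V}
  {ρ : π →* (V ≃ₗᵢ[ℝ] V)} {F : π → V}

theorem mem_DB (a b : Fin g → π) (i0 : Fin g) (hi0 : (i0 : ℕ) = 0) : b i0 ∈ DB a b 1 :=
  Subgroup.subset_normalClosure ⟨i0, by omega, Or.inl rfl⟩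

theorem DB_le (i0 : Fin g) (hi0 : (i0 : ℕ) = 0) (hN : N.Normal) (hb : b i0 ∈ N) :
    DB a b 1 ≤ N := by
  refine Subgroup.normalClosure_le_normal ?_
  rintro x ⟨i, hi, h | ⟨h, -⟩⟩
  · have : i = i0 := Fin.ext (by omega)
    rw [h, this]
    exact hb
  · omega

theorem DB_zero (h : Good c N U ρ F) (hs : IsSurf a b c) (i0 : Fin g) (hi0 : (i0 : ℕ) = 0)
    (hb : b i0 ∈ N) (d : π) (hd : d ∈ DB a b 1) : (∀ v ∈ U, ρ d v = v) ∧ F d = 0 := by
  refine h.normalClosure _ ?_ d hd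
  rintro x ⟨i, hi, hx | ⟨hx, -⟩⟩
  · have : i = i0 := Fin.ext (by omega)
    rw [hx, this]
    refine ⟨fun v hv => h.triv _ hb v hv, ?_⟩
    have h1 := h.twist_b hs i0 1 (by rwa [pow_one])
    rwa [pow_one] at h1
  · omega

theorem inner_rho (ρ : π →* (V ≃ₗᵢ[ℝ] V)) (x : π) (u v : V) : ⟪u, ρ x v⟫ = ⟪ρ x⁻¹ u, v⟫ := by
  have h := (ρ x⁻¹).inner_map_map u (ρ x v)
  rw [PI.rho_inv_self] at h
  exact h.symm

/-- the powers of a foot push -/
theorem pow_push (n : ℕ) (φ : π ≃* π) (a0 w : π) (hw : w ∈ Rest a b c n)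
    (h1 : (a0 * w)⁻¹ * φ a0 ∈ DB a b n) (h2 : ∀ d ∈ DB a b n, φ d ∈ DB a b n)
    (h3 : ∀ z ∈ Rest a b c n, z⁻¹ * φ z ∈ DB a b n) (k : ℕ) :
    (∀ d ∈ DB a b n, (φ ^ k) d ∈ DB a b n) ∧
      (∀ z ∈ Rest a b c n, ∃ d ∈ DB a b n, (φ ^ k) z = z * d) ∧
      ∃ d ∈ DB a b n, (φ ^ k) a0 = a0 * w ^ k * d := by
  have hn : (DB a b n).Normal := Subgroup.normalClosure_normal
  induction k with
  | zero =>
    refine ⟨fun d hd => hd, fun z _ => ⟨1, one_mem _, by simp⟩, ⟨1, one_mem _, by simp⟩⟩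
  | succ k ih =>
    obtain ⟨i1, i2, d0, hd0, i3⟩ := ih
    have hstep : ∀ x, (φ ^ (k + 1)) x = (φ ^ k) (φ x) := by
      intro x
      rw [pow_succ, MulAut.mul_apply]
    refine ⟨fun d hd => ?_, fun z hz => ?_, ?_⟩
    · rw [hstep]
      exact i1 _ (h2 d hd)
    · obtain ⟨d1, hd1, e1⟩ := i2 z hz
      have h4 : φ z = z * (z⁻¹ * φ z) := by group
      refine ⟨d1 * (φ ^ k) (z⁻¹ * φ z), mul_mem hd1 (i1 _ (h3 z hz)), ?_⟩
      rw [hstep]
      nth_rw 1 [h4]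
      rw [map_mul, e1, mul_assoc]
    · obtain ⟨d1, hd1, e1⟩ := i2 w hw
      obtain ⟨d2, hd2⟩ : ∃ d2, d2 = (a0 * w)⁻¹ * φ a0 := ⟨_, rfl⟩
      have h4 : φ a0 = a0 * w * d2 := by rw [hd2]; group
      rw [← hd2] at h1
      refine ⟨(w⁻¹ * d0 * w) * d1 * (φ ^ k) d2, mul_mem (mul_mem ?_ hd1) (i1 _ h1), ?_⟩
      · have h5 := hn.conj_mem d0 hd0 w⁻¹
        rwa [inv_inv] at h5
      · rw [hstep, h4, map_mul, map_mul, i3, e1, pow_succ]
        group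

/-- the effect of one foot push -/
theorem step1 (h : Good c N U ρ F) (hs : IsSurf a b c) (i0 : Fin g) (hi0 : (i0 : ℕ) = 0)
    (hb : b i0 ∈ N) (w : π) (hw : w ∈ Rest a b c 1) (hwN : w ∈ N) :
    ∃ y ∈ U, (∀ z ∈ Rest a b c 1, ρ z y = y) ∧ F w = y - ρ (a i0)⁻¹ y := by
  have hg : 1 ≤ g := by have := i0.2; omega
  obtain ⟨φ, hφ, h1, h2, -, h3⟩ := foot_closure' hs 1 hg le_rfl i0 hi0 w hw
  have hNn := h.normal
  have hDN : DB a b 1 ≤ N := DB_le i0 hi0 h.normal hb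
  have hDz := DB_zero h hs i0 hi0 hb
  have hcong : ∀ x, x⁻¹ * φ x ∈ N := by
    refine congr_of_gen hs N h.normal φ ?_ ?_ ?_
    · intro i
      by_cases hi : i = i0
      · subst hi
        have h4 : (a i)⁻¹ * φ (a i) = w * ((a i * w)⁻¹ * φ (a i)) := by group
        rw [h4]
        exact mul_mem hwN (hDN h1)
      · have hi' : 1 ≤ (i : ℕ) := by
          rcases Nat.eq_zero_or_pos (i : ℕ) with h5 | h5
          · exact absurd (Fin.ext (by omega)) hi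
          · exact h5
        exact hDN (h3 _ (Subgroup.subset_closure (Or.inl ⟨i, hi', Or.inl rfl⟩)))
    · intro i
      by_cases hi : i = i0
      · subst hi
        exact mul_mem (inv_mem hb) (hDN (h2 _ (mem_DB a b i hi0)))
      · have hi' : 1 ≤ (i : ℕ) := by
          rcases Nat.eq_zero_or_pos (i : ℕ) with h5 | h5
          · exact absurd (Fin.ext (by omega)) hi
          · exact h5
        exact hDN (h3 _ (Subgroup.subset_closure (Or.inl ⟨i, hi', Or.inr rfl⟩)))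
    · intro j
      exact hDN (h3 _ (Subgroup.subset_closure (Or.inr ⟨j, rfl⟩)))
  obtain ⟨k, hk, v, hv, hF⟩ := h.fo φ hφ hcong
  obtain ⟨-, p2, d0, hd0, p3⟩ := pow_push 1 φ (a i0) w hw h1 h2 h3 k
  have hvR : ∀ z ∈ Rest a b c 1, ρ z v = v := by
    intro z hz
    obtain ⟨d, hd, e⟩ := p2 z hz
    have h4 := hF z
    rw [e, h.mul_triv z d (hDz d hd).2] at h4
    exact sub_eq_zero.1 (left_eq_add.1 h4)
  have h5 := hF (a i0)
  rw [p3, h.mul_triv _ _ (hDz d0 hd0).2, h.coc,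
    h.pow_triv w (fun u hu => h.triv w hwN u hu), map_smul] at h5
  have h6 : (k : ℝ) • ρ (a i0) (F w) = ρ (a i0) v - v := add_left_cancel h5
  have h7 : (k : ℝ) • F w = v - ρ (a i0)⁻¹ v := by
    have h8 := congrArg (fun u => ρ (a i0)⁻¹ u) h6
    simp only [map_smul, map_sub, PI.rho_inv_self] at h8
    exact h8
  have hk0 : (k : ℝ) ≠ 0 := by exact_mod_cast hk.ne'
  refine ⟨(k : ℝ)⁻¹ • v, U.smul_mem _ hv, fun z hz => by rw [map_smul, hvR z hz], ?_⟩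
  rw [map_smul, ← smul_sub, ← h7, smul_smul, inv_mul_cancel₀ hk0, one_smul]

/-- the same after pushing the foot along `r` -/
theorem step2 (h : Good c N U ρ F) (hs : IsSurf a b c) (i0 : Fin g) (hi0 : (i0 : ℕ) = 0)
    (hb : b i0 ∈ N) (w : π) (hw : w ∈ Rest a b c 1) (hwN : w ∈ N) (r : π)
    (hr : r ∈ Rest a b c 1) :
    ∃ y ∈ U, (∀ z ∈ Rest a b c 1, ρ z y = y) ∧ F w = y - ρ r⁻¹ (ρ (a i0)⁻¹ y) := by
  have hg : 1 ≤ g := by have := i0.2; omega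
  obtain ⟨φ, hφ, h1, h2, -, h3⟩ := foot_closure' hs 1 hg le_rfl i0 hi0 r hr
  have hDN : DB a b 1 ≤ N := DB_le i0 hi0 h.normal hb
  have hDz := DB_zero h hs i0 hi0 hb
  have hwd : φ w = w * (w⁻¹ * φ w) := by group
  have hb' : b i0 ∈ N.comap φ.toMonoidHom := hDN (h2 _ (mem_DB a b i0 hi0))
  have hw' : w ∈ N.comap φ.toMonoidHom := by
    show φ w ∈ N
    rw [hwd]
    exact mul_mem hwN (hDN (h3 w hw))
  obtain ⟨y, hyU, hyR, hyF⟩ := step1 (h.comp φ hφ) hs i0 hi0 hb' w hw hw'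
  refine ⟨y, hyU, ?_, ?_⟩
  · intro z hz
    have h4 := hyR z hz
    have h5 : φ z = z * (z⁻¹ * φ z) := by group
    have h6 : ρ (φ z) y = y := h4
    rw [h5, PI.rho_mul, (hDz _ (h3 z hz)).1 y hyU] at h6
    exact h6
  · have h4 : F (φ w) = y - ρ (φ (a i0)⁻¹) y := hyF
    rw [hwd, h.mul_triv _ _ (hDz _ (h3 w hw)).2] at h4
    rw [h4]
    obtain ⟨d, hd⟩ : ∃ d, d = (a i0 * r)⁻¹ * φ (a i0) := ⟨_, rfl⟩
    rw [← hd] at h1
    have h5 : φ (a i0)⁻¹ = d⁻¹ * (r⁻¹ * (a i0)⁻¹) := by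
      rw [map_inv, hd]; group
    rw [h5, PI.rho_mul, PI.rho_mul,
      (hDz d⁻¹ (inv_mem h1)).1 _ (h.stab _ _ (h.stab _ _ hyU))]

/-- `F w` is fixed by the complement -/
theorem step3 (h : Good c N U ρ F) (hs : IsSurf a b c) (i0 : Fin g) (hi0 : (i0 : ℕ) = 0)
    (hb : b i0 ∈ N) (w : π) (hw : w ∈ Rest a b c 1) (hwN : w ∈ N) (r : π)
    (hr : r ∈ Rest a b c 1) : ρ r (F w) = F w := by
  obtain ⟨y1, -, hy1R, hF1⟩ := step1 h hs i0 hi0 hb w hw hwN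
  obtain ⟨y, -, hyR, hF⟩ := step2 h hs i0 hi0 hb w hw hwN r hr
  obtain ⟨δ, hδ⟩ : ∃ δ, δ = y - y1 := ⟨_, rfl⟩
  have hδr : ρ r δ = δ := by rw [hδ, map_sub, hyR r hr, hy1R r hr]
  have hδr' : ρ r⁻¹ δ = δ := by
    conv_lhs => rw [← hδr]
    exact PI.rho_inv_self ρ r δ
  have e1 : δ = ρ r⁻¹ (ρ (a i0)⁻¹ y) - ρ (a i0)⁻¹ y1 := by
    rw [hδ]
    have h1 : y - ρ r⁻¹ (ρ (a i0)⁻¹ y) = y1 - ρ (a i0)⁻¹ y1 := by rw [← hF, ← hF1]
    have h2 := sub_eq_sub_iff_add_eq_add.1 h1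
    rw [sub_eq_sub_iff_add_eq_add, h2, add_comm]
  have e2 : ⟪δ, δ⟫ = ⟪δ, ρ (a i0)⁻¹ δ⟫ := by
    have h1 : ⟪δ, δ⟫ = ⟪δ, ρ r⁻¹ (ρ (a i0)⁻¹ y) - ρ (a i0)⁻¹ y1⟫ :=
      congrArg (fun u => ⟪δ, u⟫) e1
    rw [h1, inner_sub_right, inner_rho, inv_inv, hδr, ← inner_sub_right, ← map_sub, ← hδ]
  have e3 : ρ (a i0)⁻¹ δ = δ := by
    have h1 : ‖δ - ρ (a i0)⁻¹ δ‖ ^ 2 = 0 := by
      rw [norm_sub_sq_real, ← e2, LinearIsometryEquiv.norm_map, real_inner_self_eq_norm_sq]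
      ring
    have h2 : δ - ρ (a i0)⁻¹ δ = 0 := by
      rwa [sq_eq_zero_iff, norm_eq_zero] at h1
    exact (sub_eq_zero.1 h2).symm
  have e4 : ρ r⁻¹ (ρ (a i0)⁻¹ y1) = ρ (a i0)⁻¹ y1 := by
    have h1 : y = y1 + δ := by rw [hδ]; abel
    have h2 : ρ r⁻¹ (ρ (a i0)⁻¹ y) = ρ r⁻¹ (ρ (a i0)⁻¹ y1) + δ := by
      rw [h1, map_add, map_add, e3, hδr']
    rw [h2] at e1
    have h3 : ρ r⁻¹ (ρ (a i0)⁻¹ y1) - ρ (a i0)⁻¹ y1 = 0 := by
      have h4 : δ = δ + (ρ r⁻¹ (ρ (a i0)⁻¹ y1) - ρ (a i0)⁻¹ y1) := by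
        conv_lhs => rw [e1]
        abel
      exact left_eq_add.1 h4
    exact sub_eq_zero.1 h3
  have e5 : ρ r (ρ (a i0)⁻¹ y1) = ρ (a i0)⁻¹ y1 := by
    conv_lhs => rw [← e4]
    exact PI.rho_self_inv ρ r _
  rw [hF1, map_sub, hy1R r hr, e5]

end BN

section
variable {π : Type*} [Group π] {g p : ℕ} {V : Type*} [NormedAddCommGroup V]
  [InnerProductSpace ℝ V] {a b : Fin g → π} {c : Fin p → π} {N : Subgroup π} {U : Submodule ℝ V}
  {ρ : π →* (V ≃ₗᵢ[ℝ] V)} {F : π → V}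

theorem Good.BN (h : Good c N U ρ F) (hs : IsSurf a b c) (i0 : Fin g) (hi0 : (i0 : ℕ) = 0)
    (hb : b i0 ∈ N) : ∃ v ∈ U, PrinOn ρ F (Rest a b c 1) v := by
  refine h.prin _ ?_
  intro w hw hwN
  have hfix : ∀ r ∈ Rest a b c 1, ρ r (F w) = F w := fun r hr =>
    BN.step3 h hs i0 hi0 hb w hw hwN r hr
  have hNn := h.normal
  have hNf := h.fin
  have hM : N.index ≠ 0 := Subgroup.FiniteIndex.index_ne_zero
  -- the homomorphism `z ↦ ⟪F z, F w⟫`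
  have hmul : ∀ x ∈ Rest a b c 1, ∀ y, ⟪F (x * y), F w⟫ = ⟪F x, F w⟫ + ⟪F y, F w⟫ := by
    intro x hx y
    rw [h.coc, inner_add_left]
    congr 1
    rw [real_inner_comm, BN.inner_rho, hfix x⁻¹ (inv_mem hx), real_inner_comm]
  have hpow : ∀ x ∈ Rest a b c 1, ∀ m : ℕ, ⟪F (x ^ m), F w⟫ = m * ⟪F x, F w⟫ := by
    intro x hx m
    induction m with
    | zero => rw [pow_zero, h.one, inner_zero_left, Nat.cast_zero, zero_mul]
    | succ m ih =>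
      rw [pow_succ', hmul x hx, ih]
      push_cast
      ring
  have hgen : ∀ x ∈ Rest a b c 1, F (x ^ N.index) = 0 → ⟪F x, F w⟫ = 0 := by
    intro x hx h0
    have h1 := hpow x hx N.index
    rw [h0, inner_zero_left] at h1
    rcases mul_eq_zero.1 h1.symm with h2 | h2
    · exact absurd (by exact_mod_cast h2) hM
    · exact h2
  have hall : ∀ x ∈ Rest a b c 1, ⟪F x, F w⟫ = 0 := by
    intro x hx
    refine Subgroup.closure_induction (p := fun z _ => ⟪F z, F w⟫ = 0) ?_ ?_ ?_ ?_ hx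
    · intro t ht
      have htR : t ∈ Rest a b c 1 := Subgroup.subset_closure ht
      refine hgen t htR ?_
      have htN : t ^ N.index ∈ N := Subgroup.pow_index_mem N _
      rcases ht with ⟨i, -, rfl | rfl⟩ | ⟨j, rfl⟩
      · exact h.twist_a hs i _ htN
      · exact h.twist_b hs i _ htN
      · exact h.per j _ htN
    · rw [h.one, inner_zero_left]
    · intro x y hx' _ h1 h2
      rw [hmul x hx', h1, h2, add_zero]
    · intro x hx' h1
      have h2 := hmul x hx' x⁻¹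
      rw [mul_inv_cancel, h.one, inner_zero_left, h1, zero_add] at h2
      exact h2.symm
  exact inner_self_eq_zero.1 (hall w hw)

end

end Pool.Agent.MP_d14a53_gt_PW
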