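import Mathlib
import Pool.Agent.Lib.MP_d14a53_gt_PW.ClosF
import Pool.Agent.Lib.MP_d14a53_gt_PW.Prin
import Pool.Agent.Lib.MP_d14a53_gt_PW.Twist

set_option autoImplicit false

noncomputable section

namespace Pool.Agent.MP_d14a53_gt_PW

open scoped RealInnerProductSpace

/-! ## module PM (A0.lean), imports ClosF, Prin, Twist: a trivial block -/
namespace PM

theorem smul_zero {V : Type*} [NormedAddCommGroup V] [InnerProductSpace ℝ V] {m : ℕ} (hm : 0 < m)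
    {x : V} (h : (m : ℝ) • x = 0) : x = 0 := by
  rcases smul_eq_zero.1 h with h | h
  · exact absurd (Nat.cast_eq_zero.1 h) hm.ne'
  · exact h

end PM

section PM
variable {π : Type*} [Group π] {g p : ℕ} {V : Type*} [NormedAddCommGroup V]
  [InnerProductSpace ℝ V] {a b : Fin g → π} {c : Fin p → π} {N : Subgroup π} {U : Submodule ℝ V}
  {ρ : π →* (V ≃ₗᵢ[ℝ] V)} {F : π → V}

theorem Good.A0 (h : Good c N U ρ F) (hs : IsSurf a b c) (n : ℕ) (hn : n ≤ g) (h1 : 1 ≤ n)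
    (ht : ∀ s ∈ Blk a b n, ∀ v ∈ U, ρ s v = v) : ∃ v ∈ U, PrinOn ρ F ⊤ v := by
  have hfin := h.fin
  have hpow : ∀ x : π, ∃ m : ℕ, 0 < m ∧ x ^ m ∈ N := fun x => by
    obtain ⟨m, hm, -, hx⟩ := Subgroup.exists_pow_mem_of_index_ne_zero hfin.index_ne_zero x
    exact ⟨m, hm, hx⟩
  have haB : ∀ i : Fin g, (i : ℕ) < n → a i ∈ Blk a b n := fun i hi =>
    Subgroup.subset_closure ⟨i, hi, Or.inl rfl⟩
  have hbB : ∀ i : Fin g, (i : ℕ) < n → b i ∈ Blk a b n := fun i hi =>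
    Subgroup.subset_closure ⟨i, hi, Or.inr rfl⟩
  have hFa : ∀ i : Fin g, (i : ℕ) < n → F (a i) = 0 := fun i hi => by
    obtain ⟨m, hm, hx⟩ := hpow (a i)
    have e := h.twist_a hs i m hx
    rw [h.pow_triv (a i) (ht _ (haB i hi)) m] at e
    exact PM.smul_zero hm e
  have hFb : ∀ i : Fin g, (i : ℕ) < n → F (b i) = 0 := fun i hi => by
    obtain ⟨m, hm, hx⟩ := hpow (b i)
    have e := h.twist_b hs i m hx
    rw [h.pow_triv (b i) (ht _ (hbB i hi)) m] at e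
    exact PM.smul_zero hm e
  have hDB : ∀ x ∈ DB a b n, (∀ v ∈ U, ρ x v = v) ∧ F x = 0 := fun x hx => by
    refine h.normalClosure _ ?_ x hx
    rintro s ⟨i, hi, rfl | ⟨-, rfl⟩⟩
    · exact ⟨ht _ (hbB i hi), hFb i hi⟩
    · exact ⟨ht _ (haB i hi), hFa i hi⟩
  have hg : 0 < g := lt_of_lt_of_le h1 hn
  have hi0 : ((⟨0, hg⟩ : Fin g) : ℕ) < n := h1
  have hR : ∀ w ∈ Rest a b c n, w ∈ N → F w = 0 := by
    intro w hw hwN
    obtain ⟨φ, hφ, hd, -⟩ := foot_closure hs n hn h1 ⟨0, hg⟩ rfl w hw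
    set d : π := (a ⟨0, hg⟩ * w)⁻¹ * φ (a ⟨0, hg⟩) with hdd
    have hφa : φ (a ⟨0, hg⟩) = a ⟨0, hg⟩ * w * d := by rw [hdd]; group
    have htr : ∀ v ∈ U, ρ (φ (a ⟨0, hg⟩)) v = v := by
      intro v hv
      rw [hφa, map_mul, map_mul]
      show ρ (a ⟨0, hg⟩) (ρ w (ρ d v)) = v
      rw [(hDB d hd).1 v hv, h.triv w hwN v hv, ht _ (haB _ hi0) v hv]
    obtain ⟨m, hm, hx⟩ := hpow (φ (a ⟨0, hg⟩))
    have e := h.scc hs ⟨0, hg⟩ φ hφ m hx
    rw [h.pow_triv _ htr m] at e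
    have e1 := PM.smul_zero hm e
    rw [hφa, h.mul_triv _ _ (hDB d hd).2, h.coc, hFa _ hi0, zero_add,
      ht _ (haB _ hi0) _ (h.val w)] at e1
    exact e1
  obtain ⟨v, hv, hP⟩ := h.prin (Rest a b c n) hR
  refine ⟨v, hv, ?_⟩
  have key := h.prin_closure ({x | ∃ i : Fin g, (i : ℕ) < n ∧ (x = a i ∨ x = b i)} ∪
    (Rest a b c n : Set π)) v ?_
  · rw [Subgroup.closure_union, Subgroup.closure_eq] at key
    have e : Subgroup.closure {x | ∃ i : Fin g, (i : ℕ) < n ∧ (x = a i ∨ x = b i)} ⊔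
        Rest a b c n = ⊤ := Blk_sup_Rest hs n
    rwa [e] at key
  · rintro x (⟨i, hi, rfl | rfl⟩ | hx)
    · rw [hFa i hi, ht _ (haB i hi) v hv, sub_self]
    · rw [hFb i hi, ht _ (hbB i hi) v hv, sub_self]
    · exact hP x hx

end PM

end Pool.Agent.MP_d14a53_gt_PW
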