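import Mathlib
import Pool.Agent.Lib.MP_d14a53_gt_PW.Lift
import Pool.Agent.Lib.MP_d14a53_gt_PW.Prod

/-!
# MP_d14a53_gt PW, module PD: pushing the block of the first `n` handles
-/

set_option autoImplicit false

noncomputable section

namespace Pool.Agent.MP_d14a53_gt_PW

open scoped RealInnerProductSpace

section PD
variable {π : Type*} [Group π] {g p : ℕ} {a b : Fin g → π} {c : Fin p → π}

theorem exists_push (hs : IsSurf a b c) (n : ℕ) (m : Fin g) (hm : n ≤ (m : ℕ)) (P d u : π)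
    (hP : P = HP a b m) (hd : d = P⁻¹ * HP a b n * P) (hu : u = P * a m * P⁻¹ * HP a b n) :
    ∃ φ : π ≃* π,
      (∀ i : Fin g, (i : ℕ) < n → φ (a i) = u * a i * u⁻¹ ∧ φ (b i) = u * b i * u⁻¹) ∧
      φ (a m) = d * a m * d⁻¹ ∧ φ (b m) = b m * d⁻¹ ∧
      (∀ i : Fin g, n ≤ (i : ℕ) → i ≠ m → φ (a i) = a i ∧ φ (b i) = b i) ∧
      ∀ j, φ (c j) = c j := by
  classical
  obtain ⟨C, hC⟩ : ∃ C, C = HP a b n := ⟨_, rfl⟩
  obtain ⟨x, hx⟩ : ∃ x, x = a m := ⟨_, rfl⟩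
  obtain ⟨y, hy⟩ : ∃ y, y = b m := ⟨_, rfl⟩
  rw [← hC] at hd hu
  rw [← hx] at hu
  have hmn : ¬ (m : ℕ) < n := not_lt.2 hm
  -- the two new systems
  let a1 : Fin g → π := fun i => if (i : ℕ) < n then u * a i * u⁻¹ else
    if i = m then d * x * d⁻¹ else a i
  let b1 : Fin g → π := fun i => if (i : ℕ) < n then u * b i * u⁻¹ else
    if i = m then y * d⁻¹ else b i
  let a2 : Fin g → π := fun i => if (i : ℕ) < n then u⁻¹ * a i * u else
    if i = m then x⁻¹ * d⁻¹ * x * d * x else a i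
  let b2 : Fin g → π := fun i => if (i : ℕ) < n then u⁻¹ * b i * u else
    if i = m then y * x⁻¹ * d * x else b i
  have a1lt : ∀ i : Fin g, (i : ℕ) < n → a1 i = u * a i * u⁻¹ := fun i hi => if_pos hi
  have b1lt : ∀ i : Fin g, (i : ℕ) < n → b1 i = u * b i * u⁻¹ := fun i hi => if_pos hi
  have a2lt : ∀ i : Fin g, (i : ℕ) < n → a2 i = u⁻¹ * a i * u := fun i hi => if_pos hi
  have b2lt : ∀ i : Fin g, (i : ℕ) < n → b2 i = u⁻¹ * b i * u := fun i hi => if_pos hi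
  have a1m : a1 m = d * x * d⁻¹ := by simp only [a1, if_neg hmn, if_pos]
  have b1m : b1 m = y * d⁻¹ := by simp only [b1, if_neg hmn, if_pos]
  have a2m : a2 m = x⁻¹ * d⁻¹ * x * d * x := by simp only [a2, if_neg hmn, if_pos]
  have b2m : b2 m = y * x⁻¹ * d * x := by simp only [b2, if_neg hmn, if_pos]
  have a1o : ∀ i : Fin g, n ≤ (i : ℕ) → i ≠ m → a1 i = a i := fun i hi him => by
    simp only [a1, if_neg (not_lt.2 hi), if_neg him]
  have b1o : ∀ i : Fin g, n ≤ (i : ℕ) → i ≠ m → b1 i = b i := fun i hi him => by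
    simp only [b1, if_neg (not_lt.2 hi), if_neg him]
  have a2o : ∀ i : Fin g, n ≤ (i : ℕ) → i ≠ m → a2 i = a i := fun i hi him => by
    simp only [a2, if_neg (not_lt.2 hi), if_neg him]
  have b2o : ∀ i : Fin g, n ≤ (i : ℕ) → i ≠ m → b2 i = b i := fun i hi him => by
    simp only [b2, if_neg (not_lt.2 hi), if_neg him]
  have nem : ∀ i : Fin g, (i : ℕ) ≠ (m : ℕ) → i ≠ m := fun i h h' => h (by rw [h'])
  -- the products of the first system
  have hn1 : HP a1 b1 n = u * C * u⁻¹ := by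
    rw [hC]; exact HP_conj u n fun i hi => ⟨a1lt i hi, b1lt i hi⟩
  have hm1 : HP a1 b1 m = u * C * u⁻¹ * C⁻¹ * P := by
    have h := HP_diff (a := a1) (b := b1) (a' := a) (b' := b) n m hm fun i h1 h2 =>
      ⟨a1o i h1 (nem i h2.ne), b1o i h1 (nem i h2.ne)⟩
    rw [hn1, ← hC, ← hP] at h
    rw [inv_mul_eq_iff_eq_mul] at h
    rw [h]; group
  have hms1 : HP a1 b1 ((m : ℕ) + 1) = HP a b ((m : ℕ) + 1) := by
    rw [HP_succ, HP_succ, hm1, a1m, b1m, ← hx, ← hy, ← hP, hu, hd]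
    group
  have hg1 : HP a1 b1 g = HP a b g := by
    have h := HP_diff (a := a1) (b := b1) (a' := a) (b' := b) ((m : ℕ) + 1) g m.2 fun i h1 h2 =>
      ⟨a1o i (by omega) (nem i (by omega)), b1o i (by omega) (nem i (by omega))⟩
    rw [hms1] at h
    exact mul_left_cancel h
  obtain ⟨φ, φa, φb, φc⟩ := surf_lift hs a1 b1 c (by rw [hg1]; exact surf_rel hs)
  -- the products of the second system
  have hn2 : HP a2 b2 n = u⁻¹ * C * u := by
    have h := HP_conj (a := a) (b := b) (a' := a2) (b' := b2) u⁻¹ n fun i hi => by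
      rw [inv_inv]; exact ⟨a2lt i hi, b2lt i hi⟩
    rw [h, hC, inv_inv]
  have hm2 : HP a2 b2 m = u⁻¹ * C * u * C⁻¹ * P := by
    have h := HP_diff (a := a2) (b := b2) (a' := a) (b' := b) n m hm fun i h1 h2 =>
      ⟨a2o i h1 (nem i h2.ne), b2o i h1 (nem i h2.ne)⟩
    rw [hn2, ← hC, ← hP] at h
    rw [inv_mul_eq_iff_eq_mul] at h
    rw [h]; group
  have hms2 : HP a2 b2 ((m : ℕ) + 1) = HP a b ((m : ℕ) + 1) := by
    rw [HP_succ, HP_succ, hm2, a2m, b2m, ← hx, ← hy, ← hP, hu, hd]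
    group
  have hg2 : HP a2 b2 g = HP a b g := by
    have h := HP_diff (a := a2) (b := b2) (a' := a) (b' := b) ((m : ℕ) + 1) g m.2 fun i h1 h2 =>
      ⟨a2o i (by omega) (nem i (by omega)), b2o i (by omega) (nem i (by omega))⟩
    rw [hms2] at h
    exact mul_left_cancel h
  obtain ⟨ψ, ψa, ψb, ψc⟩ := surf_lift hs a2 b2 c (by rw [hg2]; exact surf_rel hs)
  -- the images of `C, P, x, y`
  have φC : φ C = u * C * u⁻¹ := by
    rw [hC, map_HP, ← hC]
    rw [← hn1]; simp only [φa, φb]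
  have φP : φ P = u * C * u⁻¹ * C⁻¹ * P := by
    rw [hP, map_HP, ← hP]
    rw [← hm1]; simp only [φa, φb]
  have φx : φ x = d * x * d⁻¹ := by rw [hx, φa, a1m, hx]
  have φy : φ y = y * d⁻¹ := by rw [hy, φb, b1m, hy]
  have ψC : ψ C = u⁻¹ * C * u := by
    rw [hC, map_HP, ← hC]
    rw [← hn2]; simp only [ψa, ψb]
  have ψP : ψ P = u⁻¹ * C * u * C⁻¹ * P := by
    rw [hP, map_HP, ← hP]
    rw [← hm2]; simp only [ψa, ψb]
  have ψx : ψ x = x⁻¹ * d⁻¹ * x * d * x := by rw [hx, ψa, a2m, hx]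
  have ψy : ψ y = y * x⁻¹ * d * x := by rw [hy, ψb, b2m, hy]
  have φu : φ u = u := by
    rw [hu]; simp only [map_mul, map_inv, φC, φP, φx]; rw [hu, hd]; group
  have ψu : ψ u = u := by
    rw [hu]; simp only [map_mul, map_inv, ψC, ψP, ψx]; rw [hu, hd]; group
  have φd : φ d = (d * x) * d * (d * x)⁻¹ := by
    rw [hd]; simp only [map_mul, map_inv, φC, φP]; rw [hu]; group
  have ψd : ψ d = x⁻¹ * d * x := by
    rw [hd]; simp only [map_mul, map_inv, ψC, ψP]; rw [hu]; group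
  obtain ⟨Φ, hΦ⟩ := surf_aut hs φ ψ (by
    refine ⟨fun i => ?_, fun i => ?_, fun j => by rw [φc, ψc]⟩
    · rw [φa]
      by_cases h : (i : ℕ) < n
      · rw [a1lt i h]; simp only [map_mul, map_inv, ψu, ψa, a2lt i h]; group
      · by_cases h' : i = m
        · subst h'; rw [a1m, ← hx]; simp only [map_mul, map_inv, ψd, ψx]; group
        · rw [a1o i (not_lt.1 h) h', ψa, a2o i (not_lt.1 h) h']
    · rw [φb]
      by_cases h : (i : ℕ) < n
      · rw [b1lt i h]; simp only [map_mul, map_inv, ψu, ψb, b2lt i h]; group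
      · by_cases h' : i = m
        · subst h'; rw [b1m, ← hy]; simp only [map_mul, map_inv, ψd, ψy]; group
        · rw [b1o i (not_lt.1 h) h', ψb, b2o i (not_lt.1 h) h']) (by
    refine ⟨fun i => ?_, fun i => ?_, fun j => by rw [ψc, φc]⟩
    · rw [ψa]
      by_cases h : (i : ℕ) < n
      · rw [a2lt i h]; simp only [map_mul, map_inv, φu, φa, a1lt i h]; group
      · by_cases h' : i = m
        · subst h'; rw [a2m, ← hx]; simp only [map_mul, map_inv, φd, φx]; group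
        · rw [a2o i (not_lt.1 h) h', φa, a1o i (not_lt.1 h) h']
    · rw [ψb]
      by_cases h : (i : ℕ) < n
      · rw [b2lt i h]; simp only [map_mul, map_inv, φu, φb, b1lt i h]; group
      · by_cases h' : i = m
        · subst h'; rw [b2m, ← hy]; simp only [map_mul, map_inv, φd, φx, φy]; group
        · rw [b2o i (not_lt.1 h) h', φb, b1o i (not_lt.1 h) h'])
  refine ⟨Φ, fun i hi => ?_, ?_, ?_, fun i hi him => ?_, fun j => ?_⟩
  · rw [hΦ, hΦ, φa, φb]; exact ⟨a1lt i hi, b1lt i hi⟩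
  · rw [hΦ, φa, a1m, hx]
  · rw [hΦ, φb, b1m, hy]
  · rw [hΦ, hΦ, φa, φb]; exact ⟨a1o i hi him, b1o i hi him⟩
  · rw [hΦ, φc]

theorem exists_pushc (hs : IsSurf a b c) (n : ℕ) (hn : n ≤ g) (m : Fin p) (P d u : π)
    (hP : P = HP a b g * CP c m) (hd : d = P⁻¹ * HP a b n * P)
    (hu : u = P * c m * P⁻¹ * HP a b n) :
    ∃ φ : π ≃* π,
      (∀ i : Fin g, (i : ℕ) < n → φ (a i) = u * a i * u⁻¹ ∧ φ (b i) = u * b i * u⁻¹) ∧
      (∀ i : Fin g, n ≤ (i : ℕ) → φ (a i) = a i ∧ φ (b i) = b i) ∧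
      φ (c m) = d * c m * d⁻¹ ∧ ∀ j, j ≠ m → φ (c j) = c j := by
  classical
  obtain ⟨C, hC⟩ : ∃ C, C = HP a b n := ⟨_, rfl⟩
  obtain ⟨x, hx⟩ : ∃ x, x = c m := ⟨_, rfl⟩
  obtain ⟨G, hG⟩ : ∃ G, G = HP a b g := ⟨_, rfl⟩
  obtain ⟨Q, hQ⟩ : ∃ Q, Q = CP c m := ⟨_, rfl⟩
  obtain ⟨R, hR⟩ : ∃ R, R = CP c p := ⟨_, rfl⟩
  have hrel : G * R = 1 := by rw [hG, hR]; exact surf_rel hs
  rw [← hC] at hd hu
  rw [← hx] at hu
  rw [← hG, ← hQ] at hP
  let a1 : Fin g → π := fun i => if (i : ℕ) < n then u * a i * u⁻¹ else a i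
  let b1 : Fin g → π := fun i => if (i : ℕ) < n then u * b i * u⁻¹ else b i
  let c1 : Fin p → π := fun j => if j = m then d * x * d⁻¹ else c j
  let a2 : Fin g → π := fun i => if (i : ℕ) < n then u⁻¹ * a i * u else a i
  let b2 : Fin g → π := fun i => if (i : ℕ) < n then u⁻¹ * b i * u else b i
  let c2 : Fin p → π := fun j => if j = m then x⁻¹ * d⁻¹ * x * d * x else c j
  have a1lt : ∀ i : Fin g, (i : ℕ) < n → a1 i = u * a i * u⁻¹ := fun i hi => if_pos hi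
  have b1lt : ∀ i : Fin g, (i : ℕ) < n → b1 i = u * b i * u⁻¹ := fun i hi => if_pos hi
  have a2lt : ∀ i : Fin g, (i : ℕ) < n → a2 i = u⁻¹ * a i * u := fun i hi => if_pos hi
  have b2lt : ∀ i : Fin g, (i : ℕ) < n → b2 i = u⁻¹ * b i * u := fun i hi => if_pos hi
  have a1o : ∀ i : Fin g, n ≤ (i : ℕ) → a1 i = a i := fun i hi => if_neg (not_lt.2 hi)
  have b1o : ∀ i : Fin g, n ≤ (i : ℕ) → b1 i = b i := fun i hi => if_neg (not_lt.2 hi)
  have a2o : ∀ i : Fin g, n ≤ (i : ℕ) → a2 i = a i := fun i hi => if_neg (not_lt.2 hi)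
  have b2o : ∀ i : Fin g, n ≤ (i : ℕ) → b2 i = b i := fun i hi => if_neg (not_lt.2 hi)
  have c1m : c1 m = d * x * d⁻¹ := if_pos rfl
  have c2m : c2 m = x⁻¹ * d⁻¹ * x * d * x := if_pos rfl
  have c1o : ∀ j, j ≠ m → c1 j = c j := fun j hj => if_neg hj
  have c2o : ∀ j, j ≠ m → c2 j = c j := fun j hj => if_neg hj
  have nem : ∀ j : Fin p, (j : ℕ) ≠ (m : ℕ) → j ≠ m := fun i h h' => h (by rw [h'])
  have hn1 : HP a1 b1 n = u * C * u⁻¹ := by
    rw [hC]; exact HP_conj u n fun i hi => ⟨a1lt i hi, b1lt i hi⟩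
  have hg1 : HP a1 b1 g = u * C * u⁻¹ * C⁻¹ * G := by
    have h := HP_diff (a := a1) (b := b1) (a' := a) (b' := b) n g hn fun i h1 h2 =>
      ⟨a1o i h1, b1o i h1⟩
    rw [hn1, ← hC, ← hG] at h
    rw [inv_mul_eq_iff_eq_mul] at h
    rw [h]; group
  have hq1 : CP c1 m = Q := by
    rw [hQ]; exact CP_congr m fun j hj => c1o j (nem j hj.ne)
  have hqs1 : CP c1 ((m : ℕ) + 1) = Q * (d * x * d⁻¹) := by rw [CP_succ, hq1, c1m]
  have hqs : CP c ((m : ℕ) + 1) = Q * x := by rw [CP_succ, ← hQ, hx]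
  have hr1 : CP c1 p = Q * (d * x * d⁻¹) * (Q * x)⁻¹ * R := by
    have h := CP_diff (c := c1) (c' := c) ((m : ℕ) + 1) p m.2 fun j h1 h2 =>
      c1o j (nem j (by omega))
    rw [hqs1, hqs, ← hR] at h
    rw [inv_mul_eq_iff_eq_mul] at h
    rw [h]; group
  obtain ⟨φ, φa, φb, φc⟩ := surf_lift hs a1 b1 c1 (by
    rw [hg1, hr1]
    have : u * C * u⁻¹ * C⁻¹ * G * (Q * (d * x * d⁻¹) * (Q * x)⁻¹ * R) = G * R := by
      rw [hu, hd, hP]; group
    rw [this, hrel])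
  have hn2 : HP a2 b2 n = u⁻¹ * C * u := by
    have h := HP_conj (a := a) (b := b) (a' := a2) (b' := b2) u⁻¹ n fun i hi => by
      rw [inv_inv]; exact ⟨a2lt i hi, b2lt i hi⟩
    rw [h, hC, inv_inv]
  have hg2 : HP a2 b2 g = u⁻¹ * C * u * C⁻¹ * G := by
    have h := HP_diff (a := a2) (b := b2) (a' := a) (b' := b) n g hn fun i h1 h2 =>
      ⟨a2o i h1, b2o i h1⟩
    rw [hn2, ← hC, ← hG] at h
    rw [inv_mul_eq_iff_eq_mul] at h
    rw [h]; group
  have hq2 : CP c2 m = Q := by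
    rw [hQ]; exact CP_congr m fun j hj => c2o j (nem j hj.ne)
  have hqs2 : CP c2 ((m : ℕ) + 1) = Q * (x⁻¹ * d⁻¹ * x * d * x) := by rw [CP_succ, hq2, c2m]
  have hr2 : CP c2 p = Q * (x⁻¹ * d⁻¹ * x * d * x) * (Q * x)⁻¹ * R := by
    have h := CP_diff (c := c2) (c' := c) ((m : ℕ) + 1) p m.2 fun j h1 h2 =>
      c2o j (nem j (by omega))
    rw [hqs2, hqs, ← hR] at h
    rw [inv_mul_eq_iff_eq_mul] at h
    rw [h]; group
  obtain ⟨ψ, ψa, ψb, ψc⟩ := surf_lift hs a2 b2 c2 (by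
    rw [hg2, hr2]
    have : u⁻¹ * C * u * C⁻¹ * G * (Q * (x⁻¹ * d⁻¹ * x * d * x) * (Q * x)⁻¹ * R) = G * R := by
      rw [hu, hd, hP]; group
    rw [this, hrel])
  have φC : φ C = u * C * u⁻¹ := by
    rw [hC, map_HP, ← hC]
    rw [← hn1]; simp only [φa, φb]
  have φG : φ G = u * C * u⁻¹ * C⁻¹ * G := by
    rw [hG, map_HP, ← hG]
    rw [← hg1]; simp only [φa, φb]
  have φQ : φ Q = Q := by
    conv_lhs => rw [hQ]
    rw [map_CP]
    rw [← hq1]; simp only [φc]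
  have φx : φ x = d * x * d⁻¹ := by rw [hx, φc, c1m, hx]
  have φP : φ P = u * C * u⁻¹ * C⁻¹ * P := by
    rw [hP, map_mul, φG, φQ]; group
  have ψC : ψ C = u⁻¹ * C * u := by
    rw [hC, map_HP, ← hC]
    rw [← hn2]; simp only [ψa, ψb]
  have ψG : ψ G = u⁻¹ * C * u * C⁻¹ * G := by
    rw [hG, map_HP, ← hG]
    rw [← hg2]; simp only [ψa, ψb]
  have ψQ : ψ Q = Q := by
    conv_lhs => rw [hQ]
    rw [map_CP]
    rw [← hq2]; simp only [ψc]
  have ψx : ψ x = x⁻¹ * d⁻¹ * x * d * x := by rw [hx, ψc, c2m, hx]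
  have ψP : ψ P = u⁻¹ * C * u * C⁻¹ * P := by
    rw [hP, map_mul, ψG, ψQ]; group
  have φu : φ u = u := by
    rw [hu]; simp only [map_mul, map_inv, φC, φP, φx]; rw [hu, hd]; group
  have ψu : ψ u = u := by
    rw [hu]; simp only [map_mul, map_inv, ψC, ψP, ψx]; rw [hu, hd]; group
  have φd : φ d = (d * x) * d * (d * x)⁻¹ := by
    rw [hd]; simp only [map_mul, map_inv, φC, φP]; rw [hu]; group
  have ψd : ψ d = x⁻¹ * d * x := by
    rw [hd]; simp only [map_mul, map_inv, ψC, ψP]; rw [hu]; group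
  obtain ⟨Φ, hΦ⟩ := surf_aut hs φ ψ (by
    refine ⟨fun i => ?_, fun i => ?_, fun j => ?_⟩
    · rw [φa]
      by_cases h : (i : ℕ) < n
      · rw [a1lt i h]; simp only [map_mul, map_inv, ψu, ψa, a2lt i h]; group
      · rw [a1o i (not_lt.1 h), ψa, a2o i (not_lt.1 h)]
    · rw [φb]
      by_cases h : (i : ℕ) < n
      · rw [b1lt i h]; simp only [map_mul, map_inv, ψu, ψb, b2lt i h]; group
      · rw [b1o i (not_lt.1 h), ψb, b2o i (not_lt.1 h)]
    · rw [φc]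
      by_cases h' : j = m
      · subst h'; rw [c1m, ← hx]; simp only [map_mul, map_inv, ψd, ψx]; group
      · rw [c1o j h', ψc, c2o j h']) (by
    refine ⟨fun i => ?_, fun i => ?_, fun j => ?_⟩
    · rw [ψa]
      by_cases h : (i : ℕ) < n
      · rw [a2lt i h]; simp only [map_mul, map_inv, φu, φa, a1lt i h]; group
      · rw [a2o i (not_lt.1 h), φa, a1o i (not_lt.1 h)]
    · rw [ψb]
      by_cases h : (i : ℕ) < n
      · rw [b2lt i h]; simp only [map_mul, map_inv, φu, φb, b1lt i h]; group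
      · rw [b2o i (not_lt.1 h), φb, b1o i (not_lt.1 h)]
    · rw [ψc]
      by_cases h' : j = m
      · subst h'; rw [c2m, ← hx]; simp only [map_mul, map_inv, φd, φx]; group
      · rw [c2o j h', φc, c1o j h'])
  refine ⟨Φ, fun i hi => ?_, fun i hi => ?_, ?_, fun j hj => ?_⟩
  · rw [hΦ, hΦ, φa, φb]; exact ⟨a1lt i hi, b1lt i hi⟩
  · rw [hΦ, hΦ, φa, φb]; exact ⟨a1o i hi, b1o i hi⟩
  · rw [hΦ, φc, c1m, hx]
  · rw [hΦ, φc, c1o j hj]

end PD

end Pool.Agent.MP_d14a53_gt_PW
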