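import Mathlib
import Pool.Agent.Lib.MP_d14a53_gt_PW.Lift
import Pool.Agent.Lib.MP_d14a53_gt_PW.Tw
import Pool.Agent.Lib.MP_d14a53_gt_PW.Push
import Pool.Agent.Lib.MP_d14a53_gt_PW.Punc

/-!
# MP_d14a53_gt (Putman-Wieland), module PG: pushing a block along any element
-/

set_option autoImplicit false

noncomputable section

namespace Pool.Agent.MP_d14a53_gt_PW

open scoped RealInnerProductSpace

namespace PG

variable {π : Type*} [Group π] {g p : ℕ} {a b : Fin g → π} {c : Fin p → π}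

/-- the conclusion of `push_closure` -/
def Q (a b : Fin g → π) (c : Fin p → π) (n : ℕ) (w : π) : Prop :=
  ∃ φ : π ≃* π, Punc c φ ∧ ∃ u, w⁻¹ * u ∈ Subgroup.normalClosure {HP a b n} ∧
      (∀ s ∈ Blk a b n, φ s = u * s * u⁻¹) ∧
      ∀ z ∈ Rest a b c n, z⁻¹ * φ z ∈ Subgroup.normalClosure {HP a b n}

theorem map_D {n : ℕ} {φ : π ≃* π} {u : π} (h : ∀ s ∈ Blk a b n, φ s = u * s * u⁻¹) {x : π}
    (hx : x ∈ Subgroup.normalClosure {HP a b n}) : φ x ∈ Subgroup.normalClosure {HP a b n} := by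
  have h1 : Subgroup.normalClosure {HP a b n} ≤
      (Subgroup.normalClosure {HP a b n}).comap φ.toMonoidHom := by
    refine Subgroup.normalClosure_le_normal ?_
    rw [Set.singleton_subset_iff]
    show φ (HP a b n) ∈ Subgroup.normalClosure {HP a b n}
    rw [h _ (HP_mem_Blk a b n)]
    exact Subgroup.normalClosure_normal.conj_mem _
      (Subgroup.subset_normalClosure (Set.mem_singleton _)) _
  exact h1 hx

theorem symm_blk {n : ℕ} {φ : π ≃* π} {u : π} (h : ∀ s ∈ Blk a b n, φ s = u * s * u⁻¹) :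
    ∀ s ∈ Blk a b n, φ.symm s = φ.symm u⁻¹ * s * (φ.symm u⁻¹)⁻¹ := by
  intro s hs
  apply φ.injective
  rw [map_mul, map_mul, map_inv φ, φ.apply_symm_apply, φ.apply_symm_apply, h s hs]
  group

theorem Q_one (n : ℕ) : Q a b c n 1 := by
  refine ⟨MulEquiv.refl π, Punc.one, 1, ?_, ?_, ?_⟩
  · simp [one_mem]
  · intro s _
    simp
  · intro z _
    simp [one_mem]

theorem Q_mul {n : ℕ} {w₁ w₂ : π} (h₁ : Q a b c n w₁) (h₂ : Q a b c n w₂)
    (hw : w₂ ∈ Rest a b c n) : Q a b c n (w₂ * w₁) := by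
  obtain ⟨φ₁, p₁, u₁, e₁, b₁, r₁⟩ := h₁
  obtain ⟨φ₂, p₂, u₂, e₂, b₂, r₂⟩ := h₂
  have hn : (Subgroup.normalClosure {HP a b n}).Normal := Subgroup.normalClosure_normal
  refine ⟨φ₂.trans φ₁, p₂.trans p₁, φ₁ u₂ * u₁, ?_, ?_, ?_⟩
  · have h1 : φ₁ (w₂⁻¹ * u₂) ∈ Subgroup.normalClosure {HP a b n} := map_D b₁ e₂
    have h2 := r₁ w₂ hw
    have h3 : w₂⁻¹ * φ₁ u₂ ∈ Subgroup.normalClosure {HP a b n} := by
      have h4 := mul_mem h2 h1
      rw [map_mul, map_inv] at h4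
      have h5 : w₂⁻¹ * φ₁ w₂ * ((φ₁ w₂)⁻¹ * φ₁ u₂) = w₂⁻¹ * φ₁ u₂ := by group
      rwa [h5] at h4
    have h6 : (w₂ * w₁)⁻¹ * (φ₁ u₂ * u₁) =
        w₁⁻¹ * (w₂⁻¹ * φ₁ u₂) * w₁⁻¹⁻¹ * (w₁⁻¹ * u₁) := by group
    rw [h6]
    exact mul_mem (hn.conj_mem _ h3 _) e₁
  · intro s hs
    show φ₁ (φ₂ s) = _
    rw [b₂ s hs, map_mul, map_mul, map_inv, b₁ s hs]
    group
  · intro z hz
    show z⁻¹ * φ₁ (φ₂ z) ∈ _
    have h1 : φ₁ (z⁻¹ * φ₂ z) ∈ Subgroup.normalClosure {HP a b n} := map_D b₁ (r₂ z hz)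
    have h2 := mul_mem (r₁ z hz) h1
    rw [map_mul, map_inv] at h2
    have h3 : z⁻¹ * φ₁ z * ((φ₁ z)⁻¹ * φ₁ (φ₂ z)) = z⁻¹ * φ₁ (φ₂ z) := by group
    rwa [h3] at h2

theorem Q_inv {n : ℕ} {w : π} (h : Q a b c n w) (hw : w ∈ Rest a b c n) : Q a b c n w⁻¹ := by
  obtain ⟨φ, p₁, u, e₁, b₁, r₁⟩ := h
  have hn : (Subgroup.normalClosure {HP a b n}).Normal := Subgroup.normalClosure_normal
  have hsb := symm_blk b₁
  have hr : ∀ z ∈ Rest a b c n, z⁻¹ * φ.symm z ∈ Subgroup.normalClosure {HP a b n} := by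
    intro z hz
    have h1 : φ.symm (z⁻¹ * φ z) ∈ Subgroup.normalClosure {HP a b n} := map_D hsb (r₁ z hz)
    rw [map_mul, φ.symm_apply_apply, map_inv] at h1
    have h3 : ((φ.symm z)⁻¹ * z)⁻¹ = z⁻¹ * φ.symm z := by group
    rw [← h3]
    exact inv_mem h1
  refine ⟨φ.symm, p₁.symm, φ.symm u⁻¹, ?_, hsb, hr⟩
  have h1 : φ.symm (w⁻¹ * u) ∈ Subgroup.normalClosure {HP a b n} := map_D hsb e₁
  have h2 := mul_mem (hr w hw) h1
  rw [map_mul, map_inv] at h2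
  have h3 : w⁻¹ * φ.symm w * ((φ.symm w)⁻¹ * φ.symm u) = w⁻¹ * φ.symm u := by group
  rw [h3] at h2
  have h4 : w⁻¹⁻¹ * φ.symm u⁻¹ = w * (w⁻¹ * φ.symm u)⁻¹ * w⁻¹ := by
    rw [map_inv]
    group
  rw [h4]
  exact hn.conj_mem _ (inv_mem h2) _

/-- an automorphism on the block -/
theorem blk_of {n : ℕ} {φ : π ≃* π} {u : π} (h : ∀ i : Fin g, (i : ℕ) < n →
    φ (a i) = u * a i * u⁻¹ ∧ φ (b i) = u * b i * u⁻¹) :
    ∀ s ∈ Blk a b n, φ s = u * s * u⁻¹ := by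
  have h1 : Blk a b n ≤ (φ.toMonoidHom).eqLocus (MulAut.conj u).toMonoidHom := by
    unfold Blk
    rw [Subgroup.closure_le]
    rintro x ⟨i, hi, rfl | rfl⟩
    · exact (h i hi).1
    · exact (h i hi).2
  intro s hs
  exact h1 hs

/-- an automorphism on the rest -/
theorem rest_of {n : ℕ} {φ : π ≃* π} {N : Subgroup π} (hN : N.Normal)
    (h : ∀ i : Fin g, n ≤ (i : ℕ) → (a i)⁻¹ * φ (a i) ∈ N ∧ (b i)⁻¹ * φ (b i) ∈ N)
    (h' : ∀ j, (c j)⁻¹ * φ (c j) ∈ N) :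
    ∀ z ∈ Rest a b c n, z⁻¹ * φ z ∈ N := by
  intro z hz
  unfold Rest at hz
  induction hz using Subgroup.closure_induction with
  | mem x hx =>
    rcases hx with ⟨i, hi, rfl | rfl⟩ | ⟨j, rfl⟩
    · exact (h i hi).1
    · exact (h i hi).2
    · exact h' j
  | one => simp [one_mem]
  | mul x y _ _ hx hy =>
    have h1 : (x * y)⁻¹ * φ (x * y) = y⁻¹ * (x⁻¹ * φ x) * y⁻¹⁻¹ * (y⁻¹ * φ y) := by
      rw [map_mul]
      group
    rw [h1]
    exact mul_mem (hN.conj_mem _ hx _) hy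
  | inv x _ hx =>
    have h1 : x⁻¹⁻¹ * φ x⁻¹ = x * (x⁻¹ * φ x)⁻¹ * x⁻¹ := by
      rw [map_inv]
      group
    rw [h1]
    exact hN.conj_mem _ (inv_mem hx) _

/-- the push along a handle generator -/
theorem Q_handle (hs : IsSurf a b c) {n : ℕ} (m : Fin g) (hm : n ≤ (m : ℕ)) :
    Q a b c n ((HP a b n)⁻¹ * HP a b m * a m * ((HP a b n)⁻¹ * HP a b m)⁻¹) := by
  have hn : (Subgroup.normalClosure {HP a b n}).Normal := Subgroup.normalClosure_normal
  have hC : HP a b n ∈ Subgroup.normalClosure {HP a b n} :=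
    Subgroup.subset_normalClosure (Set.mem_singleton _)
  obtain ⟨φ, hφ, ha, hb, hab, hc⟩ := exists_push hs n m hm (HP a b m)
    ((HP a b m)⁻¹ * HP a b n * HP a b m) (HP a b m * a m * (HP a b m)⁻¹ * HP a b n) rfl rfl rfl
  have hd : (HP a b m)⁻¹ * HP a b n * HP a b m ∈ Subgroup.normalClosure {HP a b n} := by
    have := hn.conj_mem _ hC (HP a b m)⁻¹
    rwa [inv_inv] at this
  refine ⟨φ, Punc.of_fix hc, HP a b m * a m * (HP a b m)⁻¹ * HP a b n, ?_, blk_of hφ, ?_⟩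
  · have h1 : ((HP a b n)⁻¹ * HP a b m * a m * ((HP a b n)⁻¹ * HP a b m)⁻¹)⁻¹ *
        (HP a b m * a m * (HP a b m)⁻¹ * HP a b n) =
        ((HP a b n)⁻¹ * HP a b m * a m * ((HP a b n)⁻¹ * HP a b m)⁻¹)⁻¹ * HP a b n *
        ((HP a b n)⁻¹ * HP a b m * a m * ((HP a b n)⁻¹ * HP a b m)⁻¹)⁻¹⁻¹ := by group
    rw [h1]
    exact hn.conj_mem _ hC _
  · refine rest_of hn ?_ ?_
    · intro i hi
      by_cases him : i = m
      · subst him
        rw [ha, hb]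
        constructor
        · set d := (HP a b i)⁻¹ * HP a b n * HP a b i
          have h1 : (a i)⁻¹ * (d * a i * d⁻¹) = (a i)⁻¹ * d * (a i)⁻¹⁻¹ * d⁻¹ := by group
          rw [h1]
          exact mul_mem (hn.conj_mem _ hd _) (inv_mem hd)
        · rw [inv_mul_cancel_left]
          exact inv_mem hd
      · rw [(hab i hi him).1, (hab i hi him).2]
        simp [one_mem]
    · intro j
      rw [hc]
      simp [one_mem]

/-- the push along a peripheral generator -/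
theorem Q_per (hs : IsSurf a b c) {n : ℕ} (hng : n ≤ g) (m : Fin p) :
    Q a b c n ((HP a b n)⁻¹ * (HP a b g * CP c m) * c m *
      ((HP a b n)⁻¹ * (HP a b g * CP c m))⁻¹) := by
  have hn : (Subgroup.normalClosure {HP a b n}).Normal := Subgroup.normalClosure_normal
  have hC : HP a b n ∈ Subgroup.normalClosure {HP a b n} :=
    Subgroup.subset_normalClosure (Set.mem_singleton _)
  set P := HP a b g * CP c m with hP
  obtain ⟨φ, hφ, hab, hcm, hc⟩ := exists_pushc hs n hng m P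
    (P⁻¹ * HP a b n * P) (P * c m * P⁻¹ * HP a b n) rfl rfl rfl
  have hd : P⁻¹ * HP a b n * P ∈ Subgroup.normalClosure {HP a b n} := by
    have := hn.conj_mem _ hC P⁻¹
    rwa [inv_inv] at this
  refine ⟨φ, ?_, P * c m * P⁻¹ * HP a b n, ?_, blk_of hφ, ?_⟩
  · intro j
    by_cases hj : j = m
    · subst hj
      exact ⟨_, hcm⟩
    · exact ⟨1, by rw [hc j hj]; simp⟩
  · have h1 : ((HP a b n)⁻¹ * P * c m * ((HP a b n)⁻¹ * P)⁻¹)⁻¹ *
        (P * c m * P⁻¹ * HP a b n) =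
        ((HP a b n)⁻¹ * P * c m * ((HP a b n)⁻¹ * P)⁻¹)⁻¹ * HP a b n *
        ((HP a b n)⁻¹ * P * c m * ((HP a b n)⁻¹ * P)⁻¹)⁻¹⁻¹ := by group
    rw [h1]
    exact hn.conj_mem _ hC _
  · refine rest_of hn ?_ ?_
    · intro i hi
      rw [(hab i hi).1, (hab i hi).2]
      simp [one_mem]
    · intro j
      by_cases hj : j = m
      · subst hj
        rw [hcm]
        set d := P⁻¹ * HP a b n * P
        have h1 : (c j)⁻¹ * (d * c j * d⁻¹) = (c j)⁻¹ * d * (c j)⁻¹⁻¹ * d⁻¹ := by group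
        rw [h1]
        exact mul_mem (hn.conj_mem _ hd _) (inv_mem hd)
      · rw [hc j hj]
        simp [one_mem]

/-- the push along the other handle generator -/
theorem Q_handle' (hs : IsSurf a b c) {n : ℕ} (m : Fin g) (hm : n ≤ (m : ℕ)) :
    Q a b c n ((HP a b n)⁻¹ * HP a b m * (a m * b m * (a m)⁻¹) *
      ((HP a b n)⁻¹ * HP a b m)⁻¹) := by
  obtain ⟨k, ha, hb, hab, hc⟩ := exists_swap hs m
  have hs' := isSurf_of hs k
  have hcc : (fun j => k (c j)) = c := funext hc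
  rw [hcc] at hs'
  have hfix : ∀ i : Fin g, (i : ℕ) < m → k (a i) = a i ∧ k (b i) = b i := by
    intro i hi
    refine hab i fun h => ?_
    rw [h] at hi
    exact lt_irrefl _ hi
  have hHm : HP (fun i => k (a i)) (fun i => k (b i)) m = HP a b m :=
    HP_congr _ hfix
  have hHn : HP (fun i => k (a i)) (fun i => k (b i)) n = HP a b n :=
    HP_congr _ fun i hi => hfix i (lt_of_lt_of_le hi hm)
  have h := Q_handle hs' m hm
  simp only [hHm, hHn, ha] at h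
  obtain ⟨φ, h1, u, h2, h3, h4⟩ := h
  rw [hHn] at h2 h4
  refine ⟨φ, h1, u, h2, fun s hs1 => h3 s ?_, fun z hz => h4 z ?_⟩
  · refine (Subgroup.closure_le _).2 ?_ hs1
    rintro x ⟨i, hi, rfl | rfl⟩
    · exact Subgroup.subset_closure ⟨i, hi, Or.inl (hfix i (lt_of_lt_of_le hi hm)).1.symm⟩
    · exact Subgroup.subset_closure ⟨i, hi, Or.inr (hfix i (lt_of_lt_of_le hi hm)).2.symm⟩
  · refine (Subgroup.closure_le _).2 ?_ hz
    have hka : ∀ i : Fin g, n ≤ (i : ℕ) → k (a i) ∈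
        Rest (fun i => k (a i)) (fun i => k (b i)) c n := fun i hi =>
      Subgroup.subset_closure (Or.inl ⟨i, hi, Or.inl rfl⟩)
    have hkb : ∀ i : Fin g, n ≤ (i : ℕ) → k (b i) ∈
        Rest (fun i => k (a i)) (fun i => k (b i)) c n := fun i hi =>
      Subgroup.subset_closure (Or.inl ⟨i, hi, Or.inr rfl⟩)
    rintro x (⟨i, hi, rfl | rfl⟩ | ⟨j, rfl⟩)
    · by_cases him : i = m
      · subst him
        have h5 : a i = (k (b i))⁻¹ := by rw [hb, inv_inv]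
        rw [SetLike.mem_coe, h5]
        exact inv_mem (hkb i hi)
      · have h5 := hka i hi
        rwa [(hab i him).1] at h5
    · by_cases him : i = m
      · subst him
        have h5 : b i = k (b i) * k (a i) * (k (b i))⁻¹ := by
          rw [hb, ha]
          group
        rw [SetLike.mem_coe, h5]
        exact mul_mem (mul_mem (hkb i hi) (hka i hi)) (inv_mem (hkb i hi))
      · have h5 := hkb i hi
        rwa [(hab i him).2] at h5
    · exact Subgroup.subset_closure (Or.inr ⟨j, rfl⟩)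

/-- the good elements form a subgroup -/
def R0 (a b : Fin g → π) (c : Fin p → π) (n : ℕ) : Subgroup π where
  carrier := {w | w ∈ Rest a b c n ∧ Q a b c n w}
  mul_mem' := fun hx hy => ⟨mul_mem hx.1 hy.1, Q_mul hy.2 hx.2 hx.1⟩
  one_mem' := ⟨one_mem _, Q_one n⟩
  inv_mem' := fun hx => ⟨inv_mem hx.1, Q_inv hx.2 hx.1⟩

theorem conj_mem_iff {R : Subgroup π} {w x : π} (hw : w ∈ R) (h : w * x * w⁻¹ ∈ R) : x ∈ R := by
  have h1 : x = w⁻¹ * (w * x * w⁻¹) * w := by group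
  rw [h1]
  exact mul_mem (mul_mem (inv_mem hw) h) hw

theorem R0_handles (hs : IsSurf a b c) (n : ℕ) (m : ℕ) (hnm : n ≤ m) (hm : m ≤ g) :
    (HP a b n)⁻¹ * HP a b m ∈ R0 a b c n ∧
      ∀ l : Fin g, n ≤ (l : ℕ) → (l : ℕ) < m → a l ∈ R0 a b c n ∧ b l ∈ R0 a b c n := by
  induction m, hnm using Nat.le_induction with
  | base =>
    refine ⟨by simp [one_mem], fun l h1 h2 => absurd h2 (not_lt.2 h1)⟩
  | succ m hnm ih =>
    obtain ⟨ih1, ih2⟩ := ih (by omega)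
    have hmg : m < g := by omega
    have hR : ∀ x, (x = a ⟨m, hmg⟩ ∨ x = b ⟨m, hmg⟩) → x ∈ Rest a b c n := fun x hx =>
      Subgroup.subset_closure (Or.inl ⟨⟨m, hmg⟩, hnm, hx⟩)
    have hWR : (HP a b n)⁻¹ * HP a b m ∈ Rest a b c n := HP_diff_mem_Rest a b c n m hnm
    have hA : a ⟨m, hmg⟩ ∈ R0 a b c n := by
      refine conj_mem_iff ih1 ⟨?_, Q_handle hs ⟨m, hmg⟩ hnm⟩
      exact mul_mem (mul_mem hWR (hR _ (Or.inl rfl))) (inv_mem hWR)
    have hB' : a ⟨m, hmg⟩ * b ⟨m, hmg⟩ * (a ⟨m, hmg⟩)⁻¹ ∈ R0 a b c n := by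
      refine conj_mem_iff ih1 ⟨?_, Q_handle' hs ⟨m, hmg⟩ hnm⟩
      exact mul_mem (mul_mem hWR (mul_mem (mul_mem (hR _ (Or.inl rfl)) (hR _ (Or.inr rfl)))
        (inv_mem (hR _ (Or.inl rfl))))) (inv_mem hWR)
    have hB : b ⟨m, hmg⟩ ∈ R0 a b c n := conj_mem_iff hA hB'
    refine ⟨?_, fun l h1 h2 => ?_⟩
    · have h3 := HP_succ a b (⟨m, hmg⟩ : Fin g)
      simp only at h3
      rw [h3, ← mul_assoc]
      exact mul_mem ih1 (mul_mem (mul_mem (mul_mem hA hB) (inv_mem hA)) (inv_mem hB))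
    · by_cases hl : (l : ℕ) < m
      · exact ih2 l h1 hl
      · have h4 : l = ⟨m, hmg⟩ := Fin.ext (by simp only; omega)
        rw [h4]
        exact ⟨hA, hB⟩

theorem R0_per (hs : IsSurf a b c) (n : ℕ) (hn : n ≤ g) (m : ℕ) (hm : m ≤ p) :
    (HP a b n)⁻¹ * (HP a b g * CP c m) ∈ R0 a b c n ∧
      ∀ l : Fin p, (l : ℕ) < m → c l ∈ R0 a b c n := by
  induction m with
  | zero =>
    refine ⟨?_, fun l h => absurd h (Nat.not_lt_zero _)⟩
    rw [CP_zero, mul_one]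
    exact (R0_handles hs n g hn le_rfl).1
  | succ m ih =>
    obtain ⟨ih1, ih2⟩ := ih (by omega)
    have hmp : m < p := by omega
    have hWR : (HP a b n)⁻¹ * (HP a b g * CP c m) ∈ Rest a b c n := ih1.1
    have hcR : c ⟨m, hmp⟩ ∈ Rest a b c n := Subgroup.subset_closure (Or.inr ⟨_, rfl⟩)
    have hA : c ⟨m, hmp⟩ ∈ R0 a b c n := by
      refine conj_mem_iff ih1 ⟨?_, Q_per hs hn ⟨m, hmp⟩⟩
      exact mul_mem (mul_mem hWR hcR) (inv_mem hWR)
    refine ⟨?_, fun l h2 => ?_⟩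
    · have h3 := CP_succ c (⟨m, hmp⟩ : Fin p)
      simp only at h3
      rw [h3, ← mul_assoc, ← mul_assoc]
      rw [← mul_assoc] at ih1
      exact mul_mem ih1 hA
    · by_cases hl : (l : ℕ) < m
      · exact ih2 l hl
      · have h4 : l = ⟨m, hmp⟩ := Fin.ext (by simp only; omega)
        rw [h4]
        exact hA

end PG

section PG
variable {π : Type*} [Group π] {g p : ℕ} {a b : Fin g → π} {c : Fin p → π}

theorem push_closure (hs : IsSurf a b c) (n : ℕ) (hn : n ≤ g) (w : π) (hw : w ∈ Rest a b c n) :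
    ∃ φ : π ≃* π, Punc c φ ∧ ∃ u, w⁻¹ * u ∈ Subgroup.normalClosure {HP a b n} ∧
      (∀ s ∈ Blk a b n, φ s = u * s * u⁻¹) ∧
      ∀ z ∈ Rest a b c n, z⁻¹ * φ z ∈ Subgroup.normalClosure {HP a b n} := by
  have h1 : Rest a b c n ≤ PG.R0 a b c n := by
    refine (Subgroup.closure_le _).2 ?_
    rintro x (⟨i, hi, rfl | rfl⟩ | ⟨j, rfl⟩)
    · exact ((PG.R0_handles hs n g hn le_rfl).2 i hi i.2).1
    · exact ((PG.R0_handles hs n g hn le_rfl).2 i hi i.2).2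
    · exact (PG.R0_per hs n hn p le_rfl).2 j j.2
  exact (h1 hw).2

end PG

end Pool.Agent.MP_d14a53_gt_PW
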