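import Mathlib
import Pool.Agent.Lib.MP_d14a53_gt_PW.Defs
import Pool.Agent.Lib.MP_d14a53_gt_PW.Prod
import Pool.Agent.Lib.MP_d14a53_gt_PW.Lift
import Pool.Agent.Lib.MP_d14a53_gt_PW.Punc
import Pool.Agent.Lib.MP_d14a53_gt_PW.GoodB
import Pool.Agent.Lib.MP_d14a53_gt_PW.Prin
import Pool.Agent.Lib.MP_d14a53_gt_PW.SepG
import Pool.Agent.Lib.MP_d14a53_gt_PW.Clos
import Pool.Agent.Lib.MP_d14a53_gt_PW.A0

/-!
# MP_d14a53_gt (Putman-Wieland): the complement of a block
-/

set_option autoImplicit false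

noncomputable section

namespace Pool.Agent.MP_d14a53_gt_PW

open scoped RealInnerProductSpace

/-! ## helper lemmas for module PN -/
namespace PNaux

section grp
variable {π : Type*} [Group π]

/-- an endomorphism which maps `C` into its normal closure maps the normal closure to itself -/
theorem map_nc (C : π) (φ : π ≃* π) (hC : φ C ∈ Subgroup.normalClosure {C}) (x : π)
    (hx : x ∈ Subgroup.normalClosure {C}) : φ x ∈ Subgroup.normalClosure {C} := by
  have hle : Subgroup.normalClosure {C} ≤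
      (Subgroup.normalClosure {C}).comap φ.toMonoidHom := by
    have : ((Subgroup.normalClosure {C}).comap φ.toMonoidHom).Normal :=
      Subgroup.Normal.comap (Subgroup.normalClosure_normal) _
    apply Subgroup.normalClosure_le_normal
    intro y hy
    rw [Set.mem_singleton_iff] at hy
    subst hy
    exact hC
  exact hle hx

theorem iter_rest (D R : Subgroup π) (φ : π ≃* π)
    (hφD : ∀ x ∈ D, φ x ∈ D) (hR : ∀ z ∈ R, z⁻¹ * φ z ∈ D) (k : ℕ) :
    ∀ z ∈ R, z⁻¹ * (φ ^ k) z ∈ D := by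
  induction k with
  | zero =>
    intro z _
    simp
  | succ k ih =>
    intro z hz
    have h1 := ih z hz
    have h2 := hφD _ h1
    have h3 := hR z hz
    have h4 : (φ ^ (k + 1)) z = φ ((φ ^ k) z) := by
      rw [pow_succ']
      rfl
    have h5 : z⁻¹ * (φ ^ (k + 1)) z = (z⁻¹ * φ z) * φ (z⁻¹ * (φ ^ k) z) := by
      rw [h4, map_mul, map_inv]
      group
    rw [h5]
    exact D.mul_mem h3 h2

theorem iter_blk (D R B : Subgroup π) [hD : D.Normal] (φ : π ≃* π)
    (hφD : ∀ x ∈ D, φ x ∈ D) (hR : ∀ z ∈ R, z⁻¹ * φ z ∈ D) (w u : π) (hw : w ∈ R)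
    (hu : w⁻¹ * u ∈ D) (hB : ∀ s ∈ B, φ s = u * s * u⁻¹) (k : ℕ) :
    ∃ u', (w ^ k)⁻¹ * u' ∈ D ∧ ∀ s ∈ B, (φ ^ k) s = u' * s * u'⁻¹ := by
  induction k with
  | zero =>
    refine ⟨1, by simp, ?_⟩
    intro s _
    simp
  | succ k ih =>
    obtain ⟨u', hu', hs'⟩ := ih
    refine ⟨φ u' * u, ?_, ?_⟩
    · have h1 : (w ^ k)⁻¹ * φ (w ^ k) ∈ D := hR _ (R.pow_mem hw k)
      have h2 : φ ((w ^ k)⁻¹ * u') ∈ D := hφD _ hu'
      have h3 : (w ^ k)⁻¹ * φ u' ∈ D := by
        have : (w ^ k)⁻¹ * φ u' = ((w ^ k)⁻¹ * φ (w ^ k)) * φ ((w ^ k)⁻¹ * u') := by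
          rw [map_mul, map_inv]
          group
        rw [this]
        exact D.mul_mem h1 h2
      have h4 : w⁻¹ * ((w ^ k)⁻¹ * φ u') * w⁻¹⁻¹ ∈ D := hD.conj_mem _ h3 _
      have h5 : (w ^ (k + 1))⁻¹ * (φ u' * u) =
          (w⁻¹ * ((w ^ k)⁻¹ * φ u') * w⁻¹⁻¹) * (w⁻¹ * u) := by
        rw [pow_succ]
        group
      rw [h5]
      exact D.mul_mem h4 hu
    · intro s hs
      have h4 : (φ ^ (k + 1)) s = φ ((φ ^ k) s) := by
        rw [pow_succ']
        rfl
      rw [h4, hs' s hs, map_mul, map_mul, map_inv, hB s hs]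
      group

end grp

section coc
variable {π : Type*} [Group π] {g p : ℕ} {V : Type*} [NormedAddCommGroup V]
  [InnerProductSpace ℝ V] {a b : Fin g → π} {c : Fin p → π} {N : Subgroup π} {U : Submodule ℝ V}
  {ρ : π →* (V ≃ₗᵢ[ℝ] V)} {F : π → V}

theorem rho_mul (x y : π) (v : V) : ρ (x * y) v = ρ x (ρ y v) := by
  rw [map_mul]
  rfl

theorem rho_one (v : V) : ρ 1 v = v := by
  rw [map_one]
  rfl

theorem rho_inv_self (x : π) (v : V) : ρ x⁻¹ (ρ x v) = v := by
  rw [← rho_mul, inv_mul_cancel, rho_one]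

theorem rho_self_inv (x : π) (v : V) : ρ x (ρ x⁻¹ v) = v := by
  rw [← rho_mul, mul_inv_cancel, rho_one]

/-- Step 1 -/
theorem step1 (h : Good c N U ρ F) (hs : IsSurf a b c) (n : ℕ) (hn : n ≤ g)
    (hc : HP a b n ∈ N)
    (hinv : ∀ v ∈ U, (∀ z ∈ Rest a b c n, ρ z v = v) → ∀ x, ρ x v = v)
    (w : π) (hwR : w ∈ Rest a b c n) (hwN : w ∈ N) (s : π) (hsB : s ∈ Blk a b n) :
    ρ s (F w) = F w := by
  have hN : N.Normal := h.normal
  set D : Subgroup π := Subgroup.normalClosure {HP a b n} with hDdef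
  have hDn : D.Normal := Subgroup.normalClosure_normal
  have hFC : F (HP a b n) = 0 := h.sep hs n hn hc
  have hD : ∀ x ∈ D, (∀ v ∈ U, ρ x v = v) ∧ F x = 0 := by
    intro x hx
    apply h.normalClosure {HP a b n} _ x hx
    intro s hs
    rw [Set.mem_singleton_iff] at hs
    subst hs
    exact ⟨h.triv _ hc, hFC⟩
  have hDN : D ≤ N := by
    apply Subgroup.normalClosure_le_normal
    intro y hy
    rw [Set.mem_singleton_iff] at hy
    subst hy
    exact hc
  obtain ⟨φ, hφ, u, hu, hB, hR⟩ := push_closure hs n hn w hwR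
  have hCB : HP a b n ∈ Blk a b n := HP_mem_Blk a b n
  have hφC : φ (HP a b n) ∈ D := by
    rw [hB _ hCB]
    exact hDn.conj_mem _ (Subgroup.subset_normalClosure (Set.mem_singleton _)) _
  have hφD : ∀ x ∈ D, φ x ∈ D := fun x hx => map_nc _ φ hφC x hx
  have huN : u ∈ N := by
    have : u = w * (w⁻¹ * u) := by group
    rw [this]
    exact N.mul_mem hwN (hDN hu)
  have hBN : ∀ t ∈ Blk a b n, t⁻¹ * φ t ∈ N := by
    intro t ht
    rw [hB t ht]
    have : t⁻¹ * (u * t * u⁻¹) = (t⁻¹ * u * t⁻¹⁻¹) * u⁻¹ := by group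
    rw [this]
    exact N.mul_mem (hN.conj_mem _ huN _) (N.inv_mem huN)
  have hRN : ∀ t ∈ Rest a b c n, t⁻¹ * φ t ∈ N := fun t ht => hDN (hR t ht)
  have hφN : ∀ x, x⁻¹ * φ x ∈ N := by
    apply congr_of_gen hs N hN φ
    · intro i
      by_cases hi : (i : ℕ) < n
      · exact hBN _ (Subgroup.subset_closure ⟨i, hi, Or.inl rfl⟩)
      · exact hRN _ (Subgroup.subset_closure (Or.inl ⟨i, not_lt.mp hi, Or.inl rfl⟩))
    · intro i
      by_cases hi : (i : ℕ) < n
      · exact hBN _ (Subgroup.subset_closure ⟨i, hi, Or.inr rfl⟩)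
      · exact hRN _ (Subgroup.subset_closure (Or.inl ⟨i, not_lt.mp hi, Or.inr rfl⟩))
    · intro j
      exact hRN _ (Subgroup.subset_closure (Or.inr ⟨j, rfl⟩))
  obtain ⟨k, hk, v, hv, hfo⟩ := h.fo φ hφ hφN
  have hvR : ∀ z ∈ Rest a b c n, ρ z v = v := by
    intro z hz
    have h1 := iter_rest D (Rest a b c n) φ hφD hR k z hz
    have h2 : F ((φ ^ k) z) = F z := by
      have h3 : (φ ^ k) z = z * (z⁻¹ * (φ ^ k) z) := by group
      rw [h3]
      exact h.mul_triv _ _ (hD _ h1).2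
    have h4 := hfo z
    rw [h2] at h4
    have h5 : ρ z v - v = 0 := by
      have := h4
      rwa [left_eq_add] at this
    exact sub_eq_zero.mp h5
  have hvx : ∀ x, ρ x v = v := hinv v hv hvR
  have hFk : ∀ x, F ((φ ^ k) x) = F x := by
    intro x
    rw [hfo x, hvx x, sub_self, add_zero]
  obtain ⟨u', hu', hB'⟩ := iter_blk D (Rest a b c n) (Blk a b n) φ hφD hR w u hwR hu hB k
  have hu'N : u' ∈ N := by
    have : u' = w ^ k * ((w ^ k)⁻¹ * u') := by group
    rw [this]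
    exact N.mul_mem (N.pow_mem hwN k) (hDN hu')
  have hFu' : F u' = (k : ℝ) • F w := by
    have : u' = w ^ k * ((w ^ k)⁻¹ * u') := by group
    rw [this, h.mul_triv _ _ (hD _ hu').2]
    exact h.pow_triv w (h.triv w hwN) k
  have h1 := hFk s
  rw [hB' s hsB, h.conj] at h1
  have h2 : ρ u' (F s) = F s := h.triv _ hu'N _ (h.val s)
  have h3 : ρ (u' * s * u'⁻¹) (F u') = ρ s (F u') := by
    rw [rho_mul, rho_mul, h.triv _ (N.inv_mem hu'N) _ (h.val u')]
    exact h.triv _ hu'N _ (h.stab s _ (h.val u'))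
  rw [h2, h3] at h1
  have h4 : ρ s (F u') = F u' := by
    have h5 : F u' - ρ s (F u') = 0 := by
      have : F u' + F s - ρ s (F u') - F s = 0 := by rw [h1, sub_self]
      rw [← this]
      abel
    exact (sub_eq_zero.mp h5).symm
  rw [hFu', map_smul] at h4
  have hk' : (k : ℝ) ≠ 0 := by
    have : 0 < (k : ℝ) := by exact_mod_cast hk
    exact this.ne'
  exact smul_right_injective V hk' h4

/-- Step 2 -/
theorem step2 (h : Good c N U ρ F) (hs : IsSurf a b c) (n : ℕ)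
    (h1 : ∀ w ∈ Rest a b c n, w ∈ N → ∀ s ∈ Blk a b n, ρ s (F w) = F w)
    (w : π) (hwR : w ∈ Rest a b c n) (hwN : w ∈ N) (d : π)
    (hd : d ∈ Subgroup.normalClosure (Blk a b n : Set π)) :
    ρ d (F w) = F w := by
  have hN : N.Normal := h.normal
  have hz : ∀ z ∈ Rest a b c n, ∀ s ∈ Blk a b n, ρ s (ρ z (F w)) = ρ z (F w) := by
    intro z hz s hsB
    have hR : z * w * z⁻¹ ∈ Rest a b c n :=
      Subgroup.mul_mem _ (Subgroup.mul_mem _ hz hwR) (Subgroup.inv_mem _ hz)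
    have hNz : z * w * z⁻¹ ∈ N := hN.conj_mem _ hwN _
    have h2 : F (z * w * z⁻¹) = ρ z (F w) := by
      rw [h.conj, h.triv _ hNz _ (h.val z)]
      abel
    rw [← h2]
    exact h1 _ hR hNz s hsB
  have hM : ∀ x : π, ∀ y : V, (∃ z ∈ Rest a b c n, y = ρ z (F w)) →
      (∃ z ∈ Rest a b c n, ρ x y = ρ z (F w)) ∧ (∃ z ∈ Rest a b c n, ρ x⁻¹ y = ρ z (F w)) := by
    intro x
    have hx : x ∈ Blk a b n ⊔ Rest a b c n := by
      rw [Blk_sup_Rest hs n]
      exact Subgroup.mem_top x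
    rw [Subgroup.sup_eq_closure] at hx
    induction hx using Subgroup.closure_induction with
    | mem t ht =>
      rintro y ⟨z, hzR, rfl⟩
      rcases ht with ht | ht
      · refine ⟨⟨z, hzR, hz z hzR t ht⟩, ⟨z, hzR, hz z hzR t⁻¹ (Subgroup.inv_mem _ ht)⟩⟩
      · refine ⟨⟨t * z, Subgroup.mul_mem _ ht hzR, ?_⟩,
          ⟨t⁻¹ * z, Subgroup.mul_mem _ (Subgroup.inv_mem _ ht) hzR, ?_⟩⟩
        · rw [rho_mul]
        · rw [rho_mul]
    | one =>
      rintro y ⟨z, hzR, rfl⟩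
      refine ⟨⟨z, hzR, ?_⟩, ⟨z, hzR, ?_⟩⟩
      · rw [rho_one]
      · rw [inv_one, rho_one]
    | mul t t' _ _ ih ih' =>
      intro y hy
      constructor
      · rw [rho_mul]
        exact (ih _ (ih' y hy).1).1
      · rw [mul_inv_rev, rho_mul]
        exact (ih' _ (ih y hy).2).2
    | inv t _ ih =>
      intro y hy
      refine ⟨(ih y hy).2, ?_⟩
      rw [inv_inv]
      exact (ih y hy).1
  have hfix : ∀ x : π, ∀ s ∈ Blk a b n, ρ (x * s * x⁻¹) (F w) = F w := by
    intro x s hsB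
    obtain ⟨z, hzR, hzx⟩ := (hM x (F w) ⟨1, Subgroup.one_mem _, (rho_one _).symm⟩).2
    rw [rho_mul, rho_mul, hzx, hz z hzR s hsB, ← hzx]
    exact rho_self_inv x _
  have hstab : Subgroup.normalClosure (Blk a b n : Set π) ≤
      { carrier := {x : π | ρ x (F w) = F w}
        mul_mem' := by
          intro x y hx hy
          change ρ x (F w) = F w at hx
          change ρ y (F w) = F w at hy
          change ρ (x * y) (F w) = F w
          rw [rho_mul, hy, hx]
        one_mem' := by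
          change ρ 1 (F w) = F w
          exact rho_one _
        inv_mem' := by
          intro x hx
          change ρ x (F w) = F w at hx
          change ρ x⁻¹ (F w) = F w
          have := rho_inv_self (ρ := ρ) x (F w)
          rwa [hx] at this } := by
    rw [Subgroup.normalClosure, Subgroup.closure_le]
    intro y hy
    rw [Group.mem_conjugatesOfSet_iff] at hy
    obtain ⟨s, hsB, hconj⟩ := hy
    rw [isConj_iff] at hconj
    obtain ⟨x, hx⟩ := hconj
    change ρ y (F w) = F w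
    rw [← hx]
    exact hfix x s hsB
  exact hstab hd

end coc

end PNaux

section PN
variable {π : Type*} [Group π] {g p : ℕ} {V : Type*} [NormedAddCommGroup V]
  [InnerProductSpace ℝ V] {a b : Fin g → π} {c : Fin p → π} {N : Subgroup π} {U : Submodule ℝ V}
  {ρ : π →* (V ≃ₗᵢ[ℝ] V)} {F : π → V}

theorem Good.A (h : Good c N U ρ F) (hs : IsSurf a b c) (n : ℕ) (hn : n ≤ g) (h1 : 1 ≤ n)
    (hc : HP a b n ∈ N)
    (hinv : ∀ v ∈ U, (∀ z ∈ Rest a b c n, ρ z v = v) → ∀ x, ρ x v = v) :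
    ∃ v ∈ U, PrinOn ρ F (Rest a b c n) v := by
  have hst1 : ∀ w ∈ Rest a b c n, w ∈ N → ∀ s ∈ Blk a b n, ρ s (F w) = F w :=
    fun w hw hwN s hsB => PNaux.step1 h hs n hn hc hinv w hw hwN s hsB
  set D : Subgroup π := Subgroup.normalClosure (Blk a b n : Set π) with hDdef
  have hDn : D.Normal := Subgroup.normalClosure_normal
  have hst2 : ∀ w ∈ Rest a b c n, w ∈ N → ∀ d ∈ D, ρ d (F w) = F w :=
    fun w hw hwN d hd => PNaux.step2 h hs n hst1 w hw hwN d hd
  obtain ⟨E, hE1, hE2, hE3⟩ := h.exists_proj D hDn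
  let U' : Submodule ℝ V :=
    { carrier := {v : V | v ∈ U ∧ ∀ d ∈ D, ρ d v = v}
      add_mem' := by
        intro x y hx hy
        refine ⟨U.add_mem hx.1 hy.1, ?_⟩
        intro d hd
        rw [map_add, hx.2 d hd, hy.2 d hd]
      zero_mem' := by
        refine ⟨U.zero_mem, ?_⟩
        intro d _
        rw [map_zero]
      smul_mem' := by
        intro r x hx
        refine ⟨U.smul_mem r hx.1, ?_⟩
        intro d hd
        rw [map_smul, hx.2 d hd] }
  have hU' : U' ≤ U := fun v hv => hv.1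
  have hstab : ∀ x, ∀ v ∈ U', ρ x v ∈ U' := by
    intro x v hv
    refine ⟨h.stab x v hv.1, ?_⟩
    intro d hd
    have h2 : d * x = x * (x⁻¹ * d * x⁻¹⁻¹) := by group
    rw [← PNaux.rho_mul, h2, PNaux.rho_mul, hv.2 _ (hDn.conj_mem d hd x⁻¹)]
  have hEU : ∀ v ∈ U, E v ∈ U' := fun v hv => hE1 v hv
  have hG := h.proj E U' hU' hstab hE3 hEU
  obtain ⟨v', hv', hP⟩ := hG.A0 hs n hn h1
    (fun s hsB v hv => hv.2 s (Subgroup.subset_normalClosure hsB))
  apply h.prin (Rest a b c n)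
  intro w hw hwN
  have h2 : E (F w) = ρ w v' - v' := hP w (Subgroup.mem_top w)
  rw [h.triv w hwN v' (hU' hv'), sub_self] at h2
  rw [← hE2 (F w) (h.val w) (hst2 w hw hwN)]
  exact h2

end PN

end Pool.Agent.MP_d14a53_gt_PW
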