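import Mathlib

/-!
# MP_d14a53_gt (Putman-Wieland): circulations on a finite directed graph

`circ_zero`: a weight which has sum zero on every directed cycle without repeated vertices is
orthogonal to every nonnegative circulation.
-/

set_option autoImplicit false

noncomputable section

namespace Pool.Agent.MP_d14a53_gt_PW.Cyc

open Finset

variable {X Ω : Type*} [Fintype X] [DecidableEq X] [Finite Ω] [DecidableEq Ω]

/-- a directed cycle of length `n` without repeated vertices -/
structure IsCyc (tl hd : X → Ω) (n : ℕ) (x : ℕ → X) : Prop where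
  pos : 0 < n
  per : ∀ i, x (i + n) = x i
  next : ∀ i, tl (x (i + 1)) = hd (x i)
  inj : ∀ i < n, ∀ j < n, hd (x i) = hd (x j) → i = j

omit [DecidableEq X] in
/-- a nonzero nonnegative circulation contains a cycle in its support -/
theorem exists_cyc (tl hd : X → Ω) (f : X → ℝ) (hf : ∀ x, 0 ≤ f x)
    (hc : ∀ Y : Ω, ∑ x with tl x = Y, f x = ∑ x with hd x = Y, f x) (x0 : X) (hx0 : 0 < f x0) :
    ∃ n x, IsCyc tl hd n x ∧ ∀ i, 0 < f (x i) := by
  classical
  -- an outgoing edge in the support
  have hout : ∀ Y : Ω, (∃ x, 0 < f x ∧ hd x = Y) → ∃ y, tl y = Y ∧ 0 < f y := by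
    rintro Y ⟨x, hx, hxY⟩
    by_contra hcon
    push Not at hcon
    have h1 : ∑ x with tl x = Y, f x ≤ 0 := by
      refine Finset.sum_nonpos ?_
      intro y hy
      exact hcon y (Finset.mem_filter.1 hy).2
    have h2 : f x ≤ ∑ x with hd x = Y, f x :=
      Finset.single_le_sum (f := f) (fun y _ => hf y)
        (Finset.mem_filter.2 ⟨Finset.mem_univ x, hxY⟩)
    have h3 := hc Y
    linarith
  have hν : ∀ Y : Ω, ∃ y : X, (∃ x, 0 < f x ∧ hd x = Y) → tl y = Y ∧ 0 < f y := by
    intro Y
    by_cases h : ∃ x, 0 < f x ∧ hd x = Y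
    · obtain ⟨y, hy⟩ := hout Y h
      exact ⟨y, fun _ => hy⟩
    · exact ⟨x0, fun h' => absurd h' h⟩
  choose ν hν using hν
  let T : Ω → Ω := fun Y => hd (ν Y)
  have hgood : ∀ i : ℕ, ∃ x, 0 < f x ∧ hd x = T^[i] (hd x0) := by
    intro i
    induction i with
    | zero => exact ⟨x0, hx0, rfl⟩
    | succ i ih =>
      refine ⟨ν (T^[i] (hd x0)), (hν _ ih).2, ?_⟩
      rw [Function.iterate_succ_apply']
  -- a periodic point
  obtain ⟨i, j, hij, hper⟩ : ∃ i j : ℕ, i < j ∧ T^[i] (hd x0) = T^[j] (hd x0) := by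
    have h1 : ¬ Function.Injective (fun i : ℕ => T^[i] (hd x0)) :=
      not_injective_infinite_finite _
    rw [Function.not_injective_iff] at h1
    obtain ⟨i, j, h2, h3⟩ := h1
    rcases Nat.lt_or_gt_of_ne h3 with h4 | h4
    · exact ⟨i, j, h4, h2⟩
    · exact ⟨j, i, h4, h2.symm⟩
  obtain ⟨y, hy⟩ : ∃ y, y = T^[i] (hd x0) := ⟨_, rfl⟩
  have hyper : y ∈ Function.periodicPts T := by
    refine ⟨j - i, by omega, ?_⟩
    show T^[j - i] y = y
    rw [hy, ← Function.iterate_add_apply, Nat.sub_add_cancel hij.le, ← hper]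
  have hpos : 0 < Function.minimalPeriod T y := Function.minimalPeriod_pos_of_mem_periodicPts hyper
  obtain ⟨n, hn⟩ : ∃ n, n = Function.minimalPeriod T y := ⟨_, rfl⟩
  have hTn : T^[n] y = y := by rw [hn]; exact Function.iterate_minimalPeriod
  have hgy : ∀ l : ℕ, ∃ x, 0 < f x ∧ hd x = T^[l] y := by
    intro l
    rw [hy, ← Function.iterate_add_apply]
    exact hgood _
  have hinj : ∀ l < n, ∀ m < n, T^[l] y = T^[m] y → l = m := by
    intro l hl m hm h
    rw [hn] at hl hm
    exact Function.iterate_injOn_Iio_minimalPeriod hl hm h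
  refine ⟨n, fun l => ν (T^[l] y), ⟨by omega, ?_, ?_, ?_⟩, fun l => (hν _ (hgy l)).2⟩
  · intro l
    show ν (T^[l + n] y) = ν (T^[l] y)
    rw [Function.iterate_add_apply, hTn]
  · intro l
    show tl (ν (T^[l + 1] y)) = hd (ν (T^[l] y))
    rw [(hν _ (hgy (l + 1))).1, Function.iterate_succ_apply']
  · intro l hl m hm h
    have h1 : T^[l + 1] y = T^[m + 1] y := by
      rw [Function.iterate_succ_apply', Function.iterate_succ_apply']
      exact h
    have h2 : T^[n - 1] (T^[l + 1] y) = T^[n - 1] (T^[m + 1] y) := by rw [h1]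
    rw [← Function.iterate_add_apply, ← Function.iterate_add_apply] at h2
    have e1 : n - 1 + (l + 1) = l + n := by omega
    have e2 : n - 1 + (m + 1) = m + n := by omega
    rw [e1, e2, Function.iterate_add_apply, Function.iterate_add_apply, hTn] at h2
    exact hinj l hl m hm h2

theorem circ_zero (tl hd : X → Ω) (w : X → ℝ)
    (hw : ∀ n x, IsCyc tl hd n x → ∑ i ∈ range n, w (x i) = 0) :
    ∀ (m : ℕ) (f : X → ℝ), (∀ x, 0 ≤ f x) →
      (∀ Y : Ω, ∑ x with tl x = Y, f x = ∑ x with hd x = Y, f x) →
      #{x | f x ≠ 0} = m → ∑ x, w x * f x = 0 := by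
  intro m
  induction m using Nat.strong_induction_on with
  | _ m ih =>
  intro f hf hc hm
  by_cases h0 : ∀ x, f x = 0
  · simp [h0]
  push Not at h0
  obtain ⟨x0, hx0⟩ := h0
  obtain ⟨n, x, hx, hxf⟩ := exists_cyc tl hd f hf hc x0 (lt_of_le_of_ne (hf x0) (Ne.symm hx0))
  have hne : (range n).Nonempty := ⟨0, Finset.mem_range.2 hx.pos⟩
  obtain ⟨i1, hi1, hmin⟩ := Finset.exists_min_image (range n) (fun i => f (x i)) hne
  rw [Finset.mem_range] at hi1
  obtain ⟨l, hl⟩ : ∃ l, l = f (x i1) := ⟨_, rfl⟩
  have hlpos : 0 < l := by rw [hl]; exact hxf i1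
  -- the indicator function of the cycle
  let χ : X → ℝ := fun y => ∑ i ∈ range n, if x i = y then (1 : ℝ) else 0
  have hχx : ∀ i < n, χ (x i) = 1 := by
    intro i hi
    show (∑ j ∈ range n, if x j = x i then (1 : ℝ) else 0) = 1
    rw [Finset.sum_eq_single i]
    · simp
    · intro j hj hji
      rw [if_neg]
      intro h
      exact hji (hx.inj j (Finset.mem_range.1 hj) i hi (by rw [h]))
    · intro h
      exact absurd (Finset.mem_range.2 hi) h
  have hχ0 : ∀ y, (∀ i < n, x i ≠ y) → χ y = 0 := by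
    intro y hy
    refine Finset.sum_eq_zero ?_
    intro i hi
    rw [if_neg (hy i (Finset.mem_range.1 hi))]
  have hsum : ∀ G : X → ℝ, ∑ y, G y * χ y = ∑ i ∈ range n, G (x i) := by
    intro G
    have h1 : ∀ y, G y * χ y = ∑ i ∈ range n, if x i = y then G (x i) else 0 := by
      intro y
      show G y * (∑ i ∈ range n, if x i = y then (1 : ℝ) else 0) = _
      rw [Finset.mul_sum]
      refine Finset.sum_congr rfl ?_
      intro i _
      by_cases h : x i = y
      · rw [if_pos h, if_pos h, h, mul_one]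
      · rw [if_neg h, if_neg h, mul_zero]
    simp only [h1]
    rw [Finset.sum_comm]
    refine Finset.sum_congr rfl ?_
    intro i _
    simp
  -- the circulation without the cycle
  let f' : X → ℝ := fun y => f y - l * χ y
  have hf' : ∀ y, 0 ≤ f' y := by
    intro y
    show 0 ≤ f y - l * χ y
    by_cases h : ∃ i < n, x i = y
    · obtain ⟨i, hi, rfl⟩ := h
      rw [hχx i hi, mul_one, hl]
      have := hmin i (Finset.mem_range.2 hi)
      linarith
    · push Not at h
      rw [hχ0 y h, mul_zero, sub_zero]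
      exact hf y
  have hshift : ∀ G : ℕ → ℝ, (G n = G 0) → ∑ i ∈ range n, G (i + 1) = ∑ i ∈ range n, G i := by
    intro G hG
    have h1 := Finset.sum_range_succ' G n
    have h2 := Finset.sum_range_succ G n
    rw [hG] at h2
    linarith
  have hc' : ∀ Y : Ω, ∑ x with tl x = Y, f' x = ∑ x with hd x = Y, f' x := by
    intro Y
    have e1 : ∀ (q : X → Ω), ∑ y with q y = Y, f' y =
        ∑ y with q y = Y, f y - l * ∑ i ∈ range n, (if q (x i) = Y then (1 : ℝ) else 0) := by
      intro q
      have h1 := hsum (fun y => if q y = Y then (1 : ℝ) else 0)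
      rw [← h1, Finset.mul_sum, Finset.sum_filter, Finset.sum_filter, ← Finset.sum_sub_distrib]
      refine Finset.sum_congr rfl ?_
      intro y _
      by_cases h : q y = Y
      · simp only [if_pos h, one_mul]
        rfl
      · simp only [if_neg h, zero_mul, mul_zero, sub_zero]
    rw [e1 tl, e1 hd, hc Y]
    congr 2
    have h2 := hshift (fun i => if tl (x i) = Y then (1 : ℝ) else 0) (by
      have := hx.per 0
      rw [zero_add] at this
      simp only [this])
    rw [← h2]
    refine Finset.sum_congr rfl ?_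
    intro i _
    rw [hx.next i]
  have hlt : #{y | f' y ≠ 0} < m := by
    rw [← hm]
    refine Finset.card_lt_card ?_
    rw [Finset.ssubset_iff_of_subset]
    · refine ⟨x i1, ?_, ?_⟩
      · rw [Finset.mem_filter]
        exact ⟨Finset.mem_univ _, (hxf i1).ne'⟩
      · rw [Finset.mem_filter, not_and, not_not]
        intro _
        show f (x i1) - l * χ (x i1) = 0
        rw [hχx i1 hi1, hl]
        ring
    · intro y hy
      rw [Finset.mem_filter] at hy ⊢
      refine ⟨Finset.mem_univ _, ?_⟩
      intro h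
      apply hy.2
      show f y - l * χ y = 0
      by_cases h3 : ∃ i < n, x i = y
      · obtain ⟨i, hi, rfl⟩ := h3
        exact absurd h (hxf i).ne'
      · push Not at h3
        rw [h, hχ0 y h3]
        ring
  have hfin := ih _ hlt f' hf' hc' rfl
  have h4 : ∑ y, w y * f y = ∑ y, w y * f' y + l * ∑ y, w y * χ y := by
    rw [Finset.mul_sum, ← Finset.sum_add_distrib]
    refine Finset.sum_congr rfl ?_
    intro y _
    show w y * f y = w y * (f y - l * χ y) + l * (w y * χ y)
    ring
  rw [h4, hfin, hsum w, hw n x hx]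
  ring

/-- periodic functions all whose windows of length `M` have sum zero -/
theorem sum_periodic (G : ℕ → ℝ) (n M : ℕ) (hM : 0 < M) (hG : ∀ i, G (i + n) = G i)
    (hw : ∀ s, ∑ t ∈ range M, G (s + t) = 0) : ∑ i ∈ range n, G i = 0 := by
  have h1 : ∀ k : ℕ, ∑ i ∈ range (M * k), G i = 0 := by
    intro k
    induction k with
    | zero => simp
    | succ k ih =>
      rw [Nat.mul_succ, Finset.sum_range_add, ih, zero_add]
      exact hw _
  have hG' : ∀ k i, G (n * k + i) = G i := by
    intro k
    induction k with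
    | zero => intro i; simp
    | succ k ih =>
      intro i
      have : n * (k + 1) + i = (n * k + i) + n := by ring
      rw [this, hG, ih]
  have h2 : ∀ k : ℕ, ∑ i ∈ range (n * k), G i = k * ∑ i ∈ range n, G i := by
    intro k
    induction k with
    | zero => simp
    | succ k ih =>
      rw [Nat.mul_succ, Finset.sum_range_add, ih]
      simp only [hG']
      push_cast
      ring
  have h3 := h1 n
  rw [mul_comm, h2 M] at h3
  rcases mul_eq_zero.1 h3 with h4 | h4
  · exact absurd (by exact_mod_cast h4) hM.ne'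
  · exact h4

end Pool.Agent.MP_d14a53_gt_PW.Cyc
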