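import Mathlib
import Pool.Agent.Lib.MP_d14a53_gt_PW.Defs
import Pool.Agent.Lib.MP_d14a53_gt_PW.Lift
import Pool.Agent.Lib.MP_d14a53_gt_PW.ClosF
import Pool.Agent.Lib.MP_d14a53_gt_PW.GoodB
import Pool.Agent.Lib.MP_d14a53_gt_PW.Prin
import Pool.Agent.Lib.MP_d14a53_gt_PW.Twist
import Pool.Agent.Lib.MP_d14a53_gt_PW.Coc

/-!
# MP_d14a53_gt (Putman-Wieland), module FA: a nonseparating curve in the core

`thm1`: if `b 0` lies in the normal core of `K` and the complement of the first handle acts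
transitively on `π / K`, then the Putman-Wieland property holds for `K`.
-/

set_option autoImplicit false

noncomputable section

namespace Pool.Agent.MP_d14a53_gt_PW

open scoped RealInnerProductSpace

namespace FA

variable {π : Type} [Group π] {g p : ℕ} {a b : Fin g → π} {c : Fin p → π}
  {K : Subgroup π} [Fintype (π ⧸ K)]
  {ρ : π →* (EuclideanSpace ℝ (π ⧸ K) ≃ₗᵢ[ℝ] EuclideanSpace ℝ (π ⧸ K))}
  {F : π → EuclideanSpace ℝ (π ⧸ K)}

/-- a simple closed curve which fixes the point `q` -/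
theorem fix_point (h : Good c K.normalCore ⊤ ρ F) (hact : ∀ x v q, ρ x v q = v (x⁻¹ • q))
    (hs : IsSurf a b c) (i : Fin g) (φ : π ≃* π) (hφ : Punc c φ) (q : π ⧸ K)
    (hq : φ (a i) • q = q) : F (φ (a i)) q = 0 := by
  have := h.normal
  have := h.fin
  obtain ⟨M, hM0, hM⟩ : ∃ M : ℕ, 0 < M ∧ φ (a i) ^ M ∈ K.normalCore :=
    ⟨K.normalCore.index, Nat.pos_of_ne_zero h.fin.index_ne_zero,
      K.normalCore.pow_index_mem _⟩
  have h0 := h.scc hs i φ hφ M hM
  rw [h.pow] at h0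
  have h1 : (∑ t ∈ Finset.range M, ρ (φ (a i) ^ t) (F (φ (a i)))) q
      = ∑ t ∈ Finset.range M, (ρ (φ (a i) ^ t) (F (φ (a i)))) q := by
    simp
  have h2 : ∀ t : ℕ, (φ (a i) ^ t)⁻¹ • q = q := by
    intro t
    rw [inv_smul_eq_iff]
    induction t with
    | zero => simp
    | succ t ih => rw [pow_succ, mul_smul, hq, ← ih]
  rw [h0] at h1
  simp only [hact, h2] at h1
  simp only [PiLp.zero_apply, Finset.sum_const, Finset.card_range, nsmul_eq_mul] at h1
  have h3 : (M : ℝ) ≠ 0 := by exact_mod_cast hM0.ne'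
  rcases mul_eq_zero.mp h1.symm with h4 | h4
  · exact absurd h4 h3
  · exact h4

/-- the elements of `DB a b 1` -/
theorem db_mem (h : Good c K.normalCore ⊤ ρ F) (hs : IsSurf a b c) (i0 : Fin g)
    (hi0 : (i0 : ℕ) = 0) (hb : b i0 ∈ K.normalCore) (d : π) (hd : d ∈ DB a b 1) :
    d ∈ K.normalCore ∧ F d = 0 := by
  have := h.normal
  have key : ∀ x ∈ {x | ∃ i : Fin g, (i : ℕ) < 1 ∧ (x = b i ∨ (0 < (i : ℕ) ∧ x = a i))},
      x = b i0 := by
    rintro x ⟨i, hi, h1 | ⟨h1, h2⟩⟩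
    · have : i = i0 := by
        apply Fin.ext
        omega
      rw [h1, this]
    · omega
  refine ⟨?_, ?_⟩
  · have hle : DB a b 1 ≤ K.normalCore := by
      refine Subgroup.normalClosure_le_normal ?_
      intro x hx
      rw [key x hx]
      exact hb
    exact hle hd
  · refine (h.normalClosure _ ?_ d hd).2
    intro x hx
    rw [key x hx]
    refine ⟨fun v hv => h.triv _ hb v hv, ?_⟩
    have := h.twist_b hs i0 1 (by simpa using hb)
    simpa using this

/-- `F (a 0 * w)` vanishes at the fixed points of `a 0 * w` -/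
theorem star (h : Good c K.normalCore ⊤ ρ F) (hact : ∀ x v q, ρ x v q = v (x⁻¹ • q))
    (hs : IsSurf a b c) (i0 : Fin g) (hi0 : (i0 : ℕ) = 0) (hb : b i0 ∈ K.normalCore)
    (w : π) (hw : w ∈ Rest a b c 1) (q : π ⧸ K) (hq : a i0 • w • q = q) :
    F (a i0) q + F w ((a i0)⁻¹ • q) = 0 := by
  have := h.normal
  obtain ⟨φ, hφ, hd, -⟩ := foot_closure hs 1 (by have := i0.2; omega) le_rfl i0 hi0 w hw
  set d := (a i0 * w)⁻¹ * φ (a i0) with hdd
  have e1 : φ (a i0) = a i0 * w * d := by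
    rw [hdd]; group
  obtain ⟨hdN, hd0⟩ := db_mem h hs i0 hi0 hb d hd
  have h1 : φ (a i0) • q = q := by
    rw [e1, mul_smul, PP.core_smul K hdN, mul_smul]
    exact hq
  have h2 := fix_point h hact hs i0 φ hφ q h1
  rw [e1, h.mul_triv _ _ hd0, h.coc] at h2
  rw [PiLp.add_apply, hact] at h2
  exact h2

end FA

section FIN
variable {π : Type} [Group π] {g p : ℕ} {a b : Fin g → π} {c : Fin p → π}

theorem thm1 (hs : IsSurf a b c) (K : Subgroup π) (hK : K.FiniteIndex) (i0 : Fin g)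
    (hi0 : (i0 : ℕ) = 0) (hb : b i0 ∈ K.normalCore)
    (htr : ∀ x : π, ∃ r ∈ Rest a b c 1, r⁻¹ * x ∈ K) : PW c K := by
  have := hK
  have : Fintype (π ⧸ K) := Fintype.ofFinite _
  refine pw_of_prin c K ?_
  intro ρ F hact h
  have := h.normal
  -- transitivity
  have hbase : ∀ q : π ⧸ K, ∃ r ∈ Rest a b c 1, q = r • ((1 : π) : π ⧸ K) := by
    intro q
    obtain ⟨x, rfl⟩ := QuotientGroup.mk_surjective q
    obtain ⟨r, hr, hrx⟩ := htr x
    refine ⟨r, hr, ?_⟩
    rw [MulAction.Quotient.smul_coe, smul_eq_mul, mul_one]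
    exact (QuotientGroup.eq.mpr hrx).symm
  have htr2 : ∀ q q' : π ⧸ K, ∃ r ∈ Rest a b c 1, r • q = q' := by
    intro q q'
    obtain ⟨r, hr, h1⟩ := hbase q
    obtain ⟨r', hr', h2⟩ := hbase q'
    refine ⟨r' * r⁻¹, Subgroup.mul_mem _ hr' (Subgroup.inv_mem _ hr), ?_⟩
    rw [h1, h2, ← mul_smul, inv_mul_cancel_right]
  -- fixed points of elements of the complement
  have hfix : ∀ s ∈ Rest a b c 1, ∀ q : π ⧸ K, s • q = q → F s q = 0 := by
    intro s hs' q hq
    obtain ⟨w, hw, hwq⟩ := htr2 q ((a i0)⁻¹ • q)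
    have h1 := FA.star h hact hs i0 hi0 hb w hw q (by rw [hwq, smul_inv_smul])
    have h2 := FA.star h hact hs i0 hi0 hb (w * s) (Subgroup.mul_mem _ hw hs') q
      (by rw [mul_smul, hq, hwq, smul_inv_smul])
    rw [h.coc, PiLp.add_apply, hact] at h2
    have h3 : w⁻¹ • (a i0)⁻¹ • q = q := by rw [← hwq, inv_smul_smul]
    rw [h3] at h2
    linarith
  obtain ⟨v, -, hv⟩ := h.prin (Rest a b c 1) (by
    intro x hx hxN
    ext q
    exact hfix x hx q (PP.core_smul K hxN q))
  have h' := h.subPrin v (Submodule.mem_top)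
  refine ⟨v, ?_⟩
  -- the remaining generators
  have hR : ∀ w ∈ Rest a b c 1, F w - (ρ w v - v) = 0 := by
    intro w hw
    rw [hv w hw, sub_self]
  have ha : F (a i0) - (ρ (a i0) v - v) = 0 := by
    ext q
    obtain ⟨w, hw, hwq⟩ := htr2 q ((a i0)⁻¹ • q)
    have h1 := FA.star h' hact hs i0 hi0 hb w hw q (by rw [hwq, smul_inv_smul])
    simp only [hR w hw] at h1
    rw [PiLp.zero_apply, add_zero] at h1
    exact h1
  have hbb : F (b i0) - (ρ (b i0) v - v) = 0 := by
    have h1 := h'.twist_b hs i0 1 (by simpa using hb)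
    rw [pow_one] at h1
    exact h1
  have hgen : PrinOn ρ F (Subgroup.closure {x | F x = ρ x v - v}) v :=
    h.prin_closure _ v (fun x hx => hx)
  have htop : (⊤ : Subgroup π) ≤ Subgroup.closure {x | F x = ρ x v - v} := by
    rw [← Blk_sup_Rest hs 1]
    refine sup_le ?_ ?_
    · unfold Blk
      rw [Subgroup.closure_le]
      rintro x ⟨i, hi, hx⟩
      have hii : i = i0 := by
        apply Fin.ext
        omega
      subst hii
      apply Subgroup.subset_closure
      rcases hx with rfl | rfl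
      · exact sub_eq_zero.mp ha
      · exact sub_eq_zero.mp hbb
    · intro x hx
      exact Subgroup.subset_closure (hv x hx)
  intro x _
  exact hgen x (htop (Subgroup.mem_top x))

end FIN

end Pool.Agent.MP_d14a53_gt_PW
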