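import Pool.Agent.Lib.MP_d14a53_gt_PW.Rot
import Pool.Agent.Lib.MP_d14a53_gt_PW.A
import Pool.Agent.Lib.MP_d14a53_gt_PW.Handle
import Pool.Agent.Lib.MP_d14a53_gt_PW.Coc
import Pool.Agent.Lib.MP_d14a53_gt_PW.Tw
import Pool.Agent.Lib.MP_d14a53_gt_PW.Clos
import Pool.Agent.Lib.MP_d14a53_gt_PW.A0
import Pool.Agent.Lib.MP_d14a53_gt_PW.SepG
import Pool.Agent.Lib.MP_d14a53_gt_PW.Prin
import Pool.Agent.Lib.MP_d14a53_gt_PW.Punc

/-!
# MP_d14a53_gt (Putman-Wieland): a handle centralising the normal closure of a handle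
-/

set_option autoImplicit false

noncomputable section

namespace Pool.Agent.MP_d14a53_gt_PW

open scoped RealInnerProductSpace

namespace FinC

section lemmas

variable {π : Type*} [Group π] {g p : ℕ} {V : Type*} [NormedAddCommGroup V]
  [InnerProductSpace ℝ V] {a b : Fin g → π} {c : Fin p → π} {N : Subgroup π} {U : Submodule ℝ V}
  {ρ : π →* (V ≃ₗᵢ[ℝ] V)} {F : π → V}

theorem rho_mul (ρ : π →* (V ≃ₗᵢ[ℝ] V)) (x y : π) (v : V) : ρ (x * y) v = ρ x (ρ y v) := by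
  rw [map_mul]
  rfl

theorem rho_inv_cancel (ρ : π →* (V ≃ₗᵢ[ℝ] V)) (x : π) (v : V) : ρ x⁻¹ (ρ x v) = v := by
  rw [← rho_mul, inv_mul_cancel, map_one]
  rfl

theorem rho_cancel_inv (ρ : π →* (V ≃ₗᵢ[ℝ] V)) (x : π) (v : V) : ρ x (ρ x⁻¹ v) = v := by
  rw [← rho_mul, mul_inv_cancel, map_one]
  rfl

theorem triv_right (h : Good c N U ρ F) {x y : π} (hxy : x⁻¹ * y ∈ N) {v : V} (hv : v ∈ U) :
    ρ y v = ρ x v := by
  have h1 : y = x * (x⁻¹ * y) := by group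
  rw [h1, rho_mul, h.triv _ hxy v hv]

theorem triv_left (h : Good c N U ρ F) {x y : π} (hxy : y * x⁻¹ ∈ N) {v : V} (hv : v ∈ U) :
    ρ y v = ρ x v := by
  have h1 : y = (y * x⁻¹) * x := by group
  rw [h1, rho_mul, h.triv _ hxy _ (h.stab x v hv)]

theorem HP_one (i0 : Fin g) (hi0 : (i0 : ℕ) = 0) :
    HP a b 1 = a i0 * b i0 * (a i0)⁻¹ * (b i0)⁻¹ := by
  have h := HP_succ a b i0
  rw [hi0, HP_zero, one_mul, zero_add] at h
  exact h

theorem mem_Blk {i0 : Fin g} (hi0 : (i0 : ℕ) = 0) {s : π} (hs : s = a i0 ∨ s = b i0) :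
    s ∈ Blk a b 1 :=
  Subgroup.subset_closure ⟨i0, by omega, hs⟩

theorem mem_Rest {i1 : Fin g} (hi1 : (i1 : ℕ) = 1) {t : π} (ht : t = a i1 ∨ t = b i1) :
    t ∈ Rest a b c 1 :=
  Subgroup.subset_closure (Or.inl ⟨i1, by omega, ht⟩)

/-- the elements of the normal closure of the curve around the first handle -/
theorem dc (h : Good c N U ρ F) (hs : IsSurf a b c) (hg : 1 ≤ g) (hc : HP a b 1 ∈ N) {x : π}
    (hx : x ∈ Subgroup.normalClosure {HP a b 1}) : x ∈ N ∧ F x = 0 := by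
  have hN := h.normal
  refine ⟨?_, ?_⟩
  · exact Subgroup.normalClosure_le_normal (by simpa using hc) hx
  · refine (h.normalClosure {HP a b 1} ?_ x hx).2
    intro s hs'
    rw [Set.mem_singleton_iff] at hs'
    subst hs'
    exact ⟨h.triv _ hc, h.sep hs 1 hg hc⟩

/-- step 3 for the curve `a 1` -/
theorem fixa (h : Good c N U ρ F) (hs : IsSurf a b c) (i0 i1 : Fin g)
    (hi0 : (i0 : ℕ) = 0) (hi1 : (i1 : ℕ) = 1)
    (hc : a i0 * b i0 * (a i0)⁻¹ * (b i0)⁻¹ ∈ N)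
    (hcm : ∀ x s : π, (s = a i0 ∨ s = b i0) →
      s * (x * a i1 * x⁻¹) * s⁻¹ * (x * a i1 * x⁻¹)⁻¹ ∈ N)
    (hR : ∀ z ∈ Rest a b c 1, F z = 0) (v : V) (hv : v ∈ U)
    (hva : F (a i0) = ρ (a i0) v - v) (hvb : F (b i0) = ρ (b i0) v - v)
    (r : π) (hr : r ∈ Rest a b c 1) (s : π) (hs' : s = a i0 ∨ s = b i0) :
    ρ (r⁻¹ * a i1 * r) (ρ s v - v) = ρ s v - v := by
  have hg : 1 ≤ g := by
    have := i1.2
    omega
  have hN := h.normal
  have hC : HP a b 1 ∈ N := by rwa [HP_one i0 hi0]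
  obtain ⟨φ, hφ, u, hu, hBlk, hRest⟩ := push_closure hs 1 hg r hr
  obtain ⟨hdN, hdF⟩ := dc h hs hg hC hu
  have hFu : F u = 0 := by
    have h1 : u = r * (r⁻¹ * u) := by group
    rw [h1, h.mul_triv r _ hdF]
    exact hR r hr
  have hρu : ∀ w ∈ U, ρ u w = ρ r w := fun w hw => triv_right h hdN hw
  have ha1R : a i1 ∈ Rest a b c 1 := mem_Rest hi1 (Or.inl rfl)
  obtain ⟨heN, heF⟩ := dc h hs hg hC (hRest _ ha1R)
  have hφs : ∀ s : π, (s = a i0 ∨ s = b i0) → φ s = u * s * u⁻¹ :=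
    fun s hs => hBlk s (mem_Blk hi0 hs)
  have hFs : ∀ s : π, (s = a i0 ∨ s = b i0) → F s = ρ s v - v := by
    rintro s (rfl | rfl)
    · exact hva
    · exact hvb
  have h4 := h.comp φ hφ
  have hcomm : ∀ s : π, (s = a i0 ∨ s = b i0) →
      s * a i1 * s⁻¹ * (a i1)⁻¹ ∈ N.comap φ.toMonoidHom := by
    intro s hs
    rw [Subgroup.mem_comap]
    have h1 : φ.toMonoidHom (s * a i1 * s⁻¹ * (a i1)⁻¹) =
        (u * s * u⁻¹) * φ (a i1) * (u * s * u⁻¹)⁻¹ * (φ (a i1))⁻¹ := by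
      have h2 := hφs s hs
      simp only [MulEquiv.toMonoidHom_eq_coe, MonoidHom.coe_coe, map_mul, map_inv, h2]
    rw [h1]
    have h3 : (u * s * u⁻¹) * φ (a i1) * (u * s * u⁻¹)⁻¹ * (φ (a i1))⁻¹ =
        (u * s * u⁻¹ * (a i1 * ((a i1)⁻¹ * φ (a i1)) * (a i1)⁻¹) * (u * s * u⁻¹)⁻¹) *
        (u * (s * (u⁻¹ * a i1 * u⁻¹⁻¹) * s⁻¹ * (u⁻¹ * a i1 * u⁻¹⁻¹)⁻¹) * u⁻¹) *
        (a i1 * ((a i1)⁻¹ * φ (a i1))⁻¹ * (a i1)⁻¹) := by
      group
    rw [h3]
    refine N.mul_mem (N.mul_mem ?_ ?_) ?_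
    · exact hN.conj_mem _ (hN.conj_mem _ heN _) _
    · exact hN.conj_mem _ (hcm u⁻¹ s hs) _
    · exact hN.conj_mem _ (N.inv_mem heN) _
  have hval : ∀ s : π, (s = a i0 ∨ s = b i0) →
      F (φ s) = ρ (φ s) (ρ u v) - ρ u v := by
    intro s hs
    rw [hφs s hs, h.conj u s, hFu, hFs s hs, map_zero, sub_zero, zero_add, map_sub,
      rho_mul, rho_mul, rho_inv_cancel]
  have hc' : a i0 * b i0 * (a i0)⁻¹ * (b i0)⁻¹ ∈ N.comap φ.toMonoidHom := by
    rw [Subgroup.mem_comap]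
    have h1 : φ.toMonoidHom (a i0 * b i0 * (a i0)⁻¹ * (b i0)⁻¹) =
        u * (a i0 * b i0 * (a i0)⁻¹ * (b i0)⁻¹) * u⁻¹ := by
      have h2 := hφs _ (Or.inl rfl)
      have h3 := hφs _ (Or.inr rfl)
      simp only [MulEquiv.toMonoidHom_eq_coe, MonoidHom.coe_coe, map_mul, map_inv, h2, h3]
      group
    rw [h1]
    exact hN.conj_mem _ hc _
  have hFa1 : F (φ (a i1)) = 0 := by
    have h1 : φ (a i1) = a i1 * ((a i1)⁻¹ * φ (a i1)) := by group
    rw [h1, h.mul_triv _ _ heF]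
    exact hR _ ha1R
  have hcross := h4.cross hs i0 i1 hi0 hi1 hc' (hcomm _ (Or.inl rfl)) (hcomm _ (Or.inr rfl))
    (ρ u v) (h.stab _ _ hv) (hval _ (Or.inl rfl)) (hval _ (Or.inr rfl)) hFa1
  have hcross' : ρ (φ s) (ρ (φ (a i1)) (ρ u v) - ρ u v) = ρ (φ (a i1)) (ρ u v) - ρ u v := by
    rcases hs' with rfl | rfl
    · exact hcross.1
    · exact hcross.2
  have hρa1 : ρ (φ (a i1)) (ρ u v) = ρ (a i1) (ρ u v) := triv_right h heN (h.stab _ _ hv)
  rw [hρa1, hφs s hs', hρu v hv] at hcross'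
  -- multiply by `ρ r⁻¹`
  have hw : ρ (a i1) (ρ r v) - ρ r v ∈ U :=
    U.sub_mem (h.stab _ _ (h.stab _ _ hv)) (h.stab _ _ hv)
  have h5 : ρ (u * s * u⁻¹) (ρ (a i1) (ρ r v) - ρ r v) =
      ρ r (ρ s (ρ r⁻¹ (ρ (a i1) (ρ r v) - ρ r v))) := by
    rw [rho_mul, rho_mul]
    have h6 : ρ u⁻¹ (ρ (a i1) (ρ r v) - ρ r v) = ρ r⁻¹ (ρ (a i1) (ρ r v) - ρ r v) := by
      have h7 := hρu _ (h.stab r⁻¹ _ hw)
      rw [rho_cancel_inv] at h7
      conv_lhs => rw [← h7]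
      rw [rho_inv_cancel]
    rw [h6]
    exact hρu _ (h.stab _ _ (h.stab _ _ hw))
  rw [h5] at hcross'
  have h8 : ρ r⁻¹ (ρ (a i1) (ρ r v) - ρ r v) = ρ (r⁻¹ * a i1 * r) v - v := by
    rw [map_sub, rho_inv_cancel, rho_mul, rho_mul]
  have h9 : ρ s (ρ (r⁻¹ * a i1 * r) v - v) = ρ (r⁻¹ * a i1 * r) v - v := by
    rw [← h8]
    have h10 := congrArg (ρ r⁻¹) hcross'
    rwa [rho_inv_cancel] at h10
  -- commute
  have h11 : ρ s (ρ (r⁻¹ * a i1 * r) v) = ρ (r⁻¹ * a i1 * r) (ρ s v) := by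
    rw [← rho_mul, ← rho_mul]
    refine triv_left h ?_ hv
    have h12 := hcm r⁻¹ s hs'
    have h13 : s * (r⁻¹ * a i1 * r⁻¹⁻¹) * s⁻¹ * (r⁻¹ * a i1 * r⁻¹⁻¹)⁻¹ =
        s * (r⁻¹ * a i1 * r) * (r⁻¹ * a i1 * r * s)⁻¹ := by group
    rwa [h13] at h12
  rw [map_sub, h11] at h9
  rw [map_sub]
  have h14 : ρ (r⁻¹ * a i1 * r) (ρ s v) - ρ (r⁻¹ * a i1 * r) v =
      (ρ (r⁻¹ * a i1 * r) (ρ s v) - ρ s v) + ρ s v - ρ (r⁻¹ * a i1 * r) v := by abel
  rw [h14, h9]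
  abel

/-- step 3 for the curve `b 1` -/
theorem fixb (h : Good c N U ρ F) (hs : IsSurf a b c) (i0 i1 : Fin g)
    (hi0 : (i0 : ℕ) = 0) (hi1 : (i1 : ℕ) = 1)
    (hc : a i0 * b i0 * (a i0)⁻¹ * (b i0)⁻¹ ∈ N)
    (hcm : ∀ x s : π, (s = a i0 ∨ s = b i0) →
      s * (x * b i1 * x⁻¹) * s⁻¹ * (x * b i1 * x⁻¹)⁻¹ ∈ N)
    (hR : ∀ z ∈ Rest a b c 1, F z = 0) (v : V) (hv : v ∈ U)
    (hva : F (a i0) = ρ (a i0) v - v) (hvb : F (b i0) = ρ (b i0) v - v)
    (r : π) (hr : r ∈ Rest a b c 1) (s : π) (hs' : s = a i0 ∨ s = b i0) :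
    ρ (r⁻¹ * b i1 * r) (ρ s v - v) = ρ s v - v := by
  have hne : i0 ≠ i1 := by
    intro h0
    rw [h0, hi1] at hi0
    omega
  obtain ⟨ψ, hψa, hψb, hψl, hψc⟩ := exists_swap hs i1
  have ha1 : a i1 ∈ Rest a b c 1 := mem_Rest hi1 (Or.inl rfl)
  have hb1 : b i1 ∈ Rest a b c 1 := mem_Rest hi1 (Or.inr rfl)
  -- `ψ` maps `Rest` to `Rest`
  have hmap : ∀ z ∈ Rest a b c 1, ψ z ∈ Rest a b c 1 := by
    have h1 : Rest a b c 1 ≤ (Rest a b c 1).comap ψ.toMonoidHom := by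
      refine (Subgroup.closure_le _).2 ?_
      rintro x (⟨l, hl, hx⟩ | ⟨j, rfl⟩)
      · rw [SetLike.mem_coe, Subgroup.mem_comap]
        by_cases hl1 : l = i1
        · subst hl1
          rcases hx with rfl | rfl
          · rw [MulEquiv.toMonoidHom_eq_coe, MonoidHom.coe_coe, hψa]
            exact Subgroup.mul_mem _ (Subgroup.mul_mem _ ha1 hb1) (Subgroup.inv_mem _ ha1)
          · rw [MulEquiv.toMonoidHom_eq_coe, MonoidHom.coe_coe, hψb]
            exact Subgroup.inv_mem _ ha1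
        · have h2 : ψ x = x := by
            rcases hx with rfl | rfl
            · exact (hψl l hl1).1
            · exact (hψl l hl1).2
          rw [MulEquiv.toMonoidHom_eq_coe, MonoidHom.coe_coe, h2]
          exact Subgroup.subset_closure (Or.inl ⟨l, hl, hx⟩)
      · rw [SetLike.mem_coe, Subgroup.mem_comap, MulEquiv.toMonoidHom_eq_coe, MonoidHom.coe_coe,
          hψc]
        exact Subgroup.subset_closure (Or.inr ⟨j, rfl⟩)
    exact fun z hz => h1 hz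
  have hsurj : ∀ z ∈ Rest a b c 1, ∃ w ∈ Rest a b c 1, ψ w = z := by
    have h1 : Rest a b c 1 ≤ (Rest a b c 1).map ψ.toMonoidHom := by
      refine (Subgroup.closure_le _).2 ?_
      rintro x (⟨l, hl, hx⟩ | ⟨j, rfl⟩)
      · rw [SetLike.mem_coe, Subgroup.mem_map]
        by_cases hl1 : l = i1
        · subst hl1
          rcases hx with rfl | rfl
          · refine ⟨(b l)⁻¹, Subgroup.inv_mem _ hb1, ?_⟩
            rw [MulEquiv.toMonoidHom_eq_coe, MonoidHom.coe_coe, map_inv, hψb, inv_inv]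
          · refine ⟨b l * a l * (b l)⁻¹, Subgroup.mul_mem _ (Subgroup.mul_mem _ hb1 ha1)
              (Subgroup.inv_mem _ hb1), ?_⟩
            rw [MulEquiv.toMonoidHom_eq_coe, MonoidHom.coe_coe, map_mul, map_mul, map_inv, hψb,
              hψa]
            group
        · refine ⟨x, Subgroup.subset_closure (Or.inl ⟨l, hl, hx⟩), ?_⟩
          rw [MulEquiv.toMonoidHom_eq_coe, MonoidHom.coe_coe]
          rcases hx with rfl | rfl
          · exact (hψl l hl1).1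
          · exact (hψl l hl1).2
      · rw [SetLike.mem_coe, Subgroup.mem_map]
        refine ⟨c j, Subgroup.subset_closure (Or.inr ⟨j, rfl⟩), ?_⟩
        rw [MulEquiv.toMonoidHom_eq_coe, MonoidHom.coe_coe, hψc]
    intro z hz
    obtain ⟨w, hw, hwz⟩ := h1 hz
    exact ⟨w, hw, hwz⟩
  have hψs : ∀ s : π, (s = a i0 ∨ s = b i0) → ψ s = s := by
    rintro s (rfl | rfl)
    · exact (hψl i0 hne).1
    · exact (hψl i0 hne).2
  have h4 := h.comp ψ (Punc.of_fix hψc)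
  obtain ⟨w, hw, hwr⟩ := hsurj (a i1 * r) (Subgroup.mul_mem _ ha1 hr)
  have hc' : a i0 * b i0 * (a i0)⁻¹ * (b i0)⁻¹ ∈ N.comap ψ.toMonoidHom := by
    rw [Subgroup.mem_comap, MulEquiv.toMonoidHom_eq_coe, MonoidHom.coe_coe, map_mul, map_mul,
      map_mul, map_inv, map_inv, hψs _ (Or.inl rfl), hψs _ (Or.inr rfl)]
    exact hc
  have hcm' : ∀ x s : π, (s = a i0 ∨ s = b i0) →
      s * (x * a i1 * x⁻¹) * s⁻¹ * (x * a i1 * x⁻¹)⁻¹ ∈ N.comap ψ.toMonoidHom := by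
    intro x s hs
    have h1 : ψ (s * (x * a i1 * x⁻¹) * s⁻¹ * (x * a i1 * x⁻¹)⁻¹) =
        s * ((ψ x * a i1) * b i1 * (ψ x * a i1)⁻¹) * s⁻¹ *
          ((ψ x * a i1) * b i1 * (ψ x * a i1)⁻¹)⁻¹ := by
      simp only [map_mul, map_inv, hψs s hs, hψa]
      group
    rw [Subgroup.mem_comap, MulEquiv.toMonoidHom_eq_coe, MonoidHom.coe_coe, h1]
    exact hcm _ s hs
  have hva' : F (ψ (a i0)) = (ρ.comp ψ.toMonoidHom) (a i0) v - v := by
    have h1 : (ρ.comp ψ.toMonoidHom) (a i0) = ρ (a i0) := by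
      rw [MonoidHom.comp_apply, MulEquiv.toMonoidHom_eq_coe, MonoidHom.coe_coe,
        hψs _ (Or.inl rfl)]
    rw [h1, hψs _ (Or.inl rfl)]
    exact hva
  have hvb' : F (ψ (b i0)) = (ρ.comp ψ.toMonoidHom) (b i0) v - v := by
    have h1 : (ρ.comp ψ.toMonoidHom) (b i0) = ρ (b i0) := by
      rw [MonoidHom.comp_apply, MulEquiv.toMonoidHom_eq_coe, MonoidHom.coe_coe,
        hψs _ (Or.inr rfl)]
    rw [h1, hψs _ (Or.inr rfl)]
    exact hvb
  have h5 := fixa h4 hs i0 i1 hi0 hi1 hc' hcm' (fun z hz => hR _ (hmap z hz)) v hv hva' hvb'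
    w hw s hs'
  have h6 : (ρ.comp ψ.toMonoidHom) (w⁻¹ * a i1 * w) = ρ (r⁻¹ * b i1 * r) := by
    have h60 : ψ (w⁻¹ * a i1 * w) = r⁻¹ * b i1 * r := by
      rw [map_mul, map_mul, map_inv, hwr, hψa]
      group
    rw [MonoidHom.comp_apply, MulEquiv.toMonoidHom_eq_coe, MonoidHom.coe_coe, h60]
  have h7 : (ρ.comp ψ.toMonoidHom) s = ρ s := by
    rw [MonoidHom.comp_apply, MulEquiv.toMonoidHom_eq_coe, MonoidHom.coe_coe, hψs s hs']
  rw [h6, h7] at h5
  exact h5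

/-- modulo `N` the conjugates of `t` by all elements are conjugates by elements of `Rest` -/
theorem conj_rest (hs : IsSurf a b c) (hN : N.Normal) (i0 : Fin g) (hi0 : (i0 : ℕ) = 0) (t : π)
    (hcm : ∀ x s : π, (s = a i0 ∨ s = b i0) →
      s * (x * t * x⁻¹) * s⁻¹ * (x * t * x⁻¹)⁻¹ ∈ N) (x : π) :
    ∃ r ∈ Rest a b c 1, (x * t * x⁻¹) * (r * t * r⁻¹)⁻¹ ∈ N := by
  have htop : Subgroup.closure ({x | ∃ i : Fin g, (i : ℕ) < 1 ∧ (x = a i ∨ x = b i)} ∪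
      ({x | ∃ i : Fin g, 1 ≤ (i : ℕ) ∧ (x = a i ∨ x = b i)} ∪ Set.range c)) = ⊤ := by
    rw [Subgroup.closure_union]
    exact Blk_sup_Rest hs 1
  have hx : x ∈ Subgroup.closure ({x | ∃ i : Fin g, (i : ℕ) < 1 ∧ (x = a i ∨ x = b i)} ∪
      ({x | ∃ i : Fin g, 1 ≤ (i : ℕ) ∧ (x = a i ∨ x = b i)} ∪ Set.range c)) := by
    rw [htop]
    exact Subgroup.mem_top x
  have hgen : ∀ y : π, y ∈ ({x | ∃ i : Fin g, (i : ℕ) < 1 ∧ (x = a i ∨ x = b i)} ∪
      ({x | ∃ i : Fin g, 1 ≤ (i : ℕ) ∧ (x = a i ∨ x = b i)} ∪ Set.range c) : Set π) →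
      (y = a i0 ∨ y = b i0) ∨ y ∈ Rest a b c 1 := by
    rintro y (⟨i, hi, hy⟩ | hy)
    · left
      have h1 : i = i0 := Fin.ext (by omega)
      rwa [h1] at hy
    · right
      exact Subgroup.subset_closure hy
  refine Subgroup.closure_induction_left
    (p := fun y _ => ∃ r ∈ Rest a b c 1, (y * t * y⁻¹) * (r * t * r⁻¹)⁻¹ ∈ N) ?_ ?_ ?_ hx
  · refine ⟨1, Subgroup.one_mem _, ?_⟩
    rw [mul_inv_cancel]
    exact N.one_mem
  · rintro y hy z - ⟨r, hr, hz⟩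
    rcases hgen y hy with hy' | hy'
    · refine ⟨r, hr, ?_⟩
      have h1 : y * z * t * (y * z)⁻¹ * (r * t * r⁻¹)⁻¹ =
          (y * (z * t * z⁻¹) * y⁻¹ * (z * t * z⁻¹)⁻¹) * (z * t * z⁻¹ * (r * t * r⁻¹)⁻¹) := by
        group
      rw [h1]
      exact N.mul_mem (hcm z y hy') hz
    · refine ⟨y * r, Subgroup.mul_mem _ hy' hr, ?_⟩
      have h1 : y * z * t * (y * z)⁻¹ * (y * r * t * (y * r)⁻¹)⁻¹ =
          y * (z * t * z⁻¹ * (r * t * r⁻¹)⁻¹) * y⁻¹ := by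
        group
      rw [h1]
      exact hN.conj_mem _ hz _
  · rintro y hy z - ⟨r, hr, hz⟩
    rcases hgen y hy with hy' | hy'
    · refine ⟨r, hr, ?_⟩
      have h1 : y⁻¹ * z * t * (y⁻¹ * z)⁻¹ * (r * t * r⁻¹)⁻¹ =
          (y⁻¹ * (y * (z * t * z⁻¹) * y⁻¹ * (z * t * z⁻¹)⁻¹)⁻¹ * y⁻¹⁻¹) *
            (z * t * z⁻¹ * (r * t * r⁻¹)⁻¹) := by
        group
      rw [h1]
      exact N.mul_mem (hN.conj_mem _ (N.inv_mem (hcm z y hy')) _) hz
    · refine ⟨y⁻¹ * r, Subgroup.mul_mem _ (Subgroup.inv_mem _ hy') hr, ?_⟩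
      have h1 : y⁻¹ * z * t * (y⁻¹ * z)⁻¹ * (y⁻¹ * r * t * (y⁻¹ * r)⁻¹)⁻¹ =
          y⁻¹ * (z * t * z⁻¹ * (r * t * r⁻¹)⁻¹) * y⁻¹⁻¹ := by
        group
      rw [h1]
      exact hN.conj_mem _ hz _

/-- the main argument -/
theorem main (h : Good c N (⊤ : Submodule ℝ V) ρ F) (hs : IsSurf a b c) (i0 i1 : Fin g)
    (hi0 : (i0 : ℕ) = 0) (hi1 : (i1 : ℕ) = 1)
    (hc : a i0 * b i0 * (a i0)⁻¹ * (b i0)⁻¹ ∈ N)
    (hcm : ∀ x s t : π, (s = a i0 ∨ s = b i0) → (t = a i1 ∨ t = b i1) →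
      s * (x * t * x⁻¹) * s⁻¹ * (x * t * x⁻¹)⁻¹ ∈ N) : ∃ v, PrinOn ρ F ⊤ v := by
  have hg : 1 ≤ g := by
    have := i1.2
    omega
  have hN := h.normal
  have hC : HP a b 1 ∈ N := by rwa [HP_one i0 hi0]
  have ht := fun v : V => Submodule.mem_top (R := ℝ) (x := v)
  let M : Subgroup π := Subgroup.normalClosure {a i1, b i1}
  have hM : M.Normal := Subgroup.normalClosure_normal
  have hM1 : ∀ t : π, (t = a i1 ∨ t = b i1) → t ∈ M := by
    rintro t (rfl | rfl)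
    · exact Subgroup.subset_normalClosure (by simp)
    · exact Subgroup.subset_normalClosure (by simp)
  obtain ⟨E, hE1, hE2, hE3⟩ := h.exists_proj M hM
  -- step 1
  let U1 : Submodule ℝ V :=
    { carrier := {v | ∀ d ∈ M, ρ d v = v}
      add_mem' := by
        intro v w hv hw d hd
        rw [map_add, hv d hd, hw d hd]
      zero_mem' := by
        intro d _
        rw [map_zero]
      smul_mem' := by
        intro k v hv d hd
        rw [map_smul, hv d hd] }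
  have hU1 : ∀ v, v ∈ U1 ↔ ∀ d ∈ M, ρ d v = v := fun v => Iff.rfl
  have h1 : Good c N U1 ρ (fun x => E (F x)) := by
    refine h.proj E U1 le_top ?_ hE3 ?_
    · intro x v hv
      rw [hU1] at hv ⊢
      intro d hd
      have h2 : x⁻¹ * d * x ∈ M := by
        have := hM.conj_mem d hd x⁻¹
        rwa [inv_inv] at this
      have h3 : d * x = x * (x⁻¹ * d * x) := by group
      rw [← rho_mul, h3, rho_mul, hv _ h2]
    · intro v hv
      rw [hU1]
      exact (hE1 v hv).2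
  obtain ⟨a', b', hs', hrot, -, -⟩ := exists_rot hs 1 hg
  obtain ⟨ha', hb'⟩ := hrot i0 i1 (by omega)
  obtain ⟨v1, hv1U, hv1⟩ := h1.A0 hs' 1 hg le_rfl (by
    intro s hsB v hv
    refine hv s ?_
    have h2 : Blk a' b' 1 ≤ M := by
      refine (Subgroup.closure_le _).2 ?_
      rintro x ⟨i, hi, hx⟩
      have h3 : i = i0 := Fin.ext (by omega)
      subst h3
      rw [ha', hb'] at hx
      exact hM1 x hx
    exact h2 hsB)
  -- step 2
  let U2 : Submodule ℝ V := LinearMap.ker E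
  have hU2 : ∀ v, v ∈ U2 ↔ E v = 0 := fun v => LinearMap.mem_ker
  let E' : V →ₗ[ℝ] V := LinearMap.id - E
  have hE' : ∀ v, E' v = v - E v := fun v => rfl
  have h2 : Good c N U2 ρ (fun x => E' (F x)) := by
    refine h.proj E' U2 le_top ?_ ?_ ?_
    · intro x v hv
      rw [hU2] at hv ⊢
      rw [hE3 x v (ht v), hv, map_zero]
    · intro x v _
      rw [hE', hE', hE3 x v (ht v), map_sub]
    · intro v _
      rw [hU2, hE', map_sub, hE2 (E v) (ht _) (hE1 v (ht v)).2, sub_self]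
  -- vectors of `U2` fixed by the conjugates of `t` by the elements of `Rest`
  have hfix : ∀ v ∈ U2, (∀ t : π, (t = a i1 ∨ t = b i1) → ∀ r ∈ Rest a b c 1,
      ρ (r * t * r⁻¹) v = v) → v = 0 := by
    intro v hv hvf
    have h3 : ∀ d ∈ M, ρ d v = v := by
      let St : Subgroup π :=
        { carrier := {d | ρ d v = v}
          mul_mem' := by
            intro x y hx hy
            change ρ (x * y) v = v
            rw [rho_mul]
            change ρ x v = v at hx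
            change ρ y v = v at hy
            rw [hy, hx]
          one_mem' := by
            change ρ 1 v = v
            rw [map_one]
            rfl
          inv_mem' := by
            intro x hx
            change ρ x v = v at hx
            change ρ x⁻¹ v = v
            conv_lhs => rw [← hx]
            rw [rho_inv_cancel] }
      have h4 : M ≤ St := by
        refine (Subgroup.closure_le _).2 ?_
        intro y hy
        obtain ⟨t, ht', hty⟩ := Group.mem_conjugatesOfSet_iff.1 hy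
        obtain ⟨x, hx⟩ := isConj_iff.1 hty
        change ρ y v = v
        have ht2 : t = a i1 ∨ t = b i1 := by simpa using ht'
        obtain ⟨r, hr, hrN⟩ := conj_rest hs hN i0 hi0 t (fun x s hs => hcm x s t hs ht2) x
        rw [← hx, triv_left h hrN (ht v)]
        exact hvf t ht2 r hr
      exact fun d hd => h4 hd
    have h5 := hE2 v (ht v) h3
    rw [hU2] at hv
    rw [← h5, hv]
  have hinv : ∀ v ∈ U2, (∀ z ∈ Rest a b c 1, ρ z v = v) → ∀ x, ρ x v = v := by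
    intro v hv hz x
    have h3 : v = 0 := by
      refine hfix v hv fun t ht' r hr => hz _ ?_
      exact Subgroup.mul_mem _ (Subgroup.mul_mem _ hr (mem_Rest hi1 ht')) (Subgroup.inv_mem _ hr)
    rw [h3, map_zero]
  obtain ⟨v2, hv2U, hv2⟩ := h2.A hs 1 hg le_rfl hC hinv
  have h3 := h2.subPrin v2 hv2U
  have hR : ∀ z ∈ Rest a b c 1, E' (F z) - (ρ z v2 - v2) = 0 := by
    intro z hz
    rw [sub_eq_zero]
    exact hv2 z hz
  obtain ⟨v, hvU, hva, hvb⟩ := h3.handle hs i0 hi0 hc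
  -- step 3
  have hy : ∀ s : π, (s = a i0 ∨ s = b i0) → ρ s v - v = 0 := by
    intro s hs0
    refine hfix _ (U2.sub_mem (h3.stab _ _ hvU) hvU) ?_
    intro t ht' r hr
    have hr' := Subgroup.inv_mem _ hr
    have h6 : r * t * r⁻¹ = r⁻¹⁻¹ * t * r⁻¹ := by group
    rw [h6]
    rcases ht' with rfl | rfl
    · exact fixa h3 hs i0 i1 hi0 hi1 hc (fun x s hs => hcm x s _ hs (Or.inl rfl)) hR v hvU hva hvb
        r⁻¹ hr' s hs0
    · exact fixb h3 hs i0 i1 hi0 hi1 hc (fun x s hs => hcm x s _ hs (Or.inr rfl)) hR v hvU hva hvb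
        r⁻¹ hr' s hs0
  -- the cocycle `F3` vanishes
  have hF3 : ∀ x, E' (F x) = ρ x v2 - v2 := by
    intro x
    have h6 : PrinOn ρ (fun x => E' (F x) - (ρ x v2 - v2))
        (Subgroup.closure ({x | ∃ i : Fin g, (i : ℕ) < 1 ∧ (x = a i ∨ x = b i)} ∪
          (Rest a b c 1 : Set π))) 0 := by
      refine h3.prin_closure _ 0 ?_
      rintro y (⟨i, hi, hy'⟩ | hy')
      · rw [map_zero, sub_zero]
        have h7 : i = i0 := Fin.ext (by omega)
        rw [h7] at hy'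
        have h8 : E' (F y) - (ρ y v2 - v2) = ρ y v - v := by
          rcases hy' with rfl | rfl
          · exact hva
          · exact hvb
        rw [h8]
        exact hy y hy'
      · rw [map_zero, sub_zero]
        exact hR y hy'
    have h7 : x ∈ Subgroup.closure ({x | ∃ i : Fin g, (i : ℕ) < 1 ∧ (x = a i ∨ x = b i)} ∪
          (Rest a b c 1 : Set π)) := by
      rw [Subgroup.closure_union, Subgroup.closure_eq]
      have h8 := Blk_sup_Rest hs 1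
      rw [Blk] at h8
      rw [h8]
      exact Subgroup.mem_top x
    have h8 := h6 x h7
    rw [map_zero, sub_zero, sub_eq_zero] at h8
    exact h8
  refine ⟨v1 + v2, ?_⟩
  intro x hx
  have h9 : E (F x) = ρ x v1 - v1 := hv1 x hx
  have h10 := hF3 x
  rw [hE'] at h10
  have h11 : F x = E (F x) + (F x - E (F x)) := by abel
  rw [h11, h10, h9, map_add]
  abel

end lemmas

end FinC

section FIN

variable {π : Type} [Group π] {g p : ℕ} {a b : Fin g → π} {c : Fin p → π}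

theorem thmC (hs : IsSurf a b c) (K : Subgroup π) (hK : K.FiniteIndex) (i0 i1 : Fin g)
    (hi0 : (i0 : ℕ) = 0) (hi1 : (i1 : ℕ) = 1)
    (hc : a i0 * b i0 * (a i0)⁻¹ * (b i0)⁻¹ ∈ K.normalCore)
    (hcm : ∀ x s t : π, (s = a i0 ∨ s = b i0) → (t = a i1 ∨ t = b i1) →
      s * (x * t * x⁻¹) * s⁻¹ * (x * t * x⁻¹)⁻¹ ∈ K.normalCore) : PW c K := by
  have : Fintype (π ⧸ K) := Fintype.ofFinite _
  refine pw_of_prin c K fun ρ F _ h => ?_
  exact FinC.main h hs i0 i1 hi0 hi1 hc hcm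

end FIN

end Pool.Agent.MP_d14a53_gt_PW
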