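import Mathlib
import Pool.Agent.Lib.MP_d14a53_gt_PW.BN
import Pool.Agent.Lib.MP_d14a53_gt_PW.Cyc
import Pool.Agent.Lib.MP_d14a53_gt_PW.Coc

/-!
# MP_d14a53_gt (Putman-Wieland): a nonseparating curve in the core, no transitivity

`thmI`: the property of Putman and Wieland for `K` when the nonseparating curve `b 0` lies in the
normal core of `K` and every directed cycle of the graph of the components of the complement of the
lifts of `b 0` is an orbit of `a 0 * r` with one single `r` in `Rest 1`.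
-/

set_option autoImplicit false

noncomputable section

namespace Pool.Agent.MP_d14a53_gt_PW

open scoped RealInnerProductSpace

namespace FinI

variable {π : Type} [Group π] {g p : ℕ} {a b : Fin g → π} {c : Fin p → π} {K N : Subgroup π}
  [Fintype (π ⧸ K)]
  {ρ : π →* (EuclideanSpace ℝ (π ⧸ K) ≃ₗᵢ[ℝ] EuclideanSpace ℝ (π ⧸ K))}
  {F : π → EuclideanSpace ℝ (π ⧸ K)}

omit [Fintype (π ⧸ K)] in
theorem smul_congr {x y : π} (hxy : x⁻¹ * y ∈ K.normalCore) (q : π ⧸ K) : x • q = y • q := by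
  obtain ⟨q, rfl⟩ := QuotientGroup.mk_surjective q
  show ((x * q : π) : π ⧸ K) = ((y * q : π) : π ⧸ K)
  rw [QuotientGroup.eq]
  have h := (Subgroup.normalCore_normal K).conj_mem _ hxy q⁻¹
  have h2 : (x * q)⁻¹ * (y * q) = q⁻¹ * (x⁻¹ * y) * q⁻¹⁻¹ := by group
  rw [h2]
  exact Subgroup.normalCore_le K h

/-- the sums of the weight along the orbits of `a 0 * r` -/
theorem windows (h : Good c K.normalCore ⊤ ρ F) (hact : ∀ x v q, ρ x v q = v (x⁻¹ • q))
    (hs : IsSurf a b c) (i0 : Fin g) (hi0 : (i0 : ℕ) = 0) (hb : b i0 ∈ K.normalCore)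
    (hR : ∀ z ∈ Rest a b c 1, F z = 0) (r : π) (hr : r ∈ Rest a b c 1) (q : π ⧸ K) :
    ∑ t ∈ Finset.range K.normalCore.index, F (a i0) ((a i0 * r) ^ t • q) = 0 := by
  have hg : 1 ≤ g := by have := i0.2; omega
  have hNn := h.normal
  have hNf := h.fin
  have hM : K.normalCore.index ≠ 0 := Subgroup.FiniteIndex.index_ne_zero
  obtain ⟨φ, hφ, h1, h2, -, h3⟩ := foot_closure' hs 1 hg le_rfl i0 hi0 r hr
  have hDN : DB a b 1 ≤ K.normalCore := BN.DB_le i0 hi0 h.normal hb
  have hDz := BN.DB_zero h hs i0 hi0 hb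
  obtain ⟨d, hd⟩ : ∃ d, d = (a i0 * r)⁻¹ * φ (a i0) := ⟨_, rfl⟩
  rw [← hd] at h1
  have hφa : φ (a i0) = a i0 * r * d := by rw [hd]; group
  have hFy : F (φ (a i0)) = F (a i0) := by
    rw [hφa, h.mul_triv _ _ (hDz d h1).2, h.mul_triv _ _ (hR r hr)]
  have hpow : ∀ (t : ℕ) (x : π ⧸ K), φ (a i0) ^ t • x = (a i0 * r) ^ t • x := by
    intro t
    induction t with
    | zero => intro x; simp
    | succ t ih =>
      intro x
      rw [pow_succ, pow_succ, mul_smul, mul_smul, ih]
      congr 1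
      refine (smul_congr ?_ x).symm
      rw [hφa]
      have : (a i0 * r)⁻¹ * (a i0 * r * d) = d := by group
      rw [this]
      exact hDN h1
  have h0 := h.scc hs i0 φ hφ _ (Subgroup.pow_index_mem K.normalCore (φ (a i0)))
  rw [h.pow, hFy] at h0
  have h4 := congrArg (fun w : EuclideanSpace ℝ (π ⧸ K) =>
    w (φ (a i0) ^ (K.normalCore.index - 1) • q)) h0
  simp only [WithLp.ofLp_sum, Finset.sum_apply, hact, PiLp.zero_apply] at h4
  rw [← Finset.sum_range_reflect]
  rw [← h4]
  refine Finset.sum_congr rfl ?_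
  intro t ht
  rw [Finset.mem_range] at ht
  have h5 : K.normalCore.index - 1 = t + (K.normalCore.index - 1 - t) := by omega
  have h6 : (φ (a i0) ^ t)⁻¹ • φ (a i0) ^ (K.normalCore.index - 1) • q =
      φ (a i0) ^ (K.normalCore.index - 1 - t) • q := by
    rw [inv_smul_eq_iff, ← mul_smul, ← pow_add, ← h5]
  rw [h6, hpow]

end FinI

variable {π : Type} [Group π] {g p : ℕ} {a b : Fin g → π} {c : Fin p → π}

/-- the cycles of the graph of components of the complement of the lifts of `b 0` -/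
def CycCond (a b : Fin g → π) (c : Fin p → π) (K : Subgroup π) (i0 : Fin g) : Prop :=
  ∀ (n : ℕ) (x : ℕ → π ⧸ K), 0 < n → (∀ i, x (i + n) = x i) →
    (∀ i, ∃ r ∈ Rest a b c 1, (a i0 * r) • x i = x (i + 1)) →
    (∀ i < n, ∀ j < n, (∃ r ∈ Rest a b c 1, r • x i = x j) → i = j) →
    ∃ r ∈ Rest a b c 1, ∀ i, (a i0 * r) • x i = x (i + 1)

theorem thmI (hs : IsSurf a b c) (K : Subgroup π) (hK : K.FiniteIndex) (i0 : Fin g)
    (hi0 : (i0 : ℕ) = 0) (hb : b i0 ∈ K.normalCore) (hcyc : CycCond a b c K i0) : PW c K := by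
  classical
  have : Fintype (π ⧸ K) := Subgroup.fintypeQuotientOfFiniteIndex
  refine pw_of_prin c K ?_
  intro ρ F0 hact h0
  obtain ⟨v0, hv0, hvR⟩ := h0.BN hs i0 hi0 hb
  have h := h0.subPrin v0 hv0
  obtain ⟨F, hFdef⟩ : ∃ F : π → EuclideanSpace ℝ (π ⧸ K),
      F = fun x => F0 x - (ρ x v0 - v0) := ⟨_, rfl⟩
  rw [← hFdef] at h
  have hR : ∀ z ∈ Rest a b c 1, F z = 0 := by
    intro z hz
    rw [hFdef]
    show F0 z - (ρ z v0 - v0) = 0
    rw [hvR z hz, sub_self]
  have hNf := h.fin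
  have hM : K.normalCore.index ≠ 0 := Subgroup.FiniteIndex.index_ne_zero
  have hwin := FinI.windows h hact hs i0 hi0 hb hR
  -- the graph
  let Ω := MulAction.orbitRel.Quotient (Rest a b c 1) (π ⧸ K)
  let hd : π ⧸ K → Ω := fun q => Quotient.mk _ q
  let tl : π ⧸ K → Ω := fun q => Quotient.mk _ ((a i0)⁻¹ • q)
  have hΩ : ∀ q q' : π ⧸ K, (Quotient.mk _ q : Ω) = Quotient.mk _ q' ↔
      ∃ r ∈ Rest a b c 1, r • q' = q := by
    intro q q'
    rw [Quotient.eq]
    show (MulAction.orbitRel (Rest a b c 1) (π ⧸ K)).r q q' ↔ _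
    constructor
    · rintro ⟨r, hr⟩
      exact ⟨r, r.2, hr⟩
    · rintro ⟨r, hr, hrq⟩
      exact ⟨⟨r, hr⟩, hrq⟩
  -- the weight has sum zero on cycles
  have hw : ∀ n x, Cyc.IsCyc tl hd n x → ∑ i ∈ Finset.range n, F (a i0) (x i) = 0 := by
    intro n x hx
    obtain ⟨r, hr, hrx⟩ := hcyc n x hx.pos hx.per (by
      intro i
      obtain ⟨r, hr, hrx⟩ := (hΩ _ _).1 (hx.next i)
      refine ⟨r, hr, ?_⟩
      rw [mul_smul, hrx, smul_inv_smul]) (by
      rintro i hi j hj ⟨r, hr, hrx⟩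
      exact (hx.inj j hj i hi ((hΩ _ _).2 ⟨r, hr, hrx⟩)).symm)
    have hpow : ∀ s t, (a i0 * r) ^ t • x s = x (s + t) := by
      intro s t
      induction t with
      | zero => simp
      | succ t ih => rw [pow_succ', mul_smul, ih, hrx]; rfl
    refine Cyc.sum_periodic (fun i => F (a i0) (x i)) n K.normalCore.index
      (Nat.pos_of_ne_zero hM) (fun i => by rw [hx.per]) ?_
    intro s
    rw [← hwin r hr (x s)]
    refine Finset.sum_congr rfl ?_
    intro t _
    rw [hpow]
  -- the invariant vectors of the complement and their differences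
  let VR : Submodule ℝ (EuclideanSpace ℝ (π ⧸ K)) :=
    { carrier := {v | ∀ z ∈ Rest a b c 1, ρ z v = v}
      add_mem' := fun {u v} hu hv z hz => by rw [map_add, hu z hz, hv z hz]
      zero_mem' := fun z _ => map_zero _
      smul_mem' := fun t v hv z hz => by rw [map_smul, hv z hz] }
  let L : EuclideanSpace ℝ (π ⧸ K) →ₗ[ℝ] EuclideanSpace ℝ (π ⧸ K) :=
    (ρ (a i0)).toLinearEquiv.toLinearMap - LinearMap.id
  have hL : ∀ v, L v = ρ (a i0) v - v := fun v => rfl
  have hmem : F (a i0) ∈ VR.map L := by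
    rw [← Submodule.orthogonal_orthogonal (VR.map L), Submodule.mem_orthogonal]
    intro f hf
    rw [Submodule.mem_orthogonal] at hf
    -- `f` is a circulation
    have hcirc : ∀ Y : Ω, ∑ x with tl x = Y, f x = ∑ x with hd x = Y, f x := by
      intro Y
      let u : EuclideanSpace ℝ (π ⧸ K) :=
        WithLp.toLp 2 (fun q => if hd q = Y then (1 : ℝ) else 0)
      have hu : u ∈ VR := by
        intro z hz
        ext q
        rw [hact]
        show (if hd (z⁻¹ • q) = Y then (1 : ℝ) else 0) = if hd q = Y then (1 : ℝ) else 0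
        have : hd (z⁻¹ • q) = hd q := (hΩ _ _).2 ⟨z⁻¹, inv_mem hz, rfl⟩
        rw [this]
      have h1 := hf (L u) ⟨u, hu, rfl⟩
      rw [hL, inner_sub_left, PiLp.inner_apply, PiLp.inner_apply] at h1
      have h2 : ∀ q, ρ (a i0) u q = if tl q = Y then (1 : ℝ) else 0 := by
        intro q
        rw [hact]
      have h3 : ∀ q, u q = if hd q = Y then (1 : ℝ) else 0 := fun q => rfl
      simp only [h2, h3] at h1
      rw [Finset.sum_filter, Finset.sum_filter]
      have h4 := sub_eq_zero.1 h1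
      simpa using h4
    -- the constant function
    have hcirc1 : ∀ Y : Ω, ∑ x with tl x = Y, (1 : ℝ) = ∑ x with hd x = Y, (1 : ℝ) := by
      intro Y
      rw [Finset.sum_filter, Finset.sum_filter]
      exact Equiv.sum_comp (MulAction.toPerm ((a i0)⁻¹) : Equiv.Perm (π ⧸ K))
        (fun q => if hd q = Y then (1 : ℝ) else 0)
    have hzero := Cyc.circ_zero tl hd (fun q => F (a i0) q) hw
    have e1 := hzero _ (fun _ => (1 : ℝ)) (fun _ => zero_le_one) hcirc1 rfl
    obtain ⟨m, hm⟩ : ∃ m : ℝ, ∀ q, 0 ≤ f q + m := by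
      obtain ⟨m, hm⟩ := (Set.finite_range (fun q => - f q)).bddAbove
      refine ⟨m, fun q => ?_⟩
      have := hm ⟨q, rfl⟩
      simp only at this
      linarith
    have e2 := hzero _ (fun q => f q + m) hm (by
      intro Y
      rw [Finset.sum_add_distrib, Finset.sum_add_distrib, hcirc Y]
      congr 1
      have := hcirc1 Y
      rw [Finset.sum_const, Finset.sum_const, nsmul_eq_mul, nsmul_eq_mul] at this ⊢
      rw [mul_one, mul_one] at this
      rw [this]) rfl
    rw [PiLp.inner_apply]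
    have e3 : ∑ q, F (a i0) q * (f q + m) = ∑ q, F (a i0) q * f q +
        m * ∑ q, F (a i0) q * 1 := by
      rw [Finset.mul_sum, ← Finset.sum_add_distrib]
      refine Finset.sum_congr rfl ?_
      intro q _
      ring
    rw [e3, e1, mul_zero, add_zero] at e2
    simpa [mul_comm] using e2
  obtain ⟨z, hz, hzL⟩ := hmem
  rw [hL] at hzL
  -- `F` is principal
  have hb0 : F (b i0) = 0 := by
    have h1 := h.twist_b hs i0 1 (by rwa [pow_one])
    rwa [pow_one] at h1
  have hall : PrinOn ρ F ⊤ z := by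
    have h1 := h.prin_closure (Set.range a ∪ Set.range b ∪ Set.range c) z ?_
    · rwa [PF.closure_eq_top hs] at h1
    · have hRz : ∀ x ∈ Rest a b c 1, F x = ρ x z - z := by
        intro x hx
        rw [hR x hx, hz x hx, sub_self]
      rintro x ((⟨i, rfl⟩ | ⟨i, rfl⟩) | ⟨j, rfl⟩)
      · by_cases hi : i = i0
        · rw [hi, hzL]
        · have hi' : 1 ≤ (i : ℕ) := by
            rcases Nat.eq_zero_or_pos (i : ℕ) with h5 | h5
            · exact absurd (Fin.ext (by omega)) hi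
            · exact h5
          exact hRz _ (Subgroup.subset_closure (Or.inl ⟨i, hi', Or.inl rfl⟩))
      · by_cases hi : i = i0
        · rw [hi, hb0, h.triv _ hb z trivial, sub_self]
        · have hi' : 1 ≤ (i : ℕ) := by
            rcases Nat.eq_zero_or_pos (i : ℕ) with h5 | h5
            · exact absurd (Fin.ext (by omega)) hi
            · exact h5
          exact hRz _ (Subgroup.subset_closure (Or.inl ⟨i, hi', Or.inr rfl⟩))
      · exact hRz _ (Subgroup.subset_closure (Or.inr ⟨j, rfl⟩))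
  refine ⟨v0 + z, ?_⟩
  intro x hx
  have h1 := hall x hx
  rw [hFdef] at h1
  have h2 : F0 x - (ρ x v0 - v0) = ρ x z - z := h1
  rw [map_add]
  have h3 : F0 x = (ρ x z - z) + (ρ x v0 - v0) := by rw [← h2]; abel
  rw [h3]
  abel

/-- the condition holds if the orbits of `Rest 1` are independent -/
theorem CycCond.of_indep (K : Subgroup π) (i0 : Fin g)
    (hind : ∀ (S : Set (π ⧸ K)), (∀ x ∈ S, ∀ y ∈ S, (∃ r ∈ Rest a b c 1, r • x = y) → x = y) →
      ∀ f : π ⧸ K → π, (∀ x, f x ∈ Rest a b c 1) →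
        ∃ r ∈ Rest a b c 1, ∀ x ∈ S, r • x = f x • x) : CycCond a b c K i0 := by
  classical
  intro n x hn hper hnext hinj
  choose r hr hrx using hnext
  have hmod : ∀ i, x i = x (i % n) := by
    intro i
    have h1 : Function.Periodic x n := hper
    exact (h1.map_mod_nat i).symm
  have hinj' : ∀ i < n, ∀ j < n, x i = x j → i = j := by
    intro i hi j hj h
    exact hinj i hi j hj ⟨1, one_mem _, by rw [one_smul, h]⟩
  have hidx : ∀ y : π ⧸ K, ∃ i, (∃ j < n, x j = y) → i < n ∧ x i = y := by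
    intro y
    by_cases h : ∃ j < n, x j = y
    · obtain ⟨j, hj⟩ := h
      exact ⟨j, fun _ => hj⟩
    · exact ⟨0, fun h' => absurd h' h⟩
  choose idx hidx using hidx
  obtain ⟨s, hs, hsx⟩ := hind {y | ∃ j < n, x j = y} (by
    rintro _ ⟨i, hi, rfl⟩ _ ⟨j, hj, rfl⟩ h
    rw [hinj i hi j hj h]) (fun y => r (idx y)) (fun y => hr _)
  refine ⟨s, hs, ?_⟩
  intro i
  have h1 : i % n < n := Nat.mod_lt _ hn
  have h2 := hsx (x (i % n)) ⟨i % n, h1, rfl⟩
  have h3 := hidx (x (i % n)) ⟨i % n, h1, rfl⟩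
  have h4 : idx (x (i % n)) = i % n := hinj' _ h3.1 _ h1 h3.2
  rw [h4] at h2
  have h5 : x (i + 1) = x (i % n + 1) := by
    rw [hmod (i + 1), hmod (i % n + 1), Nat.mod_add_mod]
  rw [hmod i, mul_smul, h2, ← mul_smul, hrx, h5]

end Pool.Agent.MP_d14a53_gt_PW
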