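import Mathlib
import Pool.Agent.Lib.MP_d14a53_gt_PW.A
import Pool.Agent.Lib.MP_d14a53_gt_PW.Foot
import Pool.Agent.Lib.MP_d14a53_gt_PW.Tw
import Pool.Agent.Lib.MP_d14a53_gt_PW.Clos
import Pool.Agent.Lib.MP_d14a53_gt_PW.Coc

/-!
# MP_d14a53_gt (Putman-Wieland): module FC

`thmS`: the property of Putman and Wieland for `K` when one separating curve lies in the normal core
of `K` and every ordered pair of distinct points of `π / K` is joined by a conjugate (in one side) of
a standard generator of this side.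
-/

set_option autoImplicit false

noncomputable section

namespace Pool.Agent.MP_d14a53_gt_PW

open scoped RealInnerProductSpace

namespace FinS

section gen

variable {π : Type*} [Group π] {g p : ℕ} {a b : Fin g → π} {c : Fin p → π}

/-- the standard generators of the second side -/
def IsGen (a b : Fin g → π) (c : Fin p → π) (n : ℕ) (t : π) : Prop :=
  (∃ i : Fin g, n ≤ (i : ℕ) ∧ (t = a i ∨ t = b i)) ∨ ∃ j, t = c j

theorem IsGen.mem {n : ℕ} {t : π} (ht : IsGen a b c n t) : t ∈ Rest a b c n := by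
  rcases ht with ⟨i, hi, h⟩ | ⟨j, rfl⟩
  · exact Subgroup.subset_closure (Or.inl ⟨i, hi, h⟩)
  · exact Subgroup.subset_closure (Or.inr ⟨j, rfl⟩)

/-- an automorphism which fixes the generators of `Rest` fixes `Rest` -/
theorem fix_Rest {n : ℕ} (φ : π ≃* π)
    (h1 : ∀ i : Fin g, n ≤ (i : ℕ) → φ (a i) = a i ∧ φ (b i) = b i) (h2 : ∀ j, φ (c j) = c j)
    (z : π) (hz : z ∈ Rest a b c n) : φ z = z := by
  refine Subgroup.closure_induction (p := fun z _ => φ z = z) ?_ ?_ ?_ ?_ hz
  · rintro x (⟨i, hi, rfl | rfl⟩ | ⟨j, rfl⟩)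
    · exact (h1 i hi).1
    · exact (h1 i hi).2
    · exact h2 j
  · exact map_one φ
  · intro x y _ _ hx hy
    rw [map_mul, hx, hy]
  · intro x _ hx
    rw [map_inv, hx]

theorem Rest_le {n m : ℕ} (hnm : n ≤ m) : Rest a b c m ≤ Rest a b c n := by
  refine Subgroup.closure_le _ |>.2 ?_
  rintro x (⟨i, hi, h⟩ | ⟨j, rfl⟩)
  · exact Subgroup.subset_closure (Or.inl ⟨i, hnm.trans hi, h⟩)
  · exact Subgroup.subset_closure (Or.inr ⟨j, rfl⟩)

theorem Blk_le {n m : ℕ} (hnm : n ≤ m) : Blk a b n ≤ Blk a b m := by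
  refine Subgroup.closure_le _ |>.2 ?_
  rintro x ⟨i, hi, h⟩
  exact Subgroup.subset_closure ⟨i, lt_of_lt_of_le hi hnm, h⟩

/-- foot pushes of the handle `i < n` along a conjugate of each generator of the second side -/
theorem foot_gen (hs : IsSurf a b c) (n : ℕ) (hng : n ≤ g) (i : Fin g) (hi : (i : ℕ) < n) (V t : π)
    (hV : V = (HP a b ((i : ℕ) + 1))⁻¹ * HP a b n) (ht : IsGen a b c n t) :
    ∃ s ∈ Rest a b c n, ∃ θ : π ≃* π, Punc c θ ∧ θ (a i) = a i * (V * (s * t * s⁻¹) * V⁻¹) := by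
  rcases ht with ⟨m, hm, h⟩ | ⟨j, rfl⟩
  · have him : i < m := Fin.lt_def.2 (lt_of_lt_of_le hi hm)
    set W1 : π := (HP a b n)⁻¹ * HP a b m with hW1
    have hW1m : W1 ∈ Rest a b c n := HP_diff_mem_Rest a b c n m hm
    obtain ⟨θ, h1, -, -, -, -, hc⟩ := exists_foot hs i m him
      ((HP a b ((i : ℕ) + 1))⁻¹ * HP a b m) _ _ rfl rfl rfl
    have hx : (HP a b ((i : ℕ) + 1))⁻¹ * HP a b m = V * W1 := by
      rw [hV, hW1]; group
    rw [hx] at h1
    rcases h with rfl | rfl
    · refine ⟨W1, hW1m, θ, Punc.of_fix hc, ?_⟩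
      rw [h1]
      group
    · obtain ⟨σ, s1, s2, s3, sc⟩ := exists_swap hs m
      have ham : a m ∈ Rest a b c n := Subgroup.subset_closure (Or.inl ⟨m, hm, Or.inl rfl⟩)
      refine ⟨W1 * a m, mul_mem hW1m ham, θ.trans σ,
        Punc.trans (Punc.of_fix hc) (Punc.of_fix sc), ?_⟩
      have hHP : ∀ k : ℕ, k ≤ (m : ℕ) → σ (HP a b k) = HP a b k := by
        intro k hk
        have := map_HP σ.toMonoidHom a b k
        rw [show σ (HP a b k) = σ.toMonoidHom (HP a b k) from rfl, this]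
        refine HP_congr k ?_
        intro l hl
        have hlm : l ≠ m := by
          rintro rfl
          omega
        exact ⟨(s3 l hlm).1, (s3 l hlm).2⟩
      have hσV : σ V = V := by
        rw [hV, map_mul, map_inv, hHP _ (by omega), hHP _ hm]
      have hσW : σ W1 = W1 := by
        rw [hW1, map_mul, map_inv, hHP _ hm, hHP _ le_rfl]
      have hσa : σ (a i) = a i := (s3 i (ne_of_lt him)).1
      rw [MulEquiv.trans_apply, h1]
      simp only [map_mul, map_inv, hσV, hσW, hσa, s1]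
      group
  · set W1 : π := (HP a b n)⁻¹ * HP a b g * CP c j with hW1
    have hW1m : W1 ∈ Rest a b c n :=
      mul_mem (HP_diff_mem_Rest a b c n g hng) (CP_mem_Rest a b c n j)
    obtain ⟨θ, h1, -, -, hcm, hc⟩ := exists_footc hs i j
      ((HP a b ((i : ℕ) + 1))⁻¹ * HP a b g * CP c j) _ _ rfl rfl rfl
    have hx : (HP a b ((i : ℕ) + 1))⁻¹ * HP a b g * CP c j = V * W1 := by
      rw [hV, hW1]; group
    rw [hx] at h1
    refine ⟨W1, hW1m, θ, ?_, ?_⟩
    · intro l
      by_cases hl : l = j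
      · subst hl
        exact ⟨_, hcm⟩
      · exact ⟨1, by rw [hc l hl]; group⟩
    · rw [h1]
      group

end gen

section coc

variable {π : Type} [Group π] {g p : ℕ} {a b : Fin g → π} {c : Fin p → π} {K N : Subgroup π}
  [Fintype (π ⧸ K)]
  {ρ : π →* (EuclideanSpace ℝ (π ⧸ K) ≃ₗᵢ[ℝ] EuclideanSpace ℝ (π ⧸ K))}
  {F : π → EuclideanSpace ℝ (π ⧸ K)}

/-- the elements on which the cocycle vanishes form a subgroup -/
def zero (h : Good c N ⊤ ρ F) : Subgroup π where
  carrier := {x | F x = 0}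
  one_mem' := h.one
  mul_mem' := by
    intro x y hx hy
    have hx' : F x = 0 := hx
    have hy' : F y = 0 := hy
    show F (x * y) = 0
    rw [h.coc, hx', hy', map_zero, add_zero]
  inv_mem' := by
    intro x hx
    have hx' : F x = 0 := hx
    show F x⁻¹ = 0
    rw [h.inv, hx', map_zero, neg_zero]

theorem mem_zero (h : Good c N ⊤ ρ F) {x : π} : x ∈ zero h ↔ F x = 0 := Iff.rfl

/-- (T): the cocycle vanishes on simple closed curves, at the points where they close up -/
theorem T (h : Good c N ⊤ ρ F) (hact : ∀ x v q, ρ x v q = v (x⁻¹ • q)) (hs : IsSurf a b c)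
    (i : Fin g) (φ : π ≃* π) (hφ : Punc c φ) (q : π ⧸ K) (hq : φ (a i) • q = q) :
    F (φ (a i)) q = 0 := by
  have := h.normal
  have := h.fin
  have hM : N.index ≠ 0 := Subgroup.FiniteIndex.index_ne_zero
  have h0 := h.scc hs i φ hφ N.index (Subgroup.pow_index_mem N _)
  rw [h.pow] at h0
  have hfix : ∀ t : ℕ, (φ (a i) ^ t)⁻¹ • q = q := by
    intro t
    rw [inv_smul_eq_iff]
    induction t with
    | zero => simp
    | succ t ih => rw [pow_succ, mul_smul, hq, ← ih]
  have h1 : ∀ t : ℕ, ρ (φ (a i) ^ t) (F (φ (a i))) q = F (φ (a i)) q := by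
    intro t
    rw [hact, hfix]
  have h2 := congrArg (fun w : EuclideanSpace ℝ (π ⧸ K) => w q) h0
  simp only [WithLp.ofLp_sum, Finset.sum_apply, h1, Finset.sum_const, Finset.card_range,
    PiLp.zero_apply, nsmul_eq_mul] at h2
  rcases mul_eq_zero.1 h2 with h3 | h3
  · exact absurd (by exact_mod_cast h3) hM
  · exact h3

omit [Fintype (π ⧸ K)] in
theorem smul_congr {x y : π} (hxy : x⁻¹ * y ∈ K.normalCore) (q : π ⧸ K) : x • q = y • q := by
  obtain ⟨q, rfl⟩ := QuotientGroup.mk_surjective q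
  show ((x * q : π) : π ⧸ K) = ((y * q : π) : π ⧸ K)
  rw [QuotientGroup.eq]
  have h := (Subgroup.normalCore_normal K).conj_mem _ hxy q⁻¹
  have h2 : (x * q)⁻¹ * (y * q) = q⁻¹ * (x⁻¹ * y) * q⁻¹⁻¹ := by group
  rw [h2]
  exact Subgroup.normalCore_le K h

/-- the main step: the cocycle vanishes on the curve `τ (a i)` of the handle `i < n` -/
theorem key (h : Good c K.normalCore ⊤ ρ F) (hact : ∀ x v q, ρ x v q = v (x⁻¹ • q))
    (hs : IsSurf a b c) (n : ℕ) (hng : n ≤ g) (hC : HP a b n ∈ K.normalCore)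
    (htr : ∀ x y : π, x⁻¹ * y ∉ K → ∃ r ∈ Rest a b c n, ∃ t : π, IsGen a b c n t ∧
      y⁻¹ * (r * t * r⁻¹ * x) ∈ K)
    (hR : ∀ z ∈ Rest a b c n, F z = 0) (i : Fin g) (hi : (i : ℕ) < n)
    (hRi : ∀ z ∈ Rest a b c ((i : ℕ) + 1), F z = 0) (τ : π ≃* π) (hτ : Punc c τ)
    (hτR : ∀ z ∈ Rest a b c ((i : ℕ) + 1), τ z = z) (hτa : τ (a i) ∈ Blk a b n) :
    F (τ (a i)) = 0 := by
  have hNn : K.normalCore.Normal := Subgroup.normalCore_normal K
  obtain ⟨V, hV⟩ : ∃ V, V = (HP a b ((i : ℕ) + 1))⁻¹ * HP a b n := ⟨_, rfl⟩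
  have hVR : V ∈ Rest a b c ((i : ℕ) + 1) := by
    rw [hV]; exact HP_diff_mem_Rest a b c _ n (by omega)
  have hVB : V ∈ Blk a b n := by
    rw [hV]
    exact mul_mem (inv_mem (Blk_le (by omega) (HP_mem_Blk a b _))) (HP_mem_Blk a b n)
  have hVz : V ∈ zero h := hRi V hVR
  -- the normal closure of the separating curve
  have hDN : Subgroup.normalClosure {HP a b n} ≤ K.normalCore :=
    Subgroup.normalClosure_le_normal (by simpa using hC)
  have hD : ∀ x ∈ Subgroup.normalClosure {HP a b n}, F x = 0 := by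
    intro x hx
    refine (h.normalClosure {HP a b n} ?_ x hx).2
    intro s hs'
    rw [Set.mem_singleton_iff] at hs'
    subst hs'
    exact ⟨fun v hv => h.triv _ hC v hv, h.sep hs n hng hC⟩
  obtain ⟨x, hx⟩ : ∃ x, x = V⁻¹ * τ (a i) * V := ⟨_, rfl⟩
  have hxz : F x = 0 := by
    ext q
    rw [PiLp.zero_apply]
    by_cases hq : x • q = q
    · have h1 := T h hact hs i (τ.trans (MulAut.conj V⁻¹)) (Punc.trans hτ (Punc.conj _)) q
      have h2 : (τ.trans (MulAut.conj V⁻¹)) (a i) = x := by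
        rw [MulEquiv.trans_apply, MulAut.conj_apply, hx, inv_inv]
      rw [h2] at h1
      exact h1 hq
    · obtain ⟨q', hq'⟩ : ∃ q', q' = x⁻¹ • q := ⟨_, rfl⟩
      have hne : q ≠ q' := by
        intro he
        apply hq
        rw [← he] at hq'
        nth_rw 1 [hq']
        rw [smul_inv_smul]
      obtain ⟨x0, hx0⟩ := QuotientGroup.mk_surjective q
      obtain ⟨y0, hy0⟩ := QuotientGroup.mk_surjective q'
      have hnK : x0⁻¹ * y0 ∉ K := by
        intro hk
        apply hne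
        rw [← hx0, ← hy0]
        exact QuotientGroup.eq.2 hk
      obtain ⟨r0, hr0, t, ht, hrt⟩ := htr x0 y0 hnK
      obtain ⟨s, hsR, θ, hθ, hθa⟩ := foot_gen hs n hng i hi V t hV ht
      have htR : t ∈ Rest a b c n := ht.mem
      obtain ⟨z0, hz0⟩ : ∃ z0, z0 = s * t * s⁻¹ := ⟨_, rfl⟩
      have hz0R : z0 ∈ Rest a b c n := by
        rw [hz0]; exact mul_mem (mul_mem hsR htR) (inv_mem hsR)
      obtain ⟨r, hr⟩ : ∃ r, r = s * r0⁻¹ := ⟨_, rfl⟩
      have hrR : r ∈ Rest a b c n := by rw [hr]; exact mul_mem hsR (inv_mem hr0)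
      obtain ⟨φ, hφ, u, hu, hφB, hφR⟩ := push_closure hs n hng r hrR
      obtain ⟨d, hd⟩ : ∃ d, d = z0⁻¹ * φ z0 := ⟨_, rfl⟩
      have hdD : d ∈ Subgroup.normalClosure {HP a b n} := by rw [hd]; exact hφR z0 hz0R
      have hφz : φ z0 = z0 * d := by rw [hd]; group
      obtain ⟨e, he⟩ : ∃ e, e = u⁻¹ * (z0 * d) * u := ⟨_, rfl⟩
      -- the closed curve
      have hy : (((θ.trans τ).trans φ).trans (MulAut.conj (u * V)⁻¹)) (a i) = x * e := by
        rw [MulEquiv.trans_apply, MulEquiv.trans_apply, MulEquiv.trans_apply, MulAut.conj_apply,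
          hθa, ← hz0]
        simp only [map_mul, map_inv]
        rw [hτR V hVR, hτR z0 (Rest_le (by omega) hz0R), hφB _ hτa, hφB _ hVB, hφz, hx, he]
        group
      have hpunc : Punc c (((θ.trans τ).trans φ).trans (MulAut.conj (u * V)⁻¹)) :=
        Punc.trans (Punc.trans (Punc.trans hθ hτ) hφ) (Punc.conj _)
      -- the cocycle vanishes on `e`
      have huz : u ∈ zero h := by
        have h1 : u = r * (r⁻¹ * u) := by group
        rw [h1]
        exact mul_mem (show r ∈ zero h from hR r hrR) (show _ ∈ zero h from hD _ hu)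
      have hez : e ∈ zero h := by
        rw [he]
        exact mul_mem (mul_mem (inv_mem huz) (mul_mem (show z0 ∈ zero h from hR z0 hz0R)
          (show d ∈ zero h from hD d hdD))) huz
      have hFe : F e = 0 := hez
      have hFy : F (x * e) = F x := by rw [h.coc, hFe, map_zero, add_zero]
      -- the curve closes up at `q`
      have heq : e • q = q' := by
        have h1 : ((r⁻¹ * z0 * r : π) : π ⧸ K.normalCore) = ((e : π) : π ⧸ K.normalCore) := by
          have h2 : ((d : π) : π ⧸ K.normalCore) = 1 :=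
            (QuotientGroup.eq_one_iff d).2 (hDN hdD)
          have h3 : ((r : π) : π ⧸ K.normalCore) = (u : π) :=
            QuotientGroup.eq.2 (hDN hu)
          rw [he]
          simp only [QuotientGroup.mk_mul, QuotientGroup.mk_inv, h2, h3, mul_one]
        have h4 : e • q = (r⁻¹ * z0 * r) • q := (smul_congr (QuotientGroup.eq.1 h1) q).symm
        have h5 : r⁻¹ * z0 * r = r0 * t * r0⁻¹ := by rw [hr, hz0]; group
        rw [h4, h5, ← hx0, ← hy0]
        show ((r0 * t * r0⁻¹ * x0 : π) : π ⧸ K) = ((y0 : π) : π ⧸ K)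
        exact (QuotientGroup.eq.2 hrt).symm
      have hclose : (x * e) • q = q := by
        rw [mul_smul, heq, hq', smul_inv_smul]
      have hT := T h hact hs i _ hpunc q
      rw [hy] at hT
      rw [← hFy]
      exact hT hclose
  have hxz' : x ∈ zero h := hxz
  have hfin : τ (a i) ∈ zero h := by
    have h1 : τ (a i) = V * x * V⁻¹ := by rw [hx]; group
    rw [h1]
    exact mul_mem (mul_mem hVz hxz') (inv_mem hVz)
  exact hfin

/-- the cocycle vanishes on `Rest k`, `k ≤ n` -/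
theorem descent (h : Good c K.normalCore ⊤ ρ F) (hact : ∀ x v q, ρ x v q = v (x⁻¹ • q))
    (hs : IsSurf a b c) (n : ℕ) (hng : n ≤ g) (hC : HP a b n ∈ K.normalCore)
    (htr : ∀ x y : π, x⁻¹ * y ∉ K → ∃ r ∈ Rest a b c n, ∃ t : π, IsGen a b c n t ∧
      y⁻¹ * (r * t * r⁻¹ * x) ∈ K)
    (hR : ∀ z ∈ Rest a b c n, F z = 0) (m : ℕ) (hm : m ≤ n) :
    ∀ z ∈ Rest a b c (n - m), F z = 0 := by
  induction m with
  | zero => simpa using hR
  | succ m ih =>
    have ih' := ih (by omega)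
    have hlt : n - (m + 1) < g := by omega
    obtain ⟨i, hi⟩ : ∃ i : Fin g, (i : ℕ) = n - (m + 1) := ⟨⟨n - (m + 1), hlt⟩, rfl⟩
    have hi1 : (i : ℕ) + 1 = n - m := by omega
    have hin : (i : ℕ) < n := by omega
    rw [← hi1] at ih'
    have haB : a i ∈ Blk a b n := Subgroup.subset_closure ⟨i, hin, Or.inl rfl⟩
    have hbB : b i ∈ Blk a b n := Subgroup.subset_closure ⟨i, hin, Or.inr rfl⟩
    have ha : a i ∈ zero h := by
      have := key h hact hs n hng hC htr hR i hin ih' (MulEquiv.refl π) Punc.one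
        (fun _ _ => rfl) haB
      exact this
    have hb : b i ∈ zero h := by
      obtain ⟨σ, s1, -, s3, sc⟩ := exists_swap hs i
      have h1 := key h hact hs n hng hC htr hR i hin ih' σ (Punc.of_fix sc)
        (fix_Rest σ (fun l hl => s3 l (by rintro rfl; omega)) sc)
        (by rw [s1]; exact mul_mem (mul_mem haB hbB) (inv_mem haB))
      rw [s1] at h1
      have h2 : a i * b i * (a i)⁻¹ ∈ zero h := h1
      have h3 : b i = (a i)⁻¹ * (a i * b i * (a i)⁻¹) * a i := by group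
      rw [h3]
      exact mul_mem (mul_mem (inv_mem ha) h2) ha
    have hle : Rest a b c (n - (m + 1)) ≤ zero h := by
      refine (Subgroup.closure_le _).2 ?_
      rintro x (⟨l, hl, hx⟩ | ⟨j, rfl⟩)
      · rcases Nat.lt_or_ge (i : ℕ) l with h1 | h1
        · exact ih' x (Subgroup.subset_closure (Or.inl ⟨l, h1, hx⟩))
        · have hli : l = i := Fin.ext (by omega)
          subst hli
          rcases hx with rfl | rfl
          · exact ha
          · exact hb
      · exact ih' _ (Subgroup.subset_closure (Or.inr ⟨j, rfl⟩))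
    exact fun z hz => hle hz

end coc

end FinS

variable {π : Type} [Group π] {g p : ℕ} {a b : Fin g → π} {c : Fin p → π}

theorem thmS (hs : IsSurf a b c) (K : Subgroup π) (hK : K.FiniteIndex) (n : ℕ) (hn : 1 ≤ n)
    (hng : n ≤ g) (h1 : HP a b n ∈ K.normalCore)
    (htr : ∀ x y : π, x⁻¹ * y ∉ K → ∃ r ∈ Rest a b c n, ∃ t : π,
      ((∃ i : Fin g, n ≤ (i : ℕ) ∧ (t = a i ∨ t = b i)) ∨ ∃ j, t = c j) ∧
      y⁻¹ * (r * t * r⁻¹ * x) ∈ K) : PW c K := by
  have : Fintype (π ⧸ K) := Subgroup.fintypeQuotientOfFiniteIndex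
  refine pw_of_prin c K ?_
  intro ρ F hact h
  have hinv : ∀ v ∈ (⊤ : Submodule ℝ (EuclideanSpace ℝ (π ⧸ K))),
      (∀ z ∈ Rest a b c n, ρ z v = v) → ∀ x, ρ x v = v := by
    intro v _ hv
    have hconst : ∀ q q' : π ⧸ K, v q = v q' := by
      intro q q'
      by_cases hqq : q = q'
      · rw [hqq]
      obtain ⟨x0, hx0⟩ := QuotientGroup.mk_surjective q
      obtain ⟨y0, hy0⟩ := QuotientGroup.mk_surjective q'
      have hnK : x0⁻¹ * y0 ∉ K := by
        intro hk
        apply hqq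
        rw [← hx0, ← hy0]
        exact QuotientGroup.eq.2 hk
      obtain ⟨r0, hr0, t, ht, hrt⟩ := htr x0 y0 hnK
      have hz : r0 * t * r0⁻¹ ∈ Rest a b c n :=
        mul_mem (mul_mem hr0 (FinS.IsGen.mem ht)) (inv_mem hr0)
      have h2 : (r0 * t * r0⁻¹) • q = q' := by
        rw [← hx0, ← hy0]
        show ((r0 * t * r0⁻¹ * x0 : π) : π ⧸ K) = ((y0 : π) : π ⧸ K)
        exact (QuotientGroup.eq.2 hrt).symm
      have h3 := congrArg (fun w : EuclideanSpace ℝ (π ⧸ K) => w q') (hv _ hz)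
      simp only [hact] at h3
      rw [← h3, ← h2, inv_smul_smul]
    intro x
    ext q
    rw [hact]
    exact hconst _ _
  obtain ⟨v, hv, hvR⟩ := h.A hs n hng hn h1 hinv
  refine ⟨v, ?_⟩
  have h' := h.subPrin v hv
  have hR : ∀ z ∈ Rest a b c n, F z - (ρ z v - v) = 0 := by
    intro z hz
    rw [hvR z hz, sub_self]
  have hall := FinS.descent h' hact hs n hng h1 htr hR n le_rfl
  rw [Nat.sub_self, surf_closure hs] at hall
  intro x hx
  exact sub_eq_zero.1 (hall x hx)

end Pool.Agent.MP_d14a53_gt_PW
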