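import Mathlib
import Pool.Agent.Lib.MP_d14a53_gt_PW.FinS

/-!
# MP_d14a53_gt (Putman-Wieland): one separating curve in the core, pairs in the orbits of the block

`thmS2`: the property of Putman and Wieland for `K` when one separating curve lies in the normal core
of `K`, the group `Rest n` of one side acts transitively on `π / K` and every ordered pair of distinct
points in the same orbit of the group `Blk n` of the other side is joined by a simple curve of the
first side.
-/

set_option autoImplicit false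

noncomputable section

namespace Pool.Agent.MP_d14a53_gt_PW

open scoped RealInnerProductSpace

/-- Every ordered pair `x ≠ y` of points of `π / K` in the same orbit of `Blk n` is joined by
`r * ζ t * r⁻¹`, where `r ∈ Rest n`, `t` is a standard generator of `Rest n` and `ζ` is an
automorphism supported on the side `Rest n`. -/
def PairCond {π : Type*} [Group π] {g p : ℕ} (a b : Fin g → π) (c : Fin p → π)
    (K : Subgroup π) (n : ℕ) : Prop :=
  ∀ x y : π ⧸ K, x ≠ y → (∃ s ∈ Blk a b n, s • x = y) →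
    ∃ r ∈ Rest a b c n, ∃ ζ : π ≃* π, Punc c ζ ∧ (∀ z ∈ Blk a b n, ζ z = z) ∧
      (∀ z ∈ Rest a b c n, ζ z ∈ Rest a b c n) ∧
      ∃ t : π, ((∃ i : Fin g, n ≤ (i : ℕ) ∧ (t = a i ∨ t = b i)) ∨ ∃ j, t = c j) ∧
        (r * ζ t * r⁻¹) • x = y

namespace FinS2

variable {π : Type} [Group π] {g p : ℕ} {a b : Fin g → π} {c : Fin p → π} {K N : Subgroup π}
  [Fintype (π ⧸ K)]
  {ρ : π →* (EuclideanSpace ℝ (π ⧸ K) ≃ₗᵢ[ℝ] EuclideanSpace ℝ (π ⧸ K))}
  {F : π → EuclideanSpace ℝ (π ⧸ K)}

/-- the main step: the cocycle vanishes on the curve `τ (a i)` of the handle `i < n` -/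
theorem key (h : Good c K.normalCore ⊤ ρ F) (hact : ∀ x v q, ρ x v q = v (x⁻¹ • q))
    (hs : IsSurf a b c) (n : ℕ) (hng : n ≤ g) (hC : HP a b n ∈ K.normalCore)
    (htr : PairCond a b c K n)
    (hR : ∀ z ∈ Rest a b c n, F z = 0) (i : Fin g) (hi : (i : ℕ) < n)
    (hRi : ∀ z ∈ Rest a b c ((i : ℕ) + 1), F z = 0) (τ : π ≃* π) (hτ : Punc c τ)
    (hτR : ∀ z ∈ Rest a b c ((i : ℕ) + 1), τ z = z) (hτa : τ (a i) ∈ Blk a b n) :
    F (τ (a i)) = 0 := by
  have hNn : K.normalCore.Normal := Subgroup.normalCore_normal K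
  obtain ⟨V, hV⟩ : ∃ V, V = (HP a b ((i : ℕ) + 1))⁻¹ * HP a b n := ⟨_, rfl⟩
  have hVR : V ∈ Rest a b c ((i : ℕ) + 1) := by
    rw [hV]; exact HP_diff_mem_Rest a b c _ n (by omega)
  have hVB : V ∈ Blk a b n := by
    rw [hV]
    exact mul_mem (inv_mem (FinS.Blk_le (by omega) (HP_mem_Blk a b _))) (HP_mem_Blk a b n)
  have hVz : V ∈ FinS.zero h := hRi V hVR
  -- the normal closure of the separating curve
  have hDN : Subgroup.normalClosure {HP a b n} ≤ K.normalCore :=
    Subgroup.normalClosure_le_normal (by simpa using hC)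
  have hD : ∀ x ∈ Subgroup.normalClosure {HP a b n}, F x = 0 := by
    intro x hx
    refine (h.normalClosure {HP a b n} ?_ x hx).2
    intro s hs'
    rw [Set.mem_singleton_iff] at hs'
    subst hs'
    exact ⟨fun v hv => h.triv _ hC v hv, h.sep hs n hng hC⟩
  obtain ⟨x, hx⟩ : ∃ x, x = V⁻¹ * τ (a i) * V := ⟨_, rfl⟩
  have hxz : F x = 0 := by
    ext q
    rw [PiLp.zero_apply]
    by_cases hq : x • q = q
    · have h1 := FinS.T h hact hs i (τ.trans (MulAut.conj V⁻¹)) (Punc.trans hτ (Punc.conj _)) q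
      have h2 : (τ.trans (MulAut.conj V⁻¹)) (a i) = x := by
        rw [MulEquiv.trans_apply, MulAut.conj_apply, hx, inv_inv]
      rw [h2] at h1
      exact h1 hq
    · obtain ⟨q', hq'⟩ : ∃ q', q' = x⁻¹ • q := ⟨_, rfl⟩
      have hne : q ≠ q' := by
        intro he
        apply hq
        rw [← he] at hq'
        nth_rw 1 [hq']
        rw [smul_inv_smul]
      have hxB : x⁻¹ ∈ Blk a b n := by
        rw [hx]
        exact inv_mem (mul_mem (mul_mem (inv_mem hVB) hτa) hVB)
      obtain ⟨r0, hr0, ζ, hζ, hζB, hζR, t, ht, hrt⟩ := htr q q' hne ⟨x⁻¹, hxB, hq'.symm⟩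
      obtain ⟨s, hsR, θ, hθ, hθa⟩ := FinS.foot_gen hs n hng i hi V t hV ht
      have htR : t ∈ Rest a b c n := FinS.IsGen.mem ht
      obtain ⟨z00, hz00⟩ : ∃ z00, z00 = s * t * s⁻¹ := ⟨_, rfl⟩
      have hz00R : z00 ∈ Rest a b c n := by
        rw [hz00]; exact mul_mem (mul_mem hsR htR) (inv_mem hsR)
      obtain ⟨z0, hz0⟩ : ∃ z0, z0 = ζ z00 := ⟨_, rfl⟩
      have hz0R : z0 ∈ Rest a b c n := by
        rw [hz0]; exact hζR _ hz00R
      obtain ⟨r, hr⟩ : ∃ r, r = ζ s * r0⁻¹ := ⟨_, rfl⟩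
      have hrR : r ∈ Rest a b c n := by rw [hr]; exact mul_mem (hζR _ hsR) (inv_mem hr0)
      obtain ⟨φ, hφ, u, hu, hφB, hφR⟩ := push_closure hs n hng r hrR
      obtain ⟨d, hd⟩ : ∃ d, d = z0⁻¹ * φ z0 := ⟨_, rfl⟩
      have hdD : d ∈ Subgroup.normalClosure {HP a b n} := by rw [hd]; exact hφR z0 hz0R
      have hφz : φ z0 = z0 * d := by rw [hd]; group
      obtain ⟨e, he⟩ : ∃ e, e = u⁻¹ * (z0 * d) * u := ⟨_, rfl⟩
      -- the closed curve
      have hy : ((((θ.trans τ).trans ζ).trans φ).trans (MulAut.conj (u * V)⁻¹)) (a i) =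
          x * e := by
        rw [MulEquiv.trans_apply, MulEquiv.trans_apply, MulEquiv.trans_apply,
          MulEquiv.trans_apply, MulAut.conj_apply, hθa, ← hz00]
        simp only [map_mul, map_inv]
        rw [hτR V hVR, hτR z00 (FinS.Rest_le (by omega) hz00R), hζB _ hτa, hζB _ hVB, ← hz0,
          hφB _ hτa, hφB _ hVB, hφz, hx, he]
        group
      have hpunc : Punc c ((((θ.trans τ).trans ζ).trans φ).trans (MulAut.conj (u * V)⁻¹)) :=
        Punc.trans (Punc.trans (Punc.trans (Punc.trans hθ hτ) hζ) hφ) (Punc.conj _)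
      -- the cocycle vanishes on `e`
      have huz : u ∈ FinS.zero h := by
        have h1 : u = r * (r⁻¹ * u) := by group
        rw [h1]
        exact mul_mem (show r ∈ FinS.zero h from hR r hrR) (show _ ∈ FinS.zero h from hD _ hu)
      have hez : e ∈ FinS.zero h := by
        rw [he]
        exact mul_mem (mul_mem (inv_mem huz) (mul_mem (show z0 ∈ FinS.zero h from hR z0 hz0R)
          (show d ∈ FinS.zero h from hD d hdD))) huz
      have hFe : F e = 0 := hez
      have hFy : F (x * e) = F x := by rw [h.coc, hFe, map_zero, add_zero]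
      -- the curve closes up at `q`
      have heq : e • q = q' := by
        have h1 : ((r⁻¹ * z0 * r : π) : π ⧸ K.normalCore) = ((e : π) : π ⧸ K.normalCore) := by
          have h2 : ((d : π) : π ⧸ K.normalCore) = 1 :=
            (QuotientGroup.eq_one_iff d).2 (hDN hdD)
          have h3 : ((r : π) : π ⧸ K.normalCore) = (u : π) :=
            QuotientGroup.eq.2 (hDN hu)
          rw [he]
          simp only [QuotientGroup.mk_mul, QuotientGroup.mk_inv, h2, h3, mul_one]
        have h4 : e • q = (r⁻¹ * z0 * r) • q := (FinS.smul_congr (QuotientGroup.eq.1 h1) q).symm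
        have h5 : r⁻¹ * z0 * r = r0 * ζ t * r0⁻¹ := by
          rw [hr, hz0, hz00, map_mul, map_mul, map_inv]; group
        rw [h4, h5, hrt]
      have hclose : (x * e) • q = q := by
        rw [mul_smul, heq, hq', smul_inv_smul]
      have hT := FinS.T h hact hs i _ hpunc q
      rw [hy] at hT
      rw [← hFy]
      exact hT hclose
  have hxz' : x ∈ FinS.zero h := hxz
  have hfin : τ (a i) ∈ FinS.zero h := by
    have h1 : τ (a i) = V * x * V⁻¹ := by rw [hx]; group
    rw [h1]
    exact mul_mem (mul_mem hVz hxz') (inv_mem hVz)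
  exact hfin

/-- the cocycle vanishes on `Rest k`, `k ≤ n` -/
theorem descent (h : Good c K.normalCore ⊤ ρ F) (hact : ∀ x v q, ρ x v q = v (x⁻¹ • q))
    (hs : IsSurf a b c) (n : ℕ) (hng : n ≤ g) (hC : HP a b n ∈ K.normalCore)
    (htr : PairCond a b c K n)
    (hR : ∀ z ∈ Rest a b c n, F z = 0) (m : ℕ) (hm : m ≤ n) :
    ∀ z ∈ Rest a b c (n - m), F z = 0 := by
  induction m with
  | zero => simpa using hR
  | succ m ih =>
    have ih' := ih (by omega)
    have hlt : n - (m + 1) < g := by omega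
    obtain ⟨i, hi⟩ : ∃ i : Fin g, (i : ℕ) = n - (m + 1) := ⟨⟨n - (m + 1), hlt⟩, rfl⟩
    have hi1 : (i : ℕ) + 1 = n - m := by omega
    have hin : (i : ℕ) < n := by omega
    rw [← hi1] at ih'
    have haB : a i ∈ Blk a b n := Subgroup.subset_closure ⟨i, hin, Or.inl rfl⟩
    have hbB : b i ∈ Blk a b n := Subgroup.subset_closure ⟨i, hin, Or.inr rfl⟩
    have ha : a i ∈ FinS.zero h := by
      have := key h hact hs n hng hC htr hR i hin ih' (MulEquiv.refl π) Punc.one
        (fun _ _ => rfl) haB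
      exact this
    have hb : b i ∈ FinS.zero h := by
      obtain ⟨σ, s1, -, s3, sc⟩ := exists_swap hs i
      have h1 := key h hact hs n hng hC htr hR i hin ih' σ (Punc.of_fix sc)
        (FinS.fix_Rest σ (fun l hl => s3 l (by rintro rfl; omega)) sc)
        (by rw [s1]; exact mul_mem (mul_mem haB hbB) (inv_mem haB))
      rw [s1] at h1
      have h2 : a i * b i * (a i)⁻¹ ∈ FinS.zero h := h1
      have h3 : b i = (a i)⁻¹ * (a i * b i * (a i)⁻¹) * a i := by group
      rw [h3]
      exact mul_mem (mul_mem (inv_mem ha) h2) ha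
    have hle : Rest a b c (n - (m + 1)) ≤ FinS.zero h := by
      refine (Subgroup.closure_le _).2 ?_
      rintro x (⟨l, hl, hx⟩ | ⟨j, rfl⟩)
      · rcases Nat.lt_or_ge (i : ℕ) l with h1 | h1
        · exact ih' x (Subgroup.subset_closure (Or.inl ⟨l, h1, hx⟩))
        · have hli : l = i := Fin.ext (by omega)
          subst hli
          rcases hx with rfl | rfl
          · exact ha
          · exact hb
      · exact ih' _ (Subgroup.subset_closure (Or.inr ⟨j, rfl⟩))
    exact fun z hz => hle hz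


end FinS2

variable {π : Type} [Group π] {g p : ℕ} {a b : Fin g → π} {c : Fin p → π}

/-- the invariant functions of a transitive subgroup -/
theorem hinv_of_trans (K : Subgroup π) [Fintype (π ⧸ K)] (H : Subgroup π)
    (htr : ∀ x : π, ∃ r ∈ H, r⁻¹ * x ∈ K)
    (ρ : π →* (EuclideanSpace ℝ (π ⧸ K) ≃ₗᵢ[ℝ] EuclideanSpace ℝ (π ⧸ K)))
    (hact : ∀ x v q, ρ x v q = v (x⁻¹ • q)) (v : EuclideanSpace ℝ (π ⧸ K))
    (hv : ∀ z ∈ H, ρ z v = v) (x : π) : ρ x v = v := by
  have h1 : ∀ q : π ⧸ K, v q = v ((1 : π) : π ⧸ K) := by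
    intro q
    obtain ⟨x0, rfl⟩ := QuotientGroup.mk_surjective q
    obtain ⟨r, hr, hrx⟩ := htr x0
    have h2 : ((x0 : π) : π ⧸ K) = r • ((1 : π) : π ⧸ K) := by
      show ((x0 : π) : π ⧸ K) = ((r * 1 : π) : π ⧸ K)
      rw [mul_one]
      exact (QuotientGroup.eq.2 hrx).symm
    have h3 := congrArg (fun w : EuclideanSpace ℝ (π ⧸ K) => w ((x0 : π) : π ⧸ K)) (hv r hr)
    simp only [hact] at h3
    rw [← h3, h2, inv_smul_smul]
  ext q
  rw [hact, h1, h1 q]

theorem thmS2 (hs : IsSurf a b c) (K : Subgroup π) (hK : K.FiniteIndex) (n : ℕ) (hn : 1 ≤ n)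
    (hng : n ≤ g) (h1 : HP a b n ∈ K.normalCore)
    (htr : ∀ x : π, ∃ r ∈ Rest a b c n, r⁻¹ * x ∈ K) (hP : PairCond a b c K n) : PW c K := by
  have : Fintype (π ⧸ K) := Subgroup.fintypeQuotientOfFiniteIndex
  refine pw_of_prin c K ?_
  intro ρ F hact h
  obtain ⟨v, hv, hvR⟩ := h.A hs n hng hn h1
    (fun v _ hv x => hinv_of_trans K (Rest a b c n) htr ρ hact v hv x)
  refine ⟨v, ?_⟩
  have h' := h.subPrin v hv
  have hR : ∀ z ∈ Rest a b c n, F z - (ρ z v - v) = 0 := by
    intro z hz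
    rw [hvR z hz, sub_self]
  have hall := FinS2.descent h' hact hs n hng h1 hP hR n le_rfl
  rw [Nat.sub_self, surf_closure hs] at hall
  intro x hx
  exact sub_eq_zero.1 (hall x hx)

end Pool.Agent.MP_d14a53_gt_PW
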