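import Mathlib
import Pool.Agent.Lib.MP_d14a53_gt_PW.Defs
import Pool.Agent.Lib.MP_d14a53_gt_PW.Prod
import Pool.Agent.Lib.MP_d14a53_gt_PW.Lift

/-!
# MP_d14a53_gt (Putman-Wieland), module PC2: rotation of a standard system
-/

set_option autoImplicit false

noncomputable section

namespace Pool.Agent.MP_d14a53_gt_PW

open scoped RealInnerProductSpace

variable {π : Type*} [Group π] {g p : ℕ} {a b : Fin g → π} {c : Fin p → π}

namespace Rot

/-- the rotated generators -/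
def rot (n : ℕ) (hn : n ≤ g) (Z : π) (x : Fin g → π) (i : Fin g) : π :=
  if h : (i : ℕ) + n < g then x ⟨i + n, h⟩
  else Z * x ⟨i + n - g, by have := i.2; omega⟩ * Z⁻¹

/-- the generators rotated backwards -/
def tor (n : ℕ) (hn : n ≤ g) (Z : π) (x : Fin g → π) (l : Fin g) : π :=
  if h : n ≤ (l : ℕ) then x ⟨l - n, by have := l.2; omega⟩
  else Z⁻¹ * x ⟨g - n + l, by have := l.2; omega⟩ * Z

theorem rot_lt {n : ℕ} (hn : n ≤ g) (Z : π) (x : Fin g → π) {i l : Fin g}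
    (h : (i : ℕ) + n = l) : rot n hn Z x i = x l := by
  have h1 : (i : ℕ) + n < g := h ▸ l.2
  rw [rot, dif_pos h1]
  congr 1
  exact Fin.ext h

theorem rot_ge {n : ℕ} (hn : n ≤ g) (Z : π) (x : Fin g → π) {i l : Fin g}
    (h : (i : ℕ) + n = l + g) : rot n hn Z x i = Z * x l * Z⁻¹ := by
  have h1 : ¬ (i : ℕ) + n < g := by omega
  rw [rot, dif_neg h1]
  have h2 : (⟨i + n - g, by have := i.2; omega⟩ : Fin g) = l := Fin.ext (by
    show (i : ℕ) + n - g = l
    omega)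
  rw [h2]

theorem tor_ge {n : ℕ} (hn : n ≤ g) (Z : π) (x : Fin g → π) {i l : Fin g}
    (h : (i : ℕ) + n = l) : tor n hn Z x l = x i := by
  have h1 : n ≤ (l : ℕ) := by omega
  rw [tor, dif_pos h1]
  congr 1
  exact Fin.ext (by show (l : ℕ) - n = i; omega)

theorem tor_lt {n : ℕ} (hn : n ≤ g) (Z : π) (x : Fin g → π) {i l : Fin g}
    (h : (i : ℕ) + n = l + g) : tor n hn Z x l = Z⁻¹ * x i * Z := by
  have h1 : ¬ n ≤ (l : ℕ) := by
    have := i.2
    omega
  rw [tor, dif_neg h1]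
  have h2 : (⟨g - n + l, by have := l.2; omega⟩ : Fin g) = i := Fin.ext (by
    show g - n + (l : ℕ) = i
    omega)
  rw [h2]

/-- the products of the rotated system, first part -/
theorem HP_rot (n : ℕ) (hn : n ≤ g) (Z : π) (a b : Fin g → π) (k : ℕ) (hk : n + k ≤ g) :
    HP (rot n hn Z a) (rot n hn Z b) k = (HP a b n)⁻¹ * HP a b (n + k) := by
  induction k with
  | zero => rw [HP_zero, Nat.add_zero, inv_mul_cancel]
  | succ k ih =>
    have h1 := HP_succ (rot n hn Z a) (rot n hn Z b) ⟨k, by omega⟩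
    have h2 := HP_succ a b ⟨n + k, by omega⟩
    have h3 : ((⟨k, by omega⟩ : Fin g) : ℕ) + n = (⟨n + k, by omega⟩ : Fin g) := by
      show k + n = n + k
      omega
    rw [rot_lt hn Z a h3, rot_lt hn Z b h3] at h1
    rw [show n + (k + 1) = n + k + 1 by omega]
    rw [h1, h2, ih (by omega), mul_assoc]

/-- the products of the rotated system, second part -/
theorem HP_rot' (n : ℕ) (hn : n ≤ g) (Z : π) (a b : Fin g → π) (k : ℕ) (hk : k ≤ n) :
    HP (rot n hn Z a) (rot n hn Z b) (g - n + k) =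
      (HP a b n)⁻¹ * HP a b g * (Z * HP a b k * Z⁻¹) := by
  induction k with
  | zero =>
    rw [HP_zero, Nat.add_zero, HP_rot n hn Z a b (g - n) (by omega),
      show n + (g - n) = g by omega]
    group
  | succ k ih =>
    have h1 := HP_succ (rot n hn Z a) (rot n hn Z b) ⟨g - n + k, by omega⟩
    have h2 := HP_succ a b ⟨k, by omega⟩
    have h3 : ((⟨g - n + k, by omega⟩ : Fin g) : ℕ) + n = (⟨k, by omega⟩ : Fin g) + g := by
      show g - n + k + n = k + g
      omega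
    rw [rot_ge hn Z a h3, rot_ge hn Z b h3] at h1
    rw [show g - n + (k + 1) = g - n + k + 1 by omega]
    rw [h1, h2, ih (by omega)]
    group

/-- the products of the system rotated backwards, first part -/
theorem HP_tor (n : ℕ) (hn : n ≤ g) (Z : π) (a b : Fin g → π) (k : ℕ) (hk : k ≤ n) :
    HP (tor n hn Z a) (tor n hn Z b) k =
      Z⁻¹ * ((HP a b (g - n))⁻¹ * HP a b (g - n + k)) * Z := by
  induction k with
  | zero =>
    rw [HP_zero, Nat.add_zero]
    group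
  | succ k ih =>
    have h1 := HP_succ (tor n hn Z a) (tor n hn Z b) ⟨k, by omega⟩
    have h2 := HP_succ a b ⟨g - n + k, by omega⟩
    have h3 : ((⟨g - n + k, by omega⟩ : Fin g) : ℕ) + n = (⟨k, by omega⟩ : Fin g) + g := by
      show g - n + k + n = k + g
      omega
    rw [tor_lt hn Z a h3, tor_lt hn Z b h3] at h1
    rw [show g - n + (k + 1) = g - n + k + 1 by omega]
    rw [h1, h2, ih (by omega)]
    group

/-- the products of the system rotated backwards, second part -/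
theorem HP_tor' (n : ℕ) (hn : n ≤ g) (Z : π) (a b : Fin g → π) (k : ℕ) (hk : n + k ≤ g) :
    HP (tor n hn Z a) (tor n hn Z b) (n + k) =
      HP (tor n hn Z a) (tor n hn Z b) n * HP a b k := by
  induction k with
  | zero => rw [HP_zero, Nat.add_zero, mul_one]
  | succ k ih =>
    have h1 := HP_succ (tor n hn Z a) (tor n hn Z b) ⟨n + k, by omega⟩
    have h2 := HP_succ a b ⟨k, by omega⟩
    have h3 : ((⟨k, by omega⟩ : Fin g) : ℕ) + n = (⟨n + k, by omega⟩ : Fin g) := by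
      show k + n = n + k
      omega
    rw [tor_ge hn Z a h3, tor_ge hn Z b h3] at h1
    rw [show n + (k + 1) = n + k + 1 by omega]
    rw [h1, h2, ih (by omega), mul_assoc]

theorem rot_cases (n : ℕ) (hn : n ≤ g) (i : Fin g) :
    (∃ l : Fin g, (i : ℕ) + n = l) ∨ ∃ l : Fin g, (i : ℕ) + n = l + g := by
  have hi := i.2
  by_cases h : (i : ℕ) + n < g
  · exact Or.inl ⟨⟨i + n, h⟩, rfl⟩
  · refine Or.inr ⟨⟨i + n - g, by omega⟩, ?_⟩
    show (i : ℕ) + n = i + n - g + g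
    omega

theorem tor_cases (n : ℕ) (hn : n ≤ g) (l : Fin g) :
    (∃ i : Fin g, (i : ℕ) + n = l) ∨ ∃ i : Fin g, (i : ℕ) + n = l + g := by
  have hl := l.2
  by_cases h : n ≤ (l : ℕ)
  · refine Or.inl ⟨⟨l - n, by omega⟩, ?_⟩
    show (l : ℕ) - n + n = l
    omega
  · refine Or.inr ⟨⟨g - n + l, by omega⟩, ?_⟩
    show g - n + (l : ℕ) + n = l + g
    omega

end Rot

/-- rotation of the system by `n` handles -/
theorem exists_rot (hs : IsSurf a b c) (n : ℕ) (hn : n ≤ g) :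
    ∃ a' b' : Fin g → π, IsSurf a' b' c ∧
      (∀ i l : Fin g, (i : ℕ) + n = l → a' i = a l ∧ b' i = b l) ∧
      (∀ i l : Fin g, (i : ℕ) + n = l + g →
        a' i = CP c p * a l * (CP c p)⁻¹ ∧ b' i = CP c p * b l * (CP c p)⁻¹) ∧
      (∀ k, n + k ≤ g → HP a' b' k = (HP a b n)⁻¹ * HP a b (n + k)) := by
  have hrel := surf_rel hs
  set Z : π := CP c p with hZ
  have hg : HP a b g = Z⁻¹ := eq_inv_of_mul_eq_one_left hrel
  have hr1 : HP (Rot.rot n hn Z a) (Rot.rot n hn Z b) g * CP c p = 1 := by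
    have h1 := Rot.HP_rot' n hn Z a b n le_rfl
    rw [Nat.sub_add_cancel hn] at h1
    rw [h1, hg, ← hZ]
    group
  have hr2 : HP (Rot.tor n hn Z a) (Rot.tor n hn Z b) g * CP c p = 1 := by
    have h1 := Rot.HP_tor' n hn Z a b (g - n) (by omega)
    have h2 := Rot.HP_tor n hn Z a b n le_rfl
    rw [Nat.sub_add_cancel hn] at h2
    rw [show n + (g - n) = g by omega] at h1
    rw [h1, h2, hg, ← hZ]
    group
  obtain ⟨φ, hφa, hφb, hφc⟩ := surf_lift hs _ _ _ hr1
  obtain ⟨ψ, hψa, hψb, hψc⟩ := surf_lift hs _ _ _ hr2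
  have hφZ : φ Z = Z := by
    rw [hZ, map_CP]
    exact congrArg (fun x => CP x p) (funext hφc)
  have hψZ : ψ Z = Z := by
    rw [hZ, map_CP]
    exact congrArg (fun x => CP x p) (funext hψc)
  have key1 : ∀ x : Fin g → π, (∀ i, φ (x i) = Rot.rot n hn Z x i) →
      (∀ i, ψ (x i) = Rot.tor n hn Z x i) → ∀ i, ψ (φ (x i)) = x i := by
    intro x h1 h2 i
    rw [h1]
    rcases Rot.rot_cases n hn i with ⟨l, hl⟩ | ⟨l, hl⟩
    · rw [Rot.rot_lt hn Z x hl, h2, Rot.tor_ge hn Z x hl]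
    · rw [Rot.rot_ge hn Z x hl, map_mul, map_mul, map_inv, hψZ, h2, Rot.tor_lt hn Z x hl]
      group
  have key2 : ∀ x : Fin g → π, (∀ i, φ (x i) = Rot.rot n hn Z x i) →
      (∀ i, ψ (x i) = Rot.tor n hn Z x i) → ∀ i, φ (ψ (x i)) = x i := by
    intro x h1 h2 l
    rw [h2]
    rcases Rot.tor_cases n hn l with ⟨i, hi⟩ | ⟨i, hi⟩
    · rw [Rot.tor_ge hn Z x hi, h1, Rot.rot_lt hn Z x hi]
    · rw [Rot.tor_lt hn Z x hi, map_mul, map_mul, map_inv, hφZ, h1, Rot.rot_ge hn Z x hi]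
      group
  obtain ⟨Φ, hΦ⟩ := surf_aut hs φ ψ
    ⟨key1 a hφa hψa, key1 b hφb hψb, fun j => by rw [hφc, hψc]⟩
    ⟨key2 a hφa hψa, key2 b hφb hψb, fun j => by rw [hψc, hφc]⟩
  refine ⟨Rot.rot n hn Z a, Rot.rot n hn Z b, ?_, ?_, ?_, ?_⟩
  · have h1 := isSurf_of hs Φ
    have e1 : (fun i => Φ (a i)) = Rot.rot n hn Z a := funext fun i => by rw [hΦ, hφa]
    have e2 : (fun i => Φ (b i)) = Rot.rot n hn Z b := funext fun i => by rw [hΦ, hφb]
    have e3 : (fun j => Φ (c j)) = c := funext fun j => by rw [hΦ, hφc]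
    rw [e1, e2, e3] at h1
    exact h1
  · intro i l h
    exact ⟨Rot.rot_lt hn Z a h, Rot.rot_lt hn Z b h⟩
  · intro i l h
    exact ⟨Rot.rot_ge hn Z a h, Rot.rot_ge hn Z b h⟩
  · intro k hk
    exact Rot.HP_rot n hn Z a b k hk

end Pool.Agent.MP_d14a53_gt_PW
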