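import Mathlib
import Pool.Agent.Lib.MP_d14a53_gt_PW.Prod
import Pool.Agent.Lib.MP_d14a53_gt_PW.Lift
import Pool.Agent.Lib.MP_d14a53_gt_PW.Rot
import Pool.Agent.Lib.MP_d14a53_gt_PW.Prin
import Pool.Agent.Lib.MP_d14a53_gt_PW.A
import Pool.Agent.Lib.MP_d14a53_gt_PW.Coc

/-!
# MP_d14a53_gt (Putman-Wieland), module FB: two separating curves in the core
-/

set_option autoImplicit false

noncomputable section

namespace Pool.Agent.MP_d14a53_gt_PW

open scoped RealInnerProductSpace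

namespace FinW

theorem Rest_anti {π : Type*} [Group π] {g p : ℕ} (a b : Fin g → π) (c : Fin p → π) {n m : ℕ}
    (h : n ≤ m) : Rest a b c m ≤ Rest a b c n := by
  unfold Rest
  apply Subgroup.closure_mono
  rintro x (⟨i, hi, hx⟩ | hx)
  · exact Or.inl ⟨i, h.trans hi, hx⟩
  · exact Or.inr hx

theorem a_mem_Rest {π : Type*} [Group π] {g p : ℕ} (a b : Fin g → π) (c : Fin p → π) {n : ℕ}
    (i : Fin g) (h : n ≤ (i : ℕ)) : a i ∈ Rest a b c n :=
  Subgroup.subset_closure (Or.inl ⟨i, h, Or.inl rfl⟩)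

theorem b_mem_Rest {π : Type*} [Group π] {g p : ℕ} (a b : Fin g → π) (c : Fin p → π) {n : ℕ}
    (i : Fin g) (h : n ≤ (i : ℕ)) : b i ∈ Rest a b c n :=
  Subgroup.subset_closure (Or.inl ⟨i, h, Or.inr rfl⟩)

theorem c_mem_Rest {π : Type*} [Group π] {g p : ℕ} (a b : Fin g → π) (c : Fin p → π) {n : ℕ}
    (j : Fin p) : c j ∈ Rest a b c n :=
  Subgroup.subset_closure (Or.inr ⟨j, rfl⟩)

/-- a function on the cosets fixed by a subgroup which meets every coset of `K` is constant -/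
theorem inv_of_trans {π : Type} [Group π] (K R : Subgroup π) [Fintype (π ⧸ K)]
    (ρ : π →* (EuclideanSpace ℝ (π ⧸ K) ≃ₗᵢ[ℝ] EuclideanSpace ℝ (π ⧸ K)))
    (hρ : ∀ x v q, ρ x v q = v (x⁻¹ • q)) (htr : ∀ x : π, ∃ r ∈ R, r⁻¹ * x ∈ K)
    (v : EuclideanSpace ℝ (π ⧸ K)) (hv : ∀ z ∈ R, ρ z v = v) (x : π) : ρ x v = v := by
  have hc : ∀ y : π, v (y : π ⧸ K) = v ((1 : π) : π ⧸ K) := by
    intro y
    obtain ⟨r, hr, hy⟩ := htr y
    have e1 : (y : π ⧸ K) = (r : π ⧸ K) := (QuotientGroup.eq.2 hy).symm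
    have e2 : ρ r v (r : π ⧸ K) = v (r : π ⧸ K) := by rw [hv r hr]
    rw [hρ] at e2
    have e3 : (r⁻¹ • (r : π ⧸ K) : π ⧸ K) = ((1 : π) : π ⧸ K) := by
      change ((r⁻¹ * r : π) : π ⧸ K) = _
      rw [inv_mul_cancel]
    rw [e3] at e2
    rw [e1, ← e2]
  ext q
  rw [hρ]
  obtain ⟨y, rfl⟩ := QuotientGroup.mk_surjective q
  obtain ⟨z, hz⟩ := QuotientGroup.mk_surjective (x⁻¹ • (y : π ⧸ K))
  rw [← hz, hc z, hc y]

end FinW

variable {π : Type} [Group π] {g p : ℕ} {a b : Fin g → π} {c : Fin p → π}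

theorem thmW (hs : IsSurf a b c) (K : Subgroup π) (hK : K.FiniteIndex) (n k : ℕ) (hn : 1 ≤ n)
    (hk : 1 ≤ k) (hnk : n + k ≤ g) (h1 : HP a b n ∈ K.normalCore)
    (h2 : (HP a b n)⁻¹ * HP a b (n + k) ∈ K.normalCore)
    (htr : ∀ x : π, ∃ r ∈ Rest a b c (n + k), r⁻¹ * x ∈ K) : PW c K := by
  have := hK
  have : Fintype (π ⧸ K) := Fintype.ofFinite _
  apply pw_of_prin c K
  intro ρ F hρ h
  have hinv := FinW.inv_of_trans K (Rest a b c (n + k)) ρ hρ htr
  obtain ⟨v1, -, hv1⟩ := h.A hs n (by omega) hn h1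
    (fun v _ hv x => hinv v (fun z hz => hv z (FinW.Rest_anti a b c (by omega) hz)) x)
  obtain ⟨a', b', hs', hr1, hr2, hr3⟩ := exists_rot hs n (by omega)
  have hsub : Rest a b c (n + k) ≤ Rest a' b' c k := by
    unfold Rest
    rw [Subgroup.closure_le]
    rintro x (⟨l, hl, hx⟩ | ⟨j, rfl⟩)
    · obtain ⟨ea, eb⟩ := hr1 ⟨(l : ℕ) - n, by omega⟩ l (by simp; omega)
      rcases hx with rfl | rfl
      · rw [← ea]
        exact FinW.a_mem_Rest a' b' c _ (by simp; omega)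
      · rw [← eb]
        exact FinW.b_mem_Rest a' b' c _ (by simp; omega)
    · exact FinW.c_mem_Rest a' b' c j
  obtain ⟨v2, -, hv2⟩ := h.A hs' k (by omega) hk (by rw [hr3 k hnk]; exact h2)
    (fun v _ hv x => hinv v (fun z hz => hv z (hsub hz)) x)
  -- the difference is fixed
  have hd : ∀ x, ρ x (v1 - v2) = v1 - v2 := by
    apply hinv
    intro z hz
    have e1 := hv1 z (FinW.Rest_anti a b c (by omega) hz)
    have e2 := hv2 z (hsub hz)
    rw [e1] at e2
    rw [map_sub]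
    have e3 : ρ z v1 = ρ z v2 - v2 + v1 := by rw [← e2]; abel
    rw [e3]
    abel
  refine ⟨v1, ?_⟩
  have hgen : (⊤ : Subgroup π) ≤
      Subgroup.closure ((Rest a b c n : Set π) ∪ (Rest a' b' c k : Set π)) := by
    rw [← surf_closure hs]
    have hl : Rest a' b' c k ≤
        Subgroup.closure ((Rest a b c n : Set π) ∪ (Rest a' b' c k : Set π)) :=
      fun x hx => Subgroup.subset_closure (Or.inr hx)
    have hl1 : Rest a b c n ≤
        Subgroup.closure ((Rest a b c n : Set π) ∪ (Rest a' b' c k : Set π)) :=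
      fun x hx => Subgroup.subset_closure (Or.inl hx)
    conv_lhs => unfold Rest
    rw [Subgroup.closure_le]
    rintro x (⟨l, -, hx⟩ | ⟨j, rfl⟩)
    · by_cases hln : n ≤ (l : ℕ)
      · apply hl1
        rcases hx with rfl | rfl
        · exact FinW.a_mem_Rest a b c l hln
        · exact FinW.b_mem_Rest a b c l hln
      · apply hl
        obtain ⟨ea, eb⟩ := hr2 ⟨(l : ℕ) + g - n, by omega⟩ l (by simp; omega)
        have hC : CP c p ∈ Rest a' b' c k := CP_mem_Rest a' b' c k p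
        rcases hx with rfl | rfl
        · have e : a l = (CP c p)⁻¹ * a' ⟨(l : ℕ) + g - n, by omega⟩ * CP c p := by
            rw [ea]; group
          rw [e]
          exact Subgroup.mul_mem _ (Subgroup.mul_mem _ (Subgroup.inv_mem _ hC)
            (FinW.a_mem_Rest a' b' c _ (by simp; omega))) hC
        · have e : b l = (CP c p)⁻¹ * b' ⟨(l : ℕ) + g - n, by omega⟩ * CP c p := by
            rw [eb]; group
          rw [e]
          exact Subgroup.mul_mem _ (Subgroup.mul_mem _ (Subgroup.inv_mem _ hC)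
            (FinW.b_mem_Rest a' b' c _ (by simp; omega))) hC
    · exact hl (FinW.c_mem_Rest a' b' c j)
  intro x _
  refine h.prin_closure _ v1 ?_ x (hgen (Subgroup.mem_top x))
  rintro y (hy | hy)
  · exact hv1 y hy
  · rw [hv2 y hy]
    have := hd y
    rw [map_sub] at this
    have e3 : ρ y v1 = v1 - v2 + ρ y v2 := by rw [← this]; abel
    rw [e3]
    abel

end Pool.Agent.MP_d14a53_gt_PW
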