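import Mathlib
import Pool.Agent.Lib.MP_d14a53_gt_PW.FinS2

/-!
# MP_d14a53_gt (Putman-Wieland): two separating curves in the core, disjoint or not

`thmW2`: the property of Putman and Wieland for `K` when the normal core of `K` contains two
separating curves, given by two standard generating systems, such that the intersection of the groups
of the two complements acts transitively on `π / K` and these two groups generate `π`.
-/

set_option autoImplicit false

noncomputable section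

namespace Pool.Agent.MP_d14a53_gt_PW

open scoped RealInnerProductSpace

/-- `Good` depends only on the conjugacy classes of the peripheral elements -/
theorem Good.change {π : Type*} [Group π] {p : ℕ} {V : Type*} [NormedAddCommGroup V]
    [InnerProductSpace ℝ V] {c c' : Fin p → π} {N : Subgroup π} {U : Submodule ℝ V}
    {ρ : π →* (V ≃ₗᵢ[ℝ] V)} {F : π → V} (h : Good c N U ρ F)
    (hc : ∀ j, ∃ x : π, c' j = x * c j * x⁻¹) : Good c' N U ρ F where
  normal := h.normal
  fin := h.fin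
  triv := h.triv
  stab := h.stab
  val := h.val
  coc := h.coc
  per j m hm := by
    obtain ⟨x, hx⟩ := hc j
    have h1 : c' j ^ m = x * c j ^ m * x⁻¹ := by rw [hx, conj_pow]
    have h2 : c j ^ m ∈ N := by
      have h3 := h.normal.conj_mem _ hm x⁻¹
      rw [h1] at h3
      have h4 : x⁻¹ * (x * c j ^ m * x⁻¹) * x⁻¹⁻¹ = c j ^ m := by group
      rwa [h4] at h3
    rw [h1, h.conj, h.per j m h2, map_zero, add_zero, ← h1, h.triv _ hm _ (h.val x), sub_self]
  fo ψ hψ hN := by
    refine h.fo ψ ?_ hN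
    intro j
    obtain ⟨x, hx⟩ := hc j
    obtain ⟨y, hy⟩ := hψ j
    refine ⟨(ψ x)⁻¹ * y * x, ?_⟩
    have h1 : c j = x⁻¹ * c' j * x := by rw [hx]; group
    have h2 : ψ (c j) = (ψ x)⁻¹ * ψ (c' j) * ψ x := by
      rw [h1, map_mul, map_mul, map_inv]
    rw [h2, hy, hx]
    group

variable {π : Type} [Group π] {g p : ℕ} {a b a' b' : Fin g → π} {c c' : Fin p → π}

theorem thmW2 (hs : IsSurf a b c) (hs' : IsSurf a' b' c')
    (hc : ∀ j, ∃ x : π, c' j = x * c j * x⁻¹) (K : Subgroup π) (hK : K.FiniteIndex)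
    (n n' : ℕ) (hn : 1 ≤ n) (hng : n ≤ g) (hn' : 1 ≤ n') (hng' : n' ≤ g)
    (h1 : HP a b n ∈ K.normalCore) (h2 : HP a' b' n' ∈ K.normalCore)
    (htr : ∀ x : π, ∃ r, r ∈ Rest a b c n ∧ r ∈ Rest a' b' c' n' ∧ r⁻¹ * x ∈ K)
    (hgen : Rest a b c n ⊔ Rest a' b' c' n' = ⊤) : PW c K := by
  have : Fintype (π ⧸ K) := Subgroup.fintypeQuotientOfFiniteIndex
  refine pw_of_prin c K ?_
  intro ρ F hact h
  have htr1 : ∀ x : π, ∃ r ∈ Rest a b c n, r⁻¹ * x ∈ K := fun x => by
    obtain ⟨r, hr, -, hrx⟩ := htr x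
    exact ⟨r, hr, hrx⟩
  have htr2 : ∀ x : π, ∃ r ∈ Rest a' b' c' n', r⁻¹ * x ∈ K := fun x => by
    obtain ⟨r, -, hr, hrx⟩ := htr x
    exact ⟨r, hr, hrx⟩
  obtain ⟨v, hv, hvR⟩ := h.A hs n hng hn h1
    (fun v _ hv x => hinv_of_trans K (Rest a b c n) htr1 ρ hact v hv x)
  obtain ⟨v', hv', hvR'⟩ := (h.change hc).A hs' n' hng' hn' h2
    (fun v _ hv x => hinv_of_trans K (Rest a' b' c' n') htr2 ρ hact v hv x)
  have hdiff : ∀ x, ρ x (v - v') = v - v' := by
    intro x
    refine hinv_of_trans K (Rest a b c n ⊓ Rest a' b' c' n') ?_ ρ hact (v - v') ?_ x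
    · intro y
      obtain ⟨r, hr, hr', hry⟩ := htr y
      exact ⟨r, ⟨hr, hr'⟩, hry⟩
    · rintro z ⟨hz, hz'⟩
      have e := (hvR z hz).symm.trans (hvR' z hz')
      rw [map_sub]
      have e2 := sub_eq_sub_iff_add_eq_add.1 e
      rw [sub_eq_sub_iff_add_eq_add, e2, add_comm]
  have hsame : ∀ x, ρ x v' - v' = ρ x v - v := by
    intro x
    have e := hdiff x
    rw [map_sub] at e
    have e2 := sub_eq_sub_iff_add_eq_add.1 e
    rw [sub_eq_sub_iff_add_eq_add, add_comm (ρ x v'), ← e2]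
  refine ⟨v, ?_⟩
  have hcl := h.prin_closure ((Rest a b c n : Set π) ∪ (Rest a' b' c' n' : Set π)) v (by
    rintro x (hx | hx)
    · exact hvR x hx
    · rw [hvR' x hx, hsame])
  rwa [← Subgroup.sup_eq_closure, hgen] at hcl

end Pool.Agent.MP_d14a53_gt_PW
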