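import Mathlib
import Pool.Agent.Lib.MP_d14a53_gt_PW.Prod
import Pool.Agent.Lib.MP_d14a53_gt_PW.Lift
import Pool.Agent.Lib.MP_d14a53_gt_PW.Tw
import Pool.Agent.Lib.MP_d14a53_gt_PW.Foot

/-!
# MP_d14a53_gt (Putman-Wieland): killing handles with the Euclidean algorithm

`kill_handles`: if `C 0 = ⊤` and `C (l + 1)` contains the kernel of a homomorphism from `C l` to a
cyclic group (`l < d`), then for some standard generating system (with the same peripheral elements)
all handles with index `< g - d` lie in `C d`.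
-/

set_option autoImplicit false

noncomputable section

namespace Pool.Agent.MP_d14a53_gt_PW

namespace Kill

variable {π : Type*} [Group π] {g p : ℕ} {c : Fin p → π}

/-- `x` lies in `D` and `χ x = k` -/
def Val {n : ℕ} (D : Subgroup π) (χ : D →* Multiplicative (ZMod n)) (x : π) (k : ℤ) : Prop :=
  ∃ h : x ∈ D, χ ⟨x, h⟩ = Multiplicative.ofAdd (k : ZMod n)

section val
variable {n : ℕ} {D : Subgroup π} {χ : D →* Multiplicative (ZMod n)}

theorem Val.mem {x : π} {k : ℤ} (h : Val D χ x k) : x ∈ D := h.1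

theorem Val.mul {x y : π} {k l : ℤ} (hx : Val D χ x k) (hy : Val D χ y l) :
    Val D χ (x * y) (k + l) := by
  obtain ⟨h1, h2⟩ := hx
  obtain ⟨h3, h4⟩ := hy
  refine ⟨mul_mem h1 h3, ?_⟩
  have : (⟨x * y, mul_mem h1 h3⟩ : D) = ⟨x, h1⟩ * ⟨y, h3⟩ := rfl
  rw [this, map_mul, h2, h4, ← ofAdd_add]
  push_cast
  rfl

theorem Val.inv {x : π} {k : ℤ} (hx : Val D χ x k) : Val D χ x⁻¹ (-k) := by
  obtain ⟨h1, h2⟩ := hx
  refine ⟨inv_mem h1, ?_⟩
  have : (⟨x⁻¹, inv_mem h1⟩ : D) = (⟨x, h1⟩ : D)⁻¹ := rfl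
  rw [this, map_inv, h2, ← ofAdd_neg]
  push_cast
  rfl

theorem Val.one : Val D χ 1 0 := by
  refine ⟨one_mem _, ?_⟩
  have : (⟨1, one_mem _⟩ : D) = 1 := rfl
  rw [this, map_one]
  simp

theorem Val.pow {x : π} {k : ℤ} (hx : Val D χ x k) (m : ℕ) : Val D χ (x ^ m) (m * k) := by
  induction m with
  | zero => simpa using Val.one
  | succ m ih =>
    rw [pow_succ]
    have := ih.mul hx
    have e : ((m + 1 : ℕ) : ℤ) * k = m * k + k := by push_cast; ring
    rwa [e]

theorem Val.zpow {x : π} {k : ℤ} (hx : Val D χ x k) (m : ℤ) : Val D χ (x ^ m) (m * k) := by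
  obtain ⟨m, rfl | rfl⟩ := m.eq_nat_or_neg
  · rw [zpow_natCast]
    exact hx.pow m
  · rw [zpow_neg, zpow_natCast]
    have := (hx.pow m).inv
    rwa [neg_mul]

theorem exists_val {x : π} (hx : x ∈ D) : ∃ k : ℤ, Val D χ x k := by
  obtain ⟨k, hk⟩ := ZMod.intCast_surjective (Multiplicative.toAdd (χ ⟨x, hx⟩))
  refine ⟨k, hx, ?_⟩
  rw [hk]
  rfl

theorem Val.conj {x y : π} {k : ℤ} (hx : Val D χ x k) (hy : y ∈ D) :
    Val D χ (y * x * y⁻¹) k := by
  obtain ⟨l, hl⟩ := exists_val (χ := χ) hy
  have := (hl.mul hx).mul hl.inv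
  have e : l + k + -l = k := by ring
  rwa [e] at this

theorem Val.conj' {x y : π} {k : ℤ} (hx : Val D χ x k) (hy : y ∈ D) :
    Val D χ (y⁻¹ * x * y) k := by
  have := hx.conj (inv_mem hy)
  rwa [inv_inv] at this

end val

/-- there is a standard generating system with the given values on the handles `i ≤ k` -/
def Sys (c : Fin p → π) {n : ℕ} (D : Subgroup π) (χ : D →* Multiplicative (ZMod n)) (k : ℕ)
    (α β : Fin g → ℤ) : Prop :=
  ∃ a b : Fin g → π, IsSurf a b c ∧
    ∀ i : Fin g, (i : ℕ) ≤ k → Val D χ (a i) (α i) ∧ Val D χ (b i) (β i)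

section moves
variable {n : ℕ} {D : Subgroup π} {χ : D →* Multiplicative (ZMod n)} {k : ℕ} {α β : Fin g → ℤ}

theorem surf_map {a b : Fin g → π} (hs : IsSurf a b c) (φ : π ≃* π) (hc : ∀ j, φ (c j) = c j) :
    IsSurf (fun i => φ (a i)) (fun i => φ (b i)) c := by
  have h := isSurf_of hs φ
  have e : (fun j => φ (c j)) = c := funext hc
  rwa [e] at h

theorem Sys.twist (h : Sys c D χ k α β) (i : Fin g) (hi : (i : ℕ) ≤ k) (z : ℤ) :
    Sys c D χ k (Function.update α i (α i + z * β i)) β := by
  obtain ⟨a, b, hs, hv⟩ := h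
  obtain ⟨φ, h1, h2, h3, h4⟩ := exists_twist hs i z
  refine ⟨_, _, surf_map hs φ h4, ?_⟩
  intro l hl
  by_cases hli : l = i
  · subst hli
    rw [Function.update_self]
    show Val D χ (φ (a l)) _ ∧ Val D χ (φ (b l)) _
    rw [h1, h2]
    exact ⟨(hv l hl).1.mul ((hv l hl).2.zpow z), (hv l hl).2⟩
  · rw [Function.update_of_ne hli]
    show Val D χ (φ (a l)) _ ∧ Val D χ (φ (b l)) _
    rw [(h3 l hli).1, (h3 l hli).2]
    exact hv l hl

theorem Sys.swap (h : Sys c D χ k α β) (i : Fin g) (hi : (i : ℕ) ≤ k) :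
    Sys c D χ k (Function.update α i (β i)) (Function.update β i (-α i)) := by
  obtain ⟨a, b, hs, hv⟩ := h
  obtain ⟨φ, h1, h2, h3, h4⟩ := exists_swap hs i
  refine ⟨_, _, surf_map hs φ h4, ?_⟩
  intro l hl
  by_cases hli : l = i
  · subst hli
    rw [Function.update_self, Function.update_self]
    show Val D χ (φ (a l)) _ ∧ Val D χ (φ (b l)) _
    rw [h1, h2]
    exact ⟨(hv l hl).2.conj (hv l hl).1.mem, (hv l hl).1.inv⟩
  · rw [Function.update_of_ne hli, Function.update_of_ne hli]
    show Val D χ (φ (a l)) _ ∧ Val D χ (φ (b l)) _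
    rw [(h3 l hli).1, (h3 l hli).2]
    exact hv l hl

theorem HP_mem {a b : Fin g → π} (H : Subgroup π) (m : ℕ)
    (h : ∀ i : Fin g, (i : ℕ) < m → a i ∈ H ∧ b i ∈ H) : HP a b m ∈ H := by
  have h1 : Blk a b m ≤ H := by
    refine (Subgroup.closure_le _).2 ?_
    rintro x ⟨i, hi, rfl | rfl⟩
    · exact (h i hi).1
    · exact (h i hi).2
  exact h1 (HP_mem_Blk a b m)

theorem Sys.foot (h : Sys c D χ k α β) (i m : Fin g) (him : i < m) (hm : (m : ℕ) ≤ k) :
    Sys c D χ k (Function.update α i (α i + α m)) (Function.update β m (β m - β i)) := by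
  obtain ⟨a, b, hs, hv⟩ := h
  have him' : (i : ℕ) < m := him
  have hHP : ∀ l : ℕ, l ≤ (m : ℕ) → HP a b l ∈ D := by
    intro l hl
    exact HP_mem D l (fun j hj => ⟨(hv j (by omega)).1.mem, (hv j (by omega)).2.mem⟩)
  obtain ⟨W, hW⟩ : ∃ W, W = (HP a b ((i : ℕ) + 1))⁻¹ * HP a b m := ⟨_, rfl⟩
  have hWD : W ∈ D := by
    rw [hW]
    exact mul_mem (inv_mem (hHP _ (by omega))) (hHP _ le_rfl)
  obtain ⟨x, hx⟩ : ∃ x, x = W * a m * W⁻¹ := ⟨_, rfl⟩
  have hxv : Val D χ x (α m) := by
    rw [hx]
    exact (hv m hm).1.conj hWD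
  obtain ⟨e, he⟩ : ∃ e, e = W⁻¹ * (x⁻¹ * b i * x) * W := ⟨_, rfl⟩
  have hbx : Val D χ (x⁻¹ * b i * x) (β i) := (hv i (by omega)).2.conj' hxv.mem
  have hev : Val D χ e (β i) := by
    rw [he]
    exact hbx.conj' hWD
  obtain ⟨φ, h1, h2, h3, h4, h5, h6⟩ := exists_foot hs i m him W x e hW hx he
  refine ⟨_, _, surf_map hs φ h6, ?_⟩
  intro l hl
  show Val D χ (φ (a l)) _ ∧ Val D χ (φ (b l)) _
  by_cases hli : l = i
  · subst hli
    rw [Function.update_self, Function.update_of_ne (ne_of_lt him), h1, h2]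
    exact ⟨(hv l hl).1.mul hxv, hbx⟩
  · by_cases hlm : l = m
    · subst hlm
      rw [Function.update_self, Function.update_of_ne hli, h3, h4]
      exact ⟨(hv l hl).1.conj hev.mem, by
        have := (hv l hl).2.mul hev.inv
        rwa [← sub_eq_add_neg] at this⟩
    · rw [Function.update_of_ne hli, Function.update_of_ne hlm, (h5 l hli hlm).1,
        (h5 l hli hlm).2]
      exact hv l hl

/-- Euclid in one handle -/
theorem Sys.zero_b (i : Fin g) (hi : (i : ℕ) ≤ k) : ∀ (m : ℕ) (α β : Fin g → ℤ),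
    (β i).natAbs = m → Sys c D χ k α β →
      ∃ z, Sys c D χ k (Function.update α i z) (Function.update β i 0) := by
  intro m
  induction m using Nat.strong_induction_on with
  | _ m ih =>
  intro α β hm h
  by_cases h0 : β i = 0
  · refine ⟨α i, ?_⟩
    rw [Function.update_eq_self, ← h0, Function.update_eq_self]
    exact h
  · have h1 := (h.twist i hi (-(α i / β i))).swap i hi
    rw [Function.update_self] at h1
    have h2 : α i + -(α i / β i) * β i = α i % β i := by
      have := Int.emod_add_mul_ediv (α i) (β i)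
      linarith [mul_comm (β i) (α i / β i)]
    rw [h2, Function.update_idem] at h1
    have h3 : (-(α i % β i)).natAbs < m := by
      rw [Int.natAbs_neg, ← hm]
      have h4 := Int.emod_nonneg (α i) h0
      have h5 := Int.emod_lt_abs (α i) h0
      zify
      rw [abs_of_nonneg h4]
      exact h5
    obtain ⟨z, hz⟩ := ih _ h3 _ _ (by rw [Function.update_self]) h1
    refine ⟨z, ?_⟩
    rwa [Function.update_idem, Function.update_idem] at hz

/-- all `b`-values can be made zero -/
theorem Sys.all_b (hkg : k < g) (h : Sys c D χ k α β) : ∀ m : ℕ, m ≤ k + 1 →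
    ∃ α' : Fin g → ℤ, Sys c D χ k α' (fun i => if (i : ℕ) < m then 0 else β i) := by
  intro m
  induction m with
  | zero => intro _; exact ⟨α, by simpa using h⟩
  | succ m ih =>
    intro hm
    obtain ⟨α', h'⟩ := ih (by omega)
    obtain ⟨z, hz⟩ := Sys.zero_b (⟨m, by omega⟩ : Fin g) (by show m ≤ k; omega) _ _ _ rfl h'
    have e : Function.update (fun i : Fin g => if (i : ℕ) < m then 0 else β i) ⟨m, by omega⟩ 0 =
        fun i : Fin g => if (i : ℕ) < m + 1 then 0 else β i := by
      funext i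
      by_cases hi : i = ⟨m, by omega⟩
      · subst hi
        rw [Function.update_self, if_pos (by show m < m + 1; omega)]
      · rw [Function.update_of_ne hi]
        have : (i : ℕ) ≠ m := fun h => hi (Fin.ext h)
        by_cases h1 : (i : ℕ) < m
        · rw [if_pos h1, if_pos (by omega)]
        · rw [if_neg h1, if_neg (by omega)]
    rw [e] at hz
    exact ⟨_, hz⟩

/-- systems whose `b`-values are zero -/
def Zs (c : Fin p → π) {n : ℕ} (D : Subgroup π) (χ : D →* Multiplicative (ZMod n)) (k : ℕ)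
    (α : Fin g → ℤ) : Prop := Sys c D χ k α (fun _ => 0)

theorem Zs.neg (h : Zs c D χ k α) (i : Fin g) (hi : (i : ℕ) ≤ k) :
    Zs c D χ k (Function.update α i (-α i)) := by
  have h1 := (Sys.swap h i hi).swap i hi
  rw [Function.update_self, Function.update_self, Function.update_idem, Function.update_idem,
    neg_zero] at h1
  have e : Function.update (fun _ : Fin g => (0 : ℤ)) i 0 = fun _ => 0 := by
    funext l
    by_cases hl : l = i
    · rw [hl, Function.update_self]
    · rw [Function.update_of_ne hl]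
  rw [e] at h1
  exact h1

theorem Zs.add (h : Zs c D χ k α) (i m : Fin g) (him : i < m) (hm : (m : ℕ) ≤ k) :
    Zs c D χ k (Function.update α i (α i + α m)) := by
  have h1 := Sys.foot h i m him hm
  have e : Function.update (fun _ : Fin g => (0 : ℤ)) m (0 - 0) = fun _ => 0 := by
    funext l
    by_cases hl : l = m
    · rw [hl, Function.update_self, sub_zero]
    · rw [Function.update_of_ne hl]
  rw [e] at h1
  exact h1

theorem Zs.add' (h : Zs c D χ k α) (i m : Fin g) (him : i < m) (hm : (m : ℕ) ≤ k) :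
    Zs c D χ k (Function.update (Function.update α i (-α i)) m (α i - α m)) := by
  have him' : (i : ℕ) < m := him
  have hne : m ≠ i := ne_of_gt him
  have hne' : i ≠ m := ne_of_lt him
  have h1 := ((((Sys.swap h i (by omega)).swap m hm).foot i m him hm).swap i (by omega)).swap m hm
  refine cast (congrArg₂ (Sys c D χ k) ?_ ?_) h1
  · funext l
    by_cases hl : l = m
    · subst hl
      simp only [Function.update_self, ne_eq, hne, hne', not_false_eq_true,
        Function.update_of_ne]
      ring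
    · by_cases hl' : l = i
      · subst hl'
        simp only [Function.update_self, ne_eq, hne, hne', not_false_eq_true,
          Function.update_of_ne]
      · simp only [ne_eq, hl, hl', not_false_eq_true, Function.update_of_ne]
  · funext l
    by_cases hl : l = m
    · subst hl
      simp only [Function.update_self, ne_eq, hne, hne', not_false_eq_true,
        Function.update_of_ne, neg_zero]
    · by_cases hl' : l = i
      · subst hl'
        simp only [Function.update_self, ne_eq, hne, hne', not_false_eq_true,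
          Function.update_of_ne, neg_zero, add_zero]
      · simp only [ne_eq, hl, hl', not_false_eq_true, Function.update_of_ne]

/-- the two relevant values -/
def Pr (c : Fin p → π) {n : ℕ} (D : Subgroup π) (χ : D →* Multiplicative (ZMod n)) (k : ℕ)
    (α : Fin g → ℤ) (i m : Fin g) (x y : ℤ) : Prop :=
  Zs c D χ k (Function.update (Function.update α i x) m y)

section pr
variable {i m : Fin g} {x y : ℤ}

theorem Pr.negx (h : Pr c D χ k α i m x y) (him : i < m) (hm : (m : ℕ) ≤ k) :
    Pr c D χ k α i m (-x) y := by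
  have him' : (i : ℕ) < m := him
  have hne : m ≠ i := ne_of_gt him
  have hne' : i ≠ m := ne_of_lt him
  have h1 := Zs.neg h i (by omega)
  refine cast (congrArg (Zs c D χ k) ?_) h1
  funext l
  by_cases hl : l = m
  · subst hl
    simp only [Function.update_self, ne_eq, hne, hne', not_false_eq_true, Function.update_of_ne]
  · by_cases hl' : l = i
    · subst hl'
      simp only [Function.update_self, ne_eq, hne, hne', not_false_eq_true, Function.update_of_ne]
    · simp only [ne_eq, hl, hl', not_false_eq_true, Function.update_of_ne]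

theorem Pr.negy (h : Pr c D χ k α i m x y) (him : i < m) (hm : (m : ℕ) ≤ k) :
    Pr c D χ k α i m x (-y) := by
  have hne : m ≠ i := ne_of_gt him
  have hne' : i ≠ m := ne_of_lt him
  have h1 := Zs.neg h m hm
  refine cast (congrArg (Zs c D χ k) ?_) h1
  funext l
  by_cases hl : l = m
  · subst hl
    simp only [Function.update_self]
  · by_cases hl' : l = i
    · subst hl'
      simp only [Function.update_self, ne_eq, hne, hne', not_false_eq_true, Function.update_of_ne]
    · simp only [ne_eq, hl, hl', not_false_eq_true, Function.update_of_ne]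

theorem Pr.addx (h : Pr c D χ k α i m x y) (him : i < m) (hm : (m : ℕ) ≤ k) :
    Pr c D χ k α i m (x + y) y := by
  have hne : m ≠ i := ne_of_gt him
  have hne' : i ≠ m := ne_of_lt him
  have h1 := Zs.add h i m him hm
  refine cast (congrArg (Zs c D χ k) ?_) h1
  funext l
  by_cases hl : l = m
  · subst hl
    simp only [Function.update_self, ne_eq, hne, hne', not_false_eq_true, Function.update_of_ne]
  · by_cases hl' : l = i
    · subst hl'
      simp only [Function.update_self, ne_eq, hne, hne', not_false_eq_true, Function.update_of_ne]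
    · simp only [ne_eq, hl, hl', not_false_eq_true, Function.update_of_ne]

theorem Pr.suby (h : Pr c D χ k α i m x y) (him : i < m) (hm : (m : ℕ) ≤ k) :
    Pr c D χ k α i m (-x) (x - y) := by
  have hne : m ≠ i := ne_of_gt him
  have hne' : i ≠ m := ne_of_lt him
  have h1 := Zs.add' h i m him hm
  refine cast (congrArg (Zs c D χ k) ?_) h1
  funext l
  by_cases hl : l = m
  · subst hl
    simp only [Function.update_self, ne_eq, hne, hne', not_false_eq_true, Function.update_of_ne]
  · by_cases hl' : l = i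
    · subst hl'
      simp only [Function.update_self, ne_eq, hne, hne', not_false_eq_true, Function.update_of_ne]
    · simp only [ne_eq, hl, hl', not_false_eq_true, Function.update_of_ne]

theorem Pr.addy (h : Pr c D χ k α i m x y) (him : i < m) (hm : (m : ℕ) ≤ k) :
    Pr c D χ k α i m x (y + x) := by
  have h1 := ((h.negy him hm).suby him hm).negx him hm
  have e : x - -y = y + x := by ring
  rwa [neg_neg, e] at h1

theorem Pr.mulx (h : Pr c D χ k α i m x y) (him : i < m) (hm : (m : ℕ) ≤ k) (z : ℤ) :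
    Pr c D χ k α i m (x + z * y) y := by
  have hnat : ∀ (x y : ℤ), Pr c D χ k α i m x y → ∀ z : ℕ, Pr c D χ k α i m (x + z * y) y := by
    intro x y h z
    induction z with
    | zero => simpa using h
    | succ z ih =>
      have := ih.addx him hm
      have e : x + z * y + y = x + ((z + 1 : ℕ) : ℤ) * y := by push_cast; ring
      rwa [e] at this
  obtain ⟨z, rfl | rfl⟩ := z.eq_nat_or_neg
  · exact hnat x y h z
  · have h1 := (hnat x (-y) (h.negy him hm) z).negy him hm
    have e : x + z * -y = x + -z * y := by ring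
    rwa [e, neg_neg] at h1

theorem Pr.muly (h : Pr c D χ k α i m x y) (him : i < m) (hm : (m : ℕ) ≤ k) (z : ℤ) :
    Pr c D χ k α i m x (y + z * x) := by
  have hnat : ∀ (x y : ℤ), Pr c D χ k α i m x y → ∀ z : ℕ, Pr c D χ k α i m x (y + z * x) := by
    intro x y h z
    induction z with
    | zero => simpa using h
    | succ z ih =>
      have := ih.addy him hm
      have e : y + z * x + x = y + ((z + 1 : ℕ) : ℤ) * x := by push_cast; ring
      rwa [e] at this
  obtain ⟨z, rfl | rfl⟩ := z.eq_nat_or_neg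
  · exact hnat x y h z
  · have h1 := (hnat (-x) y (h.negx him hm) z).negx him hm
    have e : y + z * -x = y + -z * x := by ring
    rwa [e, neg_neg] at h1

theorem Pr.zero (him : i < m) (hm : (m : ℕ) ≤ k) : ∀ (s : ℕ) (x y : ℤ), x.natAbs = s →
    Pr c D χ k α i m x y → ∃ y', Pr c D χ k α i m 0 y' := by
  intro s
  induction s using Nat.strong_induction_on with
  | _ s ih =>
  intro x y hs h
  by_cases hx : x = 0
  · rw [hx] at h
    exact ⟨y, h⟩
  have h1 := h.muly him hm (-(y / x))
  have e1 : y + -(y / x) * x = y % x := by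
    have := Int.emod_add_mul_ediv y x
    linarith [mul_comm x (y / x)]
  rw [e1] at h1
  have h2 := Int.emod_nonneg y hx
  have h3 := Int.emod_lt_abs y hx
  obtain ⟨r, hr⟩ : ∃ r, r = y % x := ⟨_, rfl⟩
  rw [← hr] at h1 h2 h3
  by_cases hr0 : r = 0
  · rw [hr0] at h1
    have h4 := (h1.addy him hm).mulx him hm (-1)
    have e2 : x + -1 * (0 + x) = 0 := by ring
    rw [e2] at h4
    exact ⟨_, h4⟩
  · have h4 := h1.mulx him hm (-(x / r))
    have e2 : x + -(x / r) * r = x % r := by
      have := Int.emod_add_mul_ediv x r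
      linarith [mul_comm r (x / r)]
    rw [e2] at h4
    have h5 := Int.emod_nonneg x hr0
    have h6 := Int.emod_lt_abs x hr0
    have h7 : (x % r).natAbs < s := by
      rw [← hs]
      zify
      rw [abs_of_nonneg h5]
      rw [abs_of_nonneg h2] at h6
      linarith
    exact ih _ h7 _ _ rfl h4

end pr

/-- the handles `i < k` can be moved into the kernel -/
theorem Zs.all_a (hkg : k < g) (h : Zs c D χ k α) : ∀ m : ℕ, m ≤ k →
    ∃ α' : Fin g → ℤ, Zs c D χ k α' ∧ ∀ i : Fin g, (i : ℕ) < m → α' i = 0 := by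
  intro m
  induction m with
  | zero => intro _; exact ⟨α, h, fun i hi => absurd hi (by omega)⟩
  | succ m ih =>
    intro hm
    obtain ⟨α', h', h0⟩ := ih (by omega)
    obtain ⟨i, hi⟩ : ∃ i : Fin g, (i : ℕ) = m := ⟨⟨m, by omega⟩, rfl⟩
    obtain ⟨l, hl⟩ : ∃ l : Fin g, (l : ℕ) = k := ⟨⟨k, hkg⟩, rfl⟩
    have hil : i < l := Fin.lt_def.2 (by omega)
    have h1 : Pr c D χ k α' i l (α' i) (α' l) := by
      show Zs c D χ k _
      rwa [Function.update_eq_self, Function.update_eq_self]
    obtain ⟨y, hy⟩ := Pr.zero hil (by omega) _ _ _ rfl h1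
    refine ⟨_, hy, ?_⟩
    intro j hj
    have hjl : j ≠ l := by rintro rfl; omega
    rw [Function.update_of_ne hjl]
    by_cases hji : j = i
    · rw [hji, Function.update_self]
    · rw [Function.update_of_ne hji]
      refine h0 j ?_
      have : (j : ℕ) ≠ m := fun h2 => hji (Fin.ext (by omega))
      omega

end moves

/-- one step -/
theorem step {a b : Fin g → π} (hs : IsSurf a b c) {n : ℕ} (D D' : Subgroup π)
    (χ : D →* Multiplicative (ZMod n)) (hD' : ∀ x : D, χ x = 1 → (x : π) ∈ D') (k : ℕ)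
    (hkg : k < g) (hD : ∀ i : Fin g, (i : ℕ) ≤ k → a i ∈ D ∧ b i ∈ D) :
    ∃ a' b' : Fin g → π, IsSurf a' b' c ∧
      ∀ i : Fin g, (i : ℕ) < k → a' i ∈ D' ∧ b' i ∈ D' := by
  have h1 : ∀ i : Fin g, ∃ u v : ℤ, (i : ℕ) ≤ k → Val D χ (a i) u ∧ Val D χ (b i) v := by
    intro i
    by_cases hi : (i : ℕ) ≤ k
    · obtain ⟨u, hu⟩ := exists_val (χ := χ) (hD i hi).1
      obtain ⟨v, hv⟩ := exists_val (χ := χ) (hD i hi).2
      exact ⟨u, v, fun _ => ⟨hu, hv⟩⟩
    · exact ⟨0, 0, fun h => absurd h hi⟩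
  choose α β hαβ using h1
  have h2 : Sys c D χ k α β := ⟨a, b, hs, hαβ⟩
  obtain ⟨α', h3⟩ := h2.all_b hkg (k + 1) le_rfl
  have h4 : Zs c D χ k α' := by
    obtain ⟨a', b', hs', hv⟩ := h3
    refine ⟨a', b', hs', fun i hi => ?_⟩
    have h5 := hv i hi
    simp only [if_pos (show (i : ℕ) < k + 1 by omega)] at h5
    exact h5
  obtain ⟨α'', ⟨a', b', hs', hv⟩, h0⟩ := Zs.all_a hkg h4 k le_rfl
  refine ⟨a', b', hs', fun i hi => ?_⟩
  obtain ⟨⟨h5, h6⟩, ⟨h7, h8⟩⟩ := hv i hi.le
  rw [h0 i hi] at h6
  refine ⟨hD' ⟨a' i, h5⟩ ?_, hD' ⟨b' i, h7⟩ ?_⟩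
  · rw [h6]; simp
  · rw [h8]; simp

end Kill

theorem kill_handles {π : Type*} [Group π] {g p : ℕ} {a b : Fin g → π} {c : Fin p → π}
    (hs : IsSurf a b c) (d : ℕ) (C : ℕ → Subgroup π) (h0 : C 0 = ⊤)
    (hC : ∀ l < d, ∃ (n : ℕ) (χ : C l →* Multiplicative (ZMod n)),
      ∀ x : C l, χ x = 1 → (x : π) ∈ C (l + 1)) :
    ∀ l ≤ d, l ≤ g → ∃ a' b' : Fin g → π, IsSurf a' b' c ∧
      ∀ i : Fin g, (i : ℕ) < g - l → a' i ∈ C l ∧ b' i ∈ C l := by
  intro l
  induction l with
  | zero =>
    intro _ _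
    refine ⟨a, b, hs, fun i _ => ?_⟩
    rw [h0]
    exact ⟨trivial, trivial⟩
  | succ l ih =>
    intro hl hlg
    obtain ⟨a', b', hs', hab⟩ := ih (by omega) (by omega)
    obtain ⟨n, χ, hχ⟩ := hC l (by omega)
    obtain ⟨a'', b'', hs'', hab''⟩ := Kill.step hs' (C l) (C (l + 1)) χ hχ (g - (l + 1))
      (by omega) (fun i hi => hab i (by omega))
    exact ⟨a'', b'', hs'', hab''⟩

end Pool.Agent.MP_d14a53_gt_PW
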